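import Pool.Agent.EGR.Sum
import Pool.Agent.ALC.Rem

/-!
A square integrable rational function on the curve extends holomorphically over the separable
zeros of its denominator (`ALC.rem` on the discs of `local_sum`; at a separable zero `x1` of the
denominator, `y = Y j x1`, take the value of the extension; the other values are `rat φ x y`).
-/

open Polynomial MeasureTheory Metric ComplexConjugate Filter Topology

namespace EGR

open ALC

variable (F : ℂ[X][X]) (hF : F.Monic) (b : ℂ) (hb : (at_ F b).Separable)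

private lemma exth_diff (Q : ℂ[X][X]) (U : Set ℂ) (Y : ℂ → ℂ) (hY : DifferentiableOn ℂ Y U) :
    DifferentiableOn ℂ (fun x => Q.evalEval x (Y x)) U := by
  have h : (fun x => Q.evalEval x (Y x)) =
      fun x => ∑ i ∈ Finset.range (Q.natDegree + 1), (Q.coeff i).eval x * (Y x) ^ i := by
    funext x
    have h1 : eval (C (Y x)) Q = ∑ i ∈ Finset.range (Q.natDegree + 1), Q.coeff i * C (Y x) ^ i :=
      eval_eq_sum_range _
    unfold evalEval
    rw [h1, eval_finsetSum]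
    refine Finset.sum_congr rfl fun i _ => ?_
    rw [eval_mul, eval_pow, eval_C]
  rw [h]
  refine DifferentiableOn.fun_sum fun i _ => ?_
  exact ((Q.coeff i).differentiable.differentiableOn).mul (hY.pow i)

/-- witness for the value at `(x, y)` -/
private def ExthW (φ : ℂ[X][X] × ℂ[X]) (x y : ℂ) (f : ℂ → ℂ) : Prop :=
  ∃ (r : ℝ) (Y : ℂ → ℂ), 0 < r ∧ IsBranch F (ball x r) Y ∧ Y x = y ∧
    DifferentiableOn ℂ f (ball x r) ∧ ∀ z ∈ ball x r, φ.2.eval z ≠ 0 → f z = rat φ z (Y z)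

private lemma exth_ev (D : ℂ[X]) (hD : D ≠ 0) (x : ℂ) : ∀ᶠ z in 𝓝[≠] x, D.eval z ≠ 0 := by
  have h1 : {z : ℂ | IsRoot D z}.Finite := finite_setOfPred_isRoot hD
  have h2 : ∀ᶠ z in 𝓝[≠] x, z ∉ {z : ℂ | IsRoot D z} := by
    have h3 : ({z : ℂ | IsRoot D z} \ {x}).Finite := h1.subset Set.sdiff_subset
    have h4 : ({z : ℂ | IsRoot D z} \ {x})ᶜ ∈ 𝓝 x :=
      h3.isClosed.isOpen_compl.mem_nhds (by simp)
    rw [eventually_nhdsWithin_iff]
    filter_upwards [h4] with z hz hzx hz2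
    exact hz ⟨hz2, hzx⟩
  filter_upwards [h2] with z hz
  exact hz

include hF in
private lemma exth_unique (φ : ℂ[X][X] × ℂ[X]) (h0 : φ.2 ≠ 0) (x y : ℂ) (f g : ℂ → ℂ)
    (hf : ExthW F φ x y f) (hg : ExthW F φ x y g) : f x = g x := by
  obtain ⟨r, Y, hr, hY, hYx, hfd, hfe⟩ := hf
  obtain ⟨s, Z, hs, hZ, hZx, hgd, hge⟩ := hg
  have hmin : 0 < min r s := lt_min hr hs
  have hY1 : IsBranch F (ball x (min r s)) Y :=
    ⟨isOpen_ball, hY.2.1.mono (ball_subset_ball (min_le_left _ _)),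
      fun z hz => hY.2.2 z (ball_subset_ball (min_le_left _ _) hz)⟩
  have hZ1 : IsBranch F (ball x (min r s)) Z :=
    ⟨isOpen_ball, hZ.2.1.mono (ball_subset_ball (min_le_right _ _)),
      fun z hz => hZ.2.2 z (ball_subset_ball (min_le_right _ _) hz)⟩
  have heq := branch_eq F hF (ball x (min r s)) (convex_ball x _).isPreconnected _ _ hY1 hZ1 x
    (mem_ball_self hmin) (hYx.trans hZx.symm)
  have hfc : ContinuousAt f x :=
    (hfd.differentiableAt (ball_mem_nhds x hr)).continuousAt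
  have hgc : ContinuousAt g x :=
    (hgd.differentiableAt (ball_mem_nhds x hs)).continuousAt
  have hev : f =ᶠ[𝓝[≠] x] g := by
    have h1 : ball x (min r s) ∈ 𝓝[≠] x := mem_nhdsWithin_of_mem_nhds (ball_mem_nhds x hmin)
    filter_upwards [h1, exth_ev φ.2 h0 x] with z hz hD
    rw [hfe z (ball_subset_ball (min_le_left _ _) hz) hD,
      hge z (ball_subset_ball (min_le_right _ _) hz) hD, heq z hz]
  have t1 : Tendsto f (𝓝[≠] x) (𝓝 (f x)) := hfc.tendsto.mono_left nhdsWithin_le_nhds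
  have t2 : Tendsto g (𝓝[≠] x) (𝓝 (g x)) := hgc.tendsto.mono_left nhdsWithin_le_nhds
  exact tendsto_nhds_unique (t1.congr' hev) t2

include hF in
private lemma exth_local (φ : ℂ[X][X] × ℂ[X]) (hφ : IsHol F φ) (x0 : ℂ)
    (h0 : (at_ F x0).Separable) :
    ∃ r : ℝ, 0 < r ∧ ∃ (Y : Fin F.natDegree → ℂ → ℂ) (f : Fin F.natDegree → ℂ → ℂ),
      (∀ j, IsBranch F (ball x0 r) (Y j)) ∧
      (∀ x ∈ ball x0 r, ∀ y, y ∈ fib F x ↔ ∃ j, Y j x = y) ∧
      (∀ j, DifferentiableOn ℂ (f j) (ball x0 r)) ∧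
      ∀ j, ∀ x ∈ ball x0 r, φ.2.eval x ≠ 0 → f j x = rat φ x (Y j x) := by
  obtain ⟨r, hr, Y, hY, hinj, hfib, hsum⟩ := local_sum F hF x0 h0
  have key : ∀ j, ∃ f : ℂ → ℂ, DifferentiableOn ℂ f (ball x0 r) ∧
      ∀ x ∈ ball x0 r, φ.2.eval x ≠ 0 → f x = rat φ x (Y j x) := by
    intro j
    have hn : DifferentiableOn ℂ (fun x => φ.1.evalEval x (Y j x)) (ball x0 r) :=
      exth_diff φ.1 _ _ (hY j).2.1
    have hD : DifferentiableOn ℂ (fun x => φ.2.eval x) (ball x0 r) :=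
      φ.2.differentiable.differentiableOn
    have hne : ∃ x ∈ ball x0 r, φ.2.eval x ≠ 0 := by
      have h1 : ball x0 r ∈ 𝓝[≠] x0 := mem_nhdsWithin_of_mem_nhds (ball_mem_nhds x0 hr)
      obtain ⟨z, hz, hz2⟩ := ((eventually_mem_set.2 h1).and (exth_ev φ.2 hφ.1 x0)).exists
      exact ⟨z, hz, hz2⟩
    have hi : IntegrableOn (fun x => ‖φ.1.evalEval x (Y j x) / φ.2.eval x‖ ^ 2) (ball x0 r) := by
      have h1 : IntegrableOn (fun x : ℂ => ∑ y ∈ fib F x, ‖rat φ x y‖ ^ 2) (ball x0 r) :=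
        hφ.2.integrableOn
      refine Integrable.mono' h1 ?_ ?_
      · have m1 : AEMeasurable (fun x => φ.1.evalEval x (Y j x)) (volume.restrict (ball x0 r)) :=
          hn.continuousOn.aemeasurable measurableSet_ball
        have m2 : AEMeasurable (fun x => φ.2.eval x) (volume.restrict (ball x0 r)) :=
          hD.continuousOn.aemeasurable measurableSet_ball
        exact ((m1.div m2).norm.pow_const 2).aestronglyMeasurable
      · rw [ae_restrict_iff' measurableSet_ball]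
        refine Eventually.of_forall fun x hx => ?_
        rw [Real.norm_of_nonneg (by positivity)]
        have h2 := hsum ℝ (fun x y => ‖rat φ x y‖ ^ 2) x hx
        show _ ≤ ∑ y ∈ fib F x, ‖rat φ x y‖ ^ 2
        rw [h2]
        exact Finset.single_le_sum (f := fun j => ‖rat φ x (Y j x)‖ ^ 2)
          (fun i _ => by positivity) (Finset.mem_univ j)
    obtain ⟨f, hf1, hf2⟩ := rem x0 r _ _ hn hD hne hi
    exact ⟨f, hf1, fun x hx hx2 => hf2 x hx hx2⟩
  choose f hf1 hf2 using key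
  exact ⟨r, hr, Y, f, hY, hfib, hf1, hf2⟩

open Classical in
/-- the extension -/
private noncomputable def exthF (φ : ℂ[X][X] × ℂ[X]) (x y : ℂ) : ℂ :=
  if h : ∃ f : ℂ → ℂ, ExthW F φ x y f then h.choose x else rat φ x y

include hF in
private lemma exthF_eq (φ : ℂ[X][X] × ℂ[X]) (h0 : φ.2 ≠ 0) (x y : ℂ) (f : ℂ → ℂ)
    (hf : ExthW F φ x y f) : exthF F φ x y = f x := by
  have h : ∃ f : ℂ → ℂ, ExthW F φ x y f := ⟨f, hf⟩
  rw [exthF, dif_pos h]
  exact exth_unique F hF φ h0 x y _ _ h.choose_spec hf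

include hF hb

theorem ext_hol (φ : ℂ[X][X] × ℂ[X]) (hφ : IsHol F φ) :
    ∃ φh : ℂ → ℂ → ℂ, (∀ U Y, IsBranch F U Y → DifferentiableOn ℂ (fun x => φh x (Y x)) U) ∧
      ∀ x y, φ.2.eval x ≠ 0 → φh x y = rat φ x y := by
  refine ⟨exthF F φ, ?_, ?_⟩
  · intro U Y hY x0 hx0
    obtain ⟨r, hr, Z, f, hZ, hfib, hf1, hf2⟩ := exth_local F hF φ hφ x0 (hY.2.2 x0 hx0).1
    have hmem : Y x0 ∈ fib F x0 := (mem_fib F hF x0 (Y x0)).2 (hY.2.2 x0 hx0).2
    obtain ⟨j, hj⟩ := (hfib x0 (mem_ball_self hr) (Y x0)).1 hmem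
    obtain ⟨s, hs, hsU⟩ := Metric.isOpen_iff.1 hY.1 x0 hx0
    have hmin : 0 < min r s := lt_min hr hs
    have hY1 : IsBranch F (ball x0 (min r s)) Y :=
      ⟨isOpen_ball, hY.2.1.mono fun z hz => hsU (ball_subset_ball (min_le_right _ _) hz),
        fun z hz => hY.2.2 z (hsU (ball_subset_ball (min_le_right _ _) hz))⟩
    have hZ1 : IsBranch F (ball x0 (min r s)) (Z j) :=
      ⟨isOpen_ball, (hZ j).2.1.mono (ball_subset_ball (min_le_left _ _)),
        fun z hz => (hZ j).2.2 z (ball_subset_ball (min_le_left _ _) hz)⟩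
    have heq := branch_eq F hF (ball x0 (min r s)) (convex_ball x0 _).isPreconnected _ _ hZ1 hY1 x0
      (mem_ball_self hmin) hj
    have hloc : (fun x => exthF F φ x (Y x)) =ᶠ[𝓝 x0] f j := by
      filter_upwards [ball_mem_nhds x0 hmin] with x hx
      obtain ⟨ε, hε, hεb⟩ := Metric.isOpen_iff.1 (isOpen_ball (x := x0) (ε := min r s)) x hx
      refine exthF_eq F hF φ hφ.1 x (Y x) (f j) ⟨ε, Y, hε, ?_, rfl, ?_, ?_⟩
      · exact ⟨isOpen_ball, hY1.2.1.mono hεb, fun z hz => hY1.2.2 z (hεb hz)⟩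
      · exact (hf1 j).mono fun z hz => ball_subset_ball (min_le_left _ _) (hεb hz)
      · intro z hz hD
        rw [hf2 j z (ball_subset_ball (min_le_left _ _) (hεb hz)) hD, heq z (hεb hz)]
    have hd : DifferentiableAt ℂ (f j) x0 := (hf1 j).differentiableAt (ball_mem_nhds x0 hr)
    exact (hd.congr_of_eventuallyEq hloc).differentiableWithinAt
  · intro x y hD
    by_cases h : ∃ f : ℂ → ℂ, ExthW F φ x y f
    · obtain ⟨f, hf⟩ := h
      rw [exthF_eq F hF φ hφ.1 x y f hf]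
      obtain ⟨r, Y, hr, hY, hYx, hfd, hfe⟩ := hf
      rw [hfe x (mem_ball_self hr) hD, hYx]
    · rw [exthF, dif_neg h]

end EGR
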