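import Pool.Agent.EGR.RhoN
import Pool.Agent.EGR.ExtH

/-!
The canonical density of the curve, extended to a continuous function along branches, is bounded by
a weight. (`ext_hol` for every `e k`; `rho_near`, `rho_far`; on compact sets over which all points
are separable the sum over the sheets of the continuous function is continuous, `contOn_sum`. As
weight one may take `H x = ∑ y ∈ fib F x, ρh x y`: `e k` has no poles near `a` off `a`.)
-/

open Polynomial MeasureTheory Metric ComplexConjugate Filter Topology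

namespace EGR

open ALC

variable (F : ℂ[X][X]) (hF : F.Monic) (b : ℂ) (hb : (at_ F b).Separable)

include hF

private lemma rho_card (x : ℂ) : ((fib F x).card : ℝ) ≤ (F.natDegree : ℝ) := by
  have h1 : (fib F x).card ≤ (at_ F x).natDegree := by
    unfold fib
    exact (Multiset.toFinset_card_le _).trans (card_roots' _)
  have h2 : (at_ F x).natDegree = F.natDegree := hF.natDegree_map _
  exact_mod_cast h1.trans_eq h2

private lemma rho_bd {g : ℕ} (φh : Fin g → ℂ → ℂ → ℂ) (C : Fin g → ℝ) (z : ℂ)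
    (t : ℝ) (ht : 0 ≤ t) (h : ∀ k, ∀ y ∈ fib F z, ‖φh k z y‖ ^ 2 ≤ C k * t) :
    ∑ y ∈ fib F z, 1 / (g : ℝ) * ∑ k, ‖φh k z y‖ ^ 2 ≤
      (F.natDegree : ℝ) * (1 / (g : ℝ) * ∑ k, |C k|) * t := by
  have h1 : ∀ y ∈ fib F z, 1 / (g : ℝ) * ∑ k, ‖φh k z y‖ ^ 2 ≤ 1 / (g : ℝ) * ∑ k, |C k| * t := by
    intro y hy
    refine mul_le_mul_of_nonneg_left (Finset.sum_le_sum fun k _ => ?_) (by positivity)
    exact (h k y hy).trans (mul_le_mul_of_nonneg_right (le_abs_self _) ht)
  calc ∑ y ∈ fib F z, 1 / (g : ℝ) * ∑ k, ‖φh k z y‖ ^ 2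
      ≤ ∑ _y ∈ fib F z, 1 / (g : ℝ) * ∑ k, |C k| * t := Finset.sum_le_sum h1
    _ = ((fib F z).card : ℝ) * (1 / (g : ℝ) * ∑ k, |C k| * t) := by
        rw [Finset.sum_const, nsmul_eq_mul]
    _ ≤ (F.natDegree : ℝ) * (1 / (g : ℝ) * ∑ k, |C k| * t) := by
        refine mul_le_mul_of_nonneg_right (rho_card F hF z) ?_
        have : 0 ≤ ∑ k, |C k| * t := Finset.sum_nonneg fun k _ => mul_nonneg (abs_nonneg _) ht
        positivity
    _ = (F.natDegree : ℝ) * (1 / (g : ℝ) * ∑ k, |C k|) * t := by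
        rw [← Finset.sum_mul]; ring

private lemma rho_deg (g : ℕ) (hg : 1 ≤ g) (e : Fin g → ℂ[X][X] × ℂ[X]) (he : IsONB F g e) :
    0 < F.natDegree := by
  rcases Nat.eq_zero_or_pos F.natDegree with h | h
  · exfalso
    have h1 : ∀ x, fib F x = ∅ := by
      intro x
      rw [← Finset.card_eq_zero]
      have := rho_card F hF x
      rw [h] at this
      have h2 : (fib F x).card ≤ 0 := by exact_mod_cast this
      omega
    have h3 := he.2.1 ⟨0, hg⟩ ⟨0, hg⟩
    simp [h1] at h3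
  · exact h

include hb

/-- holomorphic extensions of an orthonormal basis, the density `ρh` and its weight -/
theorem rho_wt (g : ℕ) (hg : 1 ≤ g) (e : Fin g → ℂ[X][X] × ℂ[X]) (he : IsONB F g e) :
    ∃ (φh : Fin g → ℂ → ℂ → ℂ) (H : ℂ → ℝ), IsWt F H ∧
      (∀ k U Y, IsBranch F U Y → DifferentiableOn ℂ (fun x => φh k x (Y x)) U) ∧
      (∀ x, (∀ k, (e k).2.eval x ≠ 0) → ∀ k y, φh k x y = rat (e k) x y) ∧
      (∀ x y, OnX F x y → 1 / (g : ℝ) * ∑ k, ‖φh k x y‖ ^ 2 ≤ H x) ∧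
      ∫ x, ∑ y ∈ fib F x, 1 / (g : ℝ) * ∑ k, ‖φh k x y‖ ^ 2 = 1 := by
  classical
  have hd : (0 : ℝ) < (F.natDegree : ℝ) := by exact_mod_cast rho_deg F hF g hg e he
  have hg0 : (0 : ℝ) < (g : ℝ) := by exact_mod_cast hg
  have : Nonempty (Fin g) := ⟨⟨0, hg⟩⟩
  choose φh hφ1 hφ2 using fun k => ext_hol F hF b hb (e k) (he.1 k)
  have hρ0 : ∀ x y, 0 ≤ 1 / (g : ℝ) * ∑ k, ‖φh k x y‖ ^ 2 := fun x y => by positivity
  have hcont : ∀ U Y, IsBranch F U Y →
      ContinuousOn (fun x => 1 / (g : ℝ) * ∑ k, ‖φh k x (Y x)‖ ^ 2) U := by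
    intro U Y hY
    refine ContinuousOn.mul continuousOn_const (continuousOn_finsetSum _ fun k _ => ?_)
    exact (hφ1 k U Y hY).continuousOn.norm.pow 2
  refine ⟨φh, fun x => ∑ y ∈ fib F x, 1 / (g : ℝ) * ∑ k, ‖φh k x y‖ ^ 2, ?_, hφ1,
    fun x hx k y => hφ2 k x y (hx k), ?_, ?_⟩
  · refine ⟨fun x => Finset.sum_nonneg fun y _ => hρ0 x y, ?_, ?_, ?_, ?_⟩
    · exact meas_sum F hF b hb (fun x y => 1 / (g : ℝ) * ∑ k, ‖φh k x y‖ ^ 2) hcont
    · intro a _
      choose C R hR hCR using fun k => rho_near F hF b hb (e k) (he.1 k) a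
      refine ⟨(F.natDegree : ℝ) * (1 / (g : ℝ) * ∑ k, |C k|), 2 / (F.natDegree : ℝ),
        Finset.univ.inf' Finset.univ_nonempty R, by positivity, ?_, ?_⟩
      · rw [Finset.lt_inf'_iff]
        exact fun k _ => hR k
      · intro x hx hxa
        have hxk : ∀ k, x ∈ ball a (R k) := fun k =>
          ball_subset_ball (Finset.inf'_le R (Finset.mem_univ k)) hx
        refine rho_bd F hF φh C x _ (Real.rpow_nonneg (norm_nonneg _) _) ?_
        intro k y hy
        rw [hφ2 k x y (hCR k x (hxk k) hxa).2.1]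
        exact (hCR k x (hxk k) hxa).2.2 y hy
    · choose C R hR hCR using fun k => rho_far F hF b hb (e k) (he.1 k)
      refine ⟨(F.natDegree : ℝ) * (1 / (g : ℝ) * ∑ k, |C k|), 2 / (F.natDegree : ℝ),
        Finset.univ.sup' Finset.univ_nonempty R, by positivity, ?_, ?_⟩
      · rw [Finset.lt_sup'_iff]
        exact ⟨⟨0, hg⟩, Finset.mem_univ _, hR _⟩
      · intro x hx
        have hxk : ∀ k, R k ≤ ‖x‖ := fun k =>
          (Finset.le_sup' R (Finset.mem_univ k)).trans hx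
        refine rho_bd F hF φh C x _ (Real.rpow_nonneg (norm_nonneg _) _) ?_
        intro k y hy
        rw [hφ2 k x y (hCR k x (hxk k)).2.1]
        exact (hCR k x (hxk k)).2.2 y hy
    · intro K hK hKs
      have h1 := contOn_sum F hF (fun x y => 1 / (g : ℝ) * ∑ k, ‖φh k x y‖ ^ 2) hcont
      obtain ⟨C, hC⟩ := hK.exists_bound_of_continuousOn (h1.mono fun x hx => hKs x hx)
      exact ⟨C, fun x hx => (le_abs_self _).trans (hC x hx)⟩
  · intro x y hxy
    exact Finset.single_le_sum (f := fun y => 1 / (g : ℝ) * ∑ k, ‖φh k x y‖ ^ 2)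
      (fun y _ => hρ0 x y) ((mem_fib F hF x y).2 hxy.2)
  · have h1 : ∀ᵐ x : ℂ, ∀ k, (e k).2.eval x ≠ 0 := by
      rw [ae_all_iff]
      intro k
      have h2 : {x : ℂ | IsRoot (e k).2 x}.Finite := finite_setOfPred_isRoot (he.1 k).1
      have h3 := h2.measure_zero (volume : Measure ℂ)
      rw [ae_iff]
      convert h3 using 2
      ext x
      simp
    have h2 : ∫ x, ∑ y ∈ fib F x, 1 / (g : ℝ) * ∑ k, ‖φh k x y‖ ^ 2 =
        ∫ x, 1 / (g : ℝ) * ∑ k, ∑ y ∈ fib F x, ‖rat (e k) x y‖ ^ 2 := by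
      refine integral_congr_ae ?_
      filter_upwards [h1] with x hx
      rw [← Finset.mul_sum, Finset.sum_comm]
      congr 1
      refine Finset.sum_congr rfl fun k _ => Finset.sum_congr rfl fun y _ => ?_
      rw [hφ2 k x y (hx k)]
    have h3 : ∀ k, ∫ x, ∑ y ∈ fib F x, ‖rat (e k) x y‖ ^ 2 = 1 := by
      intro k
      have h4 := he.2.1 k k
      rw [if_pos rfl] at h4
      have h5 : (fun x : ℂ => ∑ y ∈ fib F x, rat (e k) x y * conj (rat (e k) x y)) =
          fun x => ((∑ y ∈ fib F x, ‖rat (e k) x y‖ ^ 2 : ℝ) : ℂ) := by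
        funext x
        rw [Complex.ofReal_sum]
        refine Finset.sum_congr rfl fun y _ => ?_
        rw [Complex.mul_conj, Complex.normSq_eq_norm_sq]
      rw [h5] at h4
      have h6 : ∫ x : ℂ, ((∑ y ∈ fib F x, ‖rat (e k) x y‖ ^ 2 : ℝ) : ℂ) =
          ((∫ x : ℂ, ∑ y ∈ fib F x, ‖rat (e k) x y‖ ^ 2 : ℝ) : ℂ) := integral_complex_ofReal
      rw [h6] at h4
      exact_mod_cast h4
    rw [h2, integral_const_mul, integral_finsetSum _ fun k _ => (he.1 k).2]
    simp only [h3]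
    rw [Finset.sum_const, Finset.card_univ, Fintype.card_fin, nsmul_eq_mul]
    field_simp

end EGR
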