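import Pool.Agent.EGR.Sum
import Pool.Agent.ALC.Pot

/-!
The pole function: the radial potential `V` of `ALC.pot` transplanted to the sheet of `P = (b, y0)`.

`IsPole F b y0 W T` for `W x y = V (x - b)` if `x ∈ ball b r` and `y = Y0 x` (`Y0` the branch through
`P` on `ball b r`, from `local_sum`/`ALC.sheets`), `W x y = 0` otherwise; `T` in the same way; radii
`r1 < r2 < r`. Along a branch `(U, Y)`: on `U ∩ ball b r` the set where `Y = Y0` is open and closed;
for `|x - b| ≥ r2` both functions vanish. `near`: `V s = log|s| - L` and `T s = 0` for `|s|` small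
(`T` has support in `r1 ≤ |s|`). `bound`: over `ball b r` the points of the curve not on the sheet
`Y0` have `|x - b| + |y - y0| ≥ δ > 0`, those on the sheet satisfy
`|x - b| ≤ |x - b| + |y - y0| ≤ C |x - b|`; outside `ball b r1` everything is bounded.
-/

open Polynomial MeasureTheory Metric ComplexConjugate Filter Topology

namespace EGR

open ALC

structure IsPole (F : ℂ[X][X]) (b y0 : ℂ) (W T : ℂ → ℂ → ℝ) : Prop where
  smooth : ∀ U Y, IsBranch F U Y → (∀ x ∈ U, (x, Y x) ≠ (b, y0)) →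
    ContDiffOn ℝ 2 (fun x => W x (Y x)) U ∧
      ∀ x ∈ U, Laplacian.laplacian (fun x => W x (Y x)) x = -(2 * Real.pi * T x (Y x))
  cont : ∀ U Y, IsBranch F U Y → ContinuousOn (fun x => T x (Y x)) U
  nonneg : ∀ x y, 0 ≤ T x y
  supp : ∃ K : Set ℂ, IsCompact K ∧ (∀ x ∈ K, (at_ F x).Separable) ∧
    ∀ x y, x ∉ K → W x y = 0 ∧ T x y = 0
  bddT : ∃ M : ℝ, ∀ x y, T x y ≤ M
  mass : ∫ x, ∑ y ∈ fib F x, T x y = 1
  near : ∃ L δ : ℝ, 0 < δ ∧ ∀ U Y, IsBranch F U Y → b ∈ U → Y b = y0 → ∀ᶠ x in 𝓝 b,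
    T x (Y x) = 0 ∧ (x ≠ b → W x (Y x) = Real.log ‖x - b‖ - L)
  bound : ∃ M : ℝ, ∀ x y, OnX F x y → (x, y) ≠ (b, y0) →
    |W x y - Real.log (min 1 (‖x - b‖ + ‖y - y0‖))| ≤ M
  logb : ∃ M : ℝ, ∀ x y, OnX F x y → x ≠ b → |W x y| ≤ M * (1 + |Real.log ‖x - b‖|)

/-- a function transplanted to the sheet `Y0`, along another branch -/
private lemma VP_alt (F : ℂ[X][X]) (hF : F.Monic) {b : ℂ} {r r2 : ℝ} (hr2 : r2 < r)
    {Y : Fin F.natDegree → ℂ → ℂ} (hY : ∀ j, IsBranch F (ball b r) (Y j))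
    (hinj : ∀ x ∈ ball b r, Function.Injective (fun j => Y j x))
    (hfib : ∀ x ∈ ball b r, ∀ y, y ∈ fib F x ↔ ∃ j, Y j x = y) (j0 : Fin F.natDegree)
    {U : Set ℂ} {Z : ℂ → ℂ} (hZ : IsBranch F U Z) {x : ℂ} (hx : x ∈ U) :
    (∀ᶠ x' in 𝓝 x, x' ∈ ball b r ∧ Z x' = Y j0 x') ∨
      ∀ᶠ x' in 𝓝 x, ∀ χ : ℂ → ℝ, (∀ z, r2 < ‖z - b‖ → χ z = 0) →
        ext b r (Y j0) χ x' (Z x') = 0 := by
  by_cases hxb : x ∈ ball b r
  · have hop : IsOpen (U ∩ ball b r) := hZ.1.inter isOpen_ball
    obtain ⟨s, hs, hsU⟩ := Metric.isOpen_iff.1 hop x ⟨hx, hxb⟩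
    have hZs : IsBranch F (ball x s) Z := ⟨isOpen_ball, hZ.2.1.mono fun z hz => (hsU hz).1,
      fun z hz => hZ.2.2 z (hsU hz).1⟩
    have hYs : ∀ j, IsBranch F (ball x s) (Y j) := fun j => ⟨isOpen_ball,
      (hY j).2.1.mono fun z hz => (hsU hz).2, fun z hz => (hY j).2.2 z (hsU hz).2⟩
    have h1 : Z x ∈ fib F x := (mem_fib F hF x (Z x)).2 (hZ.2.2 x hx).2
    obtain ⟨j, hj⟩ := (hfib x hxb (Z x)).1 h1
    have h2 := branch_eq F hF (ball x s) (convex_ball x s).isPreconnected _ _ hZs (hYs j) x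
      (mem_ball_self hs) hj.symm
    by_cases hjj : j = j0
    · left
      filter_upwards [ball_mem_nhds x hs] with x' hx'
      exact ⟨(hsU hx').2, by rw [h2 x' hx', hjj]⟩
    · right
      filter_upwards [ball_mem_nhds x hs] with x' hx' χ _
      unfold ext
      rw [if_neg]
      rintro ⟨h3, h4⟩
      rw [h2 x' hx'] at h4
      exact hjj (hinj x' h3 h4)
  · right
    have h1 : r2 < ‖x - b‖ := by
      rw [mem_ball_iff_norm, not_lt] at hxb
      linarith
    have hc : Continuous fun x' : ℂ => ‖x' - b‖ := by fun_prop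
    have h2 : ∀ᶠ x' in 𝓝 x, r2 < ‖x' - b‖ := (isOpen_lt continuous_const hc).mem_nhds h1
    filter_upwards [h2] with x' hx' χ hχ
    unfold ext
    split_ifs with h
    · exact hχ x' hx'
    · rfl

private lemma VP_ext_on {b : ℂ} {r : ℝ} {Y0 : ℂ → ℂ} (χ : ℂ → ℝ) {x y : ℂ} (h : x ∈ ball b r)
    (hy : y = Y0 x) : ext b r Y0 χ x y = χ x := by
  unfold ext
  rw [if_pos ⟨h, hy⟩]

private lemma VP_ext_off {b : ℂ} {r : ℝ} {Y0 : ℂ → ℂ} (χ : ℂ → ℝ) {x y : ℂ}
    (hy : y ≠ Y0 x) : ext b r Y0 χ x y = 0 := by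
  unfold ext
  rw [if_neg fun h => hy h.2]

private lemma VP_ext_cases {b : ℂ} {r : ℝ} {Y0 : ℂ → ℂ} (χ : ℂ → ℝ) (x y : ℂ) :
    ext b r Y0 χ x y = χ x ∨ ext b r Y0 χ x y = 0 := by
  unfold ext
  split_ifs
  · exact Or.inl rfl
  · exact Or.inr rfl

private theorem VP_lap (g : ℂ → ℝ) (b x : ℂ) :
    Laplacian.laplacian (fun x => g (x - b)) x = Laplacian.laplacian g (x - b) := by
  rw [InnerProductSpace.laplacian_eq_iteratedFDeriv_complexPlane,
    InnerProductSpace.laplacian_eq_iteratedFDeriv_complexPlane, iteratedFDeriv_comp_sub']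

private theorem VP_Vsub {r1 r2 : ℝ} {V T : ℂ → ℝ} {L : ℝ} (hP : IsPot r1 r2 V T L) (b x : ℂ)
    (hx : x ≠ b) : ContDiffAt ℝ 2 (fun x => V (x - b)) x := by
  have h1 : ContDiffAt ℝ 2 V (x - b) :=
    hP.smooth.contDiffAt (isOpen_compl_singleton.mem_nhds (sub_ne_zero.2 hx))
  exact h1.comp x (contDiffAt_id.sub contDiffAt_const)

private theorem VP_lapV {r1 r2 : ℝ} {V T : ℂ → ℝ} {L : ℝ} (hP : IsPot r1 r2 V T L) (b x : ℂ)
    (hx : x ≠ b) : Laplacian.laplacian (fun x => V (x - b)) x = -(2 * Real.pi * T (x - b)) := by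
  rw [VP_lap]
  exact hP.lap _ (sub_ne_zero.2 hx)

/-- Lipschitz bound for the branch near its centre -/
private lemma VP_lip {b : ℂ} {r r1 : ℝ} (h1 : r1 < r) {Y0 : ℂ → ℂ}
    (hY : DifferentiableOn ℂ Y0 (ball b r)) :
    ∃ C : ℝ, 0 ≤ C ∧ ∀ x, ‖x - b‖ ≤ r1 → ‖Y0 x - Y0 b‖ ≤ C * ‖x - b‖ := by
  have hsub : closedBall b r1 ⊆ ball b r := closedBall_subset_ball h1
  have hc : ContinuousOn (fun z => ‖deriv Y0 z‖) (closedBall b r1) :=
    ((hY.deriv isOpen_ball).continuousOn.mono hsub).norm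
  obtain ⟨C, hC⟩ := (isCompact_closedBall b r1).bddAbove_image hc
  refine ⟨max C 0, le_max_right _ _, fun x hx => ?_⟩
  have hr1 : 0 ≤ r1 := (norm_nonneg _).trans hx
  have h2 := (convex_closedBall b r1).norm_image_sub_le_of_norm_deriv_le (𝕜 := ℂ) (f := Y0)
    (C := max C 0) (x := b) (y := x)
    (fun z hz => hY.differentiableAt (isOpen_ball.mem_nhds (hsub hz)))
    (fun z hz => le_max_of_le_left (hC (Set.mem_image_of_mem _ hz)))
    (mem_closedBall_self hr1) (mem_closedBall_iff_norm.2 hx)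
  exact h2

/-- the other sheets stay away from `P` -/
private lemma VP_away {b : ℂ} {r r1 : ℝ} (h1 : r1 < r) (h0 : 0 < r1) {d : ℕ}
    {Y : Fin d → ℂ → ℂ} (hY : ∀ j, ContinuousOn (Y j) (ball b r))
    (hinj : Function.Injective (fun j => Y j b)) (j0 : Fin d) :
    ∃ δ : ℝ, 0 < δ ∧ ∀ j, j ≠ j0 → ∀ x, ‖x - b‖ ≤ r1 → δ ≤ ‖x - b‖ + ‖Y j x - Y j0 b‖ := by
  have hsub : closedBall b r1 ⊆ ball b r := closedBall_subset_ball h1
  have hj : ∀ j, ∃ δ : ℝ, 0 < δ ∧ (j ≠ j0 → ∀ x, ‖x - b‖ ≤ r1 →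
      δ ≤ ‖x - b‖ + ‖Y j x - Y j0 b‖) := by
    intro j
    by_cases hjj : j = j0
    · exact ⟨1, one_pos, fun h => absurd hjj h⟩
    · have hc : ContinuousOn (fun x => ‖x - b‖ + ‖Y j x - Y j0 b‖) (closedBall b r1) := by
        refine ContinuousOn.add ?_ ?_
        · exact (continuous_id.sub continuous_const).norm.continuousOn
        · exact (((hY j).mono hsub).sub continuousOn_const).norm
      obtain ⟨x0, hx0, hmin⟩ := (isCompact_closedBall b r1).exists_isMinOn
        ⟨b, mem_closedBall_self h0.le⟩ hc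
      refine ⟨‖x0 - b‖ + ‖Y j x0 - Y j0 b‖, ?_, fun _ x hx => ?_⟩
      · by_cases hxb : x0 = b
        · subst hxb
          have h2 : Y j x0 ≠ Y j0 x0 := fun h => hjj (hinj h)
          have h3 : 0 < ‖Y j x0 - Y j0 x0‖ := norm_pos_iff.2 (sub_ne_zero.2 h2)
          have h4 := norm_nonneg (x0 - x0)
          linarith
        · have h3 : 0 < ‖x0 - b‖ := norm_pos_iff.2 (sub_ne_zero.2 hxb)
          have h4 := norm_nonneg (Y j x0 - Y j0 b)
          linarith
      · exact hmin (mem_closedBall_iff_norm.2 hx)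
  choose δ hδ0 hδ using hj
  have hne : (Finset.univ : Finset (Fin d)).Nonempty := ⟨j0, Finset.mem_univ _⟩
  refine ⟨Finset.univ.inf' hne δ, (Finset.lt_inf'_iff hne).2 fun j _ => hδ0 j, ?_⟩
  intro j hjj x hx
  exact (Finset.inf'_le δ (Finset.mem_univ j)).trans (hδ j hjj x hx)

private lemma VP_logmin {q c : ℝ} (hc : 0 < c) (h : c ≤ q) :
    |Real.log (min 1 q)| ≤ |Real.log (min 1 c)| := by
  have h1 : min 1 c ≤ min 1 q := min_le_min_left 1 h
  have h2 : 0 < min 1 c := lt_min one_pos hc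
  have h3 := Real.log_le_log h2 h1
  have h4 : Real.log (min 1 q) ≤ 0 := Real.log_nonpos (h2.le.trans h1) (min_le_left _ _)
  have h5 : Real.log (min 1 c) ≤ 0 := Real.log_nonpos h2.le (min_le_left _ _)
  rw [abs_of_nonpos h4, abs_of_nonpos h5]
  linarith

theorem exists_pole (F : ℂ[X][X]) (hF : F.Monic) (b y0 : ℂ) (hb : (at_ F b).Separable)
    (h0 : (at_ F b).eval y0 = 0) : ∃ W T : ℂ → ℂ → ℝ, IsPole F b y0 W T := by
  classical
  obtain ⟨r, hr, Y, hY, hinj, hfib, hsum⟩ := local_sum F hF b hb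
  have hbb : b ∈ ball b r := mem_ball_self hr
  obtain ⟨j0, hj0⟩ := (hfib b hbb y0).1 ((mem_fib F hF b y0).2 h0)
  -- radii
  set r2 : ℝ := min r 1 / 2 with hr2def
  set r1 : ℝ := r2 / 2 with hr1def
  have hmin : 0 < min r 1 := lt_min hr one_pos
  have hr2 : 0 < r2 := by positivity
  have hr1 : 0 < r1 := by positivity
  have h12 : r1 < r2 := by rw [hr1def]; linarith
  have h2r : r2 < r := by
    have := min_le_left r 1
    rw [hr2def]
    linarith
  have h21 : r2 < 1 := by
    have := min_le_right r 1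
    rw [hr2def]
    linarith
  obtain ⟨V, T, L, hP⟩ := pot r1 r2 hr1 h12
  have hVz : ∀ z, r2 < ‖z - b‖ → V (z - b) = 0 := fun z hz => hP.zero _ hz.le
  have hTz : ∀ z, r2 < ‖z - b‖ → T (z - b) = 0 := by
    intro z hz
    by_contra h
    exact absurd (hP.supp _ h).2 (not_le.2 hz)
  have hYc : ∀ j, ContinuousOn (Y j) (ball b r) := fun j => (hY j).2.1.continuousOn
  refine ⟨ext b r (Y j0) (fun x => V (x - b)), ext b r (Y j0) (fun x => T (x - b)), ?_⟩
  have hcases : ∀ x y, OnX F x y → x ∈ ball b r → ∃ j, Y j x = y := fun x y hxy hx =>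
    (hfib x hx y).1 ((mem_fib F hF x y).2 hxy.2)
  refine ⟨?_, ?_, ?_, ?_, ?_, ?_, ?_, ?_, ?_⟩
  · -- smooth
    intro U Z hZ hne
    have hkey : ∀ x ∈ U, ContDiffAt ℝ 2 (fun x => ext b r (Y j0) (fun x => V (x - b)) x (Z x)) x ∧
        Laplacian.laplacian (fun x => ext b r (Y j0) (fun x => V (x - b)) x (Z x)) x =
          -(2 * Real.pi * ext b r (Y j0) (fun x => T (x - b)) x (Z x)) := by
      intro x hx
      rcases VP_alt F hF h2r hY hinj hfib j0 hZ hx with h | h
      · have hxb : x ≠ b := by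
          intro hxb
          subst hxb
          have h3 := h.self_of_nhds
          exact hne x hx (Prod.ext rfl (by simpa [hj0] using h3.2))
        have h3 : (fun x => ext b r (Y j0) (fun x => V (x - b)) x (Z x)) =ᶠ[𝓝 x]
            fun x => V (x - b) := by
          filter_upwards [h] with x' hx'
          exact VP_ext_on _ hx'.1 hx'.2
        have h4 := h.self_of_nhds
        refine ⟨(VP_Vsub hP b x hxb).congr_of_eventuallyEq h3, ?_⟩
        rw [(InnerProductSpace.laplacian_congr_nhds h3).self_of_nhds, VP_lapV hP b x hxb,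
          VP_ext_on _ h4.1 h4.2]
      · have h3 : (fun x => ext b r (Y j0) (fun x => V (x - b)) x (Z x)) =ᶠ[𝓝 x]
            fun _ => (0 : ℝ) := by
          filter_upwards [h] with x' hx'
          exact hx' _ hVz
        have h4 := h.self_of_nhds (fun x => T (x - b)) hTz
        refine ⟨contDiffAt_const.congr_of_eventuallyEq h3, ?_⟩
        rw [(InnerProductSpace.laplacian_congr_nhds h3).self_of_nhds, h4]
        simp
    exact ⟨fun x hx => (hkey x hx).1.contDiffWithinAt, fun x hx => (hkey x hx).2⟩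
  · -- cont
    intro U Z hZ x hx
    apply ContinuousAt.continuousWithinAt
    rcases VP_alt F hF h2r hY hinj hfib j0 hZ hx with h | h
    · have h3 : (fun x => ext b r (Y j0) (fun x => T (x - b)) x (Z x)) =ᶠ[𝓝 x]
          fun x => T (x - b) := by
        filter_upwards [h] with x' hx'
        exact VP_ext_on _ hx'.1 hx'.2
      exact (hP.cont.comp (continuous_id.sub continuous_const)).continuousAt.congr h3.symm
    · have h3 : (fun x => ext b r (Y j0) (fun x => T (x - b)) x (Z x)) =ᶠ[𝓝 x]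
          fun _ => (0 : ℝ) := by
        filter_upwards [h] with x' hx'
        exact hx' _ hTz
      exact continuousAt_const.congr h3.symm
  · -- nonneg
    intro x y
    rcases VP_ext_cases (b := b) (r := r) (Y0 := Y j0) (fun x => T (x - b)) x y with h | h
    · rw [h]
      exact hP.nonneg _
    · rw [h]
  · -- supp
    refine ⟨closedBall b r2, isCompact_closedBall b r2, fun x hx =>
      ((hY j0).2.2 x (closedBall_subset_ball h2r hx)).1, fun x y hx => ?_⟩
    have h1 : r2 < ‖x - b‖ := by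
      rw [mem_closedBall_iff_norm, not_le] at hx
      exact hx
    constructor
    · rcases VP_ext_cases (b := b) (r := r) (Y0 := Y j0) (fun x => V (x - b)) x y with h | h
      · rw [h]
        exact hVz x h1
      · exact h
    · rcases VP_ext_cases (b := b) (r := r) (Y0 := Y j0) (fun x => T (x - b)) x y with h | h
      · rw [h]
        exact hTz x h1
      · exact h
  · -- bddT
    obtain ⟨M, hM⟩ := (isCompact_closedBall (0 : ℂ) r2).bddAbove_image hP.cont.continuousOn
    have hT : ∀ s, T s ≤ max M 0 := by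
      intro s
      by_cases hs : s ∈ closedBall (0 : ℂ) r2
      · exact le_max_of_le_left (hM (Set.mem_image_of_mem _ hs))
      · have h1 : T s = 0 := by
          by_contra h
          exact hs (mem_closedBall_zero_iff.2 (hP.supp s h).2)
        rw [h1]
        exact le_max_right _ _
    refine ⟨max M 0, fun x y => ?_⟩
    rcases VP_ext_cases (b := b) (r := r) (Y0 := Y j0) (fun x => T (x - b)) x y with h | h
    · rw [h]
      exact hT _
    · rw [h]
      exact le_max_right _ _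
  · -- mass
    have h1 : (fun x => ∑ y ∈ fib F x, ext b r (Y j0) (fun x => T (x - b)) x y) =
        fun x => T (x - b) := by
      funext x
      by_cases hx : x ∈ ball b r
      · rw [hsum ℝ _ x hx, Finset.sum_eq_single j0]
        · exact VP_ext_on _ hx rfl
        · intro j _ hj
          exact VP_ext_off _ fun h => hj (hinj x hx h)
        · exact fun h => absurd (Finset.mem_univ _) h
      · have h2 : T (x - b) = 0 := by
          apply hTz
          rw [mem_ball_iff_norm, not_lt] at hx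
          linarith
        rw [h2]
        refine Finset.sum_eq_zero fun y _ => ?_
        unfold ext
        rw [if_neg fun h => hx h.1]
    rw [h1, integral_sub_right_eq_self (fun x => T x) b]
    exact hP.mass
  · -- near
    refine ⟨L, 1, one_pos, fun U Z hZ hbU hZb => ?_⟩
    have h1 : ∀ᶠ x' in 𝓝 b, x' ∈ ball b r ∧ Z x' = Y j0 x' := by
      have hop : IsOpen (U ∩ ball b r) := hZ.1.inter isOpen_ball
      obtain ⟨s, hs, hsU⟩ := Metric.isOpen_iff.1 hop b ⟨hbU, hbb⟩
      have hZs : IsBranch F (ball b s) Z := ⟨isOpen_ball, hZ.2.1.mono fun z hz => (hsU hz).1,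
        fun z hz => hZ.2.2 z (hsU hz).1⟩
      have hYs : IsBranch F (ball b s) (Y j0) := ⟨isOpen_ball,
        (hY j0).2.1.mono fun z hz => (hsU hz).2, fun z hz => (hY j0).2.2 z (hsU hz).2⟩
      have h2 := branch_eq F hF (ball b s) (convex_ball b s).isPreconnected _ _ hZs hYs b
        (mem_ball_self hs) (by rw [hZb, hj0])
      filter_upwards [ball_mem_nhds b hs] with x' hx'
      exact ⟨(hsU hx').2, h2 x' hx'⟩
    filter_upwards [h1, ball_mem_nhds b hr1] with x hx hx1
    rw [mem_ball_iff_norm] at hx1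
    rw [VP_ext_on _ hx.1 hx.2, VP_ext_on _ hx.1 hx.2]
    refine ⟨?_, fun hxb => hP.near _ (sub_ne_zero.2 hxb) hx1.le⟩
    by_contra h
    exact absurd (hP.supp _ h).1 (not_le.2 hx1)
  · -- bound
    obtain ⟨C, hC0, hC⟩ := VP_lip (r1 := r1) (h12.trans h2r) (hY j0).2.1
    obtain ⟨δ, hδ0, hδ⟩ := VP_away (h12.trans h2r) hr1 hYc (hinj b hbb) j0
    have hVl : ∀ s : ℂ, r1 ≤ ‖s‖ → |V s| ≤ |Real.log (min 1 (r1 / r2))| := by
      intro s hs
      have hs0 : s ≠ 0 := norm_pos_iff.1 (hr1.trans_le hs)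
      have h3 : r1 / r2 ≤ ‖s‖ / r2 := by gcongr
      have h4 := VP_logmin (div_pos hr1 hr2) h3
      refine le_trans ?_ h4
      have h5 := hP.lower s hs0
      have h6 : Real.log (min 1 (‖s‖ / r2)) ≤ 0 :=
        Real.log_nonpos (le_min zero_le_one (by positivity)) (min_le_left _ _)
      rw [abs_of_nonpos (hP.nonpos s), abs_of_nonpos h6]
      linarith
    refine ⟨|Real.log (min 1 (r1 / r2))| + |Real.log (min 1 r1)| + |L| + Real.log (1 + C) +
      |Real.log (min 1 δ)|, fun x y hxy hne => ?_⟩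
    have e1 := abs_nonneg (Real.log (min 1 (r1 / r2)))
    have e2 := abs_nonneg (Real.log (min 1 r1))
    have e3 := abs_nonneg L
    have e4 : 0 ≤ Real.log (1 + C) := Real.log_nonneg (by linarith)
    have e5 := abs_nonneg (Real.log (min 1 δ))
    by_cases hx1 : r1 ≤ ‖x - b‖
    · have h3 : |ext b r (Y j0) (fun x => V (x - b)) x y| ≤ |Real.log (min 1 (r1 / r2))| := by
        rcases VP_ext_cases (b := b) (r := r) (Y0 := Y j0) (fun x => V (x - b)) x y with h | h
        · rw [h]
          exact hVl _ hx1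
        · rw [h, abs_zero]
          exact e1
      have h4 : |Real.log (min 1 (‖x - b‖ + ‖y - y0‖))| ≤ |Real.log (min 1 r1)| :=
        VP_logmin hr1 (by linarith [norm_nonneg (y - y0)])
      have h5 := abs_sub (ext b r (Y j0) (fun x => V (x - b)) x y)
        (Real.log (min 1 (‖x - b‖ + ‖y - y0‖)))
      linarith
    · push Not at hx1
      have hxr : x ∈ ball b r := mem_ball_iff_norm.2 (by linarith)
      obtain ⟨j, hj⟩ := hcases x y hxy hxr
      by_cases hjj : j = j0
      · subst hjj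
        have hxb : x ≠ b := by
          intro h
          subst h
          exact hne (Prod.ext rfl (by rw [← hj, hj0]))
        have hpos : 0 < ‖x - b‖ := norm_pos_iff.2 (sub_ne_zero.2 hxb)
        rw [VP_ext_on _ hxr hj.symm, hP.near _ (sub_ne_zero.2 hxb) hx1.le]
        set q := ‖x - b‖ + ‖y - y0‖ with hq
        have hq1 : ‖x - b‖ ≤ q := by linarith [norm_nonneg (y - y0)]
        have hq2 : q ≤ (1 + C) * ‖x - b‖ := by
          have h3 := hC x hx1.le
          rw [hj, hj0] at h3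
          rw [hq]
          linarith
        have h4 : Real.log ‖x - b‖ ≤ Real.log (min 1 q) :=
          Real.log_le_log hpos (le_min (by linarith) hq1)
        have h5 : Real.log (min 1 q) ≤ Real.log (1 + C) + Real.log ‖x - b‖ := by
          rw [← Real.log_mul (by linarith) hpos.ne']
          exact Real.log_le_log (lt_min one_pos (by linarith)) ((min_le_right _ _).trans hq2)
        rw [abs_le]
        have h6 := neg_abs_le L
        have h7 := le_abs_self L
        constructor <;> linarith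
      · rw [VP_ext_off _ (fun h => hjj (hinj x hxr (hj.trans h))), zero_sub, abs_neg]
        have h3 : δ ≤ ‖x - b‖ + ‖y - y0‖ := by
          have := hδ j hjj x hx1.le
          rwa [hj, hj0] at this
        have h4 := VP_logmin hδ0 h3
        linarith
  · -- logb
    refine ⟨1 + |Real.log r2|, fun x y _ hxb => ?_⟩
    have hs0 : x - b ≠ 0 := sub_ne_zero.2 hxb
    have hpos : 0 < ‖x - b‖ := norm_pos_iff.2 hs0
    have e1 := abs_nonneg (Real.log r2)
    have e2 := abs_nonneg (Real.log ‖x - b‖)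
    rcases VP_ext_cases (b := b) (r := r) (Y0 := Y j0) (fun x => V (x - b)) x y with h | h
    · rw [h]
      have h3 := hP.lower _ hs0
      have h4 := hP.nonpos (x - b)
      have h5 : -(|Real.log ‖x - b‖| + |Real.log r2|) ≤ Real.log (min 1 (‖x - b‖ / r2)) := by
        rcases le_total 1 (‖x - b‖ / r2) with h6 | h6
        · rw [min_eq_left h6, Real.log_one]
          linarith
        · rw [min_eq_right h6, Real.log_div hpos.ne' hr2.ne']
          have h7 := neg_abs_le (Real.log ‖x - b‖)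
          have h8 := le_abs_self (Real.log r2)
          linarith
      rw [abs_of_nonpos h4]
      nlinarith
    · rw [h, abs_zero]
      positivity

end EGR
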