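import Pool.Agent.EGR.Sol
import Pool.Agent.EGR.VP
import Pool.Agent.EGR.Rho

/-!
Existence of the Arakelov Green function.

PROOF. `W, T` from `exists_pole`, `φh, H` from `rho_wt`, `ρh = (1/g) ∑ ‖φh k‖^2`, `h = T - ρh`:
continuous along branches, `|h| ≤ T + ρh ≤ ` a weight (`T` is bounded and vanishes outside a compact
set of separable points, add `M * indicator`), `∫ ∑ h = 1 - 1 = 0`. Local solutions (`part`): on a
disc `W_k' = φh k ∘ Y` (primitives), `Δ |W_k|^2 = 4 |W_k'|^2`; `f = - W ∘ Y - (π/(2g)) ∑ |W_k|^2` near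
points different from `P`, `f = - (π/(2g)) ∑ |W_k|^2` on a small disc around `P` (where `T = 0`).
`sol` gives `v`; `G = W + v + c` with `c = - ∫ ∑ (W + v) ρ`, `∫ ∑ ρ = 1` (the integrand is integrable:
`v` bounded, `|W| ≤ M (1 + |log |x - b||)` and zero outside a compact set over which `ρh` is
bounded). `l = v b y0 - L + c`.
-/

open Polynomial MeasureTheory Metric ComplexConjugate Filter Topology

namespace EGR

open ALC

private theorem Asm_lap {f : ℂ → ℝ} {x : ℂ} (hf : ContDiffAt ℝ 2 f x) :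
    Laplacian.laplacian f x = fderiv ℝ (fun y => fderiv ℝ f y 1) x 1 +
      fderiv ℝ (fun y => fderiv ℝ f y Complex.I) x Complex.I := by
  have h1 : DifferentiableAt ℝ (fderiv ℝ f) x :=
    (hf.fderiv_right (m := 1) (by norm_num)).differentiableAt (by norm_num)
  have h2 : ∀ v : ℂ, fderiv ℝ (fun y => fderiv ℝ f y v) x v = fderiv ℝ (fderiv ℝ f) x v v := by
    intro v
    rw [fderiv_clm_apply h1 (differentiableAt_const v)]
    simp
  rw [InnerProductSpace.laplacian_eq_iteratedFDeriv_complexPlane]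
  simp only [iteratedFDeriv_two_apply]
  rw [h2, h2]
  simp

theorem lap_normSq (U : Set ℂ) (hU : IsOpen U) (W w : ℂ → ℂ) (hW : ∀ x ∈ U, HasDerivAt W (w x) x)
    (x : ℂ) (hx : x ∈ U) :
    ContDiffOn ℝ 2 (fun x => ‖W x‖ ^ 2) U ∧
      Laplacian.laplacian (fun x => ‖W x‖ ^ 2) x = 4 * ‖w x‖ ^ 2 := by
  have hd : DifferentiableOn ℂ W U := fun z hz => (hW z hz).differentiableAt.differentiableWithinAt
  have hC : ContDiffOn ℝ 2 W U := (hd.contDiffOn (n := 2) hU).restrict_scalars ℝ
  have hS : ContDiffOn ℝ 2 (fun x => ‖W x‖ ^ 2) U := hC.norm_sq ℝ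
  refine ⟨hS, ?_⟩
  have hwd : DifferentiableOn ℂ w U := by
    have h1 : DifferentiableOn ℂ (deriv W) U := hd.deriv hU
    exact h1.congr fun z hz => (hW z hz).deriv.symm
  have hUx : U ∈ 𝓝 x := hU.mem_nhds hx
  obtain ⟨w', hw'⟩ : ∃ w', HasDerivAt w w' x := ⟨_, (hwd.differentiableAt hUx).hasDerivAt⟩
  have hfd : ∀ z ∈ U, ∀ v : ℂ, fderiv ℝ (fun x => ‖W x‖ ^ 2) z v =
      2 * inner ℝ (W z) (w z * v) := by
    intro z hz v
    have h1 : HasFDerivAt W ((ContinuousLinearMap.toSpanSingleton ℂ (w z)).restrictScalars ℝ) z :=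
      (hW z hz).hasFDerivAt.restrictScalars ℝ
    have h2 := h1.norm_sq
    rw [h2.fderiv]
    simp [mul_comm]
    ring
  have key : ∀ v : ℂ, fderiv ℝ (fun y => fderiv ℝ (fun x => ‖W x‖ ^ 2) y v) x v =
      2 * (inner ℝ (W x) (w' * v * v) + inner ℝ (w x * v) (w x * v)) := by
    intro v
    have he : (fun y => fderiv ℝ (fun x => ‖W x‖ ^ 2) y v) =ᶠ[𝓝 x]
        fun y => 2 * inner ℝ (W y) (w y * v) := by
      filter_upwards [hUx] with z hz
      exact hfd z hz v
    rw [he.fderiv_eq]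
    have h1 : HasFDerivAt W ((ContinuousLinearMap.toSpanSingleton ℂ (w x)).restrictScalars ℝ) x :=
      (hW x hx).hasFDerivAt.restrictScalars ℝ
    have h2 : HasFDerivAt (fun y => w y * v)
        ((ContinuousLinearMap.toSpanSingleton ℂ (w' * v)).restrictScalars ℝ) x :=
      (hw'.mul_const v).hasFDerivAt.restrictScalars ℝ
    have h3 := (h1.inner ℝ h2).const_mul 2
    rw [h3.fderiv]
    simp [mul_comm, mul_left_comm, mul_assoc]
  rw [Asm_lap (hS.contDiffAt hUx), key, key]
  have e1 : w' * 1 * 1 = w' := by ring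
  have e2 : w' * Complex.I * Complex.I = -w' := by
    rw [mul_assoc, Complex.I_mul_I]; ring
  rw [e1, e2, inner_neg_right, real_inner_self_eq_norm_sq, real_inner_self_eq_norm_sq]
  simp
  ring

private theorem Asm_ae (F : ℂ[X][X]) (hF : F.Monic) (b : ℂ) (hb : (at_ F b).Separable) :
    ∀ᵐ x : ℂ, (at_ F x).Separable := by
  have h3 : volume {x : ℂ | ¬ (at_ F x).Separable} = 0 := (bad_finite F hF b hb).measure_zero _
  filter_upwards [measure_eq_zero_iff_ae_notMem.1 h3] with x hx
  by_contra hn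
  exact hx hn

private theorem Asm_root (D : ℂ[X]) (hD : D ≠ 0) : ∀ᵐ x : ℂ, D.eval x ≠ 0 := by
  have h1 : {x : ℂ | D.eval x = 0}.Finite := by
    refine (D.roots.toFinset.finite_toSet).subset ?_
    intro x hx
    simp only [Finset.mem_coe, Multiset.mem_toFinset]
    exact (mem_roots hD).2 hx
  filter_upwards [measure_eq_zero_iff_ae_notMem.1 (h1.measure_zero volume)] with x hx
  exact hx

private theorem Asm_card (F : ℂ[X][X]) (hF : F.Monic) (x : ℂ) : (fib F x).card ≤ F.natDegree := by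
  classical
  unfold fib
  have h1 : (at_ F x).natDegree = F.natDegree := hF.natDegree_map _
  rw [← h1]
  exact (Multiset.toFinset_card_le _).trans (card_roots' _)

/-- adding a bounded function with compact support to a weight -/
private theorem Asm_wt (F : ℂ[X][X]) (H : ℂ → ℝ) (hH : IsWt F H) (K : Set ℂ) (hK : IsCompact K)
    (hKs : ∀ x ∈ K, (at_ F x).Separable) (M : ℝ) (hM : 0 ≤ M) :
    IsWt F (fun x => H x + K.indicator (fun _ => M) x) where
  nonneg x := add_nonneg (hH.nonneg x) (Set.indicator_nonneg (fun _ _ => hM) x)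
  meas := hH.meas.add
    ((measurable_const.indicator hK.isClosed.measurableSet).aestronglyMeasurable)
  near a ha := by
    obtain ⟨C, τ, R, hτ, hR, h⟩ := hH.near a ha
    have h1 : a ∈ Kᶜ := fun h => ha (hKs a h)
    obtain ⟨s, hs, hs2⟩ := Metric.isOpen_iff.1 hK.isClosed.isOpen_compl a h1
    refine ⟨C, τ, min R s, hτ, lt_min hR hs, fun x hx hxa => ?_⟩
    have h2 : x ∉ K := hs2 (ball_subset_ball (min_le_right _ _) hx)
    rw [Set.indicator_of_notMem h2, add_zero]
    exact h x (ball_subset_ball (min_le_left _ _) hx) hxa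
  far := by
    obtain ⟨C, τ, R, hτ, hR, h⟩ := hH.far
    obtain ⟨s, hs⟩ := hK.isBounded.subset_ball 0
    refine ⟨C, τ, max R s, hτ, lt_of_lt_of_le hR (le_max_left _ _), fun x hx => ?_⟩
    have h2 : x ∉ K := fun hxK => by
      have := hs hxK
      rw [mem_ball_zero_iff] at this
      exact absurd ((le_max_right R s).trans hx) (not_le.2 this)
    rw [Set.indicator_of_notMem h2, add_zero]
    exact h x ((le_max_left _ _).trans hx)
  loc L hL hLs := by
    obtain ⟨C, hC⟩ := hH.loc L hL hLs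
    refine ⟨C + M, fun x hx => add_le_add (hC x hx) ?_⟩
    by_cases hxK : x ∈ K
    · rw [Set.indicator_of_mem hxK]
    · rw [Set.indicator_of_notMem hxK]; exact hM

/-- local integrability of the logarithm -/
private theorem Asm_log (b : ℂ) (R : ℝ) :
    IntegrableOn (fun x : ℂ => 1 + |Real.log ‖x - b‖|) (ball b R) := by
  have e1 : MeasurePreserving (fun z : ℂ => z + b) volume volume :=
    measurePreserving_add_right volume b
  have e2 : MeasurableEmbedding (fun z : ℂ => z + b) := measurableEmbedding_addRight b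
  rw [← e1.integrableOn_comp_preimage e2]
  have e3 : (fun z : ℂ => z + b) ⁻¹' (ball b R) = ball 0 R := by
    ext z
    simp
  rw [e3]
  have h3 : IntegrableOn (fun z : ℂ => (fun t : ℝ => 1 + |Real.log t|) ‖z‖) (ball (0 : ℂ) R) := by
    rw [integrableOn_fun_norm_addHaar (volume : Measure ℂ)
      (f := fun t : ℝ => 1 + |Real.log t|) (r := R)]
    have h4 : IntegrableOn (fun y : ℝ => y + |y * Real.log y|) (Set.Ioo 0 R) := by
      have hc : Continuous (fun y : ℝ => y + |y * Real.log y|) :=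
        continuous_id.add Real.continuous_mul_log.abs
      exact (hc.continuousOn.integrableOn_Icc (a := 0) (b := R)).mono_set Set.Ioo_subset_Icc_self
    refine h4.congr_fun ?_ measurableSet_Ioo
    intro y hy
    have hy0 : 0 < y := hy.1
    simp only [Complex.finrank_real_complex, smul_eq_mul]
    norm_num
    rw [abs_of_pos hy0]
    ring
  refine h3.congr_fun ?_ measurableSet_ball
  intro z _
  simp [Function.comp]

/-- a function on a disc whose Laplacian is minus `2 π` times the density -/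
private theorem Asm_prim (F : ℂ[X][X]) (g : ℕ) (φh : Fin g → ℂ → ℂ → ℂ)
    (hφ : ∀ k U Y, IsBranch F U Y → DifferentiableOn ℂ (fun x => φh k x (Y x)) U) (c : ℂ) (r : ℝ)
    (Y : ℂ → ℂ) (hY : IsBranch F (ball c r) Y) :
    ∃ f : ℂ → ℝ, ContDiffOn ℝ 2 f (ball c r) ∧ ∀ x ∈ ball c r, Laplacian.laplacian f x =
      -(2 * Real.pi * (1 / (g : ℝ) * ∑ k, ‖φh k x (Y x)‖ ^ 2)) := by
  have h1 : ∀ k, ∃ W : ℂ → ℂ, ∀ x ∈ ball c r, HasDerivAt W (φh k x (Y x)) x := by
    intro k
    exact (hφ k _ _ hY).isExactOn_ball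
  choose W hW using h1
  have h2 := fun k x hx => lap_normSq (ball c r) isOpen_ball (W k) (fun x => φh k x (Y x)) (hW k) x hx
  have hS : ContDiffOn ℝ 2 (fun x => ∑ k, ‖W k x‖ ^ 2) (ball c r) := by
    intro x hx
    exact ContDiffWithinAt.sum fun k _ => (h2 k x hx).1 x hx
  have hL : ∀ x ∈ ball c r, Laplacian.laplacian (fun x => ∑ k, ‖W k x‖ ^ 2) x =
      ∑ k, 4 * ‖φh k x (Y x)‖ ^ 2 := by
    intro x hx
    have hb : ball c r ∈ 𝓝 x := isOpen_ball.mem_nhds hx
    have : ∀ s : Finset (Fin g), ContDiffAt ℝ 2 (fun x => ∑ k ∈ s, ‖W k x‖ ^ 2) x ∧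
        Laplacian.laplacian (fun x => ∑ k ∈ s, ‖W k x‖ ^ 2) x =
        ∑ k ∈ s, 4 * ‖φh k x (Y x)‖ ^ 2 := by
      intro s
      induction s using Finset.cons_induction with
      | empty =>
        refine ⟨by simpa using contDiffAt_const, ?_⟩
        simp only [Finset.sum_empty]
        exact congrFun (InnerProductSpace.laplacian_const (E := ℂ) (c := (0 : ℝ))) x
      | cons a s ha ih =>
        obtain ⟨i1, i2⟩ := ih
        have h3 : ContDiffAt ℝ 2 (fun x => ‖W a x‖ ^ 2) x := (h2 a x hx).1.contDiffAt hb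
        have e : (fun x => ∑ k ∈ Finset.cons a s ha, ‖W k x‖ ^ 2) =
            (fun x => ‖W a x‖ ^ 2) + fun x => ∑ k ∈ s, ‖W k x‖ ^ 2 := by
          funext z
          simp only [Finset.sum_cons, Pi.add_apply]
        rw [e]
        refine ⟨h3.add i1, ?_⟩
        rw [h3.laplacian_add i1, i2, (h2 a x hx).2, Finset.sum_cons]
    exact (this Finset.univ).2
  refine ⟨(-(Real.pi / 2 * (1 / (g : ℝ)))) • fun x => ∑ k, ‖W k x‖ ^ 2, ?_, ?_⟩
  · exact hS.const_smul (-(Real.pi / 2 * (1 / (g : ℝ))))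
  · intro x hx
    rw [InnerProductSpace.laplacian_smul _ (hS.contDiffAt (isOpen_ball.mem_nhds hx)), hL x hx,
      ← Finset.mul_sum, smul_eq_mul]
    ring

/-- the local solutions -/
private theorem Asm_part (F : ℂ[X][X]) (hF : F.Monic) (b y0 : ℂ) (W T : ℂ → ℂ → ℝ)
    (hP : IsPole F b y0 W T) (g : ℕ) (φh : Fin g → ℂ → ℂ → ℂ)
    (hφ : ∀ k U Y, IsBranch F U Y → DifferentiableOn ℂ (fun x => φh k x (Y x)) U) (x0 y1 : ℂ)
    (ho : OnX F x0 y1) :
    ∃ r : ℝ, 0 < r ∧ ∃ (Y : ℂ → ℂ) (f : ℂ → ℝ), IsBranch F (ball x0 r) Y ∧ Y x0 = y1 ∧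
      ContDiffOn ℝ 2 f (ball x0 r) ∧ ∀ x ∈ ball x0 r, Laplacian.laplacian f x =
        2 * Real.pi * (T x (Y x) - 1 / (g : ℝ) * ∑ k, ‖φh k x (Y x)‖ ^ 2) := by
  obtain ⟨r, hr, Y, hY, -, hfib, -⟩ := local_sum F hF x0 ho.1
  obtain ⟨j, hj⟩ := (hfib x0 (mem_ball_self hr) y1).1 ((mem_fib F hF x0 y1).2 ho.2)
  by_cases hp : (x0, y1) = (b, y0)
  · obtain ⟨L, δ, hδ, hn⟩ := hP.near
    have hx0 : x0 = b := congrArg Prod.fst hp
    have hy1 : y1 = y0 := congrArg Prod.snd hp
    subst hx0 hy1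
    have h1 := hn _ _ (hY j) (mem_ball_self hr) hj
    obtain ⟨s, hs, hs2⟩ := Metric.eventually_nhds_iff_ball.1 h1
    have hm : 0 < min r s := lt_min hr hs
    have hYm : IsBranch F (ball x0 (min r s)) (Y j) :=
      ⟨isOpen_ball, (hY j).2.1.mono (ball_subset_ball (min_le_left _ _)),
        fun z hz => (hY j).2.2 z (ball_subset_ball (min_le_left _ _) hz)⟩
    obtain ⟨f, hf1, hf2⟩ := Asm_prim F g φh hφ x0 (min r s) (Y j) hYm
    refine ⟨min r s, hm, Y j, f, hYm, hj, hf1, fun x hx => ?_⟩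
    rw [hf2 x hx, (hs2 x (ball_subset_ball (min_le_right _ _) hx)).1]
    ring
  · obtain ⟨s, hs, hsr, hs2⟩ : ∃ s : ℝ, 0 < s ∧ s ≤ r ∧ ∀ x ∈ ball x0 s, (x, Y j x) ≠ (b, y0) := by
      by_cases hxb : x0 = b
      · refine ⟨r, hr, le_rfl, fun x hx h => hp ?_⟩
        have h1 : x = b := congrArg Prod.fst h
        have h2 : Y j x = y0 := congrArg Prod.snd h
        rw [h1, ← hxb] at h2
        rw [← hj, h2, hxb]
      · have hd : 0 < ‖b - x0‖ := norm_pos_iff.2 (sub_ne_zero.2 fun h => hxb h.symm)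
        refine ⟨min r ‖b - x0‖, lt_min hr hd, min_le_left _ _, fun x hx h => ?_⟩
        have h1 : x = b := congrArg Prod.fst h
        have h2 := ball_subset_ball (min_le_right r ‖b - x0‖) hx
        rw [h1, mem_ball_iff_norm] at h2
        exact lt_irrefl _ h2
    have hYm : IsBranch F (ball x0 s) (Y j) :=
      ⟨isOpen_ball, (hY j).2.1.mono (ball_subset_ball hsr),
        fun z hz => (hY j).2.2 z (ball_subset_ball hsr hz)⟩
    obtain ⟨f, hf1, hf2⟩ := Asm_prim F g φh hφ x0 s (Y j) hYm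
    obtain ⟨w1, w2⟩ := hP.smooth _ _ hYm hs2
    refine ⟨s, hs, Y j, f - fun x => W x (Y j x), hYm, hj, hf1.sub w1, fun x hx => ?_⟩
    have hb : ball x0 s ∈ 𝓝 x := isOpen_ball.mem_nhds hx
    rw [(hf1.contDiffAt hb).laplacian_sub (w1.contDiffAt hb), hf2 x hx, w2 x hx]
    ring

theorem exists_green (F : ℂ[X][X]) (hF : F.Monic) (hirr : Irreducible F) (b y0 : ℂ)
    (hb : (at_ F b).Separable) (h0 : (at_ F b).eval y0 = 0) (g : ℕ) (hg : 1 ≤ g)
    (e : Fin g → ℂ[X][X] × ℂ[X]) (he : IsONB F g e) :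
    ∃ (G : ℂ → ℂ → ℝ) (l : ℝ), IsGreen F e b y0 G l := by
  classical
  obtain ⟨W, T, hP⟩ := exists_pole F hF b y0 hb h0
  obtain ⟨φh, H0, hH0, hφ, hφe, hφH, hφI⟩ := rho_wt F hF b hb g hg e he
  set ρh : ℂ → ℂ → ℝ := fun x y => 1 / (g : ℝ) * ∑ k, ‖φh k x y‖ ^ 2 with hρ
  have hρ0 : ∀ x y, 0 ≤ ρh x y := fun x y =>
    mul_nonneg (by positivity) (Finset.sum_nonneg fun k _ => by positivity)
  have hρc : ∀ U Y, IsBranch F U Y → ContinuousOn (fun x => ρh x (Y x)) U := by
    intro U Y hY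
    refine continuousOn_const.mul (continuousOn_finsetSum _ fun k _ => ?_)
    exact ((hφ k U Y hY).continuousOn.norm).pow 2
  obtain ⟨K, hK, hKs, hKW⟩ := hP.supp
  obtain ⟨MT, hMT⟩ := hP.bddT
  set M1 : ℝ := max MT 0 with hM1
  have hH := Asm_wt F H0 hH0 K hK hKs M1 (le_max_right _ _)
  set H : ℂ → ℝ := fun x => H0 x + K.indicator (fun _ => M1) x with hHdef
  have hTle : ∀ x y, T x y ≤ K.indicator (fun _ => M1) x := by
    intro x y
    by_cases hx : x ∈ K
    · rw [Set.indicator_of_mem hx]; exact (hMT x y).trans (le_max_left _ _)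
    · rw [Set.indicator_of_notMem hx, (hKW x y hx).2]
  have hh : ∀ x y, OnX F x y → |T x y - ρh x y| ≤ H x := by
    intro x y ho
    have h1 := hφH x y ho
    have h2 := hTle x y
    have h3 := hP.nonneg x y
    have h4 := hρ0 x y
    rw [abs_le]
    constructor
    · have h5 : 0 ≤ K.indicator (fun _ => M1) x := h3.trans h2
      show -(H0 x + _) ≤ _
      linarith
    · show _ ≤ H0 x + _
      have h5 : 0 ≤ H0 x := hH0.nonneg x
      linarith
  have hc : ∀ U Y, IsBranch F U Y → ContinuousOn (fun x => T x (Y x) - ρh x (Y x)) U :=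
    fun U Y hY => (hP.cont U Y hY).sub (hρc U Y hY)
  have hTi : Integrable (fun x => ∑ y ∈ fib F x, T x y) := by
    by_contra hn
    have := integral_undef hn
    rw [hP.mass] at this
    exact one_ne_zero this
  have hρi : Integrable (fun x => ∑ y ∈ fib F x, ρh x y) := by
    by_contra hn
    have := integral_undef hn
    rw [hφI] at this
    exact one_ne_zero this
  have h00 : ∫ x, ∑ y ∈ fib F x, (T x y - ρh x y) = 0 := by
    simp only [Finset.sum_sub_distrib]
    rw [integral_sub hTi hρi, hP.mass, hφI, sub_self]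
  obtain ⟨v, hv, Mv, hMv⟩ := sol F hF hirr b hb (fun x y => T x y - ρh x y) hc H hH hh h00
    (fun x0 y1 ho => Asm_part F hF b y0 W T hP g φh hφ x0 y1 ho)
  have hvc : ∀ U Y, IsBranch F U Y → ContinuousOn (fun x => v x (Y x)) U :=
    fun U Y hY => (hv U Y hY).1.continuousOn
  -- integrability
  have hvi : Integrable (fun x => ∑ y ∈ fib F x, ρh x y * v x y) := by
    refine L_int F hF b hb H0 hH0 ρh hρc (fun x y ho => ?_) v hvc ⟨Mv, hMv⟩
    rw [abs_of_nonneg (hρ0 x y)]
    exact hφH x y ho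
  have hWi : Integrable (fun x => ∑ y ∈ fib F x, ρh x y * W x y) := by
    obtain ⟨ML, hML⟩ := hP.logb
    obtain ⟨Mρ, hMρ⟩ := bdd_cpt F hF b hb ρh hρc K hK hKs
    obtain ⟨R, hR⟩ := hK.isBounded.subset_ball b
    have hi : Integrable (fun x => (ball b R).indicator
        (fun x => (F.natDegree : ℝ) * (|Mρ| * |ML|) * (1 + |Real.log ‖x - b‖|)) x) := by
      rw [integrable_indicator_iff measurableSet_ball]
      exact (Asm_log b R).const_mul _
    refine hi.mono' ?_ ?_
    · set V : Set ℂ := {x | (at_ F x).Separable} ∩ {b}ᶜ with hV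
      have hVo : IsOpen V := (sep_open F hF).inter isOpen_compl_singleton
      have hcV : ContinuousOn (fun x => ∑ y ∈ fib F x, ρh x y * W x y) V := by
        intro x0 hx0
        apply ContinuousAt.continuousWithinAt
        obtain ⟨r, hr, Y, hY, -, -, hsum⟩ := local_sum F hF x0 hx0.1
        have hd : 0 < ‖b - x0‖ := norm_pos_iff.2 (sub_ne_zero.2 fun h => hx0.2 h.symm)
        have hm : 0 < min r ‖b - x0‖ := lt_min hr hd
        have h1 : ContinuousAt (fun x => ∑ j, ρh x (Y j x) * W x (Y j x)) x0 := by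
          refine tendsto_finsetSum _ fun j _ => ?_
          have hYm : IsBranch F (ball x0 (min r ‖b - x0‖)) (Y j) :=
            ⟨isOpen_ball, (hY j).2.1.mono (ball_subset_ball (min_le_left _ _)),
              fun z hz => (hY j).2.2 z (ball_subset_ball (min_le_left _ _) hz)⟩
          have hne : ∀ x ∈ ball x0 (min r ‖b - x0‖), (x, Y j x) ≠ (b, y0) := by
            intro x hx h
            have h1 : x = b := congrArg Prod.fst h
            have h2 := ball_subset_ball (min_le_right r ‖b - x0‖) hx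
            rw [h1, mem_ball_iff_norm] at h2
            exact lt_irrefl _ h2
          have hWc := (hP.smooth _ _ hYm hne).1.continuousOn
          exact ((hρc _ _ hYm).mul hWc).continuousAt (ball_mem_nhds x0 hm)
        refine h1.congr ?_
        filter_upwards [ball_mem_nhds x0 hr] with x hx
        exact (hsum ℝ (fun x y => ρh x y * W x y) x hx).symm
      have h4 := hcV.aestronglyMeasurable (μ := (volume : Measure ℂ)) hVo.measurableSet
      have h5 : ∀ᵐ x ∂(volume : Measure ℂ), x ∈ V := by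
        filter_upwards [Asm_ae F hF b hb, (Measure.ae_ne volume b)] with x hx1 hx2
        exact ⟨hx1, hx2⟩
      rwa [Measure.restrict_eq_self_of_ae_mem h5] at h4
    · filter_upwards [Asm_ae F hF b hb, (Measure.ae_ne volume b)] with x hx1 hx2
      by_cases hx : x ∈ K
      · rw [Set.indicator_of_mem (hR hx), Real.norm_eq_abs]
        calc |∑ y ∈ fib F x, ρh x y * W x y| ≤ ∑ y ∈ fib F x, |ρh x y * W x y| :=
              Finset.abs_sum_le_sum_abs _ _
          _ ≤ ∑ y ∈ fib F x, |Mρ| * (|ML| * (1 + |Real.log ‖x - b‖|)) := by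
              refine Finset.sum_le_sum fun y hy => ?_
              rw [abs_mul]
              have ho : OnX F x y := ⟨hx1, (mem_fib F hF x y).mp hy⟩
              refine mul_le_mul ((hMρ x hx y hy).trans (le_abs_self _))
                ((hML x y ho hx2).trans ?_) (abs_nonneg _) (abs_nonneg _)
              exact mul_le_mul_of_nonneg_right (le_abs_self _) (by positivity)
          _ = (fib F x).card * (|Mρ| * (|ML| * (1 + |Real.log ‖x - b‖|))) := by
              rw [Finset.sum_const, nsmul_eq_mul]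
          _ ≤ F.natDegree * (|Mρ| * (|ML| * (1 + |Real.log ‖x - b‖|))) := by
              refine mul_le_mul_of_nonneg_right ?_ (by positivity)
              exact_mod_cast Asm_card F hF x
          _ = (F.natDegree : ℝ) * (|Mρ| * |ML|) * (1 + |Real.log ‖x - b‖|) := by ring
      · have hz : ∑ y ∈ fib F x, ρh x y * W x y = 0 :=
          Finset.sum_eq_zero fun y _ => by rw [(hKW x y hx).1, mul_zero]
        rw [hz, norm_zero]
        exact Set.indicator_nonneg (fun z _ => by positivity) x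
  set c : ℝ := -((∫ x, ∑ y ∈ fib F x, ρh x y * W x y) + ∫ x, ∑ y ∈ fib F x, ρh x y * v x y) with hcdef
  obtain ⟨L, δ, hδ, hn⟩ := hP.near
  obtain ⟨MB, hMB⟩ := hP.bound
  refine ⟨fun x y => W x y + v x y + c, v b y0 - L + c, ?_, ?_, ?_, ?_⟩
  · refine ⟨MB + Mv + |c|, fun x y hs hy hne => ?_⟩
    have h1 := hMB x y ⟨hs, hy⟩ hne
    have h2 := hMv x y ⟨hs, hy⟩
    have e : W x y + v x y + c - Real.log (min 1 (‖x - b‖ + ‖y - y0‖)) =
        (W x y - Real.log (min 1 (‖x - b‖ + ‖y - y0‖))) + v x y + c := by ring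
    rw [e]
    exact (abs_add_le _ _).trans (add_le_add ((abs_add_le _ _).trans (add_le_add h1 h2)) le_rfl)
  · intro U Y hY hne
    obtain ⟨w1, w2⟩ := hP.smooth U Y hY hne
    obtain ⟨v1, v2⟩ := hv U Y hY
    refine ⟨(w1.add v1).add contDiffOn_const, fun x hx hk => ?_⟩
    have hUx : U ∈ 𝓝 x := hY.1.mem_nhds hx
    have ee : (fun x => W x (Y x) + v x (Y x) + c) =
        ((fun x => W x (Y x)) + fun x => v x (Y x)) + fun _ => c := rfl
    have hA : ContDiffAt ℝ 2 ((fun x => W x (Y x)) + fun x => v x (Y x)) x :=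
      (w1.contDiffAt hUx).add (v1.contDiffAt hUx)
    have hB : ContDiffAt ℝ 2 (fun _ : ℂ => c) x := contDiffAt_const
    rw [ee, hA.laplacian_add hB,
      (w1.contDiffAt hUx).laplacian_add (v1.contDiffAt hUx), w2 x hx, v2 x hx]
    have h5 : Laplacian.laplacian (fun _ : ℂ => c) x = 0 := by
      have := congrFun (InnerProductSpace.laplacian_const (E := ℂ) (c := c)) x
      simpa using this
    have h6 : ρh x (Y x) = rho e x (Y x) := by
      rw [hρ]
      unfold rho
      simp only [hφe x hk]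
    rw [h5, ← h6]
    ring
  · intro U Y hY hbU hYb
    obtain ⟨v1, v2⟩ := hv U Y hY
    have hUx : U ∈ 𝓝 b := hY.1.mem_nhds hbU
    have h1 : ContDiffAt ℝ 2 (fun x => v x (Y x) + (-L + c)) b :=
      (v1.contDiffAt hUx).add contDiffAt_const
    refine h1.congr_of_eventuallyEq ?_
    filter_upwards [hn U Y hY hbU hYb] with x hx
    by_cases hxb : x = b
    · rw [if_pos hxb, hxb, hYb]
      ring
    · rw [if_neg hxb, hx.2 hxb]
      ring
  · have hae : ∀ᵐ x : ℂ, ∀ k, (e k).2.eval x ≠ 0 :=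
      ae_all_iff.2 fun k => Asm_root (e k).2 (he.1 k).1
    have h1 : ∫ x : ℂ, ∑ y ∈ fib F x, (W x y + v x y + c) * rho e x y =
        ∫ x : ℂ, ((∑ y ∈ fib F x, ρh x y * W x y) + ∑ y ∈ fib F x, ρh x y * v x y) +
          c * ∑ y ∈ fib F x, ρh x y := by
      refine integral_congr_ae ?_
      filter_upwards [hae] with x hk
      rw [← Finset.sum_add_distrib, Finset.mul_sum, ← Finset.sum_add_distrib]
      refine Finset.sum_congr rfl fun y _ => ?_
      have h6 : ρh x y = rho e x y := by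
        rw [hρ]
        unfold rho
        simp only [hφe x hk]
      rw [← h6]
      ring
    have hi1 : Integrable (fun x => (∑ y ∈ fib F x, ρh x y * W x y) +
        ∑ y ∈ fib F x, ρh x y * v x y) := hWi.add hvi
    have hi2 : Integrable (fun x => c * ∑ y ∈ fib F x, ρh x y) := hρi.const_mul c
    rw [h1, integral_add hi1 hi2, integral_add hWi hvi, integral_const_mul, hφI]
    rw [hcdef]
    ring

end EGR
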