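import Pool.Agent.EGR.Sum

/-!
Maximum principle on the curve.

PROOF. The set of points of the curve over the compact set `K` is compact (bounded, closed), `w` is
continuous on it (local branches), so it has a maximum at some `(x1, y1)`. If `x1 ∈ interior K`,
take a branch through `(x1, y1)` on a small disc: `w ∘ Y` is `C^2` with a local maximum at `x1`, so
the second derivatives in the directions `1` and `i` are `≤ 0` and the Laplacian is `≤ 0`. So
`x1 ∈ frontier K`.
-/

open Polynomial MeasureTheory Metric ComplexConjugate Filter Topology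

namespace EGR

open ALC

private lemma maxP_second (w : ℂ → ℝ) (x : ℂ) (hw : ContDiffAt ℝ 2 w x) (hm : IsLocalMax w x)
    (v : ℂ) : iteratedFDeriv ℝ 2 w x ![v, v] ≤ 0 := by
  rw [iteratedFDeriv_two_apply]
  simp only [Matrix.cons_val_zero, Matrix.cons_val_one]
  by_contra hcon
  push Not at hcon
  have hline : Continuous fun t : ℝ => x + (t : ℂ) * v := by fun_prop
  have hline0 : (x + ((0 : ℝ) : ℂ) * v) = x := by simp
  have htend : Tendsto (fun t : ℝ => x + (t : ℂ) * v) (𝓝 0) (𝓝 x) := by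
    have := hline.tendsto 0
    rwa [hline0] at this
  have hlined : ∀ t : ℝ, HasDerivAt (fun t : ℝ => x + (t : ℂ) * v) v t := by
    intro t
    have h1 : HasDerivAt (fun t : ℝ => ((t : ℂ))) 1 t := Complex.ofRealCLM.hasDerivAt
    have h2 := (h1.mul_const v).const_add x
    simpa using h2
  have hdiff : ∀ᶠ z in 𝓝 x, DifferentiableAt ℝ w z := by
    filter_upwards [hw.eventually (by simp)] with y hy
    exact hy.differentiableAt (by simp)
  have hg : ∀ᶠ t : ℝ in 𝓝 0, HasDerivAt (fun t : ℝ => w (x + (t : ℂ) * v))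
      (fderiv ℝ w (x + (t : ℂ) * v) v) t := by
    filter_upwards [htend.eventually hdiff] with t ht
    exact ht.hasFDerivAt.comp_hasDerivAt t (hlined t)
  have hg1 : deriv (fun t : ℝ => w (x + (t : ℂ) * v)) =ᶠ[𝓝 0]
      fun t : ℝ => fderiv ℝ w (x + (t : ℂ) * v) v := by
    filter_upwards [hg] with t ht
    exact ht.deriv
  have hd2 : DifferentiableAt ℝ (fderiv ℝ w) x := by
    have h3 : ContDiffAt ℝ 1 (fderiv ℝ w) x := hw.fderiv_right (by norm_num)
    exact h3.differentiableAt (by simp)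
  have hd2' : HasDerivAt (fun t : ℝ => fderiv ℝ w (x + (t : ℂ) * v) v)
      (fderiv ℝ (fderiv ℝ w) x v v) 0 := by
    have h4 : HasFDerivAt (fderiv ℝ w) (fderiv ℝ (fderiv ℝ w) x) (x + ((0 : ℝ) : ℂ) * v) := by
      rw [hline0]
      exact hd2.hasFDerivAt
    have h5 := h4.comp_hasDerivAt (0 : ℝ) (hlined 0)
    have h6 := h5.clm_apply (hasDerivAt_const (0 : ℝ) v)
    simpa using h6
  have hdd : deriv (deriv fun t : ℝ => w (x + (t : ℂ) * v)) 0 = fderiv ℝ (fderiv ℝ w) x v v := by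
    rw [hg1.deriv_eq]
    exact hd2'.deriv
  have hmax : IsLocalMax (fun t : ℝ => w (x + (t : ℂ) * v)) 0 := by
    have h6 : ∀ᶠ z in 𝓝 x, w z ≤ w x := hm
    filter_upwards [htend.eventually h6] with t ht
    rw [hline0]
    exact ht
  have hd0 : deriv (fun t : ℝ => w (x + (t : ℂ) * v)) 0 = 0 := hmax.deriv_eq_zero
  have hcont : ContinuousAt (fun t : ℝ => w (x + (t : ℂ) * v)) 0 :=
    hg.self_of_nhds.continuousAt
  have hmin : IsLocalMin (fun t : ℝ => w (x + (t : ℂ) * v)) 0 :=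
    isLocalMin_of_deriv_deriv_pos (by rw [hdd]; exact hcon) hd0 hcont
  have hconst : (fun t : ℝ => w (x + (t : ℂ) * v)) =ᶠ[𝓝 0] fun _ =>
      w (x + ((0 : ℝ) : ℂ) * v) := by
    filter_upwards [hmin, hmax] with t h1 h2
    exact le_antisymm h2 h1
  have hz1 : deriv (fun t : ℝ => w (x + (t : ℂ) * v)) =ᶠ[𝓝 0] fun _ => (0 : ℝ) := by
    have h7 := hconst.deriv
    filter_upwards [h7] with t ht
    rw [ht]
    simp
  have hz2 : deriv (deriv fun t : ℝ => w (x + (t : ℂ) * v)) 0 = 0 := by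
    rw [hz1.deriv_eq]
    simp
  rw [hdd] at hz2
  exact absurd hz2 hcon.ne'

theorem lap_nonpos (w : ℂ → ℝ) (x : ℂ) (hw : ContDiffAt ℝ 2 w x) (hm : IsLocalMax w x) :
    Laplacian.laplacian w x ≤ 0 := by
  have h1 := congrFun (InnerProductSpace.laplacian_eq_iteratedFDeriv_complexPlane w) x
  rw [h1]
  have h2 := maxP_second w x hw hm 1
  have h3 := maxP_second w x hw hm Complex.I
  linarith

theorem maxp (F : ℂ[X][X]) (hF : F.Monic) (K : Set ℂ) (hK : IsCompact K)
    (hKs : ∀ x ∈ K, (at_ F x).Separable) (w : ℂ → ℂ → ℝ)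
    (hw : ∀ U Y, IsBranch F U Y → ContDiffOn ℝ 2 (fun x => w x (Y x)) U)
    (hpos : ∀ U Y, IsBranch F U Y → ∀ x ∈ U, x ∈ interior K →
      0 < Laplacian.laplacian (fun x => w x (Y x)) x) (M : ℝ)
    (hM : ∀ x ∈ frontier K, ∀ y ∈ fib F x, w x y ≤ M) :
    ∀ x ∈ K, ∀ y ∈ fib F x, w x y ≤ M := by
  classical
  rcases Nat.eq_zero_or_pos F.natDegree with hd | hd
  · intro x hx y hy
    obtain ⟨r, hr, Y, -, hfib⟩ := sheets F hF x (hKs x hx)
    obtain ⟨j, -⟩ := ((hfib x (mem_ball_self hr)).2 y).1 hy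
    exact absurd j.2 (by omega)
  have : Nonempty (Fin F.natDegree) := ⟨⟨0, hd⟩⟩
  set m : ℂ → ℝ := fun x => sSup ((fun y => w x y) '' (fib F x : Set ℂ)) with hmdef
  have hrange : ∀ (x : ℂ) (Y : Fin F.natDegree → ℂ → ℂ),
      (∀ y, y ∈ fib F x ↔ ∃ j, Y j x = y) → m x = ⨆ j, w x (Y j x) := by
    intro x Y hY
    have h1 : (fun y => w x y) '' (fib F x : Set ℂ) = Set.range fun j => w x (Y j x) := by
      ext t
      simp only [Set.mem_image, Finset.mem_coe, Set.mem_range]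
      constructor
      · rintro ⟨y, hy, rfl⟩
        obtain ⟨j, rfl⟩ := (hY y).1 hy
        exact ⟨j, rfl⟩
      · rintro ⟨j, rfl⟩
        exact ⟨Y j x, (hY _).2 ⟨j, rfl⟩, rfl⟩
    rw [hmdef]
    simp only
    rw [h1]
    rfl
  have hle : ∀ x y, y ∈ fib F x → w x y ≤ m x := by
    intro x y hy
    exact le_csSup ((fib F x).finite_toSet.image _).bddAbove ⟨y, hy, rfl⟩
  have hmc : ContinuousOn m K := by
    intro x0 hx0
    obtain ⟨r, hr, Y, hY, hfib⟩ := sheets F hF x0 (hKs x0 hx0)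
    have hb : ball x0 r ∈ 𝓝 x0 := ball_mem_nhds x0 hr
    have h1 : m =ᶠ[𝓝 x0] fun x => Finset.univ.sup' Finset.univ_nonempty
        (fun j => w x (Y j x)) := by
      filter_upwards [hb] with x hx
      rw [hrange x Y (hfib x hx).2, Finset.sup'_univ_eq_ciSup]
    have h2 : ContinuousAt (fun x => Finset.univ.sup' Finset.univ_nonempty
        (fun j => w x (Y j x))) x0 := by
      refine ContinuousAt.finset_sup'_apply _ fun j _ => ?_
      exact (hw _ _ (hY j)).continuousOn.continuousAt hb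
    exact (h2.congr h1.symm).continuousWithinAt
  intro x hx y hy
  obtain ⟨x1, hx1, hmax⟩ := hK.exists_isMaxOn ⟨x, hx⟩ hmc
  have hmax' : ∀ z ∈ K, m z ≤ m x1 := fun z hz => hmax hz
  suffices h : m x1 ≤ M from (hle x y hy).trans ((hmax' x hx).trans h)
  obtain ⟨r, hr, Y, hY, hfib⟩ := sheets F hF x1 (hKs x1 hx1)
  have hm1 := hrange x1 Y (hfib x1 (mem_ball_self hr)).2
  obtain ⟨j, hj⟩ := exists_eq_ciSup_of_finite (f := fun j => w x1 (Y j x1))
  by_cases hint : x1 ∈ interior K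
  · exfalso
    have hb : ball x1 r ∈ 𝓝 x1 := ball_mem_nhds x1 hr
    have h3 := hpos _ _ (hY j) x1 (mem_ball_self hr) hint
    have h4 : IsLocalMax (fun z => w z (Y j z)) x1 := by
      filter_upwards [hb, isOpen_interior.mem_nhds hint] with z hz hz2
      calc w z (Y j z) ≤ m z := hle z _ (((hfib z hz).2 _).2 ⟨j, rfl⟩)
        _ ≤ m x1 := hmax' z (interior_subset hz2)
        _ = w x1 (Y j x1) := by rw [hm1, hj]
    have h5 := lap_nonpos _ x1 ((hw _ _ (hY j)).contDiffAt hb) h4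
    linarith
  · have hfr : x1 ∈ frontier K := ⟨subset_closure hx1, hint⟩
    rw [hm1, ← hj]
    exact hM x1 hfr _ (((hfib x1 (mem_ball_self hr)).2 _).2 ⟨j, rfl⟩)

end EGR
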