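import Pool.Agent.EGR.Grow
import Pool.Agent.EGR.MaxP

/-!
A solution with finite energy is bounded.

PROOF. Near a bad point `a`: `H x ≤ C |x - a|^(τ-2)`, `τ ≤ 1`, on a punctured disc `ball a (2R)`
without other bad points. `β x = K |x - a|^τ`, `Δβ = K τ^2 |x - a|^(τ-2)`, choose `K` with
`K τ^2 ≥ 2 π C + 1`. `w = v + β + ε log |x - a|` (`ε > 0`; `log` is harmonic) has `Δw > 0` on the
sheets and tends to `-∞` at `a` (`growA` with `ε/2`). `maxp` on `{δ ≤ |x - a| ≤ R}`, `δ → 0`: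
`w ≤ M_ε` = maximum over the sheets over `|x - a| = R`; `ε → 0`: `v ≤ v + β ≤ M`. The same for `-v`.
Near infinity: `β = K |x|^(-τ)`, `w = v + β - ε log |x|`, `growB`. Compact part: `bdd_cpt`.
-/

open Polynomial MeasureTheory Metric ComplexConjugate Filter Topology

namespace EGR

open ALC

/-- derivative of `log |z|` -/
private theorem bd_log (s : ℂ) (hs : s ≠ 0) :
    HasFDerivAt (fun z : ℂ => Real.log ‖z‖) ((‖s‖ ^ 2)⁻¹ • innerSL ℝ s) s := by
  have h0 : ‖s‖ ^ 2 ≠ 0 := by positivity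
  have h1 : HasFDerivAt (fun z : ℂ => ‖z‖ ^ 2) (2 • innerSL ℝ s) s :=
    (hasStrictFDerivAt_norm_sq s).hasFDerivAt
  have h2 := (h1.log h0).const_mul (1 / 2 : ℝ)
  have h3 : (fun z : ℂ => (1 / 2 : ℝ) * Real.log (‖z‖ ^ 2)) = fun z : ℂ => Real.log ‖z‖ := by
    funext z
    rw [Real.log_pow]
    push_cast
    ring
  rw [h3] at h2
  have h4 : (1 / 2 : ℝ) • (‖s‖ ^ 2)⁻¹ • 2 • innerSL ℝ s = (‖s‖ ^ 2)⁻¹ • innerSL ℝ s := by
    module
  rwa [h4] at h2

private theorem bd_lap (φ φ' w : ℝ → ℝ) (h1 : ∀ u, HasDerivAt φ (φ' u) u)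
    (h2 : ∀ u, HasDerivAt φ' (w u) u) (s : ℂ) (hs : s ≠ 0) :
    Laplacian.laplacian (fun z : ℂ => φ (Real.log ‖z‖)) s =
      w (Real.log ‖s‖) / ‖s‖ ^ 2 := by
  have h0 : ‖s‖ ^ 2 ≠ 0 := by positivity
  have hfd : ∀ z : ℂ, z ≠ 0 → fderiv ℝ (fun z : ℂ => φ (Real.log ‖z‖)) z =
      (φ' (Real.log ‖z‖) * (‖z‖ ^ 2)⁻¹) • innerSL ℝ z := by
    intro z hz
    have := ((h1 (Real.log ‖z‖)).hasFDerivAt.comp z (bd_log z hz)).fderiv
    rw [show (fun z : ℂ => φ (Real.log ‖z‖)) = φ ∘ fun z : ℂ => Real.log ‖z‖ from rfl, this]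
    ext v
    simp
    ring
  have hev : fderiv ℝ (fun z : ℂ => φ (Real.log ‖z‖)) =ᶠ[𝓝 s]
      fun z => (φ' (Real.log ‖z‖) * (‖z‖ ^ 2)⁻¹) • innerSL ℝ z := by
    filter_upwards [isOpen_ne.mem_nhds hs] with z hz
    exact hfd z hz
  have hn : HasFDerivAt (fun z : ℂ => ‖z‖ ^ 2) (2 • innerSL ℝ s) s :=
    (hasStrictFDerivAt_norm_sq s).hasFDerivAt
  have hA : HasFDerivAt (fun z : ℂ => φ' (Real.log ‖z‖))
      ((w (Real.log ‖s‖)) • ((‖s‖ ^ 2)⁻¹ • innerSL ℝ s)) s :=
    (h2 (Real.log ‖s‖)).comp_hasFDerivAt s (bd_log s hs)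
  have hB : HasFDerivAt (fun z : ℂ => (‖z‖ ^ 2)⁻¹) (-((‖s‖ ^ 2) ^ 2)⁻¹ • (2 • innerSL ℝ s)) s :=
    (hasDerivAt_inv h0).comp_hasFDerivAt s hn
  have hC : HasFDerivAt (fun z : ℂ => innerSL ℝ z) (innerSL ℝ (E := ℂ)) s :=
    (innerSL ℝ (E := ℂ)).hasFDerivAt
  have hD := (hA.mul hB).smul hC
  have hfin : fderiv ℝ (fderiv ℝ (fun z : ℂ => φ (Real.log ‖z‖))) s = _ :=
    (hev.fderiv_eq).trans hD.fderiv
  rw [InnerProductSpace.laplacian_eq_iteratedFDeriv_complexPlane]
  simp only [iteratedFDeriv_two_apply]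
  rw [hfin]
  have hsq : ‖s‖ ^ 2 = s.re ^ 2 + s.im ^ 2 := by
    rw [← Complex.normSq_eq_norm_sq, Complex.normSq_apply]; ring
  have h0' : s.re ^ 2 + s.im ^ 2 ≠ 0 := hsq ▸ h0
  have e1 : (innerSL ℝ (1 : ℂ)) 1 = 1 := by
    rw [innerSL_apply_apply, real_inner_self_eq_norm_sq]; simp
  have e2 : (innerSL ℝ Complex.I) Complex.I = 1 := by
    rw [innerSL_apply_apply, real_inner_self_eq_norm_sq]; simp
  simp [e1, e2]
  simp only [hsq]
  field_simp
  ring

private theorem bd_shift (V : ℂ → ℝ) (b x : ℂ) :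
    Laplacian.laplacian (fun z => V (z - b)) x = Laplacian.laplacian V (x - b) := by
  rw [InnerProductSpace.laplacian_eq_iteratedFDeriv_complexPlane,
    InnerProductSpace.laplacian_eq_iteratedFDeriv_complexPlane]
  simp only [iteratedFDeriv_comp_sub]

/-- the barrier as a function of `log |x - a|` -/
private noncomputable def bdphi (K σ c u : ℝ) : ℝ := K * Real.exp (σ * u) + c * u

private theorem bdphi_d (K σ c u : ℝ) :
    HasDerivAt (bdphi K σ c) (K * σ * Real.exp (σ * u) + c) u := by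
  have h1 : HasDerivAt (fun u : ℝ => σ * u) σ u := by
    simpa using (hasDerivAt_id u).const_mul σ
  have h2 := (h1.exp.const_mul K).add ((hasDerivAt_id u).const_mul c)
  refine h2.congr_deriv ?_
  simp
  ring

private theorem bdphi_dd (K σ c u : ℝ) :
    HasDerivAt (fun u => K * σ * Real.exp (σ * u) + c) (K * σ ^ 2 * Real.exp (σ * u)) u := by
  have h1 : HasDerivAt (fun u : ℝ => σ * u) σ u := by
    simpa using (hasDerivAt_id u).const_mul σ
  have h2 := (h1.exp.const_mul (K * σ)).add_const c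
  refine h2.congr_deriv ?_
  ring

private theorem bdphi_lap (K σ c : ℝ) (a x : ℂ) (hx : x ≠ a) :
    Laplacian.laplacian (fun z : ℂ => bdphi K σ c (Real.log ‖z - a‖)) x =
      K * σ ^ 2 * ‖x - a‖ ^ (σ - 2) := by
  have hs : x - a ≠ 0 := sub_ne_zero.2 hx
  have hn : 0 < ‖x - a‖ := norm_pos_iff.2 hs
  have h1 := bd_shift (fun z : ℂ => bdphi K σ c (Real.log ‖z‖)) a x
  rw [h1, bd_lap (bdphi K σ c) _ _ (bdphi_d K σ c) (bdphi_dd K σ c) (x - a) hs,
    Real.rpow_sub hn, Real.rpow_def_of_pos hn, Real.rpow_two, mul_comm (Real.log ‖x - a‖) σ]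
  ring

private theorem bdphi_cd (K σ c : ℝ) (a x : ℂ) (hx : x ≠ a) :
    ContDiffAt ℝ 2 (fun z : ℂ => bdphi K σ c (Real.log ‖z - a‖)) x := by
  have hs : x - a ≠ 0 := sub_ne_zero.2 hx
  have h1 : ContDiffAt ℝ 2 (fun z : ℂ => Real.log ‖z - a‖) x :=
    ((contDiffAt_norm ℝ hs).comp x (contDiffAt_id.sub contDiffAt_const)).log
      (norm_ne_zero_iff.2 hs)
  unfold bdphi
  exact (contDiffAt_const.mul (contDiffAt_const.mul h1).exp).add (contDiffAt_const.mul h1)

/-- the barrier, cut off near `a` -/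
private noncomputable def bdcut (K σ c : ℝ) (a : ℂ) (r : ℝ) (z : ℂ) : ℝ :=
  Real.smoothTransition (2 * (‖z - a‖ ^ 2 / r ^ 2) - 1) * bdphi K σ c (Real.log ‖z - a‖)

private theorem bdcut_cd (K σ c : ℝ) (a : ℂ) (r : ℝ) (hr : 0 < r) :
    ContDiff ℝ 2 (bdcut K σ c a r) := by
  rw [contDiff_iff_contDiffAt]
  intro x
  by_cases hx : x = a
  · subst hx
    have hev : bdcut K σ c x r =ᶠ[𝓝 x] fun _ => 0 := by
      have : ball x (r / 2) ∈ 𝓝 x := ball_mem_nhds _ (by positivity)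
      filter_upwards [this] with z hz
      rw [mem_ball_iff_norm] at hz
      unfold bdcut
      rw [Real.smoothTransition.zero_of_nonpos, zero_mul]
      have h1 : ‖z - x‖ ^ 2 ≤ (r / 2) ^ 2 := by
        have := norm_nonneg (z - x)
        nlinarith
      have h2 : ‖z - x‖ ^ 2 / r ^ 2 ≤ 1 / 4 := by
        rw [div_le_iff₀ (by positivity)]
        nlinarith
      linarith
    exact contDiffAt_const.congr_of_eventuallyEq hev
  · have hs : x - a ≠ 0 := sub_ne_zero.2 hx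
    refine ContDiffAt.mul ?_ (bdphi_cd K σ c a x hx)
    have h0 : ContDiffAt ℝ 2 (fun z : ℂ => 2 * (‖z - a‖ ^ 2 / r ^ 2) - 1) x := by
      have h1 : ContDiffAt ℝ 2 (fun z : ℂ => ‖z - a‖ ^ 2) x :=
        (contDiff_norm_sq ℝ).contDiffAt.comp x (contDiffAt_id.sub contDiffAt_const)
      exact (contDiffAt_const.mul (h1.div_const _)).sub contDiffAt_const
    have h3 : ContDiffAt ℝ 2 Real.smoothTransition (2 * (‖x - a‖ ^ 2 / r ^ 2) - 1) :=
      Real.smoothTransition.contDiff.contDiffAt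
    exact h3.comp x h0

private theorem bdcut_eq (K σ c : ℝ) (a : ℂ) (r : ℝ) (hr : 0 < r) (z : ℂ) (hz : r ≤ ‖z - a‖) :
    bdcut K σ c a r z = bdphi K σ c (Real.log ‖z - a‖) := by
  unfold bdcut
  rw [Real.smoothTransition.one_of_one_le, one_mul]
  have h1 : 1 ≤ ‖z - a‖ ^ 2 / r ^ 2 := by
    rw [one_le_div (by positivity)]
    exact pow_le_pow_left₀ hr.le hz 2
  linarith

private theorem bd_fib (F : ℂ[X][X]) (hF : F.Monic) (x y : ℂ) :
    y ∈ fib F x ↔ (at_ F x).eval y = 0 := by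
  have h0 : at_ F x ≠ 0 := (hF.map (evalRingHom x)).ne_zero
  unfold fib
  rw [Multiset.mem_toFinset, mem_roots h0, IsRoot.def]

private theorem bd_annulus (F : ℂ[X][X]) (hF : F.Monic) (h : ℂ → ℂ → ℝ) (H : ℂ → ℝ)
    (hh : ∀ x y, OnX F x y → |h x y| ≤ H x) (v : ℂ → ℂ → ℝ) (hv : IsSol F h v)
    (a : ℂ) (r1 r2 C K σ c M : ℝ) (hr1 : 0 < r1)
    (hsep : ∀ x, r1 ≤ ‖x - a‖ → ‖x - a‖ ≤ r2 → (at_ F x).Separable)
    (hK : 2 * Real.pi * C < K * σ ^ 2)
    (hHC : ∀ x, r1 ≤ ‖x - a‖ → ‖x - a‖ ≤ r2 → H x ≤ C * ‖x - a‖ ^ (σ - 2))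
    (hM : ∀ x y, OnX F x y → (‖x - a‖ = r1 ∨ ‖x - a‖ = r2) →
      v x y + bdphi K σ c (Real.log ‖x - a‖) ≤ M) :
    ∀ x y, OnX F x y → r1 ≤ ‖x - a‖ → ‖x - a‖ ≤ r2 →
      v x y + bdphi K σ c (Real.log ‖x - a‖) ≤ M := by
  set A : Set ℂ := closedBall a r2 \ ball a r1 with hA
  have hmem : ∀ z, z ∈ A ↔ r1 ≤ ‖z - a‖ ∧ ‖z - a‖ ≤ r2 := by
    intro z
    rw [hA, Set.mem_sdiff, mem_closedBall_iff_norm, mem_ball_iff_norm, not_lt]
    tauto
  have hAc : IsCompact A := (isCompact_closedBall a r2).diff isOpen_ball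
  have hfib : ∀ x ∈ A, ∀ y, y ∈ fib F x ↔ OnX F x y := by
    intro x hx y
    have hs := hsep x ((hmem x).1 hx).1 ((hmem x).1 hx).2
    rw [bd_fib F hF]
    exact ⟨fun h => ⟨hs, h⟩, fun h => h.2⟩
  have key := maxp F hF A hAc (fun x hx => hsep x ((hmem x).1 hx).1 ((hmem x).1 hx).2)
    (fun x y => v x y + bdcut K σ c a r1 x) ?_ ?_ M ?_
  · intro x y hxy h1 h2
    have hxA : x ∈ A := (hmem x).2 ⟨h1, h2⟩
    have h3 := key x hxA y ((hfib x hxA y).2 hxy)
    rwa [bdcut_eq K σ c a r1 hr1 x h1] at h3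
  · intro U Y hU
    exact (hv.smooth U Y hU).add (bdcut_cd K σ c a r1 hr1).contDiffOn
  · intro U Y hU x hx hxi
    have hUo : IsOpen U := hU.1
    have hxA : x ∈ A := interior_subset hxi
    obtain ⟨h1, h2⟩ := (hmem x).1 hxA
    have hn : 0 < ‖x - a‖ := hr1.trans_le h1
    have hxa : x ≠ a := by
      rintro rfl
      simp at hn
    have hev : (fun z => v z (Y z) + bdcut K σ c a r1 z) =ᶠ[𝓝 x]
        ((fun z => v z (Y z)) + fun z => bdphi K σ c (Real.log ‖z - a‖)) := by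
      filter_upwards [isOpen_interior.mem_nhds hxi] with z hz
      simp only [Pi.add_apply]
      rw [bdcut_eq K σ c a r1 hr1 z ((hmem z).1 (interior_subset hz)).1]
    have hcd : ContDiffAt ℝ 2 (fun z => v z (Y z)) x := (hv.smooth U Y hU).contDiffAt
      (hUo.mem_nhds hx)
    rw [InnerProductSpace.laplacian_congr_nhds hev |>.eq_of_nhds,
      hcd.laplacian_add (bdphi_cd K σ c a x hxa), bdphi_lap K σ c a x hxa, hv.lap U Y hU x hx]
    have hon : OnX F x (Y x) := hU.2.2 x hx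
    have h3 := (abs_le.1 (hh x (Y x) hon)).1
    have h4 := hHC x h1 h2
    have hp : 0 < ‖x - a‖ ^ (σ - 2) := Real.rpow_pos_of_pos hn _
    have hpi := Real.pi_pos
    have h5 : -(C * ‖x - a‖ ^ (σ - 2)) ≤ h x (Y x) := by linarith
    have h6 : -(2 * Real.pi * C * ‖x - a‖ ^ (σ - 2)) ≤ 2 * Real.pi * h x (Y x) := by
      have := mul_le_mul_of_nonneg_left h5 (by positivity : 0 ≤ 2 * Real.pi)
      linarith
    have h7 := mul_lt_mul_of_pos_right hK hp
    linarith
  · intro x hx y hy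
    have hcl : IsClosed A := hAc.isClosed
    have hxA : x ∈ A := hcl.frontier_subset hx
    obtain ⟨h1, h2⟩ := (hmem x).1 hxA
    rw [bdcut_eq K σ c a r1 hr1 x h1]
    refine hM x y ((hfib x hxA y).1 hy) ?_
    by_contra hcon
    push Not at hcon
    have h3 : r1 < ‖x - a‖ := lt_of_le_of_ne h1 (Ne.symm hcon.1)
    have h4 : ‖x - a‖ < r2 := lt_of_le_of_ne h2 hcon.2
    have hint : x ∈ interior A := by
      rw [mem_interior]
      refine ⟨{z | r1 < ‖z - a‖ ∧ ‖z - a‖ < r2}, ?_, ?_, ⟨h3, h4⟩⟩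
      · intro z hz
        exact (hmem z).2 ⟨hz.1.le, hz.2.le⟩
      · have hc : Continuous fun z : ℂ => ‖z - a‖ := (continuous_id.sub continuous_const).norm
        exact (isOpen_lt continuous_const hc).inter (isOpen_lt hc continuous_const)
    exact hx.2 hint

private theorem bd_neg (F : ℂ[X][X]) (hF : F.Monic) (h : ℂ → ℂ → ℝ) (v : ℂ → ℂ → ℝ)
    (hv : IsSol F h v) : IsSol F (fun x y => -h x y) (fun x y => -v x y) := by
  refine ⟨fun U Y hU => (hv.smooth U Y hU).neg, ?_, ?_⟩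
  · intro U Y hU x hx
    have h1 := congrFun (InnerProductSpace.laplacian_neg (f := fun x => v x (Y x))) x
    have h2 : (fun x => -v x (Y x)) = -(fun x => v x (Y x)) := rfl
    rw [h2, h1, Pi.neg_apply, hv.lap U Y hU x hx]
    ring
  · refine hv.energy.congr ?_
    refine Filter.Eventually.of_forall fun x => ?_
    refine Finset.sum_congr rfl fun y _ => ?_
    have h3 : D F (fun x y => -v x y) x y = -D F v x y := by
      unfold D
      split_ifs with hex
      · unfold dz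
        have h4 : (fun x' => -v x' (hex.choose x')) = -(fun x' => v x' (hex.choose x')) := rfl
        rw [h4, fderiv_neg]
        simp only [neg_apply]
        push_cast
        ring
      · simp
    rw [h3, norm_neg]

variable (F : ℂ[X][X]) (hF : F.Monic) (b : ℂ) (hb : (at_ F b).Separable)

include hF hb

private theorem bdA_up (hirr : Irreducible F) (h : ℂ → ℂ → ℝ) (H : ℂ → ℝ) (hH : IsWt F H)
    (hh : ∀ x y, OnX F x y → |h x y| ≤ H x) (v : ℂ → ℂ → ℝ) (hv : IsSol F h v) (a : ℂ)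
    (ha : ¬ (at_ F a).Separable) :
    ∃ M R : ℝ, 0 < R ∧ ∀ x y, OnX F x y → x ∈ ball a R → v x y ≤ M := by
  obtain ⟨C, τ, R0, hτ, hR0, hC⟩ := hH.near a ha
  obtain ⟨R1, hR1, hsep⟩ : ∃ R1 > 0, ∀ x ∈ ball a R1, x ≠ a → (at_ F x).Separable := by
    have hfin : ({x : ℂ | ¬ (at_ F x).Separable} \ {a}).Finite :=
      (bad_finite F hF b hb).subset Set.sdiff_subset
    have hop : IsOpen ({x : ℂ | ¬ (at_ F x).Separable} \ {a})ᶜ := hfin.isClosed.isOpen_compl
    have hmem : a ∈ ({x : ℂ | ¬ (at_ F x).Separable} \ {a})ᶜ := by simp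
    obtain ⟨r, hr, hsub⟩ := Metric.isOpen_iff.1 hop a hmem
    refine ⟨r, hr, fun x hx hxa => ?_⟩
    by_contra hcon
    exact hsub hx ⟨hcon, hxa⟩
  set R : ℝ := min R0 R1 / 2 with hR
  have hRpos : 0 < R := by
    have := lt_min hR0 hR1
    positivity
  have hRR0 : R < R0 := by
    have := min_le_left R0 R1
    rw [hR]
    linarith
  have hRR1 : R < R1 := by
    have := min_le_right R0 R1
    rw [hR]
    linarith
  have hs : ∀ x, 0 < ‖x - a‖ → ‖x - a‖ ≤ R → (at_ F x).Separable := by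
    intro x h1 h2
    refine hsep x (mem_ball_iff_norm.2 (h2.trans_lt hRR1)) ?_
    rintro rfl
    simp at h1
  obtain ⟨M0, hM0⟩ := bdd_cpt F hF b hb v (fun U Y hU => (hv.smooth U Y hU).continuousOn)
    (sphere a R) (isCompact_sphere a R) (fun x hx => by
      rw [mem_sphere_iff_norm] at hx
      exact hs x (hx ▸ hRpos) hx.le)
  set K : ℝ := (2 * Real.pi * |C| + 1) / τ ^ 2 with hKdef
  have hpi := Real.pi_pos
  have hKpos : 0 < K := by positivity
  have hK : 2 * Real.pi * C < K * τ ^ 2 := by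
    rw [hKdef, div_mul_cancel₀ _ (by positivity)]
    have := le_abs_self C
    nlinarith
  have hon : ∀ x y, OnX F x y → y ∈ fib F x := by
    intro x y hxy
    rw [bd_fib F hF]
    exact hxy.2
  -- the bound with `ε`
  have key : ∀ ε : ℝ, 0 < ε → ∀ x y, OnX F x y → 0 < ‖x - a‖ → ‖x - a‖ ≤ R →
      v x y + bdphi K τ ε (Real.log ‖x - a‖) ≤ M0 + K * R ^ τ + ε * |Real.log R| := by
    intro ε hε x y hxy hx0 hxR
    obtain ⟨C', R', hR', hg⟩ := growA F hF b hb hirr h H hH hh v hv a ha (ε / 2) (by positivity)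
    set δ : ℝ := min (min ‖x - a‖ (R' / 2)) (Real.exp (2 * (M0 - C') / ε)) with hδ
    have hδpos : 0 < δ := lt_min (lt_min hx0 (by positivity)) (Real.exp_pos _)
    have hδx : δ ≤ ‖x - a‖ := (min_le_left _ _).trans (min_le_left _ _)
    have hδR' : δ < R' := by
      have : δ ≤ R' / 2 := (min_le_left _ _).trans (min_le_right _ _)
      linarith
    have hδl : Real.log δ ≤ 2 * (M0 - C') / ε := by
      rw [← Real.log_exp (2 * (M0 - C') / ε)]
      exact Real.log_le_log hδpos (min_le_right _ _)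
    have hδR : δ ≤ R := hδx.trans hxR
    refine bd_annulus F hF h H hh v hv a δ R C K τ ε _ hδpos ?_ hK ?_ ?_ x y hxy hδx hxR
    · intro z h1 h2
      exact hs z (hδpos.trans_le h1) h2
    · intro z h1 h2
      refine hC z (mem_ball_iff_norm.2 (h2.trans_lt hRR0)) ?_
      rintro rfl
      simp at h1
      linarith
    · intro z w hzw hz
      rcases hz with hz | hz
      · -- the small circle
        have h1 := hg z w hzw (mem_ball_iff_norm.2 (hz ▸ hδR')) (by
          rintro rfl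
          simp at hz
          linarith)
        rw [hz] at h1 ⊢
        have h2 := (abs_le.1 h1).2
        have h3 : Real.exp (τ * Real.log δ) ≤ R ^ τ := by
          rw [mul_comm, ← Real.rpow_def_of_pos hδpos]
          exact Real.rpow_le_rpow hδpos.le hδR hτ.le
        have h4 : ε * Real.log δ ≤ 2 * (M0 - C') := by
          have := mul_le_mul_of_nonneg_left hδl hε.le
          rwa [mul_div_cancel₀ _ hε.ne'] at this
        have h5 : 0 ≤ ε * |Real.log R| := by positivity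
        have h6 := mul_le_mul_of_nonneg_left h3 hKpos.le
        unfold bdphi
        linarith
      · -- the large circle
        have h1 := hM0 z (mem_sphere_iff_norm.2 hz) w (hon z w hzw)
        rw [hz]
        have h2 := (abs_le.1 h1).2
        have h3 : Real.exp (τ * Real.log R) = R ^ τ := by
          rw [mul_comm, ← Real.rpow_def_of_pos hRpos]
        have h4 : ε * Real.log R ≤ ε * |Real.log R| :=
          mul_le_mul_of_nonneg_left (le_abs_self _) hε.le
        unfold bdphi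
        rw [h3]
        linarith
  refine ⟨M0 + K * R ^ τ, R, hRpos, ?_⟩
  intro x y hxy hx
  rw [mem_ball_iff_norm] at hx
  have hxa : x ≠ a := by
    rintro rfl
    exact ha hxy.1
  have hx0 : 0 < ‖x - a‖ := norm_pos_iff.2 (sub_ne_zero.2 hxa)
  have h1 : ∀ ε : ℝ, 0 < ε →
      v x y ≤ M0 + K * R ^ τ + ε * (|Real.log R| + |Real.log ‖x - a‖|) := by
    intro ε hε
    have h2 := key ε hε x y hxy hx0 hx.le
    unfold bdphi at h2
    have h3 : 0 < K * Real.exp (τ * Real.log ‖x - a‖) := by positivity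
    have h4 : -(ε * |Real.log ‖x - a‖|) ≤ ε * Real.log ‖x - a‖ := by
      have := mul_le_mul_of_nonneg_left (neg_abs_le (Real.log ‖x - a‖)) hε.le
      linarith
    linarith
  refine le_of_forall_pos_le_add fun η hη => ?_
  set L : ℝ := |Real.log R| + |Real.log ‖x - a‖| with hL
  have hL0 : 0 ≤ L := by positivity
  have h5 := h1 (η / (L + 1)) (by positivity)
  have h6 : η / (L + 1) * L ≤ η := by
    rw [div_mul_eq_mul_div, div_le_iff₀ (by positivity)]
    nlinarith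
  linarith

private theorem bdB_up (hirr : Irreducible F) (h : ℂ → ℂ → ℝ) (H : ℂ → ℝ) (hH : IsWt F H)
    (hh : ∀ x y, OnX F x y → |h x y| ≤ H x) (v : ℂ → ℂ → ℝ) (hv : IsSol F h v) :
    ∃ M R : ℝ, 0 < R ∧ ∀ x y, OnX F x y → R ≤ ‖x‖ → v x y ≤ M := by
  obtain ⟨C, τ, R0, hτ, hR0, hC⟩ := hH.far
  obtain ⟨R1, hR1⟩ := (bad_finite F hF b hb).isBounded.exists_norm_le
  set R : ℝ := max (max R0 (R1 + 1)) 1 with hR
  have hR1le : 1 ≤ R := le_max_right _ _
  have hRpos : 0 < R := by linarith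
  have hRR0 : R0 ≤ R := (le_max_left _ _).trans (le_max_left _ _)
  have hRR1 : R1 < R := by
    have : R1 + 1 ≤ R := (le_max_right _ _).trans (le_max_left _ _)
    linarith
  have hs : ∀ x : ℂ, R ≤ ‖x‖ → (at_ F x).Separable := by
    intro x h1
    by_contra hcon
    have := hR1 x hcon
    linarith
  obtain ⟨M0, hM0⟩ := bdd_cpt F hF b hb v (fun U Y hU => (hv.smooth U Y hU).continuousOn)
    (sphere 0 R) (isCompact_sphere 0 R) (fun x hx => by
      rw [mem_sphere_zero_iff_norm] at hx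
      exact hs x hx.ge)
  set K : ℝ := (2 * Real.pi * |C| + 1) / τ ^ 2 with hKdef
  have hpi := Real.pi_pos
  have hKpos : 0 < K := by positivity
  have hK : 2 * Real.pi * C < K * (-τ) ^ 2 := by
    rw [neg_sq, hKdef, div_mul_cancel₀ _ (by positivity)]
    have := le_abs_self C
    nlinarith
  have hon : ∀ x y, OnX F x y → y ∈ fib F x := by
    intro x y hxy
    rw [bd_fib F hF]
    exact hxy.2
  have hexp : ∀ T : ℝ, 1 ≤ T → Real.exp (-τ * Real.log T) ≤ 1 := by
    intro T hT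
    rw [Real.exp_le_one_iff]
    have := mul_nonneg hτ.le (Real.log_nonneg hT)
    linarith
  -- the bound with `ε`
  have key : ∀ ε : ℝ, 0 < ε → ∀ x y, OnX F x y → R ≤ ‖x‖ →
      v x y + bdphi K (-τ) (-ε) (Real.log ‖x‖) ≤ M0 + K := by
    intro ε hε x y hxy hxR
    obtain ⟨C', R', hR', hg⟩ := growB F hF b hb hirr h H hH hh v hv (ε / 2) (by positivity)
    set T : ℝ := max (max ‖x‖ R') (Real.exp (2 * (C' - M0) / ε)) with hT
    have hTx : ‖x‖ ≤ T := (le_max_left _ _).trans (le_max_left _ _)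
    have hTR' : R' ≤ T := (le_max_right _ _).trans (le_max_left _ _)
    have hTR : R ≤ T := hxR.trans hTx
    have hTpos : 0 < T := hRpos.trans_le hTR
    have hTl : 2 * (C' - M0) / ε ≤ Real.log T := by
      rw [← Real.log_exp (2 * (C' - M0) / ε)]
      exact Real.log_le_log (Real.exp_pos _) (le_max_right _ _)
    have hann := bd_annulus F hF h H hh v hv 0 R T C K (-τ) (-ε) (M0 + K) hRpos ?_ hK ?_ ?_ x y hxy
      (by rwa [sub_zero]) (by rwa [sub_zero])
    · rwa [sub_zero] at hann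
    · intro z h1 _
      rw [sub_zero] at h1
      exact hs z h1
    · intro z h1 _
      rw [sub_zero] at h1 ⊢
      exact hC z (hRR0.trans h1)
    · intro z w hzw hz
      rw [sub_zero] at hz ⊢
      rcases hz with hz | hz
      · -- the small circle
        have h1 := hM0 z (mem_sphere_zero_iff_norm.2 hz) w (hon z w hzw)
        rw [hz]
        have h2 := (abs_le.1 h1).2
        have h3 := mul_le_mul_of_nonneg_left (hexp R hR1le) hKpos.le
        have h4 : 0 ≤ ε * Real.log R := mul_nonneg hε.le (Real.log_nonneg hR1le)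
        unfold bdphi
        linarith
      · -- the large circle
        have h1 := hg z w hzw (hz ▸ hTR')
        rw [hz] at h1 ⊢
        have h2 := (abs_le.1 h1).2
        have h3 := mul_le_mul_of_nonneg_left (hexp T (hR1le.trans hTR)) hKpos.le
        have h4 : 2 * (C' - M0) ≤ ε * Real.log T := by
          have := mul_le_mul_of_nonneg_left hTl hε.le
          rwa [mul_div_cancel₀ _ hε.ne'] at this
        unfold bdphi
        linarith
  refine ⟨M0 + K, R, hRpos, ?_⟩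
  intro x y hxy hx
  have h1 : ∀ ε : ℝ, 0 < ε → v x y ≤ M0 + K + ε * |Real.log ‖x‖| := by
    intro ε hε
    have h2 := key ε hε x y hxy hx
    unfold bdphi at h2
    have h3 : 0 < K * Real.exp (-τ * Real.log ‖x‖) := by positivity
    have h4 : ε * Real.log ‖x‖ ≤ ε * |Real.log ‖x‖| :=
      mul_le_mul_of_nonneg_left (le_abs_self _) hε.le
    linarith
  refine le_of_forall_pos_le_add fun η hη => ?_
  set L : ℝ := |Real.log ‖x‖| with hL
  have hL0 : 0 ≤ L := abs_nonneg _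
  have h5 := h1 (η / (L + 1)) (by positivity)
  have h6 : η / (L + 1) * L ≤ η := by
    rw [div_mul_eq_mul_div, div_le_iff₀ (by positivity)]
    nlinarith
  linarith

theorem bdA (hirr : Irreducible F) (h : ℂ → ℂ → ℝ) (H : ℂ → ℝ) (hH : IsWt F H)
    (hh : ∀ x y, OnX F x y → |h x y| ≤ H x) (v : ℂ → ℂ → ℝ) (hv : IsSol F h v) (a : ℂ)
    (ha : ¬ (at_ F a).Separable) :
    ∃ M R : ℝ, 0 < R ∧ ∀ x y, OnX F x y → x ∈ ball a R → |v x y| ≤ M := by
  obtain ⟨M1, R1, hR1, h1⟩ := bdA_up F hF b hb hirr h H hH hh v hv a ha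
  obtain ⟨M2, R2, hR2, h2⟩ := bdA_up F hF b hb hirr (fun x y => -h x y) H hH
    (fun x y hxy => by rw [abs_neg]; exact hh x y hxy) (fun x y => -v x y)
    (bd_neg F hF h v hv) a ha
  refine ⟨max M1 M2, min R1 R2, lt_min hR1 hR2, fun x y hxy hx => ?_⟩
  have e1 := h1 x y hxy (ball_subset_ball (min_le_left _ _) hx)
  have e2 := h2 x y hxy (ball_subset_ball (min_le_right _ _) hx)
  rw [abs_le]
  have e3 := le_max_left M1 M2
  have e4 := le_max_right M1 M2
  constructor <;> linarith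

theorem bdB (hirr : Irreducible F) (h : ℂ → ℂ → ℝ) (H : ℂ → ℝ) (hH : IsWt F H)
    (hh : ∀ x y, OnX F x y → |h x y| ≤ H x) (v : ℂ → ℂ → ℝ) (hv : IsSol F h v) :
    ∃ M R : ℝ, 0 < R ∧ ∀ x y, OnX F x y → R ≤ ‖x‖ → |v x y| ≤ M := by
  obtain ⟨M1, R1, hR1, h1⟩ := bdB_up F hF b hb hirr h H hH hh v hv
  obtain ⟨M2, R2, hR2, h2⟩ := bdB_up F hF b hb hirr (fun x y => -h x y) H hH
    (fun x y hxy => by rw [abs_neg]; exact hh x y hxy) (fun x y => -v x y)
    (bd_neg F hF h v hv)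
  refine ⟨max M1 M2, max R1 R2, lt_max_of_lt_left hR1, fun x y hxy hx => ?_⟩
  have e1 := h1 x y hxy ((le_max_left _ _).trans hx)
  have e2 := h2 x y hxy ((le_max_right _ _).trans hx)
  rw [abs_le]
  have e3 := le_max_left M1 M2
  have e4 := le_max_right M1 M2
  constructor <;> linarith

theorem bdd_sol (hirr : Irreducible F) (h : ℂ → ℂ → ℝ) (H : ℂ → ℝ) (hH : IsWt F H)
    (hh : ∀ x y, OnX F x y → |h x y| ≤ H x) (v : ℂ → ℂ → ℝ) (hv : IsSol F h v) :
    ∃ M : ℝ, ∀ x y, OnX F x y → |v x y| ≤ M := by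
  obtain ⟨M1, R1, hR1, h1⟩ := bdB F hF b hb hirr h H hH hh v hv
  have hloc : ∀ a : ℂ, ¬ (at_ F a).Separable → ∃ M R : ℝ, 0 < R ∧
      ∀ x y, OnX F x y → x ∈ ball a R → |v x y| ≤ M :=
    fun a ha => bdA F hF b hb hirr h H hH hh v hv a ha
  choose! MA RA hRA hA using hloc
  have hfin := bad_finite F hF b hb
  set S : Set ℂ := {x : ℂ | ¬ (at_ F x).Separable} with hS
  set Kc : Set ℂ := closedBall 0 R1 \ ⋃ a ∈ S, ball a (RA a) with hKc
  have hKcc : IsCompact Kc :=
    (isCompact_closedBall 0 R1).diff (isOpen_biUnion fun a _ => isOpen_ball)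
  obtain ⟨M2, h2⟩ := bdd_cpt F hF b hb v (fun U Y hU => (hv.smooth U Y hU).continuousOn) Kc hKcc
    (fun x hx => by
      by_contra hcon
      refine hx.2 (Set.mem_biUnion (show x ∈ S from hcon) ?_)
      exact mem_ball_self (hRA x hcon))
  obtain ⟨M3, h3⟩ : ∃ M3 : ℝ, ∀ a ∈ S, MA a ≤ M3 := by
    obtain ⟨M3, h3⟩ := (hfin.image MA).bddAbove
    exact ⟨M3, fun a ha => h3 (Set.mem_image_of_mem _ ha)⟩
  refine ⟨max M1 (max M2 M3), fun x y hxy => ?_⟩
  by_cases hx : R1 ≤ ‖x‖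
  · exact (h1 x y hxy hx).trans (le_max_left _ _)
  · by_cases hx2 : x ∈ ⋃ a ∈ S, ball a (RA a)
    · simp only [Set.mem_iUnion] at hx2
      obtain ⟨a, ha, hxa⟩ := hx2
      exact ((hA a ha x y hxy hxa).trans (h3 a ha)).trans
        ((le_max_right _ _).trans (le_max_right _ _))
    · have hxK : x ∈ Kc := by
        refine ⟨?_, hx2⟩
        rw [mem_closedBall_zero_iff]
        exact (not_le.1 hx).le
      have hy : y ∈ fib F x := by
        rw [bd_fib F hF]
        exact hxy.2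
      exact (h2 x hxK y hy).trans ((le_max_left _ _).trans (le_max_right _ _))

end EGR
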