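import Pool.Agent.EGR.Sum

/-!
The curve is connected: a set of points which with a point contains the whole branches through it
(over connected sets) is empty or everything, if `F` is irreducible in `ℂ[x][y]`.

PROOF. Let `P_x = ∏_{y ∈ fib F x, R x y} (T - y)` and `P'_x` the same product for `¬ R`. Locally over
the separable points the coefficients of `P_x` are holomorphic (products over some of the branches).
The roots of `F(x, ·)` are `O((1 + |x|)^k)` (`F` monic in `y`), so the coefficients of `D(x) P_x`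
are entire functions of polynomial growth, where `D` is a polynomial with double zeros at the
nonseparable points; they are polynomials. So there is `Q ∈ ℂ[x][y]` with `at_ Q x = D(x) P_x` for
all `x`, in the same way `Q'` for the complement of `R`, and `Q * Q' = D^2 F`. So `F ∣ Q` or
`F ∣ Q'`; in the first case `R` holds at all points (over separable `x`), in the second nowhere.
-/

open Polynomial MeasureTheory Metric ComplexConjugate Filter Topology

namespace EGR

open ALC

/-- an entire function of polynomial growth is a polynomial -/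
private lemma poly_of_growth (f : ℂ → ℂ) (hf : Differentiable ℂ f) (C : ℝ) (K : ℕ)
    (hC : ∀ x, ‖f x‖ ≤ C * (1 + ‖x‖) ^ K) : ∃ p : ℂ[X], ∀ x, p.eval x = f x := by
  have hC0 : 0 ≤ C := by
    have := (norm_nonneg _).trans (hC 0)
    simpa using this
  have hz : ∀ n, K < n → iteratedDeriv n f 0 = 0 := by
    intro n hn
    have h1 : ∀ r : ℝ, 1 ≤ r → ‖iteratedDeriv n f 0‖ ≤ (n.factorial * (C * 2 ^ K)) / r := by
      intro r hr
      have hr0 : 0 < r := by linarith
      have h2 := Complex.norm_iteratedDeriv_le_of_forall_mem_sphere_norm_le (c := 0) (R := r)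
        (C := C * (2 * r) ^ K) (f := f) n hr0 hf.diffContOnCl (by
          intro z hz
          rw [mem_sphere_zero_iff_norm] at hz
          refine (hC z).trans ?_
          rw [hz]
          gcongr
          linarith)
      refine h2.trans ?_
      rw [div_le_div_iff₀ (by positivity) hr0]
      have h3 : r ^ (K + 1) ≤ r ^ n := pow_le_pow_right₀ hr hn
      have h4 : 0 ≤ (n.factorial : ℝ) * (C * 2 ^ K) := by positivity
      calc (n.factorial : ℝ) * (C * (2 * r) ^ K) * r = n.factorial * (C * 2 ^ K) * r ^ (K + 1) := by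
            ring
        _ ≤ n.factorial * (C * 2 ^ K) * r ^ n := mul_le_mul_of_nonneg_left h3 h4
    have h5 : Tendsto (fun r : ℝ => (n.factorial * (C * 2 ^ K)) / r) atTop (𝓝 0) :=
      tendsto_const_nhds.div_atTop tendsto_id
    have h6 : ‖iteratedDeriv n f 0‖ ≤ 0 :=
      ge_of_tendsto h5 ((eventually_ge_atTop 1).mono h1)
    exact norm_le_zero_iff.1 h6
  refine ⟨∑ n ∈ Finset.range (K + 1), Polynomial.C ((n.factorial : ℂ)⁻¹ * iteratedDeriv n f 0) *
    X ^ n, fun x => ?_⟩
  rw [eval_finsetSum]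
  have h1 := Complex.taylorSeries_eq_of_entire' (c := 0) (z := x) hf
  rw [← h1, tsum_eq_sum (s := Finset.range (K + 1))]
  · refine Finset.sum_congr rfl fun n _ => ?_
    simp
  · intro n hn
    rw [hz n (by simpa [Nat.lt_succ_iff] using hn)]
    simp

/-- polynomials have polynomial growth -/
private lemma growth_poly (p : ℂ[X]) : ∃ C : ℝ, 0 ≤ C ∧ ∃ K : ℕ, ∀ x, ‖p.eval x‖ ≤
    C * (1 + ‖x‖) ^ K := by
  refine ⟨∑ i ∈ Finset.range (p.natDegree + 1), ‖p.coeff i‖, by positivity, p.natDegree,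
    fun x => ?_⟩
  rw [eval_eq_sum_range, Finset.sum_mul]
  refine (norm_sum_le _ _).trans (Finset.sum_le_sum fun i hi => ?_)
  rw [norm_mul, norm_pow]
  have hx : 0 ≤ ‖x‖ := norm_nonneg x
  have h1 : ‖x‖ ^ i ≤ (1 + ‖x‖) ^ i := by gcongr; linarith
  have h2 : (1 + ‖x‖) ^ i ≤ (1 + ‖x‖) ^ p.natDegree :=
    pow_le_pow_right₀ (by linarith) (Nat.lt_succ_iff.1 (Finset.mem_range.1 hi))
  gcongr
  exact h1.trans h2

/-- removal of the singularities -/
private lemma ent (g : ℂ → ℂ) (Z : Finset ℂ) (C : ℝ) (K : ℕ)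
    (hC : ∀ x, ‖g x‖ ≤ C * (1 + ‖x‖) ^ K) (hd : ∀ x ∉ Z, DifferentiableAt ℂ g x) :
    ∃ p : ℂ[X], ∀ x, p.eval x = ((∏ a ∈ Z, (X - Polynomial.C a)) ^ 2 : ℂ[X]).eval x * g x := by
  set E : ℂ[X] := (∏ a ∈ Z, (X - Polynomial.C a)) ^ 2 with hE
  have hC0 : 0 ≤ C := by
    have := (norm_nonneg _).trans (hC 0)
    simpa using this
  obtain ⟨C1, hC1, K1, h1⟩ := growth_poly E
  refine poly_of_growth (fun x => E.eval x * g x) ?_ (C1 * C) (K1 + K) ?_
  · intro a
    by_cases ha : a ∈ Z
    · obtain ⟨E', hE'⟩ : ∃ E' : ℂ[X], E = (X - Polynomial.C a) ^ 2 * E' := by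
        refine ⟨(∏ b ∈ Z.erase a, (X - Polynomial.C b)) ^ 2, ?_⟩
        rw [hE, ← Finset.mul_prod_erase Z _ ha, mul_pow]
      have hb : (fun x => E'.eval x * g x) =O[𝓝 a] fun _ => (1 : ℝ) := by
        obtain ⟨C2, hC2, K2, h2⟩ := growth_poly E'
        refine Asymptotics.IsBigO.of_bound (C2 * C * (1 + (‖a‖ + 1)) ^ (K2 + K)) ?_
        filter_upwards [ball_mem_nhds a one_pos] with x hx
        have hx1 : ‖x‖ ≤ ‖a‖ + 1 := by
          have := norm_sub_norm_le x a
          rw [mem_ball_iff_norm] at hx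
          linarith
        rw [norm_mul, norm_one, mul_one]
        have hxn : 0 ≤ ‖x‖ := norm_nonneg x
        calc ‖E'.eval x‖ * ‖g x‖ ≤ (C2 * (1 + ‖x‖) ^ K2) * (C * (1 + ‖x‖) ^ K) :=
              mul_le_mul (h2 x) (hC x) (norm_nonneg _) (by positivity)
          _ = C2 * C * (1 + ‖x‖) ^ (K2 + K) := by rw [pow_add]; ring
          _ ≤ C2 * C * (1 + (‖a‖ + 1)) ^ (K2 + K) := by gcongr
      have hfa : E.eval a * g a = 0 := by
        rw [hE']
        simp
      have h3 : (fun x => E.eval x * g x) =O[𝓝 a] fun x => ‖x - a‖ ^ 2 := by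
        have h4 : (fun x : ℂ => (x - a) ^ 2 * (E'.eval x * g x)) =O[𝓝 a]
            fun x => (‖x - a‖ ^ 2) * (1 : ℝ) := by
          refine Asymptotics.IsBigO.mul ?_ hb
          refine Asymptotics.IsBigO.of_bound 1 (Eventually.of_forall fun x => ?_)
          simp
        refine (h4.congr (fun x => ?_) (fun x => ?_))
        · rw [hE']
          simp
          ring
        · ring
      exact (h3.hasFDerivAt (by norm_num)).differentiableAt
    · exact (E.differentiable a).mul (hd a ha)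
  · intro x
    rw [norm_mul]
    have hxn : 0 ≤ ‖x‖ := norm_nonneg x
    calc ‖E.eval x‖ * ‖g x‖ ≤ (C1 * (1 + ‖x‖) ^ K1) * (C * (1 + ‖x‖) ^ K) :=
          mul_le_mul (h1 x) (hC x) (norm_nonneg _) (by positivity)
      _ = C1 * C * (1 + ‖x‖) ^ (K1 + K) := by rw [pow_add]; ring

/-- the coefficients of a product -/
private lemma coeff_mul' (y : ℂ) (q : ℂ[X]) (k : ℕ) :
    ((X - C y) * q).coeff k = (if k = 0 then 0 else q.coeff (k - 1)) - y * q.coeff k := by
  rw [sub_mul, coeff_sub, coeff_C_mul]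
  rcases k with _ | k
  · simp
  · simp [coeff_X_mul]

private lemma coeff_bound (B : ℝ) (hB : 0 ≤ B) (s : Finset ℂ) (hs : ∀ y ∈ s, ‖y‖ ≤ B) :
    ∀ k, ‖(∏ y ∈ s, (X - C y) : ℂ[X]).coeff k‖ ≤ (1 + B) ^ s.card := by
  classical
  induction s using Finset.induction_on with
  | empty =>
    intro k
    rw [Finset.prod_empty, coeff_one]
    split_ifs <;> simp
  | insert a s ha ih =>
    intro k
    have ih' := ih fun y hy => hs y (Finset.mem_insert_of_mem hy)
    have haB := hs a (Finset.mem_insert_self a s)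
    rw [Finset.prod_insert ha, Finset.card_insert_of_notMem ha, coeff_mul']
    refine (norm_sub_le _ _).trans ?_
    have h1 : ‖(if k = 0 then (0 : ℂ) else (∏ y ∈ s, (X - C y) : ℂ[X]).coeff (k - 1))‖ ≤
        (1 + B) ^ s.card := by
      split_ifs
      · rw [norm_zero]; positivity
      · exact ih' _
    have h2 : ‖a * (∏ y ∈ s, (X - C y) : ℂ[X]).coeff k‖ ≤ B * (1 + B) ^ s.card := by
      rw [norm_mul]
      exact mul_le_mul haB (ih' k) (norm_nonneg _) hB
    calc _ ≤ (1 + B) ^ s.card + B * (1 + B) ^ s.card := add_le_add h1 h2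
      _ = (1 + B) ^ (s.card + 1) := by ring

private lemma coeff_diff {ι : Type} (s : Finset ι) (Y : ι → ℂ → ℂ) (x : ℂ)
    (hY : ∀ j ∈ s, DifferentiableAt ℂ (Y j) x) :
    ∀ k, DifferentiableAt ℂ (fun z => (∏ j ∈ s, (X - C (Y j z)) : ℂ[X]).coeff k) x := by
  classical
  induction s using Finset.induction_on with
  | empty =>
    intro k
    simp
  | insert a s ha ih =>
    intro k
    have ih' := ih fun y hy => hY y (Finset.mem_insert_of_mem hy)
    have haB := hY a (Finset.mem_insert_self a s)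
    have h1 : (fun z => (∏ j ∈ insert a s, (X - C (Y j z)) : ℂ[X]).coeff k) = fun z =>
        (if k = 0 then 0 else (∏ j ∈ s, (X - C (Y j z)) : ℂ[X]).coeff (k - 1)) -
          Y a z * (∏ j ∈ s, (X - C (Y j z)) : ℂ[X]).coeff k := by
      funext z
      rw [Finset.prod_insert ha, coeff_mul']
    rw [h1]
    refine DifferentiableAt.sub ?_ (haB.mul (ih' k))
    by_cases hk : k = 0
    · simp [hk]
    · simp only [hk, if_false]
      exact ih' _

variable (F : ℂ[X][X]) (hF : F.Monic)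

include hF

private lemma root_bound : ∃ C : ℝ, 0 ≤ C ∧ ∃ K : ℕ, ∀ x y, (at_ F x).eval y = 0 →
    ‖y‖ ≤ C * (1 + ‖x‖) ^ K := by
  choose Cc hCc Kc hKc using fun i : ℕ => growth_poly (F.coeff i)
  set S := Finset.range F.natDegree
  refine ⟨1 + ∑ i ∈ S, Cc i, by
    have : 0 ≤ ∑ i ∈ S, Cc i := Finset.sum_nonneg fun i _ => hCc i
    linarith, ∑ i ∈ S, Kc i, fun x y hy => ?_⟩
  have hx : 0 ≤ ‖x‖ := norm_nonneg x
  have hm : (at_ F x).Monic := hF.map _
  have hdeg : (at_ F x).natDegree = F.natDegree := hF.natDegree_map _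
  have hone : (1 : ℝ) ≤ (1 + ‖x‖) ^ ∑ i ∈ S, Kc i := one_le_pow₀ (by linarith)
  have hA : ∀ i ∈ S, ‖(at_ F x).coeff i‖ ≤ Cc i * (1 + ‖x‖) ^ ∑ i ∈ S, Kc i := by
    intro i hi
    have h1 : (at_ F x).coeff i = (F.coeff i).eval x := by
      rw [at_, coeff_map]
      rfl
    rw [h1]
    refine (hKc i x).trans ?_
    refine mul_le_mul_of_nonneg_left ?_ (hCc i)
    exact pow_le_pow_right₀ (by linarith) (Finset.single_le_sum (fun j _ => Nat.zero_le _) hi)
  have hsum : ∑ i ∈ S, ‖(at_ F x).coeff i‖ ≤ (∑ i ∈ S, Cc i) * (1 + ‖x‖) ^ ∑ i ∈ S, Kc i := by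
    rw [Finset.sum_mul]
    exact Finset.sum_le_sum hA
  have h0 : 0 ≤ ∑ i ∈ S, ‖(at_ F x).coeff i‖ := Finset.sum_nonneg fun i _ => norm_nonneg _
  have key : ‖y‖ ≤ 1 + ∑ i ∈ S, ‖(at_ F x).coeff i‖ := by
    by_contra hcon
    push Not at hcon
    have hy1 : 1 < ‖y‖ := by linarith
    have hev : y ^ F.natDegree = - ∑ i ∈ S, (at_ F x).coeff i * y ^ i := by
      rw [eval_eq_sum_range, hdeg, Finset.sum_range_succ] at hy
      have h2 : (at_ F x).coeff F.natDegree = 1 := by
        rw [← hdeg]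
        exact hm.coeff_natDegree
      rw [h2, one_mul] at hy
      exact eq_neg_of_add_eq_zero_right hy
    rcases Nat.eq_zero_or_pos F.natDegree with hd | hd
    · rw [hd] at hev
      have hS : S = ∅ := by
        simp [S, hd]
      rw [hS] at hev
      simp at hev
    · obtain ⟨m, hmm⟩ := Nat.exists_eq_succ_of_ne_zero hd.ne'
      have h3 : ‖y‖ ^ F.natDegree ≤ (∑ i ∈ S, ‖(at_ F x).coeff i‖) * ‖y‖ ^ m := by
        rw [← norm_pow, hev, norm_neg, Finset.sum_mul]
        refine (norm_sum_le _ _).trans (Finset.sum_le_sum fun i hi => ?_)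
        rw [norm_mul, norm_pow]
        refine mul_le_mul_of_nonneg_left ?_ (norm_nonneg _)
        have : i < F.natDegree := Finset.mem_range.1 hi
        exact pow_le_pow_right₀ hy1.le (by omega)
      rw [hmm, pow_succ] at h3
      have h4 : 0 < ‖y‖ ^ m := by positivity
      have h5 : ‖y‖ ≤ ∑ i ∈ S, ‖(at_ F x).coeff i‖ := by
        refine le_of_mul_le_mul_left ?_ h4
        linarith
      linarith
  calc ‖y‖ ≤ 1 + ∑ i ∈ S, ‖(at_ F x).coeff i‖ := key
    _ ≤ (1 + ‖x‖) ^ (∑ i ∈ S, Kc i) + (∑ i ∈ S, Cc i) * (1 + ‖x‖) ^ ∑ i ∈ S, Kc i :=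
        add_le_add hone hsum
    _ = (1 + ∑ i ∈ S, Cc i) * (1 + ‖x‖) ^ ∑ i ∈ S, Kc i := by ring

omit hF in
open Classical in
/-- the product over the points of `R` -/
private noncomputable def PR (R : ℂ → ℂ → Prop) (x : ℂ) : ℂ[X] :=
  ∏ y ∈ (fib F x).filter (R x), (X - C y)

private lemma card_fib_le (x : ℂ) : (fib F x).card ≤ F.natDegree := by
  unfold fib
  have hdeg : (at_ F x).natDegree = F.natDegree := hF.natDegree_map _
  rw [← hdeg]
  exact (Multiset.toFinset_card_le _).trans (card_roots' _)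

private lemma exQ (b : ℂ) (hb : (at_ F b).Separable) (R : ℂ → ℂ → Prop)
    (hR : ∀ U Y, IsBranch F U Y → IsPreconnected U → ∀ x ∈ U, ∀ x' ∈ U, R x (Y x) → R x' (Y x')) :
    ∃ Q : ℂ[X][X], ∀ x, at_ Q x =
      C (((∏ a ∈ (bad_finite F hF b hb).toFinset, (X - C a)) ^ 2 : ℂ[X]).eval x) * PR F R x := by
  classical
  set Z := (bad_finite F hF b hb).toFinset with hZ
  obtain ⟨C0, hC0, K0, hroot⟩ := root_bound F hF
  have hcard : ∀ x, ((fib F x).filter (R x)).card ≤ F.natDegree := fun x =>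
    (Finset.card_filter_le _ _).trans (card_fib_le F hF x)
  have hbound : ∀ k x, ‖(PR F R x).coeff k‖ ≤ (1 + C0) ^ F.natDegree *
      (1 + ‖x‖) ^ (K0 * F.natDegree) := by
    intro k x
    have hx : 0 ≤ ‖x‖ := norm_nonneg x
    have hB : 0 ≤ C0 * (1 + ‖x‖) ^ K0 := by positivity
    have h1 := coeff_bound (C0 * (1 + ‖x‖) ^ K0) hB ((fib F x).filter (R x)) (by
      intro y hy
      exact hroot x y ((mem_fib F hF x y).1 (Finset.mem_filter.1 hy).1)) k
    have h1' : ‖(PR F R x).coeff k‖ ≤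
        (1 + C0 * (1 + ‖x‖) ^ K0) ^ ((fib F x).filter (R x)).card := by
      have h0 : PR F R x = ∏ y ∈ (fib F x).filter (R x), (X - C y) :=
        Finset.prod_congr (Finset.ext fun w => by simp) fun _ _ => rfl
      rw [h0]
      exact h1
    refine h1'.trans ?_
    have h2 : 1 + C0 * (1 + ‖x‖) ^ K0 ≤ (1 + C0) * (1 + ‖x‖) ^ K0 := by
      have h3 : (1 : ℝ) ≤ (1 + ‖x‖) ^ K0 := one_le_pow₀ (by linarith)
      nlinarith
    calc (1 + C0 * (1 + ‖x‖) ^ K0) ^ ((fib F x).filter (R x)).card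
        ≤ (1 + C0 * (1 + ‖x‖) ^ K0) ^ F.natDegree :=
          pow_le_pow_right₀ (by linarith) (hcard x)
      _ ≤ ((1 + C0) * (1 + ‖x‖) ^ K0) ^ F.natDegree := by gcongr
      _ = _ := by rw [mul_pow, ← pow_mul]
  have hdiff : ∀ k, ∀ x ∉ Z, DifferentiableAt ℂ (fun x => (PR F R x).coeff k) x := by
    intro k x hx
    have hsep : (at_ F x).Separable := by
      by_contra h
      exact hx (by rw [hZ, Set.Finite.mem_toFinset]; exact h)
    obtain ⟨r, hr, Y, hY, hinj, hfib, -⟩ := local_sum F hF x hsep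
    have hm : x ∈ ball x r := mem_ball_self hr
    have hpc : IsPreconnected (ball x r) := (convex_ball x r).isPreconnected
    have hloc : ∀ z ∈ ball x r, PR F R z =
        ∏ j ∈ Finset.univ.filter (fun j => R x (Y j x)), (X - C (Y j z)) := by
      intro z hz
      have h1 : (fib F z).filter (R z) =
          (Finset.univ.filter (fun j => R x (Y j x))).image (fun j => Y j z) := by
        ext y
        simp only [Finset.mem_filter, Finset.mem_image, Finset.mem_univ, true_and]
        constructor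
        · rintro ⟨h2, h3⟩
          obtain ⟨j, rfl⟩ := (hfib z hz y).1 h2
          exact ⟨j, hR _ _ (hY j) hpc z hz x hm h3, rfl⟩
        · rintro ⟨j, h2, rfl⟩
          exact ⟨(hfib z hz _).2 ⟨j, rfl⟩, hR _ _ (hY j) hpc x hm z hz h2⟩
      have h4 : PR F R z = ∏ y ∈ (fib F z).filter (R z), (X - C y) :=
        Finset.prod_congr (Finset.ext fun w => by simp) fun _ _ => rfl
      rw [h4, h1, Finset.prod_image fun a _ b _ h => hinj z hz h]
    have h5 : (fun z => (PR F R z).coeff k) =ᶠ[𝓝 x] fun z =>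
        (∏ j ∈ Finset.univ.filter (fun j => R x (Y j x)), (X - C (Y j z)) : ℂ[X]).coeff k := by
      filter_upwards [ball_mem_nhds x hr] with z hz
      rw [hloc z hz]
    refine DifferentiableAt.congr_of_eventuallyEq ?_ h5
    exact coeff_diff _ Y x (fun j _ => ((hY j).2.1.differentiableAt (ball_mem_nhds x hr))) k
  choose p hp using fun k => ent (fun x => (PR F R x).coeff k) Z _ _ (hbound k) (hdiff k)
  refine ⟨∑ k ∈ Finset.range (F.natDegree + 1), C (p k) * X ^ k, fun x => ?_⟩
  have hnd : (PR F R x).natDegree ≤ F.natDegree := by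
    have h0 : PR F R x = ∏ y ∈ (fib F x).filter (R x), (X - C y) :=
      Finset.prod_congr (Finset.ext fun w => by simp) fun _ _ => rfl
    rw [h0]
    refine (natDegree_prod_le _ _).trans ?_
    simp only [natDegree_X_sub_C, Finset.sum_const, smul_eq_mul, mul_one]
    exact hcard x
  ext k
  have h1 : (at_ (∑ k ∈ Finset.range (F.natDegree + 1), C (p k) * X ^ k) x).coeff k =
      if k < F.natDegree + 1 then (p k).eval x else 0 := by
    rw [at_, coeff_map]
    simp only [finsetSum_coeff, coeff_C_mul, coeff_X_pow, mul_ite, mul_one, mul_zero]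
    rw [Finset.sum_ite_eq]
    simp only [Finset.mem_range]
    split_ifs <;> simp
  rw [h1, coeff_C_mul]
  split_ifs with hk
  · rw [hp k x]
  · rw [coeff_eq_zero_of_natDegree_lt (by omega), mul_zero]

omit hF in
private lemma PR_eval (R : ℂ → ℂ → Prop) (x y : ℂ) (h : (PR F R x).eval y = 0) : R x y := by
  classical
  unfold PR at h
  rw [eval_prod, Finset.prod_eq_zero_iff] at h
  obtain ⟨z, hz, h1⟩ := h
  rw [eval_sub, eval_X, eval_C, sub_eq_zero] at h1
  rw [h1]
  exact (Finset.mem_filter.1 hz).2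

private lemma PR_mul (R : ℂ → ℂ → Prop) (x : ℂ) (hx : (at_ F x).Separable) :
    PR F R x * PR F (fun x y => ¬ R x y) x = at_ F x := by
  classical
  have hm : (at_ F x).Monic := hF.map _
  have h1 : PR F R x * PR F (fun x y => ¬ R x y) x = ∏ y ∈ fib F x, (X - C y) := by
    rw [← Finset.prod_filter_mul_prod_filter_not (fib F x) (R x)]
    refine congrArg₂ _ ?_ ?_
    · exact Finset.prod_congr (Finset.ext fun w => by simp) fun _ _ => rfl
    · exact Finset.prod_congr (Finset.ext fun w => by simp) fun _ _ => rfl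
  have h2 := (IsAlgClosed.splits (at_ F x)).eq_prod_roots_of_monic hm
  rw [h1]
  conv_rhs => rw [h2]
  have h3 : (at_ F x).roots.Nodup := nodup_roots hx
  have h4 : fib F x = ⟨(at_ F x).roots, h3⟩ := by
    ext y
    rw [mem_fib F hF, Finset.mem_mk, mem_roots hm.ne_zero, IsRoot.def]
  rw [h4]
  rfl

theorem conn (hirr : Irreducible F) (R : ℂ → ℂ → Prop)
    (hR : ∀ U Y, IsBranch F U Y → IsPreconnected U → ∀ x ∈ U, ∀ x' ∈ U, R x (Y x) → R x' (Y x'))
    (x0 y0 : ℂ) (h0 : OnX F x0 y0) (hR0 : R x0 y0) : ∀ x y, OnX F x y → R x y := by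
  classical
  obtain ⟨Q, hQ⟩ := exQ F hF x0 h0.1 R hR
  obtain ⟨Q', hQ'⟩ := exQ F hF x0 h0.1 (fun x y => ¬ R x y)
    (fun U Y hY hU x hx x' hx' h h' => h (hR U Y hY hU x' hx' x hx h'))
  set E : ℂ[X] := (∏ a ∈ (bad_finite F hF x0 h0.1).toFinset, (X - C a)) ^ 2 with hE
  have hE0 : ∀ x, (at_ F x).Separable → E.eval x ≠ 0 := by
    intro x hx h
    rw [hE, eval_pow, sq_eq_zero_iff, eval_prod, Finset.prod_eq_zero_iff] at h
    obtain ⟨a, ha, h1⟩ := h
    rw [eval_sub, eval_X, eval_C, sub_eq_zero] at h1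
    rw [Set.Finite.mem_toFinset] at ha
    rw [← h1] at ha
    exact ha hx
  have hE1 : ∀ x, ¬ (at_ F x).Separable → E.eval x = 0 := by
    intro x hx
    rw [hE, eval_pow, eval_prod, Finset.prod_eq_zero (i := x)]
    · simp
    · rw [Set.Finite.mem_toFinset]
      exact hx
    · simp
  clear_value E
  have hmul : Q * Q' = C (E ^ 2) * F := by
    ext1 k
    refine Polynomial.funext fun x => ?_
    have h1 : ∀ G : ℂ[X][X], (G.coeff k).eval x = (at_ G x).coeff k := by
      intro G
      rw [at_, coeff_map]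
      rfl
    have h2 : at_ (Q * Q') x = at_ Q x * at_ Q' x := Polynomial.map_mul _
    have h3 : at_ (C (E ^ 2) * F) x = C ((E ^ 2).eval x) * at_ F x := by
      rw [at_, Polynomial.map_mul, map_C]
      rfl
    rw [h1, h1, h2, h3, hQ, hQ']
    by_cases hx : (at_ F x).Separable
    · rw [← PR_mul F hF R x hx, eval_pow, C_pow]
      congr 1
      ring
    · rw [eval_pow, hE1 x hx]
      simp
  have hdvd : F ∣ Q * Q' := by
    rw [hmul]
    exact dvd_mul_left _ _
  have hzero : ∀ G : ℂ[X][X], F ∣ G → ∀ x y, (at_ F x).eval y = 0 → (at_ G x).eval y = 0 := by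
    rintro _ ⟨H, rfl⟩ x y h
    have h2 : at_ (F * H) x = at_ F x * at_ H x := Polynomial.map_mul _
    rw [h2, eval_mul, h, zero_mul]
  rcases hirr.prime.dvd_or_dvd hdvd with hd | hd
  · intro x y hxy
    have h1 := hzero Q hd x y hxy.2
    rw [hQ, eval_mul, eval_C] at h1
    exact PR_eval F R x y ((mul_eq_zero.1 h1).resolve_left (hE0 x hxy.1))
  · have h1 := hzero Q' hd x0 y0 h0.2
    rw [hQ', eval_mul, eval_C] at h1
    exact absurd hR0 (PR_eval F (fun x y => ¬ R x y) x0 y0
      ((mul_eq_zero.1 h1).resolve_left (hE0 x0 h0.1)))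

end EGR
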