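import Pool.Agent.ALC.Sheets

/-!
Existence of the Arakelov Green function of an algebraic curve, in the form used in
`Pool.Agent.ALC.Defs` (plane model `F(x, y) = 0`, functions on the curve = functions of `(x, y)`
studied along the branches `IsBranch F U Y`). Dirichlet principle: definitions.
-/

open Polynomial MeasureTheory Metric ComplexConjugate Filter Topology

namespace EGR

open ALC

/-- `(x, y)` is a point of the curve over a separable `x`. -/
def OnX (F : ℂ[X][X]) (x y : ℂ) : Prop := (at_ F x).Separable ∧ (at_ F x).eval y = 0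

/-- The derivative `∂/∂x` of a real function, `(∂_1 - i ∂_2)/2`. -/
noncomputable def dz (a : ℂ → ℝ) (x : ℂ) : ℂ :=
  (((fderiv ℝ a x 1 : ℝ) : ℂ) - Complex.I * ((fderiv ℝ a x Complex.I : ℝ) : ℂ)) / 2

open Classical in
/-- The derivative `∂/∂x` of a function on the curve (along a branch through `(x, y)`). -/
noncomputable def D (F : ℂ[X][X]) (u : ℂ → ℂ → ℝ) (x y : ℂ) : ℂ :=
  if h : ∃ Y : ℂ → ℂ, ∃ r : ℝ, 0 < r ∧ IsBranch F (ball x r) Y ∧ Y x = y then
    dz (fun x' => u x' (h.choose x')) x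
  else 0

/-- The energy. -/
noncomputable def En (F : ℂ[X][X]) (u : ℂ → ℂ → ℝ) : ℝ := ∫ x, ∑ y ∈ fib F x, ‖D F u x y‖ ^ 2

/-- The Dirichlet form (a quarter of the usual one). -/
noncomputable def Bil (F : ℂ[X][X]) (u w : ℂ → ℂ → ℝ) : ℝ :=
  ∫ x, ∑ y ∈ fib F x, (D F u x y * conj (D F w x y)).re

/-- Bounded `C^2` functions on the curve with finite energy. -/
structure Fn (F : ℂ[X][X]) (u : ℂ → ℂ → ℝ) : Prop where
  smooth : ∀ U Y, IsBranch F U Y → ContDiffOn ℝ 2 (fun x => u x (Y x)) U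
  bdd : ∃ M : ℝ, ∀ x y, OnX F x y → |u x y| ≤ M
  energy : Integrable (fun x => ∑ y ∈ fib F x, ‖D F u x y‖ ^ 2)

/-- The average over a disc. -/
noncomputable def avg (c : ℂ) (r : ℝ) (a : ℂ → ℝ) : ℝ :=
  (1 / (Real.pi * r ^ 2)) * ∫ x in ball c r, a x

/-- Weights: locally bounded over the separable points, `O(|x - a|^(τ-2))` near the other points
and `O(|x|^(-τ-2))` near infinity, for some `τ > 0`. -/
structure IsWt (F : ℂ[X][X]) (H : ℂ → ℝ) : Prop where
  nonneg : ∀ x, 0 ≤ H x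
  meas : AEStronglyMeasurable H volume
  near : ∀ a, ¬ (at_ F a).Separable → ∃ C τ R : ℝ, 0 < τ ∧ 0 < R ∧
    ∀ x ∈ ball a R, x ≠ a → H x ≤ C * ‖x - a‖ ^ (τ - 2)
  far : ∃ C τ R : ℝ, 0 < τ ∧ 0 < R ∧ ∀ x, R ≤ ‖x‖ → H x ≤ C * ‖x‖ ^ (-τ - 2)
  loc : ∀ K : Set ℂ, IsCompact K → (∀ x ∈ K, (at_ F x).Separable) → ∃ C : ℝ, ∀ x ∈ K, H x ≤ C

/-- A test function on a disc, transplanted to the sheet `Y` over this disc. -/
noncomputable def ext (c : ℂ) (r : ℝ) (Y : ℂ → ℂ) (χ : ℂ → ℝ) (x y : ℂ) : ℝ := by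
  classical exact if x ∈ ball c r ∧ y = Y x then χ x else 0

/-- The derivative along the curve can be computed with any branch. -/
theorem D_eq (F : ℂ[X][X]) (hF : F.Monic) {U : Set ℂ} {Y : ℂ → ℂ} (h : IsBranch F U Y) {x : ℂ}
    (hx : x ∈ U) (u : ℂ → ℂ → ℝ) : D F u x (Y x) = dz (fun x' => u x' (Y x')) x := by
  have hU : IsOpen U := h.1
  obtain ⟨r, hr, hrU⟩ := Metric.isOpen_iff.1 hU x hx
  have hb : IsBranch F (ball x r) Y := ⟨isOpen_ball, h.2.1.mono hrU, fun z hz => h.2.2 z (hrU hz)⟩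
  have hex : ∃ Z : ℂ → ℂ, ∃ r : ℝ, 0 < r ∧ IsBranch F (ball x r) Z ∧ Z x = Y x :=
    ⟨Y, r, hr, hb, rfl⟩
  rw [D, dif_pos hex]
  obtain ⟨s, hs, hZ, hZx⟩ := hex.choose_spec
  have hmin : 0 < min r s := lt_min hr hs
  have h1 : IsBranch F (ball x (min r s)) Y :=
    ⟨isOpen_ball, hb.2.1.mono (ball_subset_ball (min_le_left _ _)),
      fun z hz => hb.2.2 z (ball_subset_ball (min_le_left _ _) hz)⟩
  have h2 : IsBranch F (ball x (min r s)) hex.choose :=
    ⟨isOpen_ball, hZ.2.1.mono (ball_subset_ball (min_le_right _ _)),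
      fun z hz => hZ.2.2 z (ball_subset_ball (min_le_right _ _) hz)⟩
  have h3 := branch_eq F hF (ball x (min r s)) (convex_ball x _).isPreconnected _ _ h2 h1 x
    (mem_ball_self hmin) hZx
  have h4 : (fun x' => u x' (hex.choose x')) =ᶠ[𝓝 x] fun x' => u x' (Y x') := by
    filter_upwards [ball_mem_nhds x hmin] with z hz
    rw [h3 z hz]
  unfold dz
  rw [h4.fderiv_eq]

end EGR
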