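import Pool.Agent.EGR.Defs

/-!
Poincare inequality on discs. `(a x - avg)^2 ≤ average over z of (a x - a z)^2`,
`(a x - a z)^2 ≤ |x - z|^2 ∫_0^1 |∇a|^2(z + t (x - z)) dt` and Fubini (for `t ≤ 1/2` substitute in
`z`, for `t ≥ 1/2` in `x`); `|∇a|^2 = 4 ‖dz a‖^2`. (See also `Pool/Agent/Recti/Poincare.lean`.)
-/

open MeasureTheory Metric Filter Topology

namespace EGR

private theorem Disc_cs {α : Type*} [MeasurableSpace α] (μ : Measure α) [IsFiniteMeasure μ]
    {f : α → ℝ} (hf : Integrable f μ) (hf2 : Integrable (fun x => f x ^ 2) μ) :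
    (∫ x, f x ∂μ) ^ 2 ≤ μ.real Set.univ * ∫ x, f x ^ 2 ∂μ := by
  set v := μ.real Set.univ with hv
  set I := ∫ x, f x ∂μ with hI
  set J := ∫ x, f x ^ 2 ∂μ with hJ
  have hv0 : 0 ≤ v := measureReal_nonneg
  rcases hv0.eq_or_lt with h0 | h0
  · have : μ = 0 := by
      rw [← Measure.measure_univ_eq_zero]
      rw [hv, Measure.real, eq_comm, ENNReal.toReal_eq_zero_iff] at h0
      rcases h0 with h0 | h0
      · exact h0
      · exact absurd h0 (measure_ne_top μ _)
    have hI0 : I = 0 := by rw [hI, this, integral_zero_measure]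
    rw [hI0, ← h0]
    simp
  · have h1 : 0 ≤ ∫ x, (v * f x - I) ^ 2 ∂μ := integral_nonneg fun x => sq_nonneg _
    have h2 : ∫ x, (v * f x - I) ^ 2 ∂μ = v ^ 2 * J - 2 * v * I * I + v * I ^ 2 := by
      have e : ∀ x, (v * f x - I) ^ 2 = (v ^ 2 * f x ^ 2 - (2 * v * I) * f x) + I ^ 2 := by
        intro x; ring
      simp_rw [e]
      have i1 : Integrable (fun x => v ^ 2 * f x ^ 2) μ := hf2.const_mul _
      have i2 : Integrable (fun x => 2 * v * I * f x) μ := hf.const_mul _
      have i3 : Integrable (fun x => v ^ 2 * f x ^ 2 - 2 * v * I * f x) μ := i1.sub i2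
      rw [integral_add i3 (integrable_const _), integral_sub i1 i2, integral_const_mul,
        integral_const_mul, integral_const]
      simp only [smul_eq_mul]
      rw [← hv, ← hI, ← hJ]
    rw [h2] at h1
    have h3 : 0 ≤ v * (v * J - I ^ 2) := by nlinarith [h1]
    have h4 := nonneg_of_mul_nonneg_right h3 h0
    linarith

private theorem Disc_var {α : Type*} [MeasurableSpace α] (μ : Measure α) [IsFiniteMeasure μ]
    {f : α → ℝ} (hf : Integrable f μ) (hf2 : Integrable (fun x => f x ^ 2) μ) (m : ℝ) :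
    ∫ x, (f x - m) ^ 2 ∂μ = (∫ x, f x ^ 2 ∂μ) - 2 * m * (∫ x, f x ∂μ) + μ.real Set.univ * m ^ 2 := by
  have e : ∀ x, (f x - m) ^ 2 = (f x ^ 2 - (2 * m) * f x) + m ^ 2 := by
    intro x; ring
  simp_rw [e]
  have i2 : Integrable (fun x => 2 * m * f x) μ := hf.const_mul _
  have i3 : Integrable (fun x => f x ^ 2 - 2 * m * f x) μ := hf2.sub i2
  rw [integral_add i3 (integrable_const _),
    integral_sub hf2 i2, integral_const_mul, integral_const]
  simp only [smul_eq_mul]

private theorem Disc_var2 {α : Type*} [MeasurableSpace α] (μ : Measure α) [IsFiniteMeasure μ]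
    {f : α → ℝ} (hf : Integrable f μ) (hf2 : Integrable (fun x => f x ^ 2) μ) :
    ∫ z, (∫ x, (f x - f z) ^ 2 ∂μ) ∂μ =
      2 * (μ.real Set.univ) * (∫ x, f x ^ 2 ∂μ) - 2 * (∫ x, f x ∂μ) ^ 2 := by
  simp_rw [Disc_var μ hf hf2]
  set I := ∫ x, f x ∂μ with hI
  set J := ∫ x, f x ^ 2 ∂μ with hJ
  have e : ∀ z, J - 2 * f z * I + μ.real Set.univ * f z ^ 2 =
      (J - (2 * I) * f z) + μ.real Set.univ * f z ^ 2 := by
    intro z; ring
  simp_rw [e]
  have i1 : Integrable (fun x => μ.real Set.univ * f x ^ 2) μ := hf2.const_mul _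
  have i2 : Integrable (fun x => 2 * I * f x) μ := hf.const_mul _
  have i3 : Integrable (fun x => J - 2 * I * f x) μ := (integrable_const _).sub i2
  rw [integral_add i3 i1, integral_sub (integrable_const _) i2, integral_const_mul,
    integral_const_mul, integral_const]
  simp only [smul_eq_mul]
  rw [← hI, ← hJ]
  ring

/-- the square of the gradient -/
private noncomputable def Disc_N (a : ℂ → ℝ) (x : ℂ) : ℝ :=
  (fderiv ℝ a x 1) ^ 2 + (fderiv ℝ a x Complex.I) ^ 2

private theorem Disc_N_nonneg (a : ℂ → ℝ) (x : ℂ) : 0 ≤ Disc_N a x := by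
  unfold Disc_N; positivity

private theorem Disc_N_dz (a : ℂ → ℝ) (x : ℂ) : Disc_N a x = 4 * ‖dz a x‖ ^ 2 := by
  unfold Disc_N dz
  rw [norm_div, div_pow, ← Complex.normSq_eq_norm_sq, Complex.normSq_apply]
  simp
  ring

private theorem Disc_apply (a : ℂ → ℝ) (x w : ℂ) :
    (fderiv ℝ a x w) ^ 2 ≤ ‖w‖ ^ 2 * Disc_N a x := by
  have h1 : fderiv ℝ a x w = w.re * fderiv ℝ a x 1 + w.im * fderiv ℝ a x Complex.I := by
    have : w = w.re • (1 : ℂ) + w.im • Complex.I := by
      apply Complex.ext <;> simp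
    conv_lhs => rw [this]
    rw [map_add, map_smul, map_smul]
    simp
  rw [h1, ← Complex.normSq_eq_norm_sq, Complex.normSq_apply]
  unfold Disc_N
  nlinarith [sq_nonneg (w.re * fderiv ℝ a x Complex.I - w.im * fderiv ℝ a x 1)]

private theorem Disc_cont {U : Set ℂ} (hU : IsOpen U) {a : ℂ → ℝ} (ha : ContDiffOn ℝ 1 a U) :
    ContinuousOn (Disc_N a) U := by
  have h1 : ContinuousOn (fderiv ℝ a) U := ha.continuousOn_fderiv_of_isOpen hU le_rfl
  unfold Disc_N
  exact ((h1.clm_apply continuousOn_const).pow 2).add ((h1.clm_apply continuousOn_const).pow 2)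

private theorem Disc_seg {U : Set ℂ} (hU : IsOpen U) {a : ℂ → ℝ} (ha : ContDiffOn ℝ 1 a U)
    {c : ℂ} {r : ℝ} (hB : closedBall c r ⊆ U) {x z : ℂ} (hx : x ∈ closedBall c r)
    (hz : z ∈ closedBall c r) :
    (a (z + (1 / 2 : ℝ) • (x - z)) - a z) ^ 2 ≤
      2 * r ^ 2 * ∫ t in Set.Icc (0 : ℝ) (1 / 2), Disc_N a (z + t • (x - z)) := by
  have hseg : ∀ t ∈ Set.Icc (0 : ℝ) (1 / 2), z + t • (x - z) ∈ closedBall c r := by
    intro t ht
    have h1 := (convex_closedBall c r) hz hx (show (0 : ℝ) ≤ 1 - t by linarith [ht.2]) ht.1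
      (by ring)
    have e : z + t • (x - z) = (1 - t) • z + t • x := by
      rw [smul_sub, sub_smul, one_smul]; ring
    rw [e]
    exact h1
  have hdist : ‖x - z‖ ^ 2 ≤ 4 * r ^ 2 := by
    have h1 : ‖x - z‖ ≤ 2 * r := by
      have h2 := dist_triangle_right x z c
      rw [mem_closedBall] at hx hz
      rw [← dist_eq_norm]
      linarith
    have h3 := pow_le_pow_left₀ (norm_nonneg _) h1 2
    nlinarith
  have hder : ∀ t ∈ Set.Icc (0 : ℝ) (1 / 2), HasDerivAt (fun s : ℝ => a (z + s • (x - z)))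
      (fderiv ℝ a (z + t • (x - z)) (x - z)) t := by
    intro t ht
    have h1 : DifferentiableAt ℝ a (z + t • (x - z)) :=
      (ha.differentiableOn one_ne_zero).differentiableAt (hU.mem_nhds (hB (hseg t ht)))
    have h2 : HasDerivAt (fun s : ℝ => z + s • (x - z)) (x - z) t := by
      have := ((hasDerivAt_id t).smul_const (x - z)).const_add z
      simpa using this
    exact h1.hasFDerivAt.comp_hasDerivAt t h2
  have hcs : ContinuousOn (fun s : ℝ => z + s • (x - z)) (Set.Icc (0 : ℝ) (1 / 2)) := by fun_prop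
  have hmaps : Set.MapsTo (fun s : ℝ => z + s • (x - z)) (Set.Icc (0 : ℝ) (1 / 2)) U :=
    fun t ht => hB (hseg t ht)
  have hfd : ContinuousOn (fderiv ℝ a) U := ha.continuousOn_fderiv_of_isOpen hU le_rfl
  have hc1 : ContinuousOn (fun t : ℝ => fderiv ℝ a (z + t • (x - z)) (x - z))
      (Set.Icc (0 : ℝ) (1 / 2)) := (hfd.comp hcs hmaps).clm_apply continuousOn_const
  have hc2 : ContinuousOn (fun t : ℝ => Disc_N a (z + t • (x - z))) (Set.Icc (0 : ℝ) (1 / 2)) :=
    (Disc_cont hU ha).comp hcs hmaps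
  have hint : ∫ t in (0 : ℝ)..(1 / 2), fderiv ℝ a (z + t • (x - z)) (x - z) =
      a (z + (1 / 2 : ℝ) • (x - z)) - a z := by
    rw [intervalIntegral.integral_eq_sub_of_hasDerivAt (f := fun s : ℝ => a (z + s • (x - z)))]
    · simp
    · intro t ht
      rw [Set.uIcc_of_le (by norm_num)] at ht
      exact hder t ht
    · apply ContinuousOn.intervalIntegrable
      rw [Set.uIcc_of_le (by norm_num)]
      exact hc1
  rw [intervalIntegral.integral_of_le (by norm_num), ← integral_Icc_eq_integral_Ioc] at hint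
  rw [← hint]
  have hI1 : IntegrableOn (fun t : ℝ => fderiv ℝ a (z + t • (x - z)) (x - z))
      (Set.Icc (0 : ℝ) (1 / 2)) := hc1.integrableOn_compact isCompact_Icc
  have hI2 : IntegrableOn (fun t : ℝ => (fderiv ℝ a (z + t • (x - z)) (x - z)) ^ 2)
      (Set.Icc (0 : ℝ) (1 / 2)) := (hc1.pow 2).integrableOn_compact isCompact_Icc
  have hI3 : IntegrableOn (fun t : ℝ => Disc_N a (z + t • (x - z)))
      (Set.Icc (0 : ℝ) (1 / 2)) := hc2.integrableOn_compact isCompact_Icc
  have h1 := Disc_cs (volume.restrict (Set.Icc (0 : ℝ) (1 / 2))) hI1 hI2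
  have hv : (volume.restrict (Set.Icc (0 : ℝ) (1 / 2))).real Set.univ = 1 / 2 := by
    rw [measureReal_restrict_apply_univ, Real.volume_real_Icc_of_le (by norm_num)]
    norm_num
  rw [hv] at h1
  have h2 : ∫ t in Set.Icc (0 : ℝ) (1 / 2), (fderiv ℝ a (z + t • (x - z)) (x - z)) ^ 2 ≤
      ∫ t in Set.Icc (0 : ℝ) (1 / 2), 4 * r ^ 2 * Disc_N a (z + t • (x - z)) := by
    apply setIntegral_mono_on hI2 (hI3.const_mul _) measurableSet_Icc
    intro t _
    refine (Disc_apply a _ _).trans ?_
    exact mul_le_mul_of_nonneg_right hdist (Disc_N_nonneg _ _)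
  rw [integral_const_mul] at h2
  calc _ ≤ _ := h1
    _ ≤ 1 / 2 * (4 * r ^ 2 * ∫ t in Set.Icc (0 : ℝ) (1 / 2), Disc_N a (z + t • (x - z))) := by
        linarith
    _ = _ := by ring

/-- substitution `w = z + t (x - z)`, `t ≤ 1/2`, in a disc -/
private theorem Disc_subst {g : ℂ → ℝ} (hg : ∀ w, 0 ≤ g w) {c : ℂ} {r : ℝ} {x : ℂ}
    (hx : x ∈ ball c r) (hi : IntegrableOn g (ball c r)) {t : ℝ} (ht : t ∈ Set.Icc (0 : ℝ) (1 / 2)) :
    ∫ z in ball c r, g (z + t • (x - z)) ≤ 4 * ∫ z in ball c r, g z := by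
  have ht1 : (0 : ℝ) < 1 - t := by linarith [ht.2]
  have h0 : ∀ z ∈ ball c r, z + t • (x - z) ∈ ball c r := by
    intro z hz
    have h1 := (convex_ball c r) hz hx ht1.le ht.1 (by ring)
    have e : z + t • (x - z) = (1 - t) • z + t • x := by
      rw [smul_sub, sub_smul, one_smul]; ring
    rw [e]
    exact h1
  have hG : Integrable ((ball c r).indicator g) := hi.integrable_indicator measurableSet_ball
  have hG0 : ∀ w, 0 ≤ (ball c r).indicator g w := fun w => Set.indicator_nonneg (fun _ _ => hg _) _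
  have hsh : Integrable (fun z => (ball c r).indicator g (z + t • x)) := hG.comp_add_right _
  have hcomp : Integrable (fun z => (ball c r).indicator g ((1 - t) • z + t • x)) :=
    (integrable_comp_smul_iff volume (fun z => (ball c r).indicator g (z + t • x))
      ht1.ne').mpr hsh
  have h1 : ∫ z in ball c r, g (z + t • (x - z)) =
      ∫ z in ball c r, (ball c r).indicator g ((1 - t) • z + t • x) := by
    apply setIntegral_congr_fun measurableSet_ball
    intro z hz
    have e : z + t • (x - z) = (1 - t) • z + t • x := by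
      rw [smul_sub, sub_smul, one_smul]; ring
    have h2 := h0 z hz
    change g (z + t • (x - z)) = (ball c r).indicator g ((1 - t) • z + t • x)
    rw [← e, Set.indicator_of_mem h2]
  have h2 : ∫ z in ball c r, (ball c r).indicator g ((1 - t) • z + t • x) ≤
      ∫ z, (ball c r).indicator g ((1 - t) • z + t • x) :=
    setIntegral_le_integral hcomp (Eventually.of_forall fun z => hG0 _)
  have h3 : ∫ z, (ball c r).indicator g ((1 - t) • z + t • x) =
      |((1 - t) ^ 2)⁻¹| * ∫ z, (ball c r).indicator g z := by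
    have h4 := Measure.integral_comp_smul volume
      (fun z => (ball c r).indicator g (z + t • x)) (1 - t)
    rw [Complex.finrank_real_complex] at h4
    rw [h4, integral_add_right_eq_self (fun z => (ball c r).indicator g z) (t • x), smul_eq_mul]
  have h5 : ∫ z, (ball c r).indicator g z = ∫ z in ball c r, g z :=
    integral_indicator measurableSet_ball
  have h6 : |((1 - t) ^ 2)⁻¹| ≤ 4 := by
    rw [abs_of_nonneg (by positivity), inv_le_comm₀ (by positivity) (by norm_num)]
    nlinarith [ht.2]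
  have h7 : 0 ≤ ∫ z in ball c r, g z := integral_nonneg fun z => hg z
  rw [h1]
  refine h2.trans ?_
  rw [h3, h5]
  exact mul_le_mul_of_nonneg_right h6 h7

private theorem Disc_vol (c : ℂ) {r : ℝ} (hr : 0 < r) :
    (volume.restrict (ball c r)).real Set.univ = Real.pi * r ^ 2 := by
  rw [measureReal_restrict_apply_univ, Measure.real, Complex.volume_ball, ENNReal.toReal_mul,
    ENNReal.toReal_pow, ENNReal.toReal_ofReal hr.le, mul_comm]
  simp

/-- the half of the estimate -/
private theorem Disc_half {U : Set ℂ} (hU : IsOpen U) {a : ℂ → ℝ} (ha : ContDiffOn ℝ 1 a U)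
    {c : ℂ} {r : ℝ} (hB : closedBall c r ⊆ U) {x : ℂ} (hx : x ∈ ball c r) :
    ∫ z in ball c r, (a (z + (1 / 2 : ℝ) • (x - z)) - a z) ^ 2 ≤
      4 * r ^ 2 * ∫ z in ball c r, Disc_N a z := by
  have hbc : ball c r ⊆ closedBall c r := ball_subset_closedBall
  have hmem : ∀ z ∈ closedBall c r, ∀ t ∈ Set.Icc (0 : ℝ) 1, z + t • (x - z) ∈ closedBall c r := by
    intro z hz t ht
    have h1 := (convex_closedBall c r) hz (hbc hx) (show (0 : ℝ) ≤ 1 - t by linarith [ht.2]) ht.1
      (by ring)
    have e : z + t • (x - z) = (1 - t) • z + t • x := by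
      rw [smul_sub, sub_smul, one_smul]; ring
    rw [e]
    exact h1
  have hN : ContinuousOn (Disc_N a) U := Disc_cont hU ha
  have hiN : IntegrableOn (Disc_N a) (ball c r) :=
    ((hN.mono hB).integrableOn_compact (isCompact_closedBall c r)).mono_set hbc
  have hac : ContinuousOn a U := ha.continuousOn
  have hi1 : IntegrableOn (fun z => (a (z + (1 / 2 : ℝ) • (x - z)) - a z) ^ 2) (ball c r) := by
    have h1 : ContinuousOn (fun z => (a (z + (1 / 2 : ℝ) • (x - z)) - a z) ^ 2)
        (closedBall c r) := by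
      have h2 : ContinuousOn (fun z : ℂ => z + (1 / 2 : ℝ) • (x - z)) (closedBall c r) := by
        fun_prop
      refine ((hac.comp h2 ?_).sub (hac.mono hB)).pow 2
      intro z hz
      exact hB (hmem z hz _ ⟨by norm_num, by norm_num⟩)
    exact (h1.integrableOn_compact (isCompact_closedBall c r)).mono_set hbc
  -- the product
  have hprod : Integrable (Function.uncurry fun (z : ℂ) (t : ℝ) => Disc_N a (z + t • (x - z)))
      ((volume.restrict (ball c r)).prod (volume.restrict (Set.Icc (0 : ℝ) (1 / 2)))) := by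
    rw [Measure.prod_restrict]
    have h1 : ContinuousOn (Function.uncurry fun (z : ℂ) (t : ℝ) => Disc_N a (z + t • (x - z)))
        (closedBall c r ×ˢ Set.Icc (0 : ℝ) (1 / 2)) := by
      refine hN.comp (t := U) (by fun_prop) ?_
      rintro ⟨z, t⟩ ⟨hz, ht⟩
      exact hB (hmem z hz t ⟨ht.1, by linarith [ht.2]⟩)
    exact (h1.integrableOn_compact ((isCompact_closedBall c r).prod isCompact_Icc)).mono_set
      (Set.prod_mono hbc subset_rfl)
  have h2 : ∫ z in ball c r, (a (z + (1 / 2 : ℝ) • (x - z)) - a z) ^ 2 ≤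
      ∫ z in ball c r, 2 * r ^ 2 * ∫ t in Set.Icc (0 : ℝ) (1 / 2), Disc_N a (z + t • (x - z)) := by
    apply setIntegral_mono_on hi1 (hprod.integral_prod_left.const_mul _) measurableSet_ball
    intro z hz
    exact Disc_seg hU ha hB (hbc hx) (hbc hz)
  rw [integral_const_mul, integral_integral_swap hprod] at h2
  have h3 : ∫ t in Set.Icc (0 : ℝ) (1 / 2), (∫ z in ball c r, Disc_N a (z + t • (x - z))) ≤
      ∫ t in Set.Icc (0 : ℝ) (1 / 2), 4 * ∫ z in ball c r, Disc_N a z := by
    apply setIntegral_mono_on hprod.integral_prod_right (integrable_const _) measurableSet_Icc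
    intro t ht
    exact Disc_subst (Disc_N_nonneg a) hx hiN ht
  rw [integral_const, measureReal_restrict_apply_univ,
    Real.volume_real_Icc_of_le (by norm_num), smul_eq_mul] at h3
  have h4 : 0 ≤ r ^ 2 := sq_nonneg _
  calc _ ≤ _ := h2
    _ ≤ 2 * r ^ 2 * ((1 / 2 - 0) * (4 * ∫ z in ball c r, Disc_N a z)) :=
        mul_le_mul_of_nonneg_left h3 (by positivity)
    _ = _ := by ring

theorem poincare : ∃ K : ℝ, 0 < K ∧ ∀ (c : ℂ) (r : ℝ) (U : Set ℂ) (a : ℂ → ℝ), 0 < r → IsOpen U →
    closedBall c r ⊆ U → ContDiffOn ℝ 1 a U →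
    ∫ x in ball c r, (a x - avg c r a) ^ 2 ≤ K * r ^ 2 * ∫ x in ball c r, ‖dz a x‖ ^ 2 := by
  refine ⟨32, by norm_num, ?_⟩
  intro c r U a hr hU hB ha
  have hbc : ball c r ⊆ closedBall c r := ball_subset_closedBall
  have hac : ContinuousOn a (closedBall c r) := ha.continuousOn.mono hB
  have hi : IntegrableOn a (ball c r) :=
    (hac.integrableOn_compact (isCompact_closedBall c r)).mono_set hbc
  have hi2 : IntegrableOn (fun x => a x ^ 2) (ball c r) :=
    ((hac.pow 2).integrableOn_compact (isCompact_closedBall c r)).mono_set hbc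
  have : IsFiniteMeasure (volume.restrict (ball c r)) :=
    isFiniteMeasure_restrict.mpr (measure_ball_lt_top).ne
  have hv := Disc_vol c hr
  have hπ : 0 < Real.pi * r ^ 2 := by positivity
  set I := ∫ x in ball c r, a x with hI
  set J := ∫ x in ball c r, a x ^ 2 with hJ
  set E := ∫ x in ball c r, Disc_N a x with hE
  have hE4 : E = 4 * ∫ x in ball c r, ‖dz a x‖ ^ 2 := by
    rw [hE, ← integral_const_mul]
    exact integral_congr_ae (Eventually.of_forall fun x => Disc_N_dz a x)
  have h1 := Disc_var (volume.restrict (ball c r)) hi hi2 (avg c r a)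
  rw [hv, ← hI, ← hJ] at h1
  have havg : avg c r a = I / (Real.pi * r ^ 2) := by
    rw [avg, ← hI]; ring
  have h2 : ∫ x in ball c r, (a x - avg c r a) ^ 2 = J - I ^ 2 / (Real.pi * r ^ 2) := by
    rw [h1, havg]
    field_simp
    ring
  -- the double integral
  have h3 := Disc_var2 (volume.restrict (ball c r)) hi hi2
  rw [hv, ← hI, ← hJ] at h3
  -- halves
  have hm : ∀ x z : ℂ, x + (1 / 2 : ℝ) • (z - x) = z + (1 / 2 : ℝ) • (x - z) := by
    intro x z
    simp only [Complex.real_smul]
    push_cast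
    ring
  have hmem : ∀ z ∈ closedBall c r, ∀ x ∈ closedBall c r,
      z + (1 / 2 : ℝ) • (x - z) ∈ closedBall c r := by
    intro z hz x hx
    have h1 := (convex_closedBall c r) hz hx (show (0 : ℝ) ≤ 1 - 1 / 2 by norm_num)
      (show (0 : ℝ) ≤ 1 / 2 by norm_num) (by norm_num)
    have e : z + (1 / 2 : ℝ) • (x - z) = (1 - 1 / 2 : ℝ) • z + (1 / 2 : ℝ) • x := by
      rw [smul_sub, sub_smul, one_smul]; ring
    rw [e]
    exact h1
  have hP : Integrable (Function.uncurry fun (z x : ℂ) => (a (z + (1 / 2 : ℝ) • (x - z)) - a z) ^ 2)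
      ((volume.restrict (ball c r)).prod (volume.restrict (ball c r))) := by
    rw [Measure.prod_restrict]
    have h1 : ContinuousOn (Function.uncurry fun (z x : ℂ) =>
        (a (z + (1 / 2 : ℝ) • (x - z)) - a z) ^ 2) (closedBall c r ×ˢ closedBall c r) := by
      refine ((hac.comp (t := closedBall c r) (by fun_prop) ?_).sub
        (hac.comp (t := closedBall c r) continuousOn_fst ?_)).pow 2
      · rintro ⟨z, x⟩ ⟨hz, hx⟩
        exact hmem z hz x hx
      · rintro ⟨z, x⟩ ⟨hz, hx⟩
        exact hz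
    exact (h1.integrableOn_compact ((isCompact_closedBall c r).prod
      (isCompact_closedBall c r))).mono_set (Set.prod_mono hbc hbc)
  have hP' : Integrable (Function.uncurry fun (z x : ℂ) => (a (z + (1 / 2 : ℝ) • (x - z)) - a x) ^ 2)
      ((volume.restrict (ball c r)).prod (volume.restrict (ball c r))) := by
    have h1 := hP.swap
    refine h1.congr (Eventually.of_forall ?_)
    rintro ⟨z, x⟩
    simp only [Function.comp_apply, Prod.swap_prod_mk, Function.uncurry_apply_pair]
    rw [hm]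
  have hD : Integrable (Function.uncurry fun (z x : ℂ) => (a x - a z) ^ 2)
      ((volume.restrict (ball c r)).prod (volume.restrict (ball c r))) := by
    rw [Measure.prod_restrict]
    have h1 : ContinuousOn (Function.uncurry fun (z x : ℂ) =>
        (a x - a z) ^ 2) (closedBall c r ×ˢ closedBall c r) := by
      refine ((hac.comp (t := closedBall c r) continuousOn_snd ?_).sub
        (hac.comp (t := closedBall c r) continuousOn_fst ?_)).pow 2
      · rintro ⟨z, x⟩ ⟨hz, hx⟩
        exact hx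
      · rintro ⟨z, x⟩ ⟨hz, hx⟩
        exact hz
    exact (h1.integrableOn_compact ((isCompact_closedBall c r).prod
      (isCompact_closedBall c r))).mono_set (Set.prod_mono hbc hbc)
  have hA : ∫ p, (a (p.1 + (1 / 2 : ℝ) • (p.2 - p.1)) - a p.1) ^ 2
      ∂((volume.restrict (ball c r)).prod (volume.restrict (ball c r))) ≤
      (Real.pi * r ^ 2) * (4 * r ^ 2 * E) := by
    have e1 := integral_prod_symm _ hP
    simp only [Function.uncurry] at e1
    rw [e1]
    have h4 : ∫ x in ball c r, (∫ z in ball c r, (a (z + (1 / 2 : ℝ) • (x - z)) - a z) ^ 2) ≤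
        ∫ _x in ball c r, 4 * r ^ 2 * E := by
      apply setIntegral_mono_on hP.integral_prod_right (integrable_const _) measurableSet_ball
      intro x hx
      exact Disc_half hU ha hB hx
    rw [integral_const, hv, smul_eq_mul] at h4
    exact h4
  have hA' : ∫ p, (a (p.1 + (1 / 2 : ℝ) • (p.2 - p.1)) - a p.2) ^ 2
      ∂((volume.restrict (ball c r)).prod (volume.restrict (ball c r))) =
      ∫ p, (a (p.1 + (1 / 2 : ℝ) • (p.2 - p.1)) - a p.1) ^ 2
      ∂((volume.restrict (ball c r)).prod (volume.restrict (ball c r))) := by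
    rw [← integral_prod_swap]
    refine integral_congr_ae (Eventually.of_forall ?_)
    rintro ⟨z, x⟩
    simp only [Prod.swap_prod_mk]
    rw [hm]
  have h5 : ∫ p, (a p.2 - a p.1) ^ 2
      ∂((volume.restrict (ball c r)).prod (volume.restrict (ball c r))) ≤
      ∫ p, (2 * (a (p.1 + (1 / 2 : ℝ) • (p.2 - p.1)) - a p.2) ^ 2 +
        2 * (a (p.1 + (1 / 2 : ℝ) • (p.2 - p.1)) - a p.1) ^ 2)
      ∂((volume.restrict (ball c r)).prod (volume.restrict (ball c r))) := by
    apply integral_mono hD ((hP'.const_mul 2).add (hP.const_mul 2))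
    rintro ⟨z, x⟩
    simp only [Function.uncurry, Pi.add_apply]
    nlinarith [sq_nonneg ((a (z + (1 / 2 : ℝ) • (x - z)) - a x) +
      (a (z + (1 / 2 : ℝ) • (x - z)) - a z))]
  have h6 : ∫ p, (2 * (a (p.1 + (1 / 2 : ℝ) • (p.2 - p.1)) - a p.2) ^ 2 +
        2 * (a (p.1 + (1 / 2 : ℝ) • (p.2 - p.1)) - a p.1) ^ 2)
      ∂((volume.restrict (ball c r)).prod (volume.restrict (ball c r))) =
      2 * (∫ p, (a (p.1 + (1 / 2 : ℝ) • (p.2 - p.1)) - a p.2) ^ 2
      ∂((volume.restrict (ball c r)).prod (volume.restrict (ball c r)))) +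
      2 * ∫ p, (a (p.1 + (1 / 2 : ℝ) • (p.2 - p.1)) - a p.1) ^ 2
      ∂((volume.restrict (ball c r)).prod (volume.restrict (ball c r))) := by
    rw [← integral_const_mul, ← integral_const_mul]
    exact integral_add (hP'.const_mul 2) (hP.const_mul 2)
  have h7 : ∫ p, (a p.2 - a p.1) ^ 2
      ∂((volume.restrict (ball c r)).prod (volume.restrict (ball c r))) =
      2 * (Real.pi * r ^ 2) * J - 2 * I ^ 2 := by
    have e1 := integral_prod _ hD
    simp only [Function.uncurry] at e1
    rw [e1, ← h3]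
  rw [h2]
  have h8 : 2 * (Real.pi * r ^ 2) * J - 2 * I ^ 2 ≤ 4 * ((Real.pi * r ^ 2) * (4 * r ^ 2 * E)) := by
    rw [← h7]
    refine h5.trans ?_
    rw [h6, hA']
    linarith
  have h9 : J - I ^ 2 / (Real.pi * r ^ 2) =
      (2 * (Real.pi * r ^ 2) * J - 2 * I ^ 2) / (2 * (Real.pi * r ^ 2)) := by
    field_simp
  rw [h9, div_le_iff₀ (by positivity)]
  calc _ ≤ _ := h8
    _ = _ := by rw [hE4]; ring

/-- the averages of `a` over two discs `B1, B2 ⊆ B` of comparable size -/
theorem avg_avg : ∃ K : ℝ, 0 < K ∧ ∀ (c c1 c2 : ℂ) (r : ℝ) (U : Set ℂ) (a : ℂ → ℝ), 0 < r →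
    IsOpen U → closedBall c r ⊆ U → ContDiffOn ℝ 1 a U → ball c1 (r / 4) ⊆ ball c r →
    ball c2 (r / 4) ⊆ ball c r →
    |avg c1 (r / 4) a - avg c2 (r / 4) a| ≤ K * Real.sqrt (∫ x in ball c r, ‖dz a x‖ ^ 2) := by
  obtain ⟨K, hK, hP⟩ := poincare
  refine ⟨2 * Real.sqrt (16 * K), by positivity, ?_⟩
  intro c c1 c2 r U a hr hU hB ha h1 h2
  set E := ∫ x in ball c r, ‖dz a x‖ ^ 2 with hE
  have hbc : ball c r ⊆ closedBall c r := ball_subset_closedBall
  have hac : ContinuousOn a (closedBall c r) := ha.continuousOn.mono hB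
  have hE0 : 0 ≤ E := integral_nonneg fun x => sq_nonneg _
  have key : ∀ c', ball c' (r / 4) ⊆ ball c r →
      |avg c' (r / 4) a - avg c r a| ≤ Real.sqrt (16 * K) * Real.sqrt E := by
    intro c' h'
    have hr4 : 0 < r / 4 := by positivity
    have : IsFiniteMeasure (volume.restrict (ball c' (r / 4))) :=
      isFiniteMeasure_restrict.mpr (measure_ball_lt_top).ne
    have hv := Disc_vol c' hr4
    set m := avg c r a with hm
    have hi0 : IntegrableOn (fun x => a x - m) (closedBall c r) :=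
      (hac.sub continuousOn_const).integrableOn_compact (isCompact_closedBall c r)
    have hi20 : IntegrableOn (fun x => (a x - m) ^ 2) (closedBall c r) :=
      ((hac.sub continuousOn_const).pow 2).integrableOn_compact (isCompact_closedBall c r)
    have hi : IntegrableOn (fun x => a x - m) (ball c' (r / 4)) := hi0.mono_set (h'.trans hbc)
    have hi2 : IntegrableOn (fun x => (a x - m) ^ 2) (ball c' (r / 4)) :=
      hi20.mono_set (h'.trans hbc)
    have hia : IntegrableOn a (ball c' (r / 4)) :=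
      (hac.integrableOn_compact (isCompact_closedBall c r)).mono_set (h'.trans hbc)
    have h3 := Disc_cs (volume.restrict (ball c' (r / 4))) hi hi2
    rw [hv, integral_sub hia (integrable_const _), integral_const, hv, smul_eq_mul] at h3
    have h4 : ∫ x in ball c' (r / 4), (a x - m) ^ 2 ≤ ∫ x in ball c r, (a x - m) ^ 2 :=
      setIntegral_mono_set (hi20.mono_set hbc) (Eventually.of_forall fun x => sq_nonneg _)
        (LE.le.eventuallyLE h')
    have h5 := hP c r U a hr hU hB ha
    have hav : avg c' (r / 4) a - m = ((∫ x in ball c' (r / 4), a x) -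
        Real.pi * (r / 4) ^ 2 * m) / (Real.pi * (r / 4) ^ 2) := by
      rw [avg]
      field_simp
    have hw : 0 < Real.pi * (r / 4) ^ 2 := by positivity
    have h6 : (avg c' (r / 4) a - m) ^ 2 ≤ 16 * K * E := by
      rw [hav, div_pow, div_le_iff₀ (by positivity)]
      calc _ ≤ _ := h3
        _ ≤ Real.pi * (r / 4) ^ 2 * (K * r ^ 2 * E) :=
            mul_le_mul_of_nonneg_left (h4.trans h5) hw.le
        _ ≤ _ := by
            have h7 : (1 : ℝ) ≤ Real.pi := by linarith [Real.pi_gt_three]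
            have h8 : 0 ≤ K * E * r ^ 4 * Real.pi := by positivity
            have e1 : Real.pi * (r / 4) ^ 2 * (K * r ^ 2 * E) = (K * E * r ^ 4 * Real.pi) / 16 := by
              ring
            have e2 : 16 * K * E * (Real.pi * (r / 4) ^ 2) ^ 2 =
                (K * E * r ^ 4 * Real.pi) / 16 * Real.pi := by ring
            rw [e1, e2]
            nlinarith
    rw [← Real.sqrt_mul (by positivity)]
    exact Real.abs_le_sqrt h6
  have h3 := key c1 h1
  have h4 := key c2 h2
  have h5 : |avg c1 (r / 4) a - avg c2 (r / 4) a| ≤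
      |avg c1 (r / 4) a - avg c r a| + |avg c2 (r / 4) a - avg c r a| := by
    have := abs_sub_le (avg c1 (r / 4) a) (avg c r a) (avg c2 (r / 4) a)
    rwa [abs_sub_comm (avg c r a)] at this
  calc _ ≤ _ := h5
    _ ≤ _ := add_le_add h3 h4
    _ = _ := by ring

end EGR
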