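import Pool.Agent.EGR.Defs

/-!
Symmetric functions of the values of a rational function on the fibres are rational.

PROOF. Let `C` be the companion matrix of `F` over `ℂ[x]` (row `i` is `y^(i+1)` modulo `F`). For a
root `y` of `F(x, ·)` the vector `(y^j)_j` is an eigenvector of `C(x)` with eigenvalue `y`. If
`F(x, ·)` is separable, the matrix `V` of these vectors is an invertible Vandermonde matrix and
`Q(x, C(x)) = V diag(Q(x, y)) V⁻¹`. Take the characteristic polynomial and the trace of `Q(x, C)`.
-/

open Polynomial MeasureTheory Metric ComplexConjugate Filter Topology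

namespace EGR

open ALC

/-- the companion matrix -/
noncomputable def esymC (F : ℂ[X][X]) : Matrix (Fin F.natDegree) (Fin F.natDegree) ℂ[X] :=
  fun i j => if (i : ℕ) + 1 < F.natDegree then (if (j : ℕ) = i + 1 then 1 else 0) else -F.coeff j

private theorem esym_mem (F : ℂ[X][X]) (hF : F.Monic) (x y : ℂ) :
    y ∈ fib F x ↔ (at_ F x).eval y = 0 := by
  unfold fib
  have hm : (at_ F x).Monic := hF.map _
  rw [Multiset.mem_toFinset, mem_roots hm.ne_zero, IsRoot.def]

private theorem esym_card (F : ℂ[X][X]) (hF : F.Monic) (x : ℂ) (hs : (at_ F x).Separable) :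
    (fib F x).card = F.natDegree := by
  unfold fib
  rw [Multiset.toFinset_card_of_nodup (nodup_roots hs),
    ← (IsAlgClosed.splits (at_ F x)).natDegree_eq_card_roots]
  exact hF.natDegree_map _

private theorem esym_eig (F : ℂ[X][X]) (hF : F.Monic) (x y : ℂ) (h : (at_ F x).eval y = 0)
    (i : Fin F.natDegree) :
    ∑ j : Fin F.natDegree, ((esymC F).map (evalRingHom x)) i j * y ^ (j : ℕ) = y * y ^ (i : ℕ) := by
  by_cases hi : (i : ℕ) + 1 < F.natDegree
  · rw [Finset.sum_eq_single (⟨i + 1, hi⟩ : Fin F.natDegree)]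
    · simp [esymC, hi, pow_succ, mul_comm]
    · intro j _ hj
      have hj' : (j : ℕ) ≠ i + 1 := fun h' => hj (Fin.ext h')
      simp [esymC, hi, hj']
    · intro h'
      exact absurd (Finset.mem_univ _) h'
  · have hd : F.natDegree = (i : ℕ) + 1 := by
      have := i.2
      omega
    have h1 : (at_ F x).natDegree = F.natDegree := hF.natDegree_map _
    have h2 : (at_ F x).coeff F.natDegree = 1 := by
      have := (hF.map (evalRingHom x)).coeff_natDegree
      rw [hF.natDegree_map] at this
      exact this
    have h3 : ∑ j ∈ Finset.range F.natDegree, (at_ F x).coeff j * y ^ j + y ^ F.natDegree = 0 := by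
      rw [← h, eval_eq_sum_range, h1, Finset.sum_range_succ, h2, one_mul]
    have h4 : ∑ j : Fin F.natDegree, ((esymC F).map (evalRingHom x)) i j * y ^ (j : ℕ) =
        -∑ j ∈ Finset.range F.natDegree, (at_ F x).coeff j * y ^ j := by
      rw [← Fin.sum_univ_eq_sum_range (fun j => (at_ F x).coeff j * y ^ j), ← Finset.sum_neg_distrib]
      refine Finset.sum_congr rfl fun j _ => ?_
      simp [esymC, hi, at_, coeff_map]
    rw [h4]
    have h5 : y * y ^ (i : ℕ) = y ^ F.natDegree := by
      have h6 : y ^ F.natDegree = y ^ ((i : ℕ) + 1) := congrArg (fun n => y ^ n) hd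
      rw [h6, pow_succ]
      ring
    rw [h5]
    linear_combination -h3

/-- diagonalisation of `Q(x, C(x))` -/
private theorem esym_main (F : ℂ[X][X]) (hF : F.Monic) (Q : ℂ[X][X]) (x : ℂ)
    (hs : (at_ F x).Separable) :
    ∃ (e : Fin F.natDegree ≃ {y // y ∈ fib F x}) (V : (Matrix (Fin F.natDegree) (Fin F.natDegree) ℂ)ˣ),
      (aeval (esymC F) Q).map (evalRingHom x) =
        V.val * Matrix.diagonal (fun k => Q.evalEval x (e k)) * V⁻¹.val := by
  classical
  let e : Fin F.natDegree ≃ {y // y ∈ fib F x} := (Finset.equivFinOfCardEq (esym_card F hF x hs)).symm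
  let V0 : Matrix (Fin F.natDegree) (Fin F.natDegree) ℂ :=
    (Matrix.vandermonde fun k => ((e k : ℂ))).transpose
  have hinj : Function.Injective fun k => ((e k : ℂ)) := fun a b hab => e.injective (Subtype.ext hab)
  have hdet : V0.det ≠ 0 := by
    rw [Matrix.det_transpose]
    exact Matrix.det_vandermonde_ne_zero_iff.2 hinj
  have hu : IsUnit V0 := (Matrix.isUnit_iff_isUnit_det V0).2 (isUnit_iff_ne_zero.2 hdet)
  obtain ⟨V, hV⟩ := hu
  refine ⟨e, V, ?_⟩
  have hCV : (esymC F).map (evalRingHom x) * V.val = V.val * Matrix.diagonal fun k => ((e k : ℂ)) := by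
    rw [hV]
    ext i k
    rw [Matrix.mul_apply, Matrix.mul_diagonal]
    have h0 : (at_ F x).eval (e k : ℂ) = 0 := (esym_mem F hF x _).1 (e k).2
    have := esym_eig F hF x (e k : ℂ) h0 i
    simp only [V0, Matrix.transpose_apply, Matrix.vandermonde_apply]
    rw [this]
    ring
  have hC : (esymC F).map (evalRingHom x) =
      V.val * (Matrix.diagonal fun k => ((e k : ℂ))) * V⁻¹.val := by
    rw [← hCV, mul_assoc, Units.mul_inv, mul_one]
  have hmap : (aeval (esymC F) Q).map (evalRingHom x) =
      aeval ((esymC F).map (evalRingHom x)) (Q.map (evalRingHom x)) := by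
    have h := map_aeval_eq_aeval_map (R := ℂ[X]) (S := Matrix (Fin F.natDegree) (Fin F.natDegree) ℂ[X])
      (T := ℂ) (U := Matrix (Fin F.natDegree) (Fin F.natDegree) ℂ)
      (φ := evalRingHom x) (ψ := (evalRingHom x).mapMatrix) (by
        refine RingHom.ext fun a => ?_
        ext i j
        by_cases hij : i = j <;> simp [Matrix.algebraMap_matrix_apply, hij]) Q (esymC F)
    exact h
  rw [hmap, hC]
  have hpow : ∀ p : ℂ[X], aeval (V.val * (Matrix.diagonal fun k => ((e k : ℂ))) * V⁻¹.val) p =
      V.val * (Matrix.diagonal fun k => p.eval (e k : ℂ)) * V⁻¹.val := by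
    intro p
    induction p using Polynomial.induction_on' with
    | add p q hp hq =>
      rw [map_add, hp, hq, ← add_mul, ← mul_add, Matrix.diagonal_add]
      simp only [eval_add]
    | monomial n a =>
      have hp : (V.val * (Matrix.diagonal fun k => ((e k : ℂ))) * V⁻¹.val) ^ n =
          V.val * (Matrix.diagonal fun k => ((e k : ℂ)) ^ n) * V⁻¹.val := by
        induction n with
        | zero => simp
        | succ n ih =>
          rw [pow_succ, ih]
          calc V.val * (Matrix.diagonal fun k => ((e k : ℂ)) ^ n) * V⁻¹.val *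
                (V.val * (Matrix.diagonal fun k => ((e k : ℂ))) * V⁻¹.val)
              = V.val * (Matrix.diagonal fun k => ((e k : ℂ)) ^ n) * (V⁻¹.val * V.val) *
                (Matrix.diagonal fun k => ((e k : ℂ))) * V⁻¹.val := by
                simp only [mul_assoc]
            _ = V.val * ((Matrix.diagonal fun k => ((e k : ℂ)) ^ n) *
                (Matrix.diagonal fun k => ((e k : ℂ)))) * V⁻¹.val := by
                rw [Units.inv_mul, mul_one]
                simp only [mul_assoc]
            _ = _ := by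
                rw [Matrix.diagonal_mul_diagonal]
                simp only [pow_succ]
      rw [aeval_monomial, hp]
      have hd : (Matrix.diagonal fun k => (monomial n a).eval (e k : ℂ)) =
          a • (Matrix.diagonal fun k => ((e k : ℂ)) ^ n) := by
        rw [← Matrix.diagonal_smul]
        congr 1
        funext k
        simp [eval_monomial]
      rw [hd, ← Algebra.smul_def, mul_smul_comm, smul_mul_assoc]
  rw [hpow]
  simp only [map_evalRingHom_eval]

/-- `∏ (T - Q(x, y))` over the fibre has coefficients in `ℂ[x]` -/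
theorem charpoly_fib (F : ℂ[X][X]) (hF : F.Monic) (Q : ℂ[X][X]) :
    ∃ P : ℂ[X][X], P.Monic ∧ P.natDegree = F.natDegree ∧ ∀ x, (at_ F x).Separable →
      at_ P x = ∏ y ∈ fib F x, (X - C (Q.evalEval x y)) := by
  classical
  refine ⟨(aeval (esymC F) Q).charpoly, Matrix.charpoly_monic _, ?_, ?_⟩
  · rw [Matrix.charpoly_natDegree_eq_dim, Fintype.card_fin]
  · intro x hs
    obtain ⟨e, V, h⟩ := esym_main F hF Q x hs
    have h2 := Matrix.charpoly_units_conj V (Matrix.diagonal fun k => Q.evalEval x (e k))
    rw [← Matrix.coe_units_inv] at h2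
    rw [at_, ← Matrix.charpoly_map, h, h2, Matrix.charpoly_diagonal,
      ← Finset.prod_coe_sort (fib F x)]
    exact Fintype.prod_equiv e _ _ fun k => rfl

/-- the sums over the fibre are polynomials in `x` -/
theorem trace_fib (F : ℂ[X][X]) (hF : F.Monic) (Q : ℂ[X][X]) :
    ∃ N : ℂ[X], ∀ x, (at_ F x).Separable → ∑ y ∈ fib F x, Q.evalEval x y = N.eval x := by
  classical
  refine ⟨(aeval (esymC F) Q).trace, fun x hs => ?_⟩
  obtain ⟨e, V, h⟩ := esym_main F hF Q x hs
  have h1 : (aeval (esymC F) Q).trace.eval x = ((aeval (esymC F) Q).map (evalRingHom x)).trace := by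
    simp [Matrix.trace, eval_finsetSum]
  rw [h1, h, Matrix.trace_units_conj, Matrix.trace_diagonal, ← Finset.sum_coe_sort (fib F x)]
  exact (Fintype.sum_equiv e _ _ fun k => rfl).symm

end EGR
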