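import Pool.Agent.EGR.Sum

/-!
Test functions supported in one sheet over a disc.

For a branch `Y` over `ball c r` and a `C^2` function `χ` with compact support in `ball c r` the
function `ext c r Y χ` (equal to `χ x` at `(x, Y x)`, zero at all other points) is in `Fn`.
Along a branch `(U, Z)`: on `U ∩ ball c r` the set where `Z = Y` is open and closed
(`ALC.branch_eq`), so the function is locally `χ` or `0`; outside `tsupport χ` it is `0`.
-/

open Polynomial MeasureTheory Metric ComplexConjugate Filter Topology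

namespace EGR

open ALC

/-- along a branch the extended function is locally `χ` (if the branch is `Y`) or `0` -/
private theorem ext_loc (F : ℂ[X][X]) (hF : F.Monic) (c : ℂ) (r : ℝ) (Y : ℂ → ℂ)
    (hY : IsBranch F (ball c r) Y) (χ : ℂ → ℝ) (hs : tsupport χ ⊆ ball c r)
    {U : Set ℂ} {Z : ℂ → ℂ} (hZ : IsBranch F U Z) {x : ℂ} (hx : x ∈ U) :
    (x ∈ ball c r ∧ Z x = Y x ∧ (fun z => ext c r Y χ z (Z z)) =ᶠ[𝓝 x] χ) ∨
      (¬ (x ∈ ball c r ∧ Z x = Y x) ∧ (fun z => ext c r Y χ z (Z z)) =ᶠ[𝓝 x] fun _ => 0) := by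
  by_cases hxb : x ∈ ball c r
  · by_cases hxy : Z x = Y x
    · left
      refine ⟨hxb, hxy, ?_⟩
      obtain ⟨s, hsp, hsub⟩ := Metric.isOpen_iff.1 (hZ.1.inter isOpen_ball) x ⟨hx, hxb⟩
      have h1 : IsBranch F (ball x s) Z := ⟨isOpen_ball, hZ.2.1.mono fun z hz => (hsub hz).1,
        fun z hz => hZ.2.2 z (hsub hz).1⟩
      have h2 : IsBranch F (ball x s) Y := ⟨isOpen_ball, hY.2.1.mono fun z hz => (hsub hz).2,
        fun z hz => hY.2.2 z (hsub hz).2⟩
      have h3 := branch_eq F hF (ball x s) (convex_ball x _).isPreconnected _ _ h1 h2 x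
        (mem_ball_self hsp) hxy
      filter_upwards [ball_mem_nhds x hsp] with z hz
      unfold ext
      rw [if_pos ⟨(hsub hz).2, h3 z hz⟩]
    · right
      refine ⟨fun h => hxy h.2, ?_⟩
      have h1 : ContinuousAt Z x := (hZ.2.1.differentiableAt (hZ.1.mem_nhds hx)).continuousAt
      have h2 : ContinuousAt Y x :=
        (hY.2.1.differentiableAt (isOpen_ball.mem_nhds hxb)).continuousAt
      have h3 : ∀ᶠ z in 𝓝 x, Z z - Y z ≠ 0 :=
        (h1.sub h2).eventually_ne (sub_ne_zero.2 hxy)
      filter_upwards [h3] with z hz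
      unfold ext
      rw [if_neg fun h => hz (sub_eq_zero.2 h.2)]
  · right
    refine ⟨fun h => hxb h.1, ?_⟩
    have h1 : x ∉ tsupport χ := fun h => hxb (hs h)
    filter_upwards [notMem_tsupport_iff_eventuallyEq.1 h1] with z hz
    unfold ext
    split_ifs
    · exact hz
    · rfl

private theorem ext_dz_congr {f g : ℂ → ℝ} {x : ℂ} (h : f =ᶠ[𝓝 x] g) : dz f x = dz g x := by
  unfold dz
  rw [h.fderiv_eq]

/-- the derivative of the extended function -/
private theorem ext_D (F : ℂ[X][X]) (hF : F.Monic) (c : ℂ) (r : ℝ) (Y : ℂ → ℂ)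
    (hY : IsBranch F (ball c r) Y) (χ : ℂ → ℝ) (hs : tsupport χ ⊆ ball c r) (x y : ℂ) :
    (x ∈ ball c r ∧ y = Y x → D F (ext c r Y χ) x y = dz χ x) ∧
      (¬ (x ∈ ball c r ∧ y = Y x) → D F (ext c r Y χ) x y = 0) := by
  constructor
  · rintro ⟨hx, rfl⟩
    rw [D_eq F hF hY hx]
    rcases ext_loc F hF c r Y hY χ hs hY hx with h | h
    · exact ext_dz_congr h.2.2
    · exact absurd ⟨hx, rfl⟩ h.1
  · intro hn
    unfold D
    split_ifs with h
    · obtain ⟨s, hsp, hZ, hZx⟩ := h.choose_spec
      rcases ext_loc F hF c r Y hY χ hs hZ (mem_ball_self hsp) with h1 | h1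
      · exact absurd ⟨h1.1, by rw [← hZx]; exact h1.2.1⟩ hn
      · rw [ext_dz_congr h1.2]
        unfold dz
        simp
    · rfl

private theorem ext_ts (v : ℂ) (f : ℂ → ℝ) :
    tsupport (fun x => fderiv ℝ f x v) ⊆ tsupport f := by
  refine (closure_minimal ?_ (isClosed_tsupport f))
  intro x hx
  by_contra h
  have h2 : fderiv ℝ f x = 0 := by
    have := fun hh => h (tsupport_fderiv_subset ℝ (f := f) hh)
    exact image_eq_zero_of_notMem_tsupport this
  exact hx (by simp [h2])

private theorem ext_fcont {f : ℂ → ℝ} (hf : ContDiff ℝ 2 f) (v : ℂ) :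
    Continuous fun x => fderiv ℝ f x v :=
  (hf.continuous_fderiv (by norm_num)).clm_apply continuous_const

private theorem ext_dzcont {f : ℂ → ℝ} (hf : ContDiff ℝ 2 f) : Continuous (dz f) := by
  unfold dz
  exact ((Complex.continuous_ofReal.comp (ext_fcont hf 1)).sub
    (continuous_const.mul (Complex.continuous_ofReal.comp (ext_fcont hf Complex.I)))).div_const 2

private theorem ext_dzzero {f : ℂ → ℝ} {x : ℂ} (hx : x ∉ tsupport f) : dz f x = 0 := by
  have h2 : fderiv ℝ f x = 0 := by
    have := fun hh => hx (tsupport_fderiv_subset ℝ (f := f) hh)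
    exact image_eq_zero_of_notMem_tsupport this
  unfold dz
  simp [h2]

private theorem ext_int {U : Set ℂ} (hU : IsOpen U) {ψ g : ℂ → ℝ} (hψ : Continuous ψ)
    (hg : ContinuousOn g U) (hc : HasCompactSupport ψ) (hs : tsupport ψ ⊆ U) :
    Integrable (fun x => ψ x * g x) := by
  have hcont : Continuous (fun x => ψ x * g x) := by
    refine continuous_iff_continuousAt.2 fun x => ?_
    by_cases hx : x ∈ tsupport ψ
    · exact (hψ.continuousOn.mul hg).continuousAt (hU.mem_nhds (hs hx))
    · have : (fun x => ψ x * g x) =ᶠ[𝓝 x] fun _ => 0 :=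
        (notMem_tsupport_iff_eventuallyEq.1 hx).mono fun y hy => by simp [hy]
      exact (continuousAt_const).congr this.symm
  exact hcont.integrable_of_hasCompactSupport (hc.mul_right)

variable (F : ℂ[X][X]) (hF : F.Monic) (b : ℂ) (hb : (at_ F b).Separable)
  (c : ℂ) (r : ℝ) (Y : ℂ → ℂ) (hY : IsBranch F (ball c r) Y) (χ : ℂ → ℝ) (hχ : ContDiff ℝ 2 χ)
  (hc : HasCompactSupport χ) (hs : tsupport χ ⊆ ball c r)

include hF hY

/-- pointwise: the sum over the sheets -/
theorem ext_sum (H : ℂ → ℂ → ℝ) (x : ℂ) :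
    ∑ y ∈ fib F x, H x y * ext c r Y χ x y = (ball c r).indicator (fun x => H x (Y x) * χ x) x := by
  classical
  by_cases hx : x ∈ ball c r
  · rw [Set.indicator_of_mem hx]
    have h1 : Y x ∈ fib F x := (mem_fib F hF x (Y x)).2 (hY.2.2 x hx).2
    rw [Finset.sum_eq_single_of_mem (Y x) h1]
    · unfold ext
      rw [if_pos ⟨hx, rfl⟩]
    · intro y _ hy
      unfold ext
      rw [if_neg fun h => hy h.2, mul_zero]
  · rw [Set.indicator_of_notMem hx]
    refine Finset.sum_eq_zero fun y _ => ?_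
    unfold ext
    rw [if_neg fun h => hx h.1, mul_zero]

include hb hχ hc hs

theorem ext_fn : Fn F (ext c r Y χ) := by
  classical
  refine ⟨?_, ?_, ?_⟩
  · intro U Z hZ x hx
    refine ContDiffAt.contDiffWithinAt ?_
    rcases ext_loc F hF c r Y hY χ hs hZ hx with h | h
    · exact (hχ.contDiffAt).congr_of_eventuallyEq h.2.2
    · exact (contDiffAt_const (c := (0 : ℝ))).congr_of_eventuallyEq h.2
  · obtain ⟨M, hM⟩ := hc.exists_bound_of_continuous hχ.continuous
    refine ⟨max M 0, fun x y _ => ?_⟩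
    unfold ext
    split_ifs
    · exact (hM x).trans (le_max_left _ _)
    · rw [abs_zero]
      exact le_max_right _ _
  · have h1 : (fun x => ∑ y ∈ fib F x, ‖D F (ext c r Y χ) x y‖ ^ 2) = fun x => ‖dz χ x‖ ^ 2 := by
      funext x
      by_cases hx : x ∈ ball c r
      · have h1 : Y x ∈ fib F x := (mem_fib F hF x (Y x)).2 (hY.2.2 x hx).2
        rw [Finset.sum_eq_single_of_mem (Y x) h1]
        · rw [(ext_D F hF c r Y hY χ hs x (Y x)).1 ⟨hx, rfl⟩]
        · intro y _ hy
          rw [(ext_D F hF c r Y hY χ hs x y).2 fun h => hy h.2]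
          simp
      · rw [ext_dzzero fun h => hx (hs h)]
        rw [Finset.sum_eq_zero fun y _ => ?_]
        · simp
        · rw [(ext_D F hF c r Y hY χ hs x y).2 fun h => hx h.1]
          simp
    rw [h1]
    have h2 : Continuous fun x => ‖dz χ x‖ ^ 2 := (ext_dzcont hχ).norm.pow 2
    refine h2.integrable_of_hasCompactSupport ?_
    refine HasCompactSupport.intro hc fun x hx => ?_
    rw [ext_dzzero hx]
    simp

theorem ext_bil (u : ℂ → ℂ → ℝ) (hu : Fn F u) :
    Bil F u (ext c r Y χ) =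
      ∫ x in ball c r, (dz (fun x => u x (Y x)) x * conj (dz χ x)).re := by
  classical
  unfold Bil
  rw [← integral_indicator measurableSet_ball]
  congr 1
  funext x
  by_cases hx : x ∈ ball c r
  · rw [Set.indicator_of_mem hx]
    have h1 : Y x ∈ fib F x := (mem_fib F hF x (Y x)).2 (hY.2.2 x hx).2
    rw [Finset.sum_eq_single_of_mem (Y x) h1]
    · rw [(ext_D F hF c r Y hY χ hs x (Y x)).1 ⟨hx, rfl⟩, D_eq F hF hY hx]
    · intro y _ hy
      rw [(ext_D F hF c r Y hY χ hs x y).2 fun h => hy h.2]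
      simp
  · rw [Set.indicator_of_notMem hx]
    refine Finset.sum_eq_zero fun y _ => ?_
    rw [(ext_D F hF c r Y hY χ hs x y).2 fun h => hx h.1]
    simp

omit hb hF hY in
/-- integration by parts -/
theorem ibp_dz (a : ℂ → ℝ) (ha : ContDiffOn ℝ 2 a (ball c r)) :
    ∫ x in ball c r, dz a x * conj (dz χ x) =
      ((-(1 / 4) * ∫ x in ball c r, Laplacian.laplacian a x * χ x : ℝ) : ℂ) := by
  have hfd : ContDiffOn ℝ 1 (fderiv ℝ a) (ball c r) := ha.fderiv_of_isOpen isOpen_ball (by norm_num)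
  have hfc : ∀ v : ℂ, ContinuousOn (fun x => fderiv ℝ a x v) (ball c r) := fun v =>
    hfd.continuousOn.clm_apply continuousOn_const
  have hfd' : ∀ v : ℂ, ContDiffOn ℝ 1 (fun x => fderiv ℝ a x v) (ball c r) := fun v =>
    hfd.clm_apply contDiffOn_const
  have hfd2 : ∀ v w : ℂ, ContinuousOn (fun x => fderiv ℝ (fun x => fderiv ℝ a x v) x w)
      (ball c r) := fun v w =>
    ((hfd' v).continuousOn_fderiv_of_isOpen isOpen_ball le_rfl).clm_apply continuousOn_const
  have hsw : ∀ w : ℂ, tsupport (fun x => fderiv ℝ χ x w) ⊆ ball c r := fun w =>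
    (ext_ts w χ).trans hs
  have hcw : ∀ w : ℂ, HasCompactSupport (fun x => fderiv ℝ χ x w) := fun w =>
    hc.of_isClosed_subset (isClosed_tsupport _) (ext_ts w χ)
  have hint1 : ∀ v w : ℂ, Integrable (fun x => fderiv ℝ χ x w * fderiv ℝ a x v) := fun v w =>
    ext_int isOpen_ball (ext_fcont hχ w) (hfc v) (hcw w) (hsw w)
  have hint2 : ∀ v w : ℂ, Integrable (fun x => χ x * fderiv ℝ (fun x => fderiv ℝ a x v) x w) :=
    fun v w => ext_int isOpen_ball hχ.continuous (hfd2 v w) hc hs
  have hint3 : ∀ v : ℂ, Integrable (fun x => χ x * fderiv ℝ a x v) := fun v =>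
    ext_int isOpen_ball hχ.continuous (hfc v) hc hs
  have hibp : ∀ v w : ℂ, ∫ x, fderiv ℝ a x v * fderiv ℝ χ x w =
      - ∫ x, fderiv ℝ (fun x => fderiv ℝ a x v) x w * χ x := by
    intro v w
    refine integral_mul_fderiv_eq_neg_fderiv_mul_of_integrable ?_ ?_ ?_ ?_ ?_
    · simpa only [mul_comm] using hint2 v w
    · simpa only [mul_comm] using hint1 v w
    · simpa only [mul_comm] using hint3 v
    · intro x hx
      exact ((hfd' v).differentiableOn (by norm_num)).differentiableAt
        (isOpen_ball.mem_nhds (hs hx))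
    · intro x _
      exact (hχ.differentiable (by norm_num)) x
  -- restriction to the ball
  have hres : ∀ v w : ℂ, ∫ x in ball c r, fderiv ℝ a x v * fderiv ℝ χ x w =
      - ∫ x in ball c r, fderiv ℝ (fun x => fderiv ℝ a x v) x w * χ x := by
    intro v w
    rw [setIntegral_eq_integral_of_forall_compl_eq_zero, hibp v w,
      setIntegral_eq_integral_of_forall_compl_eq_zero]
    · intro x hx
      rw [image_eq_zero_of_notMem_tsupport fun h => hx (hs h), mul_zero]
    · intro x hx
      have h0 : (fun x => fderiv ℝ χ x w) x = 0 :=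
        image_eq_zero_of_notMem_tsupport (f := fun x => fderiv ℝ χ x w) fun h => hx (hsw w h)
      have h1 : fderiv ℝ χ x w = 0 := h0
      rw [h1, mul_zero]
  have hfx : ∀ v w : ℂ, ∀ x ∈ ball c r, fderiv ℝ (fun x => fderiv ℝ a x v) x w =
      fderiv ℝ (fderiv ℝ a) x w v := by
    intro v w x hx
    have h1 : DifferentiableAt ℝ (fderiv ℝ a) x :=
      (hfd.differentiableOn (by norm_num)).differentiableAt (isOpen_ball.mem_nhds hx)
    rw [fderiv_clm_apply h1 (differentiableAt_const v)]
    simp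
  have hsymm : ∀ x ∈ ball c r, ∀ v w : ℂ, fderiv ℝ (fderiv ℝ a) x w v =
      fderiv ℝ (fderiv ℝ a) x v w := by
    intro x hx v w
    have h1 : ContDiffAt ℝ 2 a x := ha.contDiffAt (isOpen_ball.mem_nhds hx)
    exact (h1.isSymmSndFDerivAt (by simp)).eq w v
  have hmix : ∫ x in ball c r, fderiv ℝ a x 1 * fderiv ℝ χ x Complex.I =
      ∫ x in ball c r, fderiv ℝ a x Complex.I * fderiv ℝ χ x 1 := by
    rw [hres, hres]
    congr 1
    refine setIntegral_congr_fun measurableSet_ball fun x hx => ?_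
    rw [hfx _ _ x hx, hfx _ _ x hx, hsymm x hx]
  have hlap : ∫ x in ball c r, Laplacian.laplacian a x * χ x =
      (∫ x in ball c r, fderiv ℝ (fun x => fderiv ℝ a x 1) x 1 * χ x) +
      ∫ x in ball c r, fderiv ℝ (fun x => fderiv ℝ a x Complex.I) x Complex.I * χ x := by
    rw [← integral_add]
    · refine setIntegral_congr_fun measurableSet_ball fun x hx => ?_
      rw [InnerProductSpace.laplacian_eq_iteratedFDeriv_complexPlane]
      simp only [iteratedFDeriv_two_apply]
      rw [hfx _ _ x hx, hfx _ _ x hx]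
      simp
      ring
    · exact (hint2 1 1).integrableOn.congr_fun (fun x _ => mul_comm _ _) measurableSet_ball
    · exact (hint2 Complex.I Complex.I).integrableOn.congr_fun (fun x _ => mul_comm _ _)
        measurableSet_ball
  -- assemble
  have hI : ∀ v w : ℂ, IntegrableOn (fun x => fderiv ℝ a x v * fderiv ℝ χ x w) (ball c r) := by
    intro v w
    simpa only [mul_comm] using (hint1 v w).integrableOn
  have hpt : (fun x => dz a x * conj (dz χ x)) = fun x =>
      ((1 / 4 * (fderiv ℝ a x 1 * fderiv ℝ χ x 1 +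
        fderiv ℝ a x Complex.I * fderiv ℝ χ x Complex.I) : ℝ) : ℂ) +
      ((1 / 4 * (fderiv ℝ a x 1 * fderiv ℝ χ x Complex.I -
        fderiv ℝ a x Complex.I * fderiv ℝ χ x 1) : ℝ) : ℂ) * Complex.I := by
    funext x
    unfold dz
    simp only [map_div₀, map_sub, map_mul, Complex.conj_ofReal, Complex.conj_I]
    rw [show (conj (2 : ℂ)) = 2 from Complex.conj_ofNat 2]
    push_cast
    linear_combination (-(1 / 4) * ((fderiv ℝ a x Complex.I : ℝ) : ℂ) *
      ((fderiv ℝ χ x Complex.I : ℝ) : ℂ)) * Complex.I_sq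
  rw [hpt, integral_add, integral_mul_const, integral_complex_ofReal, integral_complex_ofReal,
    integral_const_mul, integral_const_mul, integral_add (hI _ _) (hI _ _),
    integral_sub (hI _ _) (hI _ _), hmix, sub_self, hres, hres, hlap]
  · push_cast
    ring
  · exact (((hI _ _).add (hI _ _)).const_mul (1 / 4)).ofReal
  · exact ((((hI _ _).sub (hI _ _)).const_mul (1 / 4)).ofReal).mul_const Complex.I

end EGR
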