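import Pool.Agent.EGR.OnbA

/-!
Existence of orthonormal bases of the square integrable rational functions on the curve.

PROOF. The class `IsHol F` is closed under linear combinations in the sense of `hol_lin` (common
denominators `D1 D2`; `|a + c b|^2 ≤ 2 |a|^2 + 2 |c|^2 |b|^2`; measurability: `meas_sum` away from the
zeros of the denominators, a finite set). An orthonormal family `e : Fin n → _` (first two
conditions of `IsONB`) has `n ≤ d (m + 1)`: otherwise the vectors of coefficients of the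
polynomials of `trace_poly` (`i < d`, degree `≤ m`) are linearly dependent, `∑ c k p_(k,i) = 0` for all
`i`, so `∑_y ψ(x, y) y^i = 0` for `i < d`, `ψ = ∑ c k e k`, for almost all `x`, and `ψ(x, y) = 0` on the
fibre (Vandermonde, the `d` roots are distinct), but `∫ ∑ |ψ|^2 = ∑ |c k|^2 > 0`. Take an orthonormal
family of maximal length `g`. For `φ` in `IsHol F` let `ψ = φ - ∑ (∫ ∑ φ conj(e k)) e k`; it is orthogonal
to all `e k`; if `∫ ∑ |ψ|^2 > 0`, normalise it and get a longer family; so `∫ ∑ |ψ|^2 = 0` and `ψ = 0`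
on the fibres over almost all `x`.
-/

open Polynomial MeasureTheory Metric ComplexConjugate Filter Topology

namespace EGR

open ALC

variable (F : ℂ[X][X]) (hF : F.Monic) (b : ℂ) (hb : (at_ F b).Separable)

private theorem onb_cont (Q : ℂ[X][X]) : Continuous (fun v : ℂ × ℂ => Q.evalEval v.1 v.2) := by
  have h : (fun v : ℂ × ℂ => Q.evalEval v.1 v.2) =
      fun v => ∑ i ∈ Finset.range (Q.natDegree + 1), (Q.coeff i).eval v.1 * v.2 ^ i := by
    funext v
    show eval v.1 (eval (C v.2) Q) = _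
    rw [eval_eq_sum_range (p := Q), eval_finsetSum]
    refine Finset.sum_congr rfl fun i _ => ?_
    rw [eval_mul, eval_pow, eval_C]
  rw [h]
  refine continuous_finsetSum _ fun i _ => ?_
  exact ((Q.coeff i).continuous.comp continuous_fst).mul (continuous_snd.pow i)

private theorem onb_root (D : ℂ[X]) (hD : D ≠ 0) : ∀ᵐ x : ℂ, D.eval x ≠ 0 := by
  have h : (volume : Measure ℂ) {x : ℂ | IsRoot D x} = 0 := (finite_setOfPred_isRoot hD).measure_zero _
  rw [ae_iff]
  refine measure_mono_null ?_ h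
  intro x hx
  simpa [IsRoot.def] using hx

include hF hb

private theorem onb_sep : ∀ᵐ x : ℂ, (at_ F x).Separable := by
  have h3 : (volume : Measure ℂ) {x : ℂ | ¬ (at_ F x).Separable} = 0 :=
    (bad_finite F hF b hb).measure_zero _
  exact ae_iff.2 h3

private theorem onb_pmeas {E : Type} [NormedAddCommGroup E] (G : ℂ × ℂ → E) (hG : Continuous G) :
    AEStronglyMeasurable (fun x => ∑ y ∈ fib F x, G (x, y)) volume :=
  meas_sum F hF b hb (fun x y => G (x, y)) fun _ _ hY =>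
    hG.comp_continuousOn (continuousOn_id.prodMk hY.2.1.continuousOn)

private theorem onb_meas (φ ψ : ℂ[X][X] × ℂ[X]) :
    AEStronglyMeasurable (fun x => ∑ y ∈ fib F x, rat φ x y * conj (rat ψ x y)) volume := by
  have h1 := onb_pmeas F hF b hb (fun v : ℂ × ℂ => φ.1.evalEval v.1 v.2 * conj (ψ.1.evalEval v.1 v.2))
    ((onb_cont φ.1).mul (Complex.continuous_conj.comp (onb_cont ψ.1)))
  have h2 : Measurable (fun x : ℂ => (φ.2.eval x)⁻¹ * (conj (ψ.2.eval x))⁻¹) :=
    (φ.2.continuous.measurable.inv).mul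
      ((Complex.continuous_conj.comp ψ.2.continuous).measurable.inv)
  have h3 := h1.mul h2.aestronglyMeasurable
  refine h3.congr (Eventually.of_forall fun x => ?_)
  show (∑ y ∈ fib F x, φ.1.evalEval x y * conj (ψ.1.evalEval x y)) *
    ((φ.2.eval x)⁻¹ * (conj (ψ.2.eval x))⁻¹) = _
  rw [Finset.sum_mul]
  refine Finset.sum_congr rfl fun y _ => ?_
  unfold rat
  rw [map_div₀, div_eq_mul_inv, div_eq_mul_inv]
  ring

private theorem onb_meas2 (φ : ℂ[X][X] × ℂ[X]) :
    AEStronglyMeasurable (fun x => ∑ y ∈ fib F x, ‖rat φ x y‖ ^ 2) volume := by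
  have h1 := onb_pmeas F hF b hb (fun v : ℂ × ℂ => ‖φ.1.evalEval v.1 v.2‖ ^ 2)
    ((onb_cont φ.1).norm.pow 2)
  have h2 : Measurable (fun x : ℂ => (‖φ.2.eval x‖ ^ 2)⁻¹) :=
    ((φ.2.continuous.norm.pow 2).measurable.inv)
  have h3 := h1.mul h2.aestronglyMeasurable
  refine h3.congr (Eventually.of_forall fun x => ?_)
  show (∑ y ∈ fib F x, ‖φ.1.evalEval x y‖ ^ 2) * (‖φ.2.eval x‖ ^ 2)⁻¹ = _
  rw [Finset.sum_mul]
  refine Finset.sum_congr rfl fun y _ => ?_
  unfold rat
  rw [norm_div, div_pow, div_eq_mul_inv]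

private theorem onb_int (φ ψ : ℂ[X][X] × ℂ[X]) (hφ : IsHol F φ) (hψ : IsHol F ψ) :
    Integrable (fun x => ∑ y ∈ fib F x, rat φ x y * conj (rat ψ x y)) volume := by
  refine Integrable.mono' (hφ.2.add hψ.2) (onb_meas F hF b hb φ ψ) (Eventually.of_forall fun x => ?_)
  refine (norm_sum_le _ _).trans ?_
  show _ ≤ (∑ y ∈ fib F x, ‖rat φ x y‖ ^ 2) + ∑ y ∈ fib F x, ‖rat ψ x y‖ ^ 2
  rw [← Finset.sum_add_distrib]
  refine Finset.sum_le_sum fun y _ => ?_
  rw [norm_mul, RCLike.norm_conj]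
  nlinarith [sq_nonneg (‖rat φ x y‖ - ‖rat ψ x y‖), norm_nonneg (rat φ x y), norm_nonneg (rat ψ x y),
    mul_nonneg (norm_nonneg (rat φ x y)) (norm_nonneg (rat ψ x y))]

theorem hol_lin (φ ψ : ℂ[X][X] × ℂ[X]) (hφ : IsHol F φ) (hψ : IsHol F ψ) (c : ℂ) :
    ∃ χ, IsHol F χ ∧ ∀ x y, φ.2.eval x ≠ 0 → ψ.2.eval x ≠ 0 →
      χ.2.eval x ≠ 0 ∧ rat χ x y = rat φ x y + c * rat ψ x y := by
  have key : ∀ x y, φ.2.eval x ≠ 0 → ψ.2.eval x ≠ 0 →
      rat (φ.1 * C ψ.2 + C (C c) * (ψ.1 * C φ.2), φ.2 * ψ.2) x y = rat φ x y + c * rat ψ x y := by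
    intro x y h1 h2
    unfold rat
    simp only [evalEval, eval_add, eval_mul, eval_C]
    field_simp
  refine ⟨(φ.1 * C ψ.2 + C (C c) * (ψ.1 * C φ.2), φ.2 * ψ.2), ⟨mul_ne_zero hφ.1 hψ.1, ?_⟩, ?_⟩
  · have hdom : Integrable (fun x => 2 * (∑ y ∈ fib F x, ‖rat φ x y‖ ^ 2) +
        2 * ‖c‖ ^ 2 * ∑ y ∈ fib F x, ‖rat ψ x y‖ ^ 2) :=
      (hφ.2.const_mul 2).add (hψ.2.const_mul (2 * ‖c‖ ^ 2))
    refine Integrable.mono' hdom (onb_meas2 F hF b hb _) ?_
    filter_upwards [onb_root φ.2 hφ.1, onb_root ψ.2 hψ.1] with x h1 h2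
    rw [Real.norm_of_nonneg (Finset.sum_nonneg fun y _ => by positivity)]
    rw [Finset.mul_sum, Finset.mul_sum, ← Finset.sum_add_distrib]
    refine Finset.sum_le_sum fun y _ => ?_
    rw [key x y h1 h2]
    have h3 : ‖rat φ x y + c * rat ψ x y‖ ≤ ‖rat φ x y‖ + ‖c‖ * ‖rat ψ x y‖ := by
      refine (norm_add_le _ _).trans ?_
      rw [norm_mul]
    have h4 := norm_nonneg (rat φ x y + c * rat ψ x y)
    have h5 : ‖rat φ x y + c * rat ψ x y‖ ^ 2 ≤ (‖rat φ x y‖ + ‖c‖ * ‖rat ψ x y‖) ^ 2 :=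
      pow_le_pow_left₀ h4 h3 2
    nlinarith [sq_nonneg (‖rat φ x y‖ - ‖c‖ * ‖rat ψ x y‖)]
  · intro x y h1 h2
    refine ⟨?_, key x y h1 h2⟩
    show (φ.2 * ψ.2).eval x ≠ 0
    rw [eval_mul]
    exact mul_ne_zero h1 h2

/-- finite linear combinations -/
private theorem onb_comb {g : ℕ} (e : Fin g → ℂ[X][X] × ℂ[X]) (he : ∀ k, IsHol F (e k))
    (c : Fin g → ℂ) (φ : ℂ[X][X] × ℂ[X]) (hφ : IsHol F φ) (s : Finset (Fin g)) :
    ∃ χ, IsHol F χ ∧ ∀ x y, φ.2.eval x ≠ 0 → (∀ k, (e k).2.eval x ≠ 0) →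
      χ.2.eval x ≠ 0 ∧ rat χ x y = rat φ x y + ∑ k ∈ s, c k * rat (e k) x y := by
  classical
  induction s using Finset.induction_on with
  | empty => exact ⟨φ, hφ, fun x y h1 _ => ⟨h1, by simp⟩⟩
  | insert a s ha ih =>
    obtain ⟨χ, hχ, h⟩ := ih
    obtain ⟨χ', hχ', h'⟩ := hol_lin F hF b hb χ (e a) hχ (he a) (c a)
    refine ⟨χ', hχ', fun x y h1 h2 => ?_⟩
    obtain ⟨h3, h4⟩ := h x y h1 h2
    obtain ⟨h5, h6⟩ := h' x y h3 (h2 a)
    refine ⟨h5, ?_⟩
    rw [h6, h4, Finset.sum_insert ha]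
    ring

/-- the integral of a linear combination -/
private theorem onb_lin_int {g : ℕ} (e : Fin g → ℂ[X][X] × ℂ[X]) (he : ∀ k, IsHol F (e k))
    (c : Fin g → ℂ) (ψ : ℂ[X][X] × ℂ[X]) (hψ : IsHol F ψ) :
    ∫ x : ℂ, ∑ y ∈ fib F x, (∑ k, c k * rat (e k) x y) * conj (rat ψ x y) =
      ∑ k, c k * ∫ x : ℂ, ∑ y ∈ fib F x, rat (e k) x y * conj (rat ψ x y) := by
  have h1 : (fun x : ℂ => ∑ y ∈ fib F x, (∑ k, c k * rat (e k) x y) * conj (rat ψ x y)) =
      fun x => ∑ k, c k * ∑ y ∈ fib F x, rat (e k) x y * conj (rat ψ x y) := by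
    funext x
    simp_rw [Finset.mul_sum, Finset.sum_mul]
    rw [Finset.sum_comm]
    refine Finset.sum_congr rfl fun k _ => Finset.sum_congr rfl fun y _ => ?_
    ring
  rw [h1, integral_finsetSum _ fun k _ => ((onb_int F hF b hb (e k) ψ (he k) hψ).const_mul (c k))]
  refine Finset.sum_congr rfl fun k _ => ?_
  rw [integral_const_mul]

omit hF hb in
/-- interpolation: the values on the fibre vanish if the power sums do -/
private theorem onb_vand (x : ℂ) (f : ℂ → ℂ)
    (h : ∀ i < F.natDegree, ∑ y ∈ fib F x, f y * y ^ i = 0) : ∀ y ∈ fib F x, f y = 0 := by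
  classical
  intro y0 hy0
  have hcard : (fib F x).card ≤ F.natDegree := by
    unfold fib
    refine (Multiset.toFinset_card_le _).trans ?_
    refine (card_roots' _).trans ?_
    unfold at_
    exact natDegree_map_le
  have hpos : 0 < (fib F x).card := Finset.card_pos.2 ⟨y0, hy0⟩
  set R : ℂ[X] := Lagrange.basis (fib F x) id y0 with hR
  have hinj : Set.InjOn (id : ℂ → ℂ) (fib F x : Set ℂ) := Function.injective_id.injOn
  have hdeg : R.natDegree < F.natDegree := by
    have := Lagrange.natDegree_basis hinj hy0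
    rw [hR, this]
    omega
  have h1 : ∑ y ∈ fib F x, f y * R.eval y = 0 := by
    have h2 : ∀ y, R.eval y = ∑ i ∈ Finset.range F.natDegree, R.coeff i * y ^ i := fun y =>
      eval_eq_sum_range' hdeg y
    simp_rw [h2, Finset.mul_sum]
    rw [Finset.sum_comm]
    refine Finset.sum_eq_zero fun i hi => ?_
    have h3 := h i (Finset.mem_range.1 hi)
    calc ∑ y ∈ fib F x, f y * (R.coeff i * y ^ i) = R.coeff i * ∑ y ∈ fib F x, f y * y ^ i := by
          rw [Finset.mul_sum]
          exact Finset.sum_congr rfl fun y _ => by ring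
      _ = 0 := by rw [h3, mul_zero]
  have h2 : ∑ y ∈ fib F x, f y * R.eval y = f y0 := by
    rw [Finset.sum_eq_single y0]
    · have : R.eval y0 = 1 := Lagrange.eval_basis_self hinj hy0
      rw [this, mul_one]
    · intro y hy hne
      have : R.eval y = 0 := Lagrange.eval_basis_of_ne (v := id) (Ne.symm hne) hy
      rw [this, mul_zero]
    · intro h
      exact absurd hy0 h
  rw [← h2, h1]

/-- the length of an orthonormal family is bounded -/
private theorem onb_bound : ∃ N : ℕ, ∀ n, ∀ e : Fin n → ℂ[X][X] × ℂ[X], (∀ k, IsHol F (e k)) →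
    (∀ k l, ∫ x : ℂ, ∑ y ∈ fib F x, rat (e k) x y * conj (rat (e l) x y) =
      if k = l then 1 else 0) → n ≤ N := by
  obtain ⟨m, hm⟩ := trace_poly F hF b hb
  refine ⟨F.natDegree * (m + 1), fun n e he ho => ?_⟩
  by_contra hlt
  push Not at hlt
  have hp : ∀ k : Fin n, ∀ i : Fin F.natDegree, ∃ p : ℂ[X], p.natDegree ≤ m ∧
      ∀ x, (at_ F x).Separable → (e k).2.eval x ≠ 0 →
        ∑ y ∈ fib F x, rat (e k) x y * y ^ (i : ℕ) = p.eval x := fun k i => hm _ (he k) i i.2
  choose p hpd hpe using hp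
  let L : (Fin n → ℂ) →ₗ[ℂ] (Fin F.natDegree × Fin (m + 1) → ℂ) :=
    { toFun := fun c ij => ∑ k, c k * (p k ij.1).coeff ij.2
      map_add' := by
        intro c c'
        funext ij
        simp only [Pi.add_apply, add_mul, Finset.sum_add_distrib]
      map_smul' := by
        intro a c
        funext ij
        simp only [Pi.smul_apply, smul_eq_mul, RingHom.id_apply, Finset.mul_sum, mul_assoc] }
  have hker : LinearMap.ker L ≠ ⊥ := by
    refine LinearMap.ker_ne_bot_of_finrank_lt ?_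
    simpa using hlt
  obtain ⟨c, hc, hc0⟩ := (Submodule.ne_bot_iff _).1 hker
  have hcL : ∀ i : Fin F.natDegree, ∀ j : Fin (m + 1), ∑ k, c k * (p k i).coeff j = 0 := fun i j =>
    congrFun (LinearMap.mem_ker.1 hc) (i, j)
  have hpoly : ∀ i : Fin F.natDegree, ∀ x : ℂ, ∑ k, c k * (p k i).eval x = 0 := by
    intro i x
    have h1 : ∀ k, (p k i).eval x = ∑ j : Fin (m + 1), (p k i).coeff j * x ^ (j : ℕ) := by
      intro k
      rw [eval_eq_sum_range' (Nat.lt_succ_of_le (hpd k i)) x, Finset.sum_range]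
    simp_rw [h1, Finset.mul_sum]
    rw [Finset.sum_comm]
    refine Finset.sum_eq_zero fun j _ => ?_
    have h2 := hcL i j
    calc ∑ k, c k * ((p k i).coeff j * x ^ (j : ℕ)) = (∑ k, c k * (p k i).coeff j) * x ^ (j : ℕ) := by
          rw [Finset.sum_mul]
          exact Finset.sum_congr rfl fun k _ => by ring
      _ = 0 := by rw [h2, zero_mul]
  have hroots : ∀ᵐ x : ℂ, ∀ k, (e k).2.eval x ≠ 0 := by
    rw [ae_all_iff]
    exact fun k => onb_root _ (he k).1
  have hzero : ∀ᵐ x : ℂ, ∀ y ∈ fib F x, ∑ k, c k * rat (e k) x y = 0 := by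
    filter_upwards [hroots, onb_sep F hF b hb] with x hx hs
    refine onb_vand F x (fun y => ∑ k, c k * rat (e k) x y) fun i hi => ?_
    have h1 := hpoly ⟨i, hi⟩ x
    calc ∑ y ∈ fib F x, (∑ k, c k * rat (e k) x y) * y ^ i
        = ∑ k, c k * ∑ y ∈ fib F x, rat (e k) x y * y ^ i := by
          simp_rw [Finset.mul_sum, Finset.sum_mul]
          rw [Finset.sum_comm]
          exact Finset.sum_congr rfl fun k _ => Finset.sum_congr rfl fun y _ => by ring
      _ = ∑ k, c k * (p k ⟨i, hi⟩).eval x := by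
          refine Finset.sum_congr rfl fun k _ => ?_
          rw [hpe k ⟨i, hi⟩ x hs (hx k)]
      _ = 0 := h1
  refine hc0 ?_
  funext l
  have h1 := onb_lin_int F hF b hb e he c (e l) (he l)
  have h2 : ∫ x : ℂ, ∑ y ∈ fib F x, (∑ k, c k * rat (e k) x y) * conj (rat (e l) x y) = 0 := by
    rw [← integral_zero ℂ ℂ (μ := volume)]
    refine integral_congr_ae ?_
    filter_upwards [hzero] with x hx
    refine Finset.sum_eq_zero fun y hy => ?_
    rw [hx y hy, zero_mul]
  rw [h2] at h1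
  simp_rw [ho] at h1
  simpa using h1.symm

theorem exists_onb : ∃ (g : ℕ) (e : Fin g → ℂ[X][X] × ℂ[X]), IsONB F g e := by
  classical
  obtain ⟨N, hN⟩ := onb_bound F hF b hb
  have hex : ∃ g, (∃ e : Fin g → ℂ[X][X] × ℂ[X], (∀ k, IsHol F (e k)) ∧
      ∀ k l, ∫ x : ℂ, ∑ y ∈ fib F x, rat (e k) x y * conj (rat (e l) x y) =
        if k = l then 1 else 0) ∧
      ¬ ∃ e : Fin (g + 1) → ℂ[X][X] × ℂ[X], (∀ k, IsHol F (e k)) ∧
      ∀ k l, ∫ x : ℂ, ∑ y ∈ fib F x, rat (e k) x y * conj (rat (e l) x y) =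
        if k = l then 1 else 0 := by
    by_contra hcon
    push Not at hcon
    have hall : ∀ g, ∃ e : Fin g → ℂ[X][X] × ℂ[X], (∀ k, IsHol F (e k)) ∧
      ∀ k l, ∫ x : ℂ, ∑ y ∈ fib F x, rat (e k) x y * conj (rat (e l) x y) =
        if k = l then 1 else 0 := by
      intro g
      induction g with
      | zero => exact ⟨fun k => k.elim0, fun k => k.elim0, fun k => k.elim0⟩
      | succ g ih => exact hcon g ih
    obtain ⟨e, he, ho⟩ := hall (N + 1)
    have := hN (N + 1) e he ho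
    omega
  obtain ⟨g, ⟨e, he, ho⟩, hmax⟩ := hex
  refine ⟨g, e, he, ho, fun φ hφ => ?_⟩
  set c : Fin g → ℂ := fun k => ∫ x : ℂ, ∑ y ∈ fib F x, rat φ x y * conj (rat (e k) x y) with hc
  refine ⟨c, ?_⟩
  obtain ⟨χ, hχ, hχe⟩ := onb_comb F hF b hb e he (fun k => - c k) φ hφ Finset.univ
  have hroots : ∀ᵐ x : ℂ, ∀ k, (e k).2.eval x ≠ 0 := by
    rw [ae_all_iff]
    exact fun k => onb_root _ (he k).1
  have hort : ∀ l, ∫ x : ℂ, ∑ y ∈ fib F x, rat χ x y * conj (rat (e l) x y) = 0 := by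
    intro l
    have h1 : ∫ x : ℂ, ∑ y ∈ fib F x, rat χ x y * conj (rat (e l) x y) =
        ∫ x : ℂ, ((∑ y ∈ fib F x, rat φ x y * conj (rat (e l) x y)) +
          ∑ y ∈ fib F x, (∑ k, - c k * rat (e k) x y) * conj (rat (e l) x y)) := by
      refine integral_congr_ae ?_
      filter_upwards [hroots, onb_root φ.2 hφ.1] with x hx hx'
      rw [← Finset.sum_add_distrib]
      refine Finset.sum_congr rfl fun y _ => ?_
      rw [(hχe x y hx' hx).2, add_mul]
    have h2 : Integrable (fun x : ℂ => ∑ y ∈ fib F x, (∑ k, - c k * rat (e k) x y) *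
        conj (rat (e l) x y)) := by
      have h3 : (fun x : ℂ => ∑ y ∈ fib F x, (∑ k, - c k * rat (e k) x y) * conj (rat (e l) x y)) =
          fun x => ∑ k, - c k * ∑ y ∈ fib F x, rat (e k) x y * conj (rat (e l) x y) := by
        funext x
        simp_rw [Finset.mul_sum, Finset.sum_mul]
        rw [Finset.sum_comm]
        exact Finset.sum_congr rfl fun k _ => Finset.sum_congr rfl fun y _ => by ring
      rw [h3]
      exact integrable_finsetSum _ fun k _ =>
        (onb_int F hF b hb (e k) (e l) (he k) (he l)).const_mul (- c k)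
    rw [h1, integral_add (onb_int F hF b hb φ (e l) hφ (he l)) h2,
      onb_lin_int F hF b hb e he (fun k => - c k) (e l) (he l)]
    simp_rw [ho]
    simp [hc]
  set M : ℝ := ∫ x : ℂ, ∑ y ∈ fib F x, ‖rat χ x y‖ ^ 2 with hM
  have hM0 : 0 ≤ M := integral_nonneg fun x => Finset.sum_nonneg fun y _ => by positivity
  have hself : ∫ x : ℂ, ∑ y ∈ fib F x, rat χ x y * conj (rat χ x y) = (M : ℂ) := by
    rw [hM, ← integral_complex_ofReal]
    refine integral_congr_ae (Eventually.of_forall fun x => ?_)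
    show ∑ y ∈ fib F x, rat χ x y * conj (rat χ x y) = ((∑ y ∈ fib F x, ‖rat χ x y‖ ^ 2 : ℝ) : ℂ)
    rw [Complex.ofReal_sum]
    refine Finset.sum_congr rfl fun y _ => ?_
    rw [Complex.mul_conj, Complex.normSq_eq_norm_sq]
  have hMz : M = 0 := by
    by_contra hne
    have hMpos : 0 < M := lt_of_le_of_ne hM0 (Ne.symm hne)
    have hsq : 0 < Real.sqrt M := Real.sqrt_pos.2 hMpos
    obtain ⟨χ', hχ', hχe'⟩ := hol_lin F hF b hb χ χ hχ hχ (((Real.sqrt M)⁻¹ : ℝ) - 1)
    have hrat : ∀ᵐ x : ℂ, ∀ y, rat χ' x y = (((Real.sqrt M)⁻¹ : ℝ) : ℂ) * rat χ x y := by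
      filter_upwards [onb_root χ.2 hχ.1] with x hx y
      rw [(hχe' x y hx hx).2]
      ring
    have hA : ∀ l, ∫ x : ℂ, ∑ y ∈ fib F x, rat χ' x y * conj (rat (e l) x y) = 0 := by
      intro l
      have h1 : ∫ x : ℂ, ∑ y ∈ fib F x, rat χ' x y * conj (rat (e l) x y) =
          ∫ x : ℂ, (((Real.sqrt M)⁻¹ : ℝ) : ℂ) *
            ∑ y ∈ fib F x, rat χ x y * conj (rat (e l) x y) := by
        refine integral_congr_ae ?_
        filter_upwards [hrat] with x hx
        rw [Finset.mul_sum]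
        refine Finset.sum_congr rfl fun y _ => ?_
        rw [hx y]
        ring
      rw [h1, integral_const_mul, hort l, mul_zero]
    have hB : ∀ l, ∫ x : ℂ, ∑ y ∈ fib F x, rat (e l) x y * conj (rat χ' x y) = 0 := by
      intro l
      have h1 : ∫ x : ℂ, ∑ y ∈ fib F x, rat (e l) x y * conj (rat χ' x y) =
          ∫ x : ℂ, conj (∑ y ∈ fib F x, rat χ' x y * conj (rat (e l) x y)) := by
        refine integral_congr_ae (Eventually.of_forall fun x => ?_)
        show ∑ y ∈ fib F x, rat (e l) x y * conj (rat χ' x y) =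
          conj (∑ y ∈ fib F x, rat χ' x y * conj (rat (e l) x y))
        rw [map_sum]
        refine Finset.sum_congr rfl fun y _ => ?_
        rw [map_mul, Complex.conj_conj]
        ring
      rw [h1, integral_conj, hA l, map_zero]
    have hC : ∫ x : ℂ, ∑ y ∈ fib F x, rat χ' x y * conj (rat χ' x y) = 1 := by
      have h1 : ∫ x : ℂ, ∑ y ∈ fib F x, rat χ' x y * conj (rat χ' x y) =
          ∫ x : ℂ, ((((Real.sqrt M)⁻¹ : ℝ) : ℂ) * (((Real.sqrt M)⁻¹ : ℝ) : ℂ)) *
            ∑ y ∈ fib F x, rat χ x y * conj (rat χ x y) := by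
        refine integral_congr_ae ?_
        filter_upwards [hrat] with x hx
        rw [Finset.mul_sum]
        refine Finset.sum_congr rfl fun y _ => ?_
        rw [hx y, map_mul, Complex.conj_ofReal]
        ring
      rw [h1, integral_const_mul, hself, ← Complex.ofReal_mul, ← Complex.ofReal_mul]
      have h2 : (Real.sqrt M)⁻¹ * (Real.sqrt M)⁻¹ * M = 1 := by
        have h3 : Real.sqrt M * Real.sqrt M = M := Real.mul_self_sqrt hM0
        field_simp
        nlinarith
      rw [h2, Complex.ofReal_one]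
    refine hmax ⟨Fin.snoc (α := fun _ => ℂ[X][X] × ℂ[X]) e χ', ?_, ?_⟩
    · intro k
      refine Fin.lastCases ?_ (fun i => ?_) k
      · rw [Fin.snoc_last]
        exact hχ'
      · rw [Fin.snoc_castSucc]
        exact he i
    · intro k l
      refine Fin.lastCases ?_ (fun i => ?_) k
      · refine Fin.lastCases ?_ (fun j => ?_) l
        · simp only [Fin.snoc_last, if_true]
          exact hC
        · simp only [Fin.snoc_last, Fin.snoc_castSucc]
          rw [hA j, if_neg (Fin.castSucc_lt_last j).ne']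
      · refine Fin.lastCases ?_ (fun j => ?_) l
        · simp only [Fin.snoc_last, Fin.snoc_castSucc]
          rw [hB i, if_neg (Fin.castSucc_lt_last i).ne]
        · simp only [Fin.snoc_castSucc]
          rw [ho i j]
          simp [Fin.castSucc_inj]
  have hae : (fun x : ℂ => ∑ y ∈ fib F x, ‖rat χ x y‖ ^ 2) =ᵐ[volume] 0 :=
    (integral_eq_zero_iff_of_nonneg (fun x => Finset.sum_nonneg fun y _ => by positivity)
      hχ.2).1 hMz
  filter_upwards [hae, hroots, onb_root φ.2 hφ.1] with x hx hr hr' y hy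
  have h1 : ‖rat χ x y‖ ^ 2 = 0 := by
    have h2 : ∑ y ∈ fib F x, ‖rat χ x y‖ ^ 2 = 0 := hx
    exact (Finset.sum_eq_zero_iff_of_nonneg fun y _ => by positivity).1 h2 y hy
  have h2 : rat χ x y = 0 := by
    rw [sq_eq_zero_iff, norm_eq_zero] at h1
    exact h1
  have h3 := (hχe x y hr' hr).2
  rw [h2] at h3
  have h4 : ∑ k, - c k * rat (e k) x y = - ∑ k, c k * rat (e k) x y := by
    rw [← Finset.sum_neg_distrib]
    exact Finset.sum_congr rfl fun k _ => by ring
  rw [h4] at h3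
  linear_combination -h3

end EGR
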