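import Pool.Agent.EGR.Asm
import Pool.Agent.EGR.Onb
import Pool.Agent.ALC.Irr

/-!
Existence statements for the complex curves attached to a curve over a number field.

PROOF. `bc σ F` is monic, irreducible over `ℂ` (`GeomIrred`, see `ALC/Irr.lean`), `at_ (bc σ F) (σ b)`
is the image of `at_ F b`, so separable with root `σ y0`.
-/

open Polynomial MeasureTheory Metric ComplexConjugate Filter Topology

namespace EGR

open ALC

/-- A finitely generated algebra over an algebraically closed field has a rational point. -/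
private theorem Final_point {k A : Type*} [Field k] [IsAlgClosed k] [CommRing A] [Nontrivial A]
    [Algebra k A] [Algebra.FiniteType k A] : Nonempty (A →ₐ[k] k) := by
  obtain ⟨m, hm⟩ := Ideal.exists_maximal A
  let := Ideal.Quotient.field m
  have h1 : Module.Finite k (A ⧸ m) := finite_of_finite_type_of_isJacobsonRing k (A ⧸ m)
  have h2 : Algebra.IsIntegral k (A ⧸ m) := inferInstance
  have h3 := IsAlgClosed.algebraMap_bijective_of_isIntegral (k := k) (K := A ⧸ m)
  let e : k ≃ₐ[k] (A ⧸ m) := AlgEquiv.ofBijective (Algebra.ofId k (A ⧸ m)) h3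
  exact ⟨(e.symm : (A ⧸ m) →ₐ[k] k).comp (Ideal.Quotient.mkₐ k m)⟩

/-- Polynomials over `L[x]` with coefficients in a subalgebra. -/
private theorem Final_lift {k L : Type*} [Field k] [Field L] [Algebra k L] (A : Subalgebra k L)
    (G : L[X][X]) (hG : G.Monic) (hA : ∀ i j, (G.coeff i).coeff j ∈ A) :
    ∃ G' : A[X][X], G'.map (mapRingHom (A.val : A →+* L)) = G ∧ G'.natDegree = G.natDegree ∧
      G'.Monic := by
  refine lifts_and_natDegree_eq_and_monic ?_ hG
  rw [lifts_iff_coeff_lifts]
  intro i
  have h : G.coeff i ∈ lifts (A.val : A →+* L) := by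
    rw [lifts_iff_coeff_lifts]
    intro j
    exact ⟨⟨_, hA i j⟩, rfl⟩
  rw [mem_lifts] at h
  obtain ⟨q, hq⟩ := h
  exact ⟨q, hq⟩

private theorem Final_irr {k L : Type*} [Field k] [IsAlgClosed k] [Field L] (τ : k →+* L)
    (F : k[X][X]) (hF : F.Monic) (hirr : Irreducible F) : Irreducible (bc τ F) := by
  let := τ.toAlgebra
  have hm : (bc τ F).Monic := hF.map _
  have hnd : (bc τ F).natDegree = F.natDegree := hF.natDegree_map _
  rw [hF.irreducible_iff_natDegree'] at hirr
  obtain ⟨h1, h2⟩ := hirr
  rw [hm.irreducible_iff_natDegree']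
  refine ⟨?_, ?_⟩
  · intro h
    apply h1
    have : F.natDegree = 0 := by
      rw [← hnd, h, natDegree_one]
    exact hF.natDegree_eq_zero.1 this
  · intro G H hG hH hGH
    classical
    let S : Finset L := (G.support.biUnion fun i => (G.coeff i).support.image (G.coeff i).coeff) ∪
      (H.support.biUnion fun i => (H.coeff i).support.image (H.coeff i).coeff)
    let A : Subalgebra k L := Algebra.adjoin k (S : Set L)
    have hA : ∀ s ∈ S, s ∈ A := fun s hs => Algebra.subset_adjoin hs
    have hGA : ∀ i j, (G.coeff i).coeff j ∈ A := by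
      intro i j
      by_cases h : (G.coeff i).coeff j = 0
      · rw [h]
        exact A.zero_mem
      · apply hA
        apply Finset.mem_union_left
        rw [Finset.mem_biUnion]
        refine ⟨i, ?_, Finset.mem_image.2 ⟨j, ?_, rfl⟩⟩
        · rw [mem_support_iff]
          intro h0
          rw [h0, coeff_zero] at h
          exact h rfl
        · rw [mem_support_iff]
          exact h
    have hHA : ∀ i j, (H.coeff i).coeff j ∈ A := by
      intro i j
      by_cases h : (H.coeff i).coeff j = 0
      · rw [h]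
        exact A.zero_mem
      · apply hA
        apply Finset.mem_union_right
        rw [Finset.mem_biUnion]
        refine ⟨i, ?_, Finset.mem_image.2 ⟨j, ?_, rfl⟩⟩
        · rw [mem_support_iff]
          intro h0
          rw [h0, coeff_zero] at h
          exact h rfl
        · rw [mem_support_iff]
          exact h
    have hft : Algebra.FiniteType k A := by
      rw [← Subalgebra.fg_iff_finiteType]
      exact ⟨S, rfl⟩
    obtain ⟨φ⟩ := Final_point (k := k) (A := A)
    obtain ⟨G', g1, g2, g3⟩ := Final_lift A G hG hGA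
    obtain ⟨H', k1, k2, k3⟩ := Final_lift A H hH hHA
    have hinj : Function.Injective (Polynomial.map (mapRingHom (A.val : A →+* L))) := by
      apply Polynomial.map_injective
      apply Polynomial.map_injective
      exact Subtype.val_injective
    have e1 : G' * H' = F.map (mapRingHom (algebraMap k A)) := by
      apply hinj
      rw [Polynomial.map_mul, g1, k1, hGH, Polynomial.map_map]
      unfold bc
      congr 1
      rw [mapRingHom_comp]
      congr 1
    have e2 : G'.map (mapRingHom (φ : A →+* k)) * H'.map (mapRingHom (φ : A →+* k)) = F := by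
      rw [← Polynomial.map_mul, e1, Polynomial.map_map, mapRingHom_comp]
      have : ((φ : A →+* k).comp (algebraMap k A)) = RingHom.id k := by
        ext x
        simp
      rw [this, mapRingHom_id, Polynomial.map_id]
    have h3 := h2 _ _ (g3.map _) (k3.map _) e2
    rw [k3.natDegree_map, k2] at h3
    rw [hnd]
    exact h3

private theorem Final_bc {K : Type*} [Field K] (F : K[X][X]) (hF : F.Monic)
    (hirr : GeomIrred F) (σ : K →+* ℂ) : Irreducible (bc σ F) := by
  let := σ.toAlgebra
  let τ : AlgebraicClosure K →ₐ[K] ℂ := IsAlgClosed.lift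
  have h := Final_irr (τ : AlgebraicClosure K →+* ℂ) _ (hF.map _) hirr
  have e : bc (τ : AlgebraicClosure K →+* ℂ) (bc (algebraMap K (AlgebraicClosure K)) F) =
      bc σ F := by
    unfold bc
    rw [Polynomial.map_map, mapRingHom_comp]
    congr 2
    ext x
    simp [RingHom.algebraMap_toAlgebra]
  rw [← e]
  exact h

private theorem Final_at {K : Type*} [Field K] (F : K[X][X]) (b : K) (σ : K →+* ℂ) :
    at_ (bc σ F) (σ b) = (at_ F b).map σ := by
  unfold at_ bc
  rw [Polynomial.map_map, Polynomial.map_map]
  congr 1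
  ext <;> simp

theorem onb_bc {K : Type*} [Field K] [CharZero K] (F : K[X][X]) (hF : F.Monic)
    (hirr : GeomIrred F) (b : K) (hb : (at_ F b).Separable) (σ : K →+* ℂ) :
    ∃ (g : ℕ) (e : Fin g → ℂ[X][X] × ℂ[X]), IsONB (bc σ F) g e := by
  refine exists_onb (bc σ F) (hF.map _) (σ b) ?_
  rw [Final_at]
  exact hb.map

theorem green_bc {K : Type*} [Field K] [CharZero K] (F : K[X][X]) (hF : F.Monic)
    (hirr : GeomIrred F) (b y0 : K) (hb : (at_ F b).Separable) (h0 : (at_ F b).eval y0 = 0)
    (σ : K →+* ℂ) (g : ℕ) (hg : 1 ≤ g) (e : Fin g → ℂ[X][X] × ℂ[X]) (he : IsONB (bc σ F) g e) :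
    ∃ (G : ℂ → ℂ → ℝ) (l : ℝ), IsGreen (bc σ F) e (σ b) (σ y0) G l := by
  refine exists_green (bc σ F) (hF.map _) (Final_bc F hF hirr σ) (σ b) (σ y0) ?_ ?_ g hg e he
  · rw [Final_at]
    exact hb.map
  · rw [Final_at, eval_map_apply, h0, map_zero]

theorem irr_bc {K : Type*} [Field K] (F : K[X][X]) (hF : F.Monic)
    (hirr : GeomIrred F) (σ : K →+* ℂ) : Irreducible (bc σ F) := Final_bc F hF hirr σ

theorem at_bc {K : Type*} [Field K] (F : K[X][X]) (b : K) (σ : K →+* ℂ) :
    at_ (bc σ F) (σ b) = (at_ F b).map σ := Final_at F b σ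

end EGR
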