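import Pool.Agent.EGR.Conn
import Pool.Agent.ALC.Green
import Pool.Agent.ALC.Sq
import Pool.Agent.ALC.Dens

/-!
Uniqueness of the Arakelov Green function (of its value `l` at the pole).

PROOF. `w x y = G x y - G' x y` off `P = (b, y0)`, `w b y0 = l - l'`. Along every branch `w ∘ Y` is
`C^2`: off `P` by `lap`; at `P` by `pole` (`G - log|x - b|` and `G' - log|x - b|`, with the values
`l`, `l'` at `b`). Its Laplacian is `0` where the denominators do not vanish, so everywhere
(continuity). `w` is bounded. `q x = ∑ y ∈ fib F x, (w x y)^2` is `C^2` and bounded outside the finite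
bad set, with Laplacian `8 ∑ ‖D F w x y‖^2 ≥ 0`. `ALC.green_ineq` with
`h = min (8 ∑ ‖D F w x y‖^2) ((1 + |x|^2)^(-2))` (integrable, continuous off the bad set, `≥ 0`) gives
`∫ h ≤ 0`, so `D F w = 0` over all separable points. So `w` is locally constant along branches,
constant on preconnected sets, and by `conn` (with `R x y := w x y = w b y0`) constant on the curve.
`mean` for `G`, `G'`: `0 = (l - l') ∫ ∑ rho = l - l'` (`∫ ∑ rho = 1` from `IsONB`, `1 ≤ g`; the
integrals of `∑ G rho` and `∑ G' rho` exist: `G rho`, `G' rho` integrable by `bdd`, the integrability of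
`rho` and local boundedness of `rho` near `P`; one may avoid this: if `∑ G rho` were not integrable
then neither would be `∑ G' rho = ∑ G rho - (l - l') ∑ rho`, so prove integrability, see
`ALC/Pole.lean`, `ALC/Energy.lean`).
-/

open Polynomial MeasureTheory Metric ComplexConjugate Filter Topology

namespace EGR

open ALC

open Classical in
/-- the difference of two Green functions, with the value `c` at the pole -/
private noncomputable def unW (b y0 : ℂ) (G G' : ℂ → ℂ → ℝ) (c : ℝ) (x y : ℂ) : ℝ :=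
  if x = b ∧ y = y0 then c else G x y - G' x y

private lemma un_off {F : ℂ[X][X]} {b y0 : ℂ} {g : ℕ} {e : Fin g → ℂ[X][X] × ℂ[X]}
    {G G' : ℂ → ℂ → ℝ} {l l' : ℝ} (hG : IsGreen F e b y0 G l) (hG' : IsGreen F e b y0 G' l')
    {U V : Set ℂ} {Y : ℂ → ℂ} (hY : IsBranch F U Y) (hV : IsOpen V) (hVU : V ⊆ U)
    (hne : ∀ z ∈ V, ¬ (z = b ∧ Y z = y0)) {x : ℂ} (hx : x ∈ V) :
    ContDiffAt ℝ 2 (fun z => unW b y0 G G' (l - l') z (Y z)) x ∧
      ((∀ k, (e k).2.eval x ≠ 0) →
        Laplacian.laplacian (fun z => unW b y0 G G' (l - l') z (Y z)) x = 0) := by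
  have hb : IsBranch F V Y := ⟨hV, hY.2.1.mono hVU, fun z hz => hY.2.2 z (hVU hz)⟩
  have hne' : ∀ z ∈ V, (z, Y z) ≠ (b, y0) := by
    intro z hz h
    rw [Prod.mk.injEq] at h
    exact hne z hz h
  obtain ⟨h1, h2⟩ := hG.lap V Y hb hne'
  obtain ⟨h3, h4⟩ := hG'.lap V Y hb hne'
  have hm : V ∈ 𝓝 x := hV.mem_nhds hx
  have hev : (fun z => unW b y0 G G' (l - l') z (Y z)) =ᶠ[𝓝 x]
      (fun z => G z (Y z)) - (fun z => G' z (Y z)) := by
    filter_upwards [hm] with z hz
    unfold unW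
    rw [if_neg (hne z hz)]
    rfl
  refine ⟨((h1.contDiffAt hm).sub (h3.contDiffAt hm)).congr_of_eventuallyEq hev, fun hd => ?_⟩
  rw [(InnerProductSpace.laplacian_congr_nhds hev).eq_of_nhds,
    (h1.contDiffAt hm).laplacian_sub (h3.contDiffAt hm), h2 x hx hd, h4 x hx hd]
  ring

private lemma un_smooth {F : ℂ[X][X]} {b y0 : ℂ} {g : ℕ} {e : Fin g → ℂ[X][X] × ℂ[X]}
    {G G' : ℂ → ℂ → ℝ} {l l' : ℝ} (hG : IsGreen F e b y0 G l) (hG' : IsGreen F e b y0 G' l')
    (U : Set ℂ) (Y : ℂ → ℂ) (hY : IsBranch F U Y) :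
    ContDiffOn ℝ 2 (fun z => unW b y0 G G' (l - l') z (Y z)) U := by
  intro x hx
  refine ContDiffAt.contDiffWithinAt ?_
  by_cases hxb : x = b
  · by_cases hyy : Y x = y0
    · subst hxb
      have h1 := hG.pole U Y hY hx hyy
      have h2 := hG'.pole U Y hY hx hyy
      have h3 := h1.sub h2
      have h4 : ((fun z => if z = x then l else G z (Y z) - Real.log ‖z - x‖) - fun z =>
          if z = x then l' else G' z (Y z) - Real.log ‖z - x‖) =
          fun z => unW x y0 G G' (l - l') z (Y z) := by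
        funext z
        unfold unW
        simp only [Pi.sub_apply]
        by_cases hz : z = x
        · rw [if_pos hz, if_pos hz, if_pos ⟨hz, by rw [hz]; exact hyy⟩]
        · rw [if_neg hz, if_neg hz, if_neg fun h => hz h.1]
          ring
      rw [← h4]
      exact h3
    · have hYc : ContinuousOn Y U := hY.2.1.continuousOn
      have hV : IsOpen (U ∩ Y ⁻¹' {y0}ᶜ) :=
        hYc.isOpen_inter_preimage hY.1 isOpen_compl_singleton
      exact (un_off hG hG' hY hV Set.inter_subset_left (fun z hz h => hz.2 h.2)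
        ⟨hx, hyy⟩).1
  · have hV : IsOpen (U ∩ {b}ᶜ) := hY.1.inter isOpen_compl_singleton
    exact (un_off hG hG' hY hV Set.inter_subset_left (fun z hz h => hz.2 h.1) ⟨hx, hxb⟩).1

private lemma un_lap_cont {f : ℂ → ℝ} {U : Set ℂ} (hU : IsOpen U) (hf : ContDiffOn ℝ 2 f U) :
    ∀ x ∈ U, ContinuousAt (Laplacian.laplacian f) x := by
  intro x hx
  have h1 : ContDiffAt ℝ 2 f x := hf.contDiffAt (hU.mem_nhds hx)
  have h2 : ContDiffAt ℝ 0 (iteratedFDeriv ℝ 2 f) x := h1.iteratedFDeriv_right (by norm_num)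
  have h3 : ContinuousAt (iteratedFDeriv ℝ 2 f) x := h2.continuousAt
  rw [InnerProductSpace.laplacian_eq_iteratedFDeriv_complexPlane]
  exact (h3.eval_const _).add (h3.eval_const _)

private lemma un_lap {F : ℂ[X][X]} {b y0 : ℂ} {g : ℕ} {e : Fin g → ℂ[X][X] × ℂ[X]}
    {G G' : ℂ → ℂ → ℝ} {l l' : ℝ} (hG : IsGreen F e b y0 G l) (hG' : IsGreen F e b y0 G' l')
    (he : ∀ k, (e k).2 ≠ 0) (U : Set ℂ) (Y : ℂ → ℂ) (hY : IsBranch F U Y) (x : ℂ) (hx : x ∈ U) :
    Laplacian.laplacian (fun z => unW b y0 G G' (l - l') z (Y z)) x = 0 := by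
  classical
  by_contra hne
  set T : Set ℂ := {b} ∪ {z | (∏ k, (e k).2).eval z = 0} with hT
  have hTf : T.Finite := by
    refine (Set.finite_singleton b).union ?_
    have h0 : (∏ k, (e k).2) ≠ 0 := Finset.prod_ne_zero_iff.2 fun k _ => he k
    exact finite_setOfPred_isRoot h0
  have hc := un_lap_cont hY.1 (un_smooth hG hG' U Y hY) x hx
  have h1 : ∀ᶠ z in 𝓝 x, Laplacian.laplacian (fun z => unW b y0 G G' (l - l') z (Y z)) z ≠ 0 :=
    hc.eventually_ne hne
  have h2 : ∀ᶠ z in 𝓝 x, z ∈ U := hY.1.mem_nhds hx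
  have h3 : ∀ᶠ z in 𝓝 x, z ∉ T \ {x} := by
    have h4 : IsClosed (T \ {x}) := (hTf.subset Set.sdiff_subset).isClosed
    exact h4.isOpen_compl.mem_nhds fun h => h.2 rfl
  have h5 : ∀ᶠ z in 𝓝[≠] x, False := by
    filter_upwards [h1.filter_mono nhdsWithin_le_nhds, h2.filter_mono nhdsWithin_le_nhds,
      h3.filter_mono nhdsWithin_le_nhds, self_mem_nhdsWithin] with z h6 h7 h8 h9
    have h10 : z ∉ T := fun h => h8 ⟨h, h9⟩
    have h11 : z ≠ b := fun h => h10 (Or.inl h)
    have h12 : ∀ k, (e k).2.eval z ≠ 0 := by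
      intro k hk
      refine h10 (Or.inr ?_)
      simp only [Set.mem_ofPred_eq]
      rw [eval_prod]
      exact Finset.prod_eq_zero (Finset.mem_univ k) hk
    have hV : IsOpen (U ∩ {b}ᶜ) := hY.1.inter isOpen_compl_singleton
    exact h6 ((un_off hG hG' hY hV Set.inter_subset_left (fun z hz h => hz.2 h.1)
      ⟨h7, h11⟩).2 h12)
  exact (h5.exists).elim fun _ h => h

private lemma un_bdd {F : ℂ[X][X]} {b y0 : ℂ} {g : ℕ} {e : Fin g → ℂ[X][X] × ℂ[X]}
    {G G' : ℂ → ℂ → ℝ} {l l' : ℝ} (hG : IsGreen F e b y0 G l) (hG' : IsGreen F e b y0 G' l') :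
    ∃ M : ℝ, 0 ≤ M ∧ ∀ x y, OnX F x y → |unW b y0 G G' (l - l') x y| ≤ M := by
  obtain ⟨M, hM⟩ := hG.bdd
  obtain ⟨M', hM'⟩ := hG'.bdd
  refine ⟨|l - l'| + (|M| + |M'|), by positivity, fun x y hxy => ?_⟩
  unfold unW
  split_ifs with h
  · linarith [abs_nonneg M, abs_nonneg M']
  · have hne : (x, y) ≠ (b, y0) := fun h' => h (Prod.mk.inj h')
    have h1 := hM x y hxy.1 hxy.2 hne
    have h2 := hM' x y hxy.1 hxy.2 hne
    have h3 := abs_sub (G x y - Real.log (min 1 (‖x - b‖ + ‖y - y0‖)))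
      (G' x y - Real.log (min 1 (‖x - b‖ + ‖y - y0‖)))
    have h4 : G x y - G' x y = (G x y - Real.log (min 1 (‖x - b‖ + ‖y - y0‖))) -
      (G' x y - Real.log (min 1 (‖x - b‖ + ‖y - y0‖))) := by ring
    rw [h4]
    linarith [abs_nonneg (l - l'), le_abs_self M, le_abs_self M']

private lemma un_sq_fderiv (f : ℂ → ℝ) (x : ℂ) (hf : ContDiffAt ℝ 2 f x) (v : ℂ) :
    iteratedFDeriv ℝ 2 (fun z => f z ^ 2) x ![v, v] =
      2 * (fderiv ℝ f x v) ^ 2 + 2 * (f x * iteratedFDeriv ℝ 2 f x ![v, v]) := by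
  rw [iteratedFDeriv_two_apply, iteratedFDeriv_two_apply]
  have h1 : ∀ᶠ y in nhds x, DifferentiableAt ℝ f y := by
    filter_upwards [hf.eventually (by simp)] with y hy
    exact hy.differentiableAt (by simp)
  have h2 : fderiv ℝ (fun z => f z ^ 2) =ᶠ[nhds x] fun y => (2 * f y) • fderiv ℝ f y := by
    filter_upwards [h1] with y hy
    have h3 := (hy.hasFDerivAt.pow 2).fderiv
    rw [h3]
    simp
  rw [h2.fderiv_eq]
  have hd : DifferentiableAt ℝ f x := hf.differentiableAt (by simp)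
  have hd2 : DifferentiableAt ℝ (fderiv ℝ f) x := by
    have h3 : ContDiffAt ℝ 1 (fderiv ℝ f) x := hf.fderiv_right (by norm_num)
    exact h3.differentiableAt (by simp)
  have h4 : fderiv ℝ (fun y => (2 * f y) • fderiv ℝ f y) x =
      (2 * f x) • fderiv ℝ (fderiv ℝ f) x + (fderiv ℝ (fun y => 2 * f y) x).smulRight
        (fderiv ℝ f x) := fderiv_fun_smul (hd.const_mul 2) hd2
  rw [h4]
  have h5 : fderiv ℝ (fun y => 2 * f y) x = (2 : ℝ) • fderiv ℝ f x := by
    rw [fderiv_const_mul hd]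
  rw [h5]
  simp
  ring

/-- `Δ (f^2) = 8 |∂f|^2` for harmonic `f` -/
private lemma un_lap_sq (f : ℂ → ℝ) (x : ℂ) (hf : ContDiffAt ℝ 2 f x)
    (h0 : Laplacian.laplacian f x = 0) :
    Laplacian.laplacian (fun z => f z ^ 2) x = 8 * ‖dz f x‖ ^ 2 := by
  have h1 := congrFun (InnerProductSpace.laplacian_eq_iteratedFDeriv_complexPlane f) x
  have h2 := congrFun
    (InnerProductSpace.laplacian_eq_iteratedFDeriv_complexPlane (fun z => f z ^ 2)) x
  rw [h0] at h1
  rw [h2, un_sq_fderiv f x hf 1, un_sq_fderiv f x hf Complex.I]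
  have h3 : ‖dz f x‖ ^ 2 = ((fderiv ℝ f x 1) ^ 2 + (fderiv ℝ f x Complex.I) ^ 2) / 4 := by
    unfold dz
    rw [norm_div, div_pow, Complex.norm_ofNat, ← Complex.normSq_eq_norm_sq]
    simp only [Complex.normSq_apply, Complex.sub_re, Complex.sub_im, Complex.mul_re,
      Complex.mul_im, Complex.ofReal_re, Complex.ofReal_im, Complex.I_re, Complex.I_im]
    ring
  rw [h3]
  linear_combination (-2 * f x) * h1

private lemma un_lap_sum {ι : Type} (s : Finset ι) (f : ι → ℂ → ℝ) (x : ℂ)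
    (hf : ∀ j ∈ s, ContDiffAt ℝ 2 (f j) x) :
    Laplacian.laplacian (fun z => ∑ j ∈ s, f j z) x = ∑ j ∈ s, Laplacian.laplacian (f j) x := by
  classical
  induction s using Finset.induction_on with
  | empty =>
    simp only [Finset.sum_empty]
    have := congrFun (InnerProductSpace.laplacian_const (E := ℂ) (c := (0 : ℝ))) x
    simp
  | insert a s ha ih =>
    have h1 : (fun z => ∑ j ∈ insert a s, f j z) = f a + fun z => ∑ j ∈ s, f j z := by
      funext z
      rw [Finset.sum_insert ha]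
      rfl
    rw [h1, ContDiffAt.laplacian_add (hf a (Finset.mem_insert_self _ _))
      (ContDiffAt.sum fun j hj => hf j (Finset.mem_insert_of_mem hj)), Finset.sum_insert ha,
      ih fun j hj => hf j (Finset.mem_insert_of_mem hj)]

private lemma un_card {F : ℂ[X][X]} (hF : F.Monic) (x : ℂ) :
    ((fib F x).card : ℝ) ≤ (F.natDegree : ℝ) := by
  have h1 : (fib F x).card ≤ (at_ F x).natDegree := by
    unfold fib
    exact (Multiset.toFinset_card_le _).trans (card_roots' _)
  have h2 : (at_ F x).natDegree = F.natDegree := hF.natDegree_map _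
  exact_mod_cast h1.trans_eq h2

/-- the derivative of the difference vanishes -/
private lemma un_D {F : ℂ[X][X]} (hF : F.Monic) {b : ℂ} (hb : (at_ F b).Separable)
    (w : ℂ → ℂ → ℝ) (hw : ∀ U Y, IsBranch F U Y → ContDiffOn ℝ 2 (fun z => w z (Y z)) U)
    (hl : ∀ U Y, IsBranch F U Y → ∀ x ∈ U, Laplacian.laplacian (fun z => w z (Y z)) x = 0)
    (M : ℝ) (hM : ∀ x y, OnX F x y → |w x y| ≤ M) :
    ∀ x, (at_ F x).Separable → ∀ y ∈ fib F x, D F w x y = 0 := by
  classical
  set S : Finset ℂ := (bad_finite F hF b hb).toFinset with hS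
  have hSc : ((S : Set ℂ)ᶜ) = {x | (at_ F x).Separable} := by
    ext x
    simp [hS]
  have hSm : ∀ x, x ∉ S ↔ (at_ F x).Separable := by
    intro x
    have : x ∈ ((S : Set ℂ)ᶜ) ↔ x ∈ {x | (at_ F x).Separable} := by rw [hSc]
    simpa using this
  set q : ℂ → ℝ := fun x => ∑ y ∈ fib F x, w x y ^ 2 with hq
  have hqc : ContDiffOn ℝ 2 q ((S : Set ℂ)ᶜ) := by
    rw [hSc]
    exact contDiffOn_sum F hF 2 (fun x y => w x y ^ 2) fun U Y hY => (hw U Y hY).pow 2
  have hqM : ∀ x, x ∉ S → |q x| ≤ F.natDegree * M ^ 2 := by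
    intro x hx
    have hxs := (hSm x).1 hx
    rw [abs_of_nonneg (Finset.sum_nonneg fun y _ => sq_nonneg _)]
    calc q x ≤ ∑ y ∈ fib F x, M ^ 2 := by
          refine Finset.sum_le_sum fun y hy => ?_
          have h1 := hM x y ⟨hxs, (mem_fib F hF x y).1 hy⟩
          rw [← sq_abs]
          exact pow_le_pow_left₀ (abs_nonneg _) h1 2
      _ = (fib F x).card * M ^ 2 := by rw [Finset.sum_const, nsmul_eq_mul]
      _ ≤ F.natDegree * M ^ 2 := mul_le_mul_of_nonneg_right (un_card hF x) (sq_nonneg _)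
  have hDc : ∀ U Y, IsBranch F U Y → ContinuousOn (fun x => ‖D F w x (Y x)‖ ^ 2) U := by
    intro U Y hY
    exact ((D_cont F hF w (fun U Y hY => (hw U Y hY).of_le (by norm_num)) U Y hY).norm).pow 2
  set k : ℂ → ℝ := fun x => ((1 : ℝ) + ‖x‖ ^ 2) ^ (-(4 : ℝ) / 2) with hk
  have hkint : Integrable k := by
    refine integrable_rpow_neg_one_add_norm_sq ?_
    rw [Complex.finrank_real_complex]
    norm_num
  have hkpos : ∀ x, 0 < k x := fun x => Real.rpow_pos_of_pos (by positivity) _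
  have hkc : Continuous k := by
    refine Continuous.rpow_const (by fun_prop) fun x => Or.inl ?_
    positivity
  set E : ℂ → ℝ := fun x => 8 * ∑ y ∈ fib F x, ‖D F w x y‖ ^ 2 with hE
  have hE0 : ∀ x, 0 ≤ E x := fun x =>
    mul_nonneg (by norm_num) (Finset.sum_nonneg fun y _ => sq_nonneg _)
  have hEc : ContinuousOn E {x | (at_ F x).Separable} :=
    continuousOn_const.mul (contOn_sum F hF (fun x y => ‖D F w x y‖ ^ 2) hDc)
  have hEm : AEStronglyMeasurable E volume :=
    (meas_sum F hF b hb (fun x y => ‖D F w x y‖ ^ 2) hDc).const_mul 8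
  set h : ℂ → ℝ := fun x => min (E x) (k x) with hh
  have hhm : AEStronglyMeasurable h volume := hEm.inf hkint.aestronglyMeasurable
  have hh0 : ∀ x, 0 ≤ h x := fun x => le_min (hE0 x) (hkpos x).le
  have hhi : Integrable h := by
    refine hkint.mono hhm (Eventually.of_forall fun x => ?_)
    rw [Real.norm_of_nonneg (hh0 x), Real.norm_of_nonneg (hkpos x).le]
    exact min_le_right _ _
  have hle : ∀ x, x ∉ S → h x ≤ Laplacian.laplacian q x := by
    intro x hx
    have hxs := (hSm x).1 hx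
    obtain ⟨r, hr, Y, hY, -, -, hsum⟩ := local_sum F hF x hxs
    have hbl : ball x r ∈ 𝓝 x := ball_mem_nhds x hr
    have h1 : q =ᶠ[𝓝 x] fun z => ∑ j, w z (Y j z) ^ 2 := by
      filter_upwards [hbl] with z hz
      exact hsum ℝ (fun x y => w x y ^ 2) z hz
    have h2 : Laplacian.laplacian q x = E x := by
      rw [(InnerProductSpace.laplacian_congr_nhds h1).eq_of_nhds,
        un_lap_sum Finset.univ (fun j z => w z (Y j z) ^ 2) x
          (fun j _ => ((hw _ _ (hY j)).contDiffAt hbl).pow 2), hE]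
      simp only
      rw [hsum ℝ (fun x y => ‖D F w x y‖ ^ 2) x (mem_ball_self hr), Finset.mul_sum]
      refine Finset.sum_congr rfl fun j _ => ?_
      rw [un_lap_sq _ x ((hw _ _ (hY j)).contDiffAt hbl) (hl _ _ (hY j) x (mem_ball_self hr)),
        D_eq F hF (hY j) (mem_ball_self hr)]
    rw [h2]
    exact min_le_left _ _
  have hint := green_ineq S q h hqc _ hqM hhi hle
  have hzero : h =ᵐ[volume] 0 := by
    have h3 : ∫ x, h x = 0 := le_antisymm hint (integral_nonneg hh0)
    exact (integral_eq_zero_iff_of_nonneg hh0 hhi).1 h3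
  have hopen : IsOpen {x : ℂ | (at_ F x).Separable} := sep_open F hF
  have hhc : ContinuousOn h {x | (at_ F x).Separable} := hEc.inf hkc.continuousOn
  have heq : Set.EqOn h 0 {x | (at_ F x).Separable} :=
    Measure.eqOn_open_of_ae_eq (μ := volume) (ae_restrict_of_ae hzero) hopen hhc
      continuousOn_const
  intro x hx y hy
  have h4 : min (E x) (k x) = 0 := heq hx
  have h5 : E x = 0 := by
    rcases min_choice (E x) (k x) with h6 | h6
    · rw [← h6, h4]
    · exact absurd (h6.symm.trans h4) (hkpos x).ne'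
  have h7 : ∑ y ∈ fib F x, ‖D F w x y‖ ^ 2 = 0 := by
    have : 8 * ∑ y ∈ fib F x, ‖D F w x y‖ ^ 2 = 0 := h5
    linarith
  have h8 := (Finset.sum_eq_zero_iff_of_nonneg fun y _ => sq_nonneg _).1 h7 y hy
  exact norm_eq_zero.1 (pow_eq_zero_iff (two_ne_zero) |>.1 h8)

private lemma un_const {F : ℂ[X][X]} (hF : F.Monic) (w : ℂ → ℂ → ℝ)
    (hw : ∀ U Y, IsBranch F U Y → ContDiffOn ℝ 2 (fun z => w z (Y z)) U)
    (hD : ∀ x, (at_ F x).Separable → ∀ y ∈ fib F x, D F w x y = 0) (U : Set ℂ) (Y : ℂ → ℂ)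
    (hY : IsBranch F U Y) (hU : IsPreconnected U) (x x' : ℂ) (hx : x ∈ U) (hx' : x' ∈ U) :
    w x (Y x) = w x' (Y x') := by
  refine hY.1.is_const_of_fderiv_eq_zero (𝕜 := ℝ) hU
    ((hw U Y hY).differentiableOn (by norm_num)) ?_ hx hx'
  intro z hz
  have h1 := hD z (hY.2.2 z hz).1 (Y z) ((mem_fib F hF z _).2 (hY.2.2 z hz).2)
  rw [D_eq F hF hY hz] at h1
  unfold dz at h1
  have h2 : ((fderiv ℝ (fun x' => w x' (Y x')) z 1 : ℝ) : ℂ) -
      Complex.I * ((fderiv ℝ (fun x' => w x' (Y x')) z Complex.I : ℝ) : ℂ) = 0 := by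
    rcases div_eq_zero_iff.1 h1 with h | h
    · exact h
    · exact absurd h two_ne_zero
  have h3 := congrArg Complex.re h2
  have h4 := congrArg Complex.im h2
  simp only [Complex.sub_re, Complex.mul_re, Complex.I_re, Complex.I_im, Complex.ofReal_re,
    Complex.ofReal_im, Complex.sub_im, Complex.mul_im, Complex.zero_re, Complex.zero_im] at h3 h4
  ext v
  have h5 : v = v.re • (1 : ℂ) + v.im • Complex.I := by
    apply Complex.ext <;> simp
  rw [h5, map_add, map_smul, map_smul]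
  have h6 : fderiv ℝ (fun x' => w x' (Y x')) z 1 = 0 := by linarith
  have h7 : fderiv ℝ (fun x' => w x' (Y x')) z Complex.I = 0 := by linarith
  rw [h6, h7]
  simp

/-- sums over the fibre of functions which are continuous along the branches off a finite set -/
private lemma un_meas {F : ℂ[X][X]} (hF : F.Monic) {b : ℂ} (hb : (at_ F b).Separable)
    (T : Finset ℂ) (φ : ℂ → ℂ → ℝ)
    (hφ : ∀ U Y, IsBranch F U Y → (∀ x ∈ U, x ∉ T) → ContinuousOn (fun x => φ x (Y x)) U) :
    AEStronglyMeasurable (fun x => ∑ y ∈ fib F x, φ x y) volume := by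
  classical
  set V : Set ℂ := {x | (at_ F x).Separable} ∩ (T : Set ℂ)ᶜ with hV
  have hVo : IsOpen V := (sep_open F hF).inter T.finite_toSet.isClosed.isOpen_compl
  have hc : ContinuousOn (fun x => ∑ y ∈ fib F x, φ x y) V := by
    intro x1 hx1
    refine ContinuousAt.continuousWithinAt ?_
    obtain ⟨r, hr, Y, hY, -, -, hsum⟩ := local_sum F hF x1 hx1.1
    obtain ⟨r', hr', hsub⟩ := Metric.isOpen_iff.1 hVo x1 hx1
    have hmin : 0 < min r r' := lt_min hr hr'
    have hb1 : ball x1 (min r r') ⊆ ball x1 r := ball_subset_ball (min_le_left _ _)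
    have hb2 : ball x1 (min r r') ⊆ ball x1 r' := ball_subset_ball (min_le_right _ _)
    have hev : (fun x => ∑ j, φ x (Y j x)) =ᶠ[𝓝 x1] fun x => ∑ y ∈ fib F x, φ x y := by
      filter_upwards [ball_mem_nhds x1 hr] with x hx
      exact (hsum ℝ φ x hx).symm
    refine ContinuousAt.congr ?_ hev
    refine tendsto_finsetSum _ fun j _ => ?_
    have hbr : IsBranch F (ball x1 (min r r')) (Y j) :=
      ⟨isOpen_ball, (hY j).2.1.mono hb1, fun x hx => (hY j).2.2 x (hb1 hx)⟩
    exact (hφ _ _ hbr fun x hx hxS => (hsub (hb2 hx)).2 hxS).continuousAt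
      (ball_mem_nhds x1 hmin)
  have hae : ∀ᵐ x ∂(volume : Measure ℂ), x ∈ V := by
    have h1 : Vᶜ.Finite := by
      refine ((bad_finite F hF b hb).union T.finite_toSet).subset ?_
      intro x hx
      by_contra h
      rw [Set.mem_union, not_or] at h
      refine hx ⟨?_, h.2⟩
      simpa using h.1
    exact (h1.measure_zero _)
  have h4 := hc.aestronglyMeasurable (μ := (volume : Measure ℂ)) hVo.measurableSet
  rwa [Measure.restrict_eq_self_of_ae_mem hae] at h4

private lemma un_evalEval (p : ℂ[X][X]) (x y : ℂ) :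
    p.evalEval x y = ∑ i ∈ Finset.range (p.natDegree + 1), (p.coeff i).eval x * y ^ i := by
  have h : eval (C y) p = ∑ i ∈ Finset.range (p.natDegree + 1), p.coeff i * (C y) ^ i :=
    eval_eq_sum_range (C y)
  rw [evalEval, h, eval_finsetSum]
  refine Finset.sum_congr rfl fun i _ => ?_
  rw [eval_mul, eval_pow, eval_C]

private lemma un_rat (φ : ℂ[X][X] × ℂ[X]) (x0 : ℂ) (Y : ℂ → ℂ) (hY : ContinuousAt Y x0)
    (h : φ.2.eval x0 ≠ 0) : ContinuousAt (fun x => rat φ x (Y x)) x0 := by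
  unfold rat
  refine ContinuousAt.div ?_ φ.2.continuous.continuousAt h
  have hc : Continuous (fun v : ℂ × ℂ => φ.1.evalEval v.1 v.2) := by
    simp only [un_evalEval]
    refine continuous_finsetSum _ fun i _ => ?_
    exact ((φ.1.coeff i).continuous.comp continuous_fst).mul (continuous_snd.pow i)
  exact hc.continuousAt.comp (f := fun x => (x, Y x)) (continuousAt_id.prodMk hY)

private lemma un_rho_int {F : ℂ[X][X]} {g : ℕ} (hg : 1 ≤ g) (e : Fin g → ℂ[X][X] × ℂ[X])
    (he : IsONB F g e) : Integrable (fun x => ∑ y ∈ fib F x, rho e x y) ∧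
      ∫ x, ∑ y ∈ fib F x, rho e x y = 1 := by
  have h1 : (fun x => ∑ y ∈ fib F x, rho e x y) =
      fun x => (1 / (g : ℝ)) * ∑ k, ∑ y ∈ fib F x, ‖rat (e k) x y‖ ^ 2 := by
    funext x
    unfold rho
    rw [← Finset.mul_sum, Finset.sum_comm]
  have h2 : ∀ k, ∫ x, ∑ y ∈ fib F x, ‖rat (e k) x y‖ ^ 2 = 1 := by
    intro k
    have h3 := he.2.1 k k
    rw [if_pos rfl] at h3
    have h4 : (fun x => ∑ y ∈ fib F x, rat (e k) x y * conj (rat (e k) x y)) =
        fun x => ((∑ y ∈ fib F x, ‖rat (e k) x y‖ ^ 2 : ℝ) : ℂ) := by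
      funext x
      push_cast
      refine Finset.sum_congr rfl fun y _ => ?_
      rw [Complex.mul_conj, Complex.normSq_eq_norm_sq]
      push_cast
      rfl
    rw [h4, integral_complex_ofReal] at h3
    exact_mod_cast h3
  refine ⟨?_, ?_⟩
  · rw [h1]
    exact (integrable_finsetSum _ fun k _ => (he.1 k).2).const_mul _
  · rw [h1, integral_const_mul, integral_finsetSum _ fun k _ => (he.1 k).2]
    simp only [h2]
    have hg' : (g : ℝ) ≠ 0 := by
      have : 0 < g := hg
      positivity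
    simp
    field_simp

private lemma un_inv (b : ℂ) (R : ℝ) :
    Integrable ((ball b R).indicator fun s : ℂ => ‖s - b‖⁻¹) := by
  have h0 : Integrable ((ball (0 : ℂ) R).indicator fun s : ℂ => ‖s‖⁻¹) := by
    rw [integrable_indicator_iff measurableSet_ball]
    refine (integrableOn_fun_norm_addHaar (volume : Measure ℂ) (f := fun t : ℝ => t⁻¹)
      (r := R)).2 ?_
    have h : IntegrableOn (fun _ : ℝ => (1 : ℝ)) (Set.Ioo 0 R) :=
      integrableOn_const (by simp)
    refine h.congr_fun ?_ measurableSet_Ioo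
    intro y hy
    have hy0 : y ≠ 0 := hy.1.ne'
    simp [Complex.finrank_real_complex, hy0]
  have h1 := h0.comp_sub_right b
  refine h1.congr (Eventually.of_forall fun s => ?_)
  simp only [Set.indicator]
  by_cases hs : s ∈ ball b R
  · have h2 : s - b ∈ ball (0 : ℂ) R := by
      rw [mem_ball_zero_iff]
      rwa [mem_ball, dist_eq_norm] at hs
    rw [if_pos hs, if_pos h2]
  · have h2 : s - b ∉ ball (0 : ℂ) R := by
      rw [mem_ball_zero_iff]
      rwa [mem_ball, dist_eq_norm] at hs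
    rw [if_neg hs, if_neg h2]

private lemma un_log {t : ℝ} (ht : 0 < t) : |Real.log (min 1 t)| ≤ t⁻¹ := by
  rcases le_total 1 t with h | h
  · rw [min_eq_left h, Real.log_one, abs_zero]
    positivity
  · rw [min_eq_right h, abs_of_nonpos (Real.log_nonpos ht.le h), ← Real.log_inv]
    have := Real.log_le_sub_one_of_pos (inv_pos.2 ht)
    linarith

private lemma un_int {F : ℂ[X][X]} (hF : F.Monic) {b y0 : ℂ} (hb : (at_ F b).Separable)
    {g : ℕ} (hg : 1 ≤ g) {e : Fin g → ℂ[X][X] × ℂ[X]} (he : IsONB F g e) {G : ℂ → ℂ → ℝ}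
    {l : ℝ} (hG : IsGreen F e b y0 G l) :
    Integrable (fun x => ∑ y ∈ fib F x, G x y * rho e x y) := by
  classical
  obtain ⟨M, hM⟩ := hG.bdd
  obtain ⟨r, hr, Y, hY, -, hfib, hsum⟩ := local_sum F hF b hb
  -- the density is bounded near `b`
  choose S hS using fun j => dens F hF b hb g e he r (Y j) (hY j).2.1 fun x hx =>
    ((hY j).2.2 x hx).2
  set K : ℝ := 1 / g * (r ^ 2 / (Real.pi * (r ^ 2 - (r / 2) ^ 2) ^ 2)) with hK
  have hK0 : 0 ≤ K := by positivity
  have hloc : ∀ x ∈ ball b (r / 2), (∀ j, x ∉ S j) →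
      ∑ y ∈ fib F x, rho e x y ≤ F.natDegree * K := by
    intro x hx hxS
    have hxr : x ∈ ball b r := ball_subset_ball (by linarith) hx
    rw [hsum ℝ (rho e) x hxr]
    have h1 : ∀ j, rho e x (Y j x) ≤ K := by
      intro j
      refine (hS j x hxr (hxS j)).trans ?_
      rw [hK]
      refine mul_le_mul_of_nonneg_left ?_ (by positivity)
      rw [mem_ball, dist_eq_norm] at hx
      have h2 : ‖x - b‖ ^ 2 ≤ (r / 2) ^ 2 := pow_le_pow_left₀ (norm_nonneg _) hx.le 2
      have h3 : 0 < r ^ 2 - (r / 2) ^ 2 := by nlinarith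
      refine div_le_div_of_nonneg_left (sq_nonneg _) (by positivity) ?_
      refine mul_le_mul_of_nonneg_left ?_ Real.pi_pos.le
      exact pow_le_pow_left₀ h3.le (by linarith) 2
    calc ∑ j, rho e x (Y j x) ≤ ∑ _j : Fin F.natDegree, K := Finset.sum_le_sum fun j _ => h1 j
      _ = F.natDegree * K := by simp
  have hρ0 : ∀ x y, 0 ≤ rho e x y := fun x y => by
    unfold rho
    positivity
  -- measurability
  set T : Finset ℂ := insert b (∏ k, (e k).2).roots.toFinset with hT
  have hD0 : (∏ k, (e k).2) ≠ 0 := Finset.prod_ne_zero_iff.2 fun k _ => (he.1 k).1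
  have hmeas : AEStronglyMeasurable (fun x => ∑ y ∈ fib F x, G x y * rho e x y) volume := by
    refine un_meas hF hb T (fun x y => G x y * rho e x y) fun U Z hZ hU => ?_
    have hne : ∀ x ∈ U, (x, Z x) ≠ (b, y0) := by
      intro x hx h
      exact hU x hx (by rw [hT, Finset.mem_insert]; exact Or.inl (Prod.mk.inj h).1)
    have h1 : ContinuousOn (fun x => G x (Z x)) U := (hG.lap U Z hZ hne).1.continuousOn
    refine h1.mul ?_
    intro x hx
    refine ContinuousAt.continuousWithinAt ?_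
    unfold rho
    refine ContinuousAt.const_mul ?_ _
    refine tendsto_finsetSum _ fun k _ => ?_
    refine ((un_rat (e k) x Z ((hZ.2.1.continuousOn).continuousAt (hZ.1.mem_nhds hx)) ?_).norm).pow 2
    intro h0
    refine hU x hx ?_
    rw [hT, Finset.mem_insert]
    right
    rw [Multiset.mem_toFinset, mem_roots hD0, IsRoot.def, eval_prod]
    exact Finset.prod_eq_zero (Finset.mem_univ k) h0
  -- the majorant
  have hmaj : Integrable (fun x => (|M| + (r / 2)⁻¹) * ∑ y ∈ fib F x, rho e x y +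
      (ball b (r / 2)).indicator (fun s : ℂ => ‖s - b‖⁻¹) x * (F.natDegree * K)) :=
    ((un_rho_int hg e he).1.const_mul _).add ((un_inv b (r / 2)).mul_const _)
  refine hmaj.mono hmeas ?_
  have hae1 : ∀ᵐ x ∂(volume : Measure ℂ), (at_ F x).Separable := by
    have h3 : (volume : Measure ℂ) {x : ℂ | ¬ (at_ F x).Separable} = 0 :=
      (bad_finite F hF b hb).measure_zero _
    exact ae_iff.2 h3
  have hae2 : ∀ᵐ x ∂(volume : Measure ℂ), x ≠ b := by
    have h3 : (volume : Measure ℂ) {b} = 0 := measure_singleton b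
    exact measure_eq_zero_iff_ae_notMem.1 h3
  have hae3 : ∀ᵐ x ∂(volume : Measure ℂ), ∀ j, x ∉ S j := by
    rw [ae_all_iff]
    intro j
    exact measure_eq_zero_iff_ae_notMem.1 ((S j).finite_toSet.measure_zero _)
  filter_upwards [hae1, hae2, hae3] with x h1 h2 h3
  have hxb : 0 < ‖x - b‖ := norm_pos_iff.2 (sub_ne_zero.2 h2)
  have hR0 : 0 ≤ ∑ y ∈ fib F x, rho e x y := Finset.sum_nonneg fun y _ => hρ0 x y
  have hind0 : 0 ≤ (ball b (r / 2)).indicator (fun s : ℂ => ‖s - b‖⁻¹) x :=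
    Set.indicator_nonneg (fun s _ => inv_nonneg.2 (norm_nonneg _)) x
  have hG1 : ∀ y ∈ fib F x, |G x y| ≤ |M| + ‖x - b‖⁻¹ := by
    intro y hy
    have h4 := hM x y h1 ((mem_fib F hF x y).1 hy) fun h => h2 (Prod.mk.inj h).1
    have h5 : |Real.log (min 1 (‖x - b‖ + ‖y - y0‖))| ≤ ‖x - b‖⁻¹ := by
      refine (un_log (by positivity)).trans ?_
      exact inv_anti₀ hxb (by linarith [norm_nonneg (y - y0)])
    have h6 := abs_add_le (G x y - Real.log (min 1 (‖x - b‖ + ‖y - y0‖)))
      (Real.log (min 1 (‖x - b‖ + ‖y - y0‖)))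
    rw [sub_add_cancel] at h6
    linarith [le_abs_self M]
  have hsum1 : ‖∑ y ∈ fib F x, G x y * rho e x y‖ ≤
      (|M| + ‖x - b‖⁻¹) * ∑ y ∈ fib F x, rho e x y := by
    refine (norm_sum_le _ _).trans ?_
    rw [Finset.mul_sum]
    refine Finset.sum_le_sum fun y hy => ?_
    rw [Real.norm_eq_abs, abs_mul, abs_of_nonneg (hρ0 x y)]
    exact mul_le_mul_of_nonneg_right (hG1 y hy) (hρ0 x y)
  refine hsum1.trans ?_
  rw [Real.norm_of_nonneg (by positivity)]
  by_cases hx : x ∈ ball b (r / 2)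
  · rw [Set.indicator_of_mem hx]
    have h4 := hloc x hx h3
    have h5 : ‖x - b‖⁻¹ * ∑ y ∈ fib F x, rho e x y ≤ ‖x - b‖⁻¹ * (F.natDegree * K) :=
      mul_le_mul_of_nonneg_left h4 (by positivity)
    have h6 : 0 ≤ (r / 2)⁻¹ * ∑ y ∈ fib F x, rho e x y := by positivity
    nlinarith
  · rw [Set.indicator_of_notMem hx, zero_mul, add_zero]
    refine mul_le_mul_of_nonneg_right ?_ hR0
    have h4 : r / 2 ≤ ‖x - b‖ := by
      rw [mem_ball, dist_eq_norm] at hx
      linarith
    have h5 := inv_anti₀ (by positivity : 0 < r / 2) h4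
    linarith

theorem green_unique (F : ℂ[X][X]) (hF : F.Monic) (hirr : Irreducible F) (b y0 : ℂ)
    (hb : (at_ F b).Separable) (h0 : (at_ F b).eval y0 = 0) (g : ℕ) (hg : 1 ≤ g)
    (e : Fin g → ℂ[X][X] × ℂ[X]) (he : IsONB F g e) (G G' : ℂ → ℂ → ℝ) (l l' : ℝ)
    (hG : IsGreen F e b y0 G l) (hG' : IsGreen F e b y0 G' l') : l = l' := by
  classical
  have he0 : ∀ k, (e k).2 ≠ 0 := fun k => (he.1 k).1
  obtain ⟨M, -, hM⟩ := un_bdd hG hG'
  have hsm := un_smooth hG hG'
  have hD := un_D hF hb (unW b y0 G G' (l - l')) hsm (un_lap hG hG' he0) M hM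
  have hconst := conn F hF hirr (fun x y => unW b y0 G G' (l - l') x y = l - l')
    (fun U Y hY hU x hx x' hx' h => by
      rw [← un_const hF _ hsm hD U Y hY hU x x' hx hx']
      exact h)
    b y0 ⟨hb, h0⟩ (by
      unfold unW
      rw [if_pos ⟨rfl, rfl⟩])
  have hi := un_int hF hb hg he hG
  have hi' := un_int hF hb hg he hG'
  obtain ⟨hri, hr1⟩ := un_rho_int hg e he
  have hae : (fun x => ∑ y ∈ fib F x, G x y * rho e x y - ∑ y ∈ fib F x, G' x y * rho e x y)
      =ᵐ[volume] fun x => (l - l') * ∑ y ∈ fib F x, rho e x y := by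
    have hae1 : ∀ᵐ x ∂(volume : Measure ℂ), (at_ F x).Separable := by
      have h3 : (volume : Measure ℂ) {x : ℂ | ¬ (at_ F x).Separable} = 0 :=
        (bad_finite F hF b hb).measure_zero _
      exact ae_iff.2 h3
    have hae2 : ∀ᵐ x ∂(volume : Measure ℂ), x ≠ b :=
      measure_eq_zero_iff_ae_notMem.1 (measure_singleton b)
    filter_upwards [hae1, hae2] with x h1 h2
    rw [← Finset.sum_sub_distrib, Finset.mul_sum]
    refine Finset.sum_congr rfl fun y hy => ?_
    have h3 := hconst x y ⟨h1, (mem_fib F hF x y).1 hy⟩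
    unfold unW at h3
    rw [if_neg fun h => h2 h.1] at h3
    rw [← sub_mul, h3]
  have h1 := integral_sub hi hi'
  rw [integral_congr_ae hae, integral_const_mul, hr1, hG.mean, hG'.mean] at h1
  linarith

end EGR
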