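import Pool.Agent.EGR.Final
import Pool.Agent.EGR.Uniq

/-!
Uniqueness of the value `l` of the Arakelov Green function at the pole, for the complex curves
obtained from a curve over a field `K`.
-/

open Polynomial

namespace EGR

open ALC

theorem unique_bc {K : Type*} [Field K] [CharZero K] (F : K[X][X]) (hF : F.Monic)
    (hirr : GeomIrred F) (b y0 : K) (hb : (at_ F b).Separable) (h0 : (at_ F b).eval y0 = 0)
    (σ : K →+* ℂ) (g : ℕ) (hg : 1 ≤ g) (e : Fin g → ℂ[X][X] × ℂ[X]) (he : IsONB (bc σ F) g e)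
    (G G' : ℂ → ℂ → ℝ) (l l' : ℝ) (hG : IsGreen (bc σ F) e (σ b) (σ y0) G l)
    (hG' : IsGreen (bc σ F) e (σ b) (σ y0) G' l') : l = l' := by
  refine green_unique (bc σ F) (hF.map _) (irr_bc F hF hirr σ) (σ b) (σ y0) ?_ ?_ g hg e he
    G G' l l' hG hG'
  · rw [at_bc]
    exact hb.map
  · rw [at_bc, eval_map_apply, h0, map_zero]

end EGR
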