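import Pool.Agent.EGR.Sum

/-!
The Dirichlet form on the class `Fn`: bilinearity, positivity, Cauchy-Schwarz.
-/

open Polynomial MeasureTheory Metric ComplexConjugate Filter Topology

namespace EGR

open ALC

variable (F : ℂ[X][X]) (hF : F.Monic) (b : ℂ) (hb : (at_ F b).Separable)

private lemma form_dz_add (f g : ℂ → ℝ) (x : ℂ) (hf : DifferentiableAt ℝ f x)
    (hg : DifferentiableAt ℝ g x) : dz (fun z => f z + g z) x = dz f x + dz g x := by
  unfold dz
  rw [fderiv_fun_add hf hg]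
  simp only [add_apply]
  push_cast
  ring

private lemma form_dz_smul (c : ℝ) (f : ℂ → ℝ) (x : ℂ) (hf : DifferentiableAt ℝ f x) :
    dz (fun z => c * f z) x = c * dz f x := by
  unfold dz
  rw [fderiv_const_mul hf c]
  simp only [smul_apply, smul_eq_mul]
  push_cast
  ring

private lemma form_dz_const (c : ℝ) (x : ℂ) : dz (fun _ => c) x = 0 := by
  unfold dz
  rw [fderiv_fun_const]
  simp

private lemma form_sq_add (a b : ℂ) : ‖a + b‖ ^ 2 ≤ 2 * ‖a‖ ^ 2 + 2 * ‖b‖ ^ 2 := by
  have h1 := norm_add_le a b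
  have h2 : ‖a + b‖ ^ 2 ≤ (‖a‖ + ‖b‖) ^ 2 := pow_le_pow_left₀ (norm_nonneg _) h1 2
  nlinarith [sq_nonneg (‖a‖ - ‖b‖)]

private lemma form_re_le (a b : ℂ) : |(a * conj b).re| ≤ ‖a‖ ^ 2 + ‖b‖ ^ 2 := by
  have h1 : |(a * conj b).re| ≤ ‖a * conj b‖ := Complex.abs_re_le_norm _
  rw [norm_mul, RCLike.norm_conj] at h1
  nlinarith [sq_nonneg (‖a‖ - ‖b‖), sq_nonneg (‖a‖ + ‖b‖), norm_nonneg a, norm_nonneg b]

include hF

theorem D_add (u w : ℂ → ℂ → ℝ)
    (hu : ∀ U Y, IsBranch F U Y → DifferentiableOn ℝ (fun x => u x (Y x)) U)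
    (hw : ∀ U Y, IsBranch F U Y → DifferentiableOn ℝ (fun x => w x (Y x)) U) (x y : ℂ) :
    D F (u + w) x y = D F u x y + D F w x y := by
  unfold D
  by_cases h : ∃ Y : ℂ → ℂ, ∃ r : ℝ, 0 < r ∧ IsBranch F (ball x r) Y ∧ Y x = y
  · rw [dif_pos h, dif_pos h, dif_pos h]
    obtain ⟨r, hr, hY, -⟩ := h.choose_spec
    have hx : ball x r ∈ 𝓝 x := ball_mem_nhds x hr
    exact form_dz_add _ _ x ((hu _ _ hY).differentiableAt hx) ((hw _ _ hY).differentiableAt hx)
  · rw [dif_neg h, dif_neg h, dif_neg h, add_zero]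

theorem D_smul (c : ℝ) (u : ℂ → ℂ → ℝ)
    (hu : ∀ U Y, IsBranch F U Y → DifferentiableOn ℝ (fun x => u x (Y x)) U) (x y : ℂ) :
    D F (c • u) x y = c * D F u x y := by
  unfold D
  by_cases h : ∃ Y : ℂ → ℂ, ∃ r : ℝ, 0 < r ∧ IsBranch F (ball x r) Y ∧ Y x = y
  · rw [dif_pos h, dif_pos h]
    obtain ⟨r, hr, hY, -⟩ := h.choose_spec
    have hx : ball x r ∈ 𝓝 x := ball_mem_nhds x hr
    exact form_dz_smul c _ x ((hu _ _ hY).differentiableAt hx)
  · rw [dif_neg h, dif_neg h, mul_zero]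

theorem D_const (c : ℝ) (x y : ℂ) : D F (fun _ _ => c) x y = 0 := by
  unfold D
  by_cases h : ∃ Y : ℂ → ℂ, ∃ r : ℝ, 0 < r ∧ IsBranch F (ball x r) Y ∧ Y x = y
  · rw [dif_pos h]
    exact form_dz_const c x
  · rw [dif_neg h]

theorem Fn.const (c : ℝ) : Fn F (fun _ _ => c) := by
  refine ⟨fun U Y _ => contDiffOn_const, ⟨|c|, fun x y _ => le_rfl⟩, ?_⟩
  have h1 : (fun x => ∑ y ∈ fib F x, ‖D F (fun _ _ => c) x y‖ ^ 2) = fun _ => 0 := by
    funext x
    refine Finset.sum_eq_zero fun y _ => ?_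
    rw [D_const F hF, norm_zero]
    ring
  rw [h1]
  exact integrable_zero _ _ _

private lemma form_Ddiff {u : ℂ → ℂ → ℝ} (hu : Fn F u) :
    ∀ U Y, IsBranch F U Y → DifferentiableOn ℝ (fun x => u x (Y x)) U :=
  fun U Y hY => (hu.smooth U Y hY).differentiableOn (by norm_num)

private lemma form_Dcont {u : ℂ → ℂ → ℝ} (hu : Fn F u) :
    ∀ U Y, IsBranch F U Y → ContinuousOn (fun x => D F u x (Y x)) U :=
  D_cont F hF u fun U Y hY => (hu.smooth U Y hY).of_le (by norm_num)

include hb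

private lemma form_meas_sq {u : ℂ → ℂ → ℝ} (hu : Fn F u) (w : ℂ → ℂ → ℝ) (hw : Fn F w) :
    AEStronglyMeasurable (fun x => ∑ y ∈ fib F x, ‖D F (u + w) x y‖ ^ 2) volume := by
  have h1 : ∀ x y, D F (u + w) x y = D F u x y + D F w x y :=
    D_add F hF u w (form_Ddiff F hF hu) (form_Ddiff F hF hw)
  simp only [h1]
  refine meas_sum F hF b hb (fun x y => ‖D F u x y + D F w x y‖ ^ 2) fun U Y hY => ?_
  exact (((form_Dcont F hF hu U Y hY).add (form_Dcont F hF hw U Y hY)).norm).pow 2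

theorem Fn.add {u w : ℂ → ℂ → ℝ} (hu : Fn F u) (hw : Fn F w) : Fn F (u + w) := by
  refine ⟨fun U Y hY => (hu.smooth U Y hY).add (hw.smooth U Y hY), ?_, ?_⟩
  · obtain ⟨M, hM⟩ := hu.bdd
    obtain ⟨N, hN⟩ := hw.bdd
    refine ⟨M + N, fun x y h => ?_⟩
    exact (abs_add_le _ _).trans (add_le_add (hM x y h) (hN x y h))
  · have h1 := (hu.energy.const_mul 2).add (hw.energy.const_mul 2)
    refine h1.mono' (form_meas_sq F hF b hb hu w hw) (Eventually.of_forall fun x => ?_)
    rw [Real.norm_of_nonneg (Finset.sum_nonneg fun y _ => by positivity)]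
    simp only [Pi.add_apply, Finset.mul_sum]
    rw [← Finset.sum_add_distrib]
    refine Finset.sum_le_sum fun y _ => ?_
    rw [D_add F hF u w (form_Ddiff F hF hu) (form_Ddiff F hF hw)]
    exact form_sq_add _ _

theorem Fn.smul (c : ℝ) {u : ℂ → ℂ → ℝ} (hu : Fn F u) : Fn F (c • u) := by
  refine ⟨fun U Y hY => (hu.smooth U Y hY).const_smul c, ?_, ?_⟩
  · obtain ⟨M, hM⟩ := hu.bdd
    refine ⟨|c| * M, fun x y h => ?_⟩
    have h1 : (c • u) x y = c * u x y := rfl
    rw [h1, abs_mul]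
    exact mul_le_mul_of_nonneg_left (hM x y h) (abs_nonneg c)
  · have h1 : (fun x => ∑ y ∈ fib F x, ‖D F (c • u) x y‖ ^ 2) =
        fun x => c ^ 2 * ∑ y ∈ fib F x, ‖D F u x y‖ ^ 2 := by
      funext x
      rw [Finset.mul_sum]
      refine Finset.sum_congr rfl fun y _ => ?_
      rw [D_smul F hF c u (form_Ddiff F hF hu), norm_mul, mul_pow, Complex.norm_real,
        Real.norm_eq_abs, sq_abs]
    rw [h1]
    exact hu.energy.const_mul _

theorem int_bil {u w : ℂ → ℂ → ℝ} (hu : Fn F u) (hw : Fn F w) :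
    Integrable (fun x => ∑ y ∈ fib F x, (D F u x y * conj (D F w x y)).re) := by
  have h1 := hu.energy.add hw.energy
  have hm : AEStronglyMeasurable
      (fun x => ∑ y ∈ fib F x, (D F u x y * conj (D F w x y)).re) volume := by
    refine meas_sum F hF b hb (fun x y => (D F u x y * conj (D F w x y)).re) fun U Y hY => ?_
    exact Complex.continuous_re.comp_continuousOn ((form_Dcont F hF hu U Y hY).mul
      (Complex.continuous_conj.comp_continuousOn (form_Dcont F hF hw U Y hY)))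
  refine h1.mono' hm (Eventually.of_forall fun x => ?_)
  rw [Real.norm_eq_abs]
  refine (Finset.abs_sum_le_sum_abs _ _).trans ?_
  simp only [Pi.add_apply]
  rw [← Finset.sum_add_distrib]
  exact Finset.sum_le_sum fun y _ => form_re_le _ _

theorem Bil_add {u v w : ℂ → ℂ → ℝ} (hu : Fn F u) (hv : Fn F v) (hw : Fn F w) :
    Bil F (u + v) w = Bil F u w + Bil F v w := by
  unfold Bil
  rw [← integral_add (int_bil F hF b hb hu hw) (int_bil F hF b hb hv hw)]
  refine integral_congr_ae (Eventually.of_forall fun x => ?_)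
  simp only
  rw [← Finset.sum_add_distrib]
  refine Finset.sum_congr rfl fun y _ => ?_
  rw [D_add F hF u v (form_Ddiff F hF hu) (form_Ddiff F hF hv), add_mul, Complex.add_re]

theorem Bil_smul (c : ℝ) {u w : ℂ → ℂ → ℝ} (hu : Fn F u) (hw : Fn F w) :
    Bil F (c • u) w = c * Bil F u w := by
  unfold Bil
  rw [← integral_const_mul]
  refine integral_congr_ae (Eventually.of_forall fun x => ?_)
  simp only
  rw [Finset.mul_sum]
  refine Finset.sum_congr rfl fun y _ => ?_
  rw [D_smul F hF c u (form_Ddiff F hF hu), mul_assoc, Complex.re_ofReal_mul]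

omit hF hb in
theorem Bil_symm (u w : ℂ → ℂ → ℝ) : Bil F u w = Bil F w u := by
  unfold Bil
  refine integral_congr_ae (Eventually.of_forall fun x => ?_)
  refine Finset.sum_congr rfl fun y _ => ?_
  simp only [Complex.mul_re, Complex.conj_re, Complex.conj_im]
  ring

omit hF hb in
theorem Bil_self (u : ℂ → ℂ → ℝ) : Bil F u u = En F u := by
  unfold Bil En
  refine integral_congr_ae (Eventually.of_forall fun x => ?_)
  refine Finset.sum_congr rfl fun y _ => ?_
  rw [Complex.mul_conj, Complex.ofReal_re, Complex.normSq_eq_norm_sq]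

omit hF hb in
theorem En_nonneg (u : ℂ → ℂ → ℝ) : 0 ≤ En F u := by
  unfold En
  exact integral_nonneg fun x => Finset.sum_nonneg fun y _ => by positivity

/-- adding a constant does not change the energy -/
theorem En_add_const {u : ℂ → ℂ → ℝ} (hu : Fn F u) (c : ℝ) :
    En F (fun x y => u x y + c) = En F u := by
  have h1 : (fun x y => u x y + c) = u + fun _ _ => c := rfl
  have h2 : ∀ x y, D F (fun x y => u x y + c) x y = D F u x y := by
    intro x y
    rw [h1, D_add F hF u (fun _ _ => c) (form_Ddiff F hF hu)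
      (form_Ddiff F hF (Fn.const F hF c)), D_const F hF, add_zero]
  unfold En
  simp only [h2]

end EGR
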