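import Pool.Agent.EGR.Form
import Pool.Agent.EGR.Disc
import Pool.Agent.EGR.Conn

/-!
Averages over different plaques differ by at most `C sqrt (En F u)`.

PROOF of `mean_bdd`. For two plaques (discs `ball c r` with a branch `Y` defined near the closed
disc) which have a point `(x, Y x)` in common, both contain a small disc around `x` with the same
branch (`ALC.branch_eq`), and `avg` over this small disc and over `ball c r` differ by at most
`C sqrt (En F u)` (Cauchy-Schwarz and `poincare`, `En_disc`; `C` depends on the radii). Let `R x y`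
be: some plaque through `(x, y)` satisfies the assertion (relative to the fixed plaque
`c0, r0, Y0`); then every plaque through `(x, y)` does, `R` is locally constant along branches, and
`conn` applies (a subset of a preconnected `U` which is open with open complement in `U`).
-/

open Polynomial MeasureTheory Metric ComplexConjugate Filter Topology

namespace EGR

open ALC

/-! ### Auxiliary facts -/

private theorem mean_dz_cont {U : Set ℂ} (hU : IsOpen U) {a : ℂ → ℝ} (ha : ContDiffOn ℝ 1 a U) :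
    ContinuousOn (fun x => dz a x) U := by
  have h1 : ContinuousOn (fderiv ℝ a) U := ha.continuousOn_fderiv_of_isOpen hU le_rfl
  have h2 : ContinuousOn (fun x => ((fderiv ℝ a x 1 : ℝ) : ℂ)) U :=
    Complex.continuous_ofReal.comp_continuousOn (h1.clm_apply continuousOn_const)
  have h3 : ContinuousOn (fun x => ((fderiv ℝ a x Complex.I : ℝ) : ℂ)) U :=
    Complex.continuous_ofReal.comp_continuousOn (h1.clm_apply continuousOn_const)
  unfold dz
  exact (h2.sub (continuousOn_const.mul h3)).div_const 2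

private theorem mean_vol (x : ℂ) {δ : ℝ} (hδ : 0 < δ) :
    (volume : Measure ℂ).real (ball x δ) = Real.pi * δ ^ 2 := by
  rw [Measure.real, Complex.volume_ball, ENNReal.toReal_mul, ENNReal.toReal_pow,
    ENNReal.toReal_ofReal hδ.le, mul_comm]
  simp

/-- Cauchy-Schwarz for the average. -/
private theorem mean_cs (x : ℂ) {δ : ℝ} (hδ : 0 < δ) (f : ℂ → ℝ) (h1 : IntegrableOn f (ball x δ))
    (h2 : IntegrableOn (fun z => f z ^ 2) (ball x δ)) :
    (1 / (Real.pi * δ ^ 2) * ∫ z in ball x δ, f z) ^ 2 ≤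
      (1 / (Real.pi * δ ^ 2)) * ∫ z in ball x δ, f z ^ 2 := by
  set V : ℝ := Real.pi * δ ^ 2 with hV
  have hVp : 0 < V := by rw [hV]; positivity
  set t : ℝ := 1 / V * ∫ z in ball x δ, f z with ht
  have h3 : 0 ≤ ∫ z in ball x δ, (f z - t) ^ 2 :=
    integral_nonneg fun z => sq_nonneg _
  have hc : IntegrableOn (fun _ : ℂ => t ^ 2) (ball x δ) := integrableOn_const measure_ball_lt_top.ne
  have h4 : ∫ z in ball x δ, (f z - t) ^ 2
      = (∫ z in ball x δ, f z ^ 2) - 2 * t * (∫ z in ball x δ, f z) + t ^ 2 * V := by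
    have e1 : ∀ z, (f z - t) ^ 2 = (f z ^ 2 - 2 * t * f z) + t ^ 2 := fun z => by ring
    calc ∫ z in ball x δ, (f z - t) ^ 2
        = ∫ z in ball x δ, ((f z ^ 2 - 2 * t * f z) + t ^ 2) :=
          integral_congr_ae (Filter.Eventually.of_forall e1)
      _ = (∫ z in ball x δ, (f z ^ 2 - 2 * t * f z)) + ∫ _ in ball x δ, t ^ 2 :=
          integral_add (h2.sub (h1.const_mul _)) hc
      _ = _ := by
          rw [integral_sub h2 (h1.const_mul _), integral_const_mul, setIntegral_const, mean_vol x hδ,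
            smul_eq_mul]
          ring
  have h5 : ∫ z in ball x δ, f z = t * V := by
    rw [ht]
    field_simp
  rw [h4, h5] at h3
  have h6 : t ^ 2 * V ≤ ∫ z in ball x δ, f z ^ 2 := by nlinarith
  rw [one_div, inv_mul_eq_div, le_div_iff₀ hVp]
  exact h6

variable (F : ℂ[X][X]) (hF : F.Monic) (b : ℂ) (hb : (at_ F b).Separable)

include hF hb

/-- the energy over a plaque -/
theorem En_disc (c : ℂ) (r : ℝ) (U : Set ℂ) (Y : ℂ → ℂ) (h : IsBranch F U Y) (hc : ball c r ⊆ U)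
    (u : ℂ → ℂ → ℝ)
    (hu : ∀ U Y, IsBranch F U Y → ContDiffOn ℝ 1 (fun x => u x (Y x)) U)
    (hE : Integrable (fun x => ∑ y ∈ fib F x, ‖D F u x y‖ ^ 2)) :
    IntegrableOn (fun x => ‖dz (fun x => u x (Y x)) x‖ ^ 2) (ball c r) ∧
      ∫ x in ball c r, ‖dz (fun x => u x (Y x)) x‖ ^ 2 ≤
        ∫ x in ball c r, ∑ y ∈ fib F x, ‖D F u x y‖ ^ 2 := by
  have _ := hb
  have hcont := mean_dz_cont h.1 (hu U Y h)
  have hle : ∀ x ∈ ball c r, ‖dz (fun x => u x (Y x)) x‖ ^ 2 ≤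
      ∑ y ∈ fib F x, ‖D F u x y‖ ^ 2 := by
    intro x hx
    have hxU := hc hx
    have hmem : Y x ∈ fib F x := (mem_fib F hF x (Y x)).2 (h.2.2 x hxU).2
    rw [← D_eq F hF h hxU u]
    exact Finset.single_le_sum (f := fun y => ‖D F u x y‖ ^ 2) (fun y _ => by positivity) hmem
  have hint : IntegrableOn (fun x => ‖dz (fun x => u x (Y x)) x‖ ^ 2) (ball c r) := by
    refine Integrable.mono' hE.integrableOn ?_ ?_
    · exact ((hcont.mono hc).norm.pow 2).aestronglyMeasurable measurableSet_ball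
    · filter_upwards [ae_restrict_mem measurableSet_ball] with x hx
      rw [Real.norm_of_nonneg (by positivity)]
      exact hle x hx
  exact ⟨hint, setIntegral_mono_on hint hE.integrableOn measurableSet_ball hle⟩

private theorem mean_small (x : ℂ) (δ : ℝ) (hδ : 0 < δ) (c : ℂ) (r : ℝ) (U : Set ℂ) (Y : ℂ → ℂ)
    (hr : 0 < r) (h : IsBranch F U Y) (hc : closedBall c r ⊆ U) (hsub : ball x δ ⊆ ball c r) :
    ∃ C : ℝ, 0 ≤ C ∧ ∀ u, Fn F u →
      |avg x δ (fun x => u x (Y x)) - avg c r (fun x => u x (Y x))| ≤ C * Real.sqrt (En F u) := by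
  obtain ⟨K, hK, hP⟩ := poincare
  have hVp : 0 < Real.pi * δ ^ 2 := by positivity
  refine ⟨Real.sqrt (K * r ^ 2 / (Real.pi * δ ^ 2)), Real.sqrt_nonneg _, fun u hu => ?_⟩
  set a : ℂ → ℝ := fun x => u x (Y x) with ha
  set m : ℝ := avg c r a with hm
  have ha1 : ContDiffOn ℝ 1 a U := (hu.smooth U Y h).of_le (by norm_num)
  have hac : ContinuousOn a (closedBall c r) := ha1.continuousOn.mono hc
  have hfc : ContinuousOn (fun z => a z - m) (closedBall c r) := hac.sub continuousOn_const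
  have hb1 : IntegrableOn a (ball x δ) :=
    (hac.integrableOn_compact (isCompact_closedBall c r)).mono_set
      (hsub.trans ball_subset_closedBall)
  have hb2 : IntegrableOn (fun z => a z - m) (ball x δ) :=
    (hfc.integrableOn_compact (isCompact_closedBall c r)).mono_set
      (hsub.trans ball_subset_closedBall)
  have hb3 : IntegrableOn (fun z => (a z - m) ^ 2) (ball c r) :=
    ((hfc.pow 2).integrableOn_compact (isCompact_closedBall c r)).mono_set ball_subset_closedBall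
  have hb4 : IntegrableOn (fun z => (a z - m) ^ 2) (ball x δ) := hb3.mono_set hsub
  have hcs := mean_cs x hδ (fun z => a z - m) hb2 hb4
  have hconst : IntegrableOn (fun _ : ℂ => m) (ball x δ) := integrableOn_const measure_ball_lt_top.ne
  have e1 : 1 / (Real.pi * δ ^ 2) * ∫ z in ball x δ, (a z - m) = avg x δ a - m := by
    rw [integral_sub hb1 hconst, setIntegral_const, mean_vol x hδ, smul_eq_mul]
    unfold avg
    field_simp
  rw [e1] at hcs
  have hE := En_disc F hF b hb c r U Y h (ball_subset_closedBall.trans hc) u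
    (fun U Y hUY => (hu.smooth U Y hUY).of_le (by norm_num)) hu.energy
  have hnn : ∀ x, 0 ≤ ∑ y ∈ fib F x, ‖D F u x y‖ ^ 2 := fun x =>
    Finset.sum_nonneg fun y _ => by positivity
  have hE2 : ∫ x in ball c r, ‖dz a x‖ ^ 2 ≤ En F u :=
    hE.2.trans (setIntegral_le_integral hu.energy (Filter.Eventually.of_forall hnn))
  have hP1 := hP c r U a hr h.1 hc ha1
  have h5 : ∫ z in ball x δ, (a z - m) ^ 2 ≤ K * r ^ 2 * En F u :=
    calc ∫ z in ball x δ, (a z - m) ^ 2 ≤ ∫ z in ball c r, (a z - m) ^ 2 :=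
          setIntegral_mono_set hb3 (Filter.Eventually.of_forall fun z => sq_nonneg _)
            (Filter.Eventually.of_forall hsub)
      _ ≤ K * r ^ 2 * ∫ x in ball c r, ‖dz a x‖ ^ 2 := hP1
      _ ≤ K * r ^ 2 * En F u := mul_le_mul_of_nonneg_left hE2 (by positivity)
  have h6 : (avg x δ a - m) ^ 2 ≤ K * r ^ 2 / (Real.pi * δ ^ 2) * En F u := by
    calc (avg x δ a - m) ^ 2 ≤ 1 / (Real.pi * δ ^ 2) * ∫ z in ball x δ, (a z - m) ^ 2 := hcs
      _ ≤ 1 / (Real.pi * δ ^ 2) * (K * r ^ 2 * En F u) :=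
          mul_le_mul_of_nonneg_left h5 (by positivity)
      _ = K * r ^ 2 / (Real.pi * δ ^ 2) * En F u := by ring
  have h7 := Real.abs_le_sqrt h6
  rwa [Real.sqrt_mul (by positivity)] at h7

private theorem mean_overlap (c1 : ℂ) (r1 : ℝ) (U1 : Set ℂ) (Y1 : ℂ → ℂ) (hr1 : 0 < r1)
    (h1 : IsBranch F U1 Y1) (hc1 : closedBall c1 r1 ⊆ U1) (c2 : ℂ) (r2 : ℝ) (U2 : Set ℂ)
    (Y2 : ℂ → ℂ) (hr2 : 0 < r2) (h2 : IsBranch F U2 Y2) (hc2 : closedBall c2 r2 ⊆ U2) (x : ℂ)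
    (hx1 : x ∈ ball c1 r1) (hx2 : x ∈ ball c2 r2) (hY : Y1 x = Y2 x) :
    ∃ C : ℝ, 0 ≤ C ∧ ∀ u, Fn F u →
      |avg c1 r1 (fun x => u x (Y1 x)) - avg c2 r2 (fun x => u x (Y2 x))| ≤
        C * Real.sqrt (En F u) := by
  have hop : IsOpen (ball c1 r1 ∩ ball c2 r2) := isOpen_ball.inter isOpen_ball
  obtain ⟨δ, hδ, hsub⟩ := Metric.isOpen_iff.1 hop x ⟨hx1, hx2⟩
  have hs1 : ball x δ ⊆ ball c1 r1 := fun z hz => (hsub hz).1
  have hs2 : ball x δ ⊆ ball c2 r2 := fun z hz => (hsub hz).2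
  have hb1 : IsBranch F (ball x δ) Y1 :=
    ⟨isOpen_ball, h1.2.1.mono (hs1.trans (ball_subset_closedBall.trans hc1)),
      fun z hz => h1.2.2 z (hc1 (ball_subset_closedBall (hs1 hz)))⟩
  have hb2 : IsBranch F (ball x δ) Y2 :=
    ⟨isOpen_ball, h2.2.1.mono (hs2.trans (ball_subset_closedBall.trans hc2)),
      fun z hz => h2.2.2 z (hc2 (ball_subset_closedBall (hs2 hz)))⟩
  have heq := branch_eq F hF (ball x δ) (convex_ball x _).isPreconnected Y1 Y2 hb1 hb2 x
    (mem_ball_self hδ) hY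
  obtain ⟨C1, hC1, hu1⟩ := mean_small F hF b hb x δ hδ c1 r1 U1 Y1 hr1 h1 hc1 hs1
  obtain ⟨C2, hC2, hu2⟩ := mean_small F hF b hb x δ hδ c2 r2 U2 Y2 hr2 h2 hc2 hs2
  refine ⟨C1 + C2, add_nonneg hC1 hC2, fun u hu => ?_⟩
  have e : avg x δ (fun x => u x (Y1 x)) = avg x δ (fun x => u x (Y2 x)) := by
    unfold avg
    congr 1
    refine setIntegral_congr_fun measurableSet_ball fun z hz => ?_
    rw [heq z hz]
  have a1 := hu1 u hu
  have a2 := hu2 u hu
  rw [e] at a1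
  rw [abs_sub_comm] at a1
  have a3 := abs_add_le (avg c1 r1 (fun x => u x (Y1 x)) - avg x δ (fun x => u x (Y2 x)))
    (avg x δ (fun x => u x (Y2 x)) - avg c2 r2 (fun x => u x (Y2 x)))
  rw [sub_add_sub_cancel] at a3
  rw [add_mul]
  linarith

/-- some bound for the difference of the averages over two plaques -/
private def MeanQ (F : ℂ[X][X]) (c1 : ℂ) (r1 : ℝ) (Y1 : ℂ → ℂ) (c2 : ℂ) (r2 : ℝ) (Y2 : ℂ → ℂ) :
    Prop :=
  ∃ C : ℝ, 0 ≤ C ∧ ∀ u, Fn F u →
    |avg c1 r1 (fun x => u x (Y1 x)) - avg c2 r2 (fun x => u x (Y2 x))| ≤ C * Real.sqrt (En F u)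

omit hF hb in
private theorem mean_trans {c1 : ℂ} {r1 : ℝ} {Y1 : ℂ → ℂ} {c2 : ℂ} {r2 : ℝ} {Y2 : ℂ → ℂ} {c3 : ℂ}
    {r3 : ℝ} {Y3 : ℂ → ℂ} (h1 : MeanQ F c1 r1 Y1 c2 r2 Y2) (h2 : MeanQ F c2 r2 Y2 c3 r3 Y3) :
    MeanQ F c1 r1 Y1 c3 r3 Y3 := by
  obtain ⟨C1, hC1, hu1⟩ := h1
  obtain ⟨C2, hC2, hu2⟩ := h2
  refine ⟨C1 + C2, add_nonneg hC1 hC2, fun u hu => ?_⟩
  have a1 := hu1 u hu
  have a2 := hu2 u hu
  have a3 := abs_add_le (avg c1 r1 (fun x => u x (Y1 x)) - avg c2 r2 (fun x => u x (Y2 x)))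
    (avg c2 r2 (fun x => u x (Y2 x)) - avg c3 r3 (fun x => u x (Y3 x)))
  rw [sub_add_sub_cancel] at a3
  rw [add_mul]
  linarith

theorem mean_bdd (hirr : Irreducible F) (c0 : ℂ) (r0 : ℝ) (U0 : Set ℂ) (Y0 : ℂ → ℂ) (hr0 : 0 < r0)
    (h0 : IsBranch F U0 Y0) (hc0 : closedBall c0 r0 ⊆ U0) (c : ℂ) (r : ℝ) (U : Set ℂ) (Y : ℂ → ℂ)
    (hr : 0 < r) (h : IsBranch F U Y) (hc : closedBall c r ⊆ U) :
    ∃ C : ℝ, 0 ≤ C ∧ ∀ u, Fn F u → |avg c r (fun x => u x (Y x)) - avg c0 r0 (fun x => u x (Y0 x))| ≤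
      C * Real.sqrt (En F u) := by
  set R : ℂ → ℂ → Prop := fun x y => ∀ (c : ℂ) (r : ℝ) (U : Set ℂ) (Y : ℂ → ℂ), 0 < r →
    IsBranch F U Y → closedBall c r ⊆ U → x ∈ ball c r → Y x = y → MeanQ F c r Y c0 r0 Y0 with hR
  have hloc : ∀ U Y, IsBranch F U Y → ∀ z ∈ U, ∃ ε : ℝ, 0 < ε ∧ closedBall z ε ⊆ U ∧
      ∀ w ∈ ball z ε, (R w (Y w) ↔ MeanQ F z ε Y c0 r0 Y0) := by
    intro U Y hUY z hz
    obtain ⟨ε, hε, hsub⟩ := Metric.nhds_basis_closedBall.mem_iff.1 (hUY.1.mem_nhds hz)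
    refine ⟨ε, hε, hsub, fun w hw => ⟨fun hRw => hRw z ε U Y hε hUY hsub hw rfl, fun hQ => ?_⟩⟩
    intro c' r' U' Y' hr' h' hc' hwc' hY'
    exact mean_trans F (mean_overlap F hF b hb c' r' U' Y' hr' h' hc' z ε U Y hε hUY hsub w hwc' hw
      hY') hQ
  have hstep : ∀ U Y, IsBranch F U Y → IsPreconnected U → ∀ x ∈ U, ∀ x' ∈ U,
      R x (Y x) → R x' (Y x') := by
    intro U Y hUY hU x hx x' hx'
    refine hU.induction₂' (fun z w => R z (Y z) → R w (Y w)) (fun z hz => ?_)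
      (fun p q s _ _ _ hpq hqs h => hqs (hpq h)) hx hx'
    obtain ⟨ε, hε, hsub, hiff⟩ := hloc U Y hUY z hz
    filter_upwards [mem_nhdsWithin_of_mem_nhds (ball_mem_nhds z hε)] with w hw
    have e1 := hiff w hw
    have e2 := hiff z (mem_ball_self hε)
    exact ⟨fun hh => e1.2 (e2.1 hh), fun hh => e2.2 (e1.1 hh)⟩
  have hU0 : ∀ {c : ℂ} {r : ℝ} {U : Set ℂ}, 0 < r → closedBall c r ⊆ U → c ∈ U :=
    fun hr hc => hc (mem_closedBall_self hr.le)
  have hR0 : R c0 (Y0 c0) := by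
    intro c' r' U' Y' hr' h' hc' hx' hY'
    exact mean_overlap F hF b hb c' r' U' Y' hr' h' hc' c0 r0 U0 Y0 hr0 h0 hc0 c0 hx'
      (mem_ball_self hr0) hY'
  have hon0 : OnX F c0 (Y0 c0) := h0.2.2 c0 (hU0 hr0 hc0)
  have hon : OnX F c (Y c) := h.2.2 c (hU0 hr hc)
  have := conn F hF hirr R hstep c0 (Y0 c0) hon0 hR0 c (Y c) hon
  exact this c r U Y hr h hc (mem_ball_self hr) rfl

end EGR
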