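import Pool.Agent.EGR.Loc
import Pool.Agent.EGR.Ext
import Pool.Agent.EGR.Mean

/-!
The minimising sequence converges locally on the curve (to a function given on each small plaque).

PROOF of `glue1`. Take `r`, `Y`, `f` of `Sq.part` with `f`, `Y` defined on a larger disc (shrink the
radius, so that `dz f` is bounded on the disc). `loc` for `a n = u n ∘ Y`: its hypotheses follow from
`En_disc`, `Sq.cauchy` (`D_add`, `D_eq`), `Sq.weak` with `w = ext x0 r Y χ`, `ext_bil`, `ext_sum` and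
`Δ f = 2 π h`. So there is `w` with `dz (u n ∘ Y) → dz w` in `L^2(ball x0 r)`. The averages
`avg x0 (r/2) (u n ∘ Y) - m n` form a Cauchy sequence (`mean_bdd` for `u m - u n`), let `k` be its
limit, and correct `w` by the constant which makes its average `k`; `poincare` (on `ball x0 (r/2)`)
gives the convergence in `L^2(ball x0 (r/2))`.
-/

open Polynomial MeasureTheory Metric ComplexConjugate Filter Topology
open scoped ContDiff

namespace EGR

open ALC

/-- A sequence of functions on the curve with Cauchy gradients and `Δ = 2 π h` weakly in the limit;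
`h` has local solutions. -/
structure Sq (F : ℂ[X][X]) (h : ℂ → ℂ → ℝ) (u : ℕ → ℂ → ℂ → ℝ) : Prop where
  fn : ∀ n, Fn F (u n)
  cauchy : ∀ ε : ℝ, 0 < ε → ∃ N : ℕ, ∀ m ≥ N, ∀ n ≥ N, En F (u m - u n) ≤ ε
  weak : ∀ w, Fn F w → Tendsto (fun n => Bil F (u n) w) atTop
    (𝓝 (-(Real.pi / 2) * ∫ x, ∑ y ∈ fib F x, h x y * w x y))
  part : ∀ x0 y0, OnX F x0 y0 → ∃ r : ℝ, 0 < r ∧ ∃ (Y : ℂ → ℂ) (f : ℂ → ℝ),
    IsBranch F (ball x0 r) Y ∧ Y x0 = y0 ∧ ContDiffOn ℝ 2 f (ball x0 r) ∧
      ∀ x ∈ ball x0 r, Laplacian.laplacian f x = 2 * Real.pi * h x (Y x)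

private lemma dz_cont {a : ℂ → ℝ} {U : Set ℂ} (hU : IsOpen U) (ha : ContDiffOn ℝ 2 a U) :
    ContinuousOn (dz a) U := by
  have h1 : ContinuousOn (fun x => fderiv ℝ a x) U :=
    ha.continuousOn_fderiv_of_isOpen hU (by norm_num)
  unfold dz
  have h3 : ∀ v : ℂ, ContinuousOn (fun x => (((fderiv ℝ a x v : ℝ)) : ℂ)) U := fun v =>
    Complex.continuous_ofReal.comp_continuousOn (h1.clm_apply continuousOn_const)
  exact ((h3 1).sub (continuousOn_const.mul (h3 Complex.I))).div_const 2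

private lemma dz_sub {a c : ℂ → ℝ} {x : ℂ} (ha : DifferentiableAt ℝ a x)
    (hc : DifferentiableAt ℝ c x) : dz (fun x => a x - c x) x = dz a x - dz c x := by
  unfold dz
  rw [fderiv_fun_sub ha hc]
  simp only [sub_apply]
  push_cast
  ring

private lemma dz_addc (a : ℂ → ℝ) (k : ℝ) (x : ℂ) : dz (fun x => a x + k) x = dz a x := by
  unfold dz
  rw [fderiv_add_const]

private lemma avg_sub {c : ℂ} {r : ℝ} {a d : ℂ → ℝ} (ha : IntegrableOn a (ball c r))
    (hd : IntegrableOn d (ball c r)) : avg c r (fun x => a x - d x) = avg c r a - avg c r d := by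
  unfold avg
  rw [integral_sub ha hd]
  ring

private lemma cont_int {c : ℂ} {r : ℝ} {U : Set ℂ} (hU : closedBall c r ⊆ U) {a : ℂ → ℝ}
    (ha : ContinuousOn a U) : IntegrableOn a (ball c r) :=
  ((ha.mono hU).integrableOn_compact (isCompact_closedBall c r)).mono_set ball_subset_closedBall

variable (F : ℂ[X][X]) (hF : F.Monic) (b : ℂ) (hb : (at_ F b).Separable)

include hF hb

theorem glue1 (hirr : Irreducible F) (h : ℂ → ℂ → ℝ)
    (hh : ∀ U Y, IsBranch F U Y → ContinuousOn (fun x => h x (Y x)) U) (u : ℕ → ℂ → ℂ → ℝ)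
    (hu : Sq F h u) (c0 : ℂ) (r0 : ℝ) (U0 : Set ℂ) (Y0 : ℂ → ℂ) (hr0 : 0 < r0)
    (h0 : IsBranch F U0 Y0) (hc0 : closedBall c0 r0 ⊆ U0) (x0 y0 : ℂ) (hx : OnX F x0 y0) :
    ∃ r : ℝ, 0 < r ∧ ∃ (Y : ℂ → ℂ) (w : ℂ → ℝ), IsBranch F (ball x0 (2 * r)) Y ∧ Y x0 = y0 ∧
      ContDiffOn ℝ 2 w (ball x0 r) ∧
      (∀ x ∈ ball x0 r, Laplacian.laplacian w x = 2 * Real.pi * h x (Y x)) ∧
      Tendsto (fun n => ∫ x in ball x0 r,
        (u n x (Y x) - avg c0 r0 (fun x => u n x (Y0 x)) - w x) ^ 2) atTop (𝓝 0) ∧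
      IntegrableOn (fun x => ‖dz w x‖ ^ 2) (ball x0 r) ∧
      Tendsto (fun n => ∫ x in ball x0 r, ‖dz (fun x => u n x (Y x)) x - dz w x‖ ^ 2) atTop (𝓝 0) := by
  obtain ⟨r1, hr1, Y, f, hY1, hYx, hf1, hfl⟩ := hu.part x0 y0 hx
  set r : ℝ := r1 / 4 with hr
  have hr0' : 0 < r := by rw [hr]; linarith
  have hR0 : 0 < 2 * r := by linarith
  have hRr : 2 * r < r1 := by rw [hr]; linarith
  have hsub1 : ball x0 (2 * r) ⊆ ball x0 r1 := ball_subset_ball hRr.le
  have hcl1 : closedBall x0 (2 * r) ⊆ ball x0 r1 := closedBall_subset_ball hRr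
  have hclr : closedBall x0 r ⊆ ball x0 (2 * r) := closedBall_subset_ball (by linarith)
  have hbr : ball x0 r ⊆ ball x0 (2 * r) := ball_subset_ball (by linarith)
  have hY : IsBranch F (ball x0 (2 * r)) Y :=
    ⟨isOpen_ball, hY1.2.1.mono hsub1, fun x hx => hY1.2.2 x (hsub1 hx)⟩
  have hf : ContDiffOn ℝ 2 f (ball x0 (2 * r)) := hf1.mono hsub1
  -- the difference `u m - u n`
  have hdiff : ∀ m n, Fn F (u m - u n) := by
    intro m n
    have h1 : u m - u n = u m + (-1 : ℝ) • u n := by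
      rw [neg_one_smul, sub_eq_add_neg]
    rw [h1]
    exact Fn.add F hF b hb (hu.fn m) (Fn.smul F hF b hb (-1) (hu.fn n))
  set a : ℕ → ℂ → ℝ := fun n x => u n x (Y x) with ha
  have hasm : ∀ n, ContDiffOn ℝ 2 (a n) (ball x0 (2 * r)) := fun n => (hu.fn n).smooth _ _ hY
  have hadiff : ∀ n, ∀ x ∈ ball x0 (2 * r), DifferentiableAt ℝ (a n) x := fun n x hx =>
    ((hasm n).differentiableOn (by norm_num)).differentiableAt (isOpen_ball.mem_nhds hx)
  have hi : ∀ n, IntegrableOn (fun x => ‖dz (a n) x‖ ^ 2) (ball x0 (2 * r)) := fun n =>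
    (En_disc F hF b hb x0 (2 * r) _ Y hY subset_rfl (u n)
      (fun U Z hZ => ((hu.fn n).smooth U Z hZ).of_le (by norm_num)) (hu.fn n).energy).1
  have hdd : ∀ m n, ∫ x in ball x0 (2 * r), ‖dz (a m) x - dz (a n) x‖ ^ 2 ≤
      En F (u m - u n) := by
    intro m n
    have h1 := (En_disc F hF b hb x0 (2 * r) _ Y hY subset_rfl (u m - u n)
      (fun U Z hZ => ((hdiff m n).smooth U Z hZ).of_le (by norm_num)) (hdiff m n).energy).2
    have h2 : ∫ x in ball x0 (2 * r), ∑ y ∈ fib F x, ‖D F (u m - u n) x y‖ ^ 2 ≤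
        En F (u m - u n) :=
      setIntegral_le_integral (hdiff m n).energy
        (Eventually.of_forall fun x => Finset.sum_nonneg fun y _ => by positivity)
    have h3 : ∫ x in ball x0 (2 * r), ‖dz (a m) x - dz (a n) x‖ ^ 2 =
        ∫ x in ball x0 (2 * r), ‖dz (fun x => (u m - u n) x (Y x)) x‖ ^ 2 := by
      refine setIntegral_congr_fun measurableSet_ball fun x hx => ?_
      have h4 : dz (fun x => (u m - u n) x (Y x)) x = dz (a m) x - dz (a n) x :=
        dz_sub (hadiff m x hx) (hadiff n x hx)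
      simp only [h4]
    rw [h3]
    exact h1.trans h2
  have hC : ∀ ε : ℝ, 0 < ε → ∃ N : ℕ, ∀ m ≥ N, ∀ n ≥ N,
      ∫ x in ball x0 (2 * r), ‖dz (a m) x - dz (a n) x‖ ^ 2 ≤ ε := by
    intro ε hε
    obtain ⟨N, hN⟩ := hu.cauchy ε hε
    exact ⟨N, fun m hm n hn => (hdd m n).trans (hN m hm n hn)⟩
  have hfi : IntegrableOn (fun x => ‖dz f x‖ ^ 2) (ball x0 (2 * r)) :=
    cont_int hcl1 ((dz_cont isOpen_ball hf1).norm.pow 2)
  have hw : ∀ χ : ℂ → ℝ, ContDiff ℝ ∞ χ → HasCompactSupport χ → tsupport χ ⊆ ball x0 (2 * r) →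
      Tendsto (fun n => ∫ x in ball x0 (2 * r), (dz (a n) x * conj (dz χ x)).re) atTop
        (𝓝 (-(1 / 4) * ∫ x in ball x0 (2 * r), Laplacian.laplacian f x * χ x)) := by
    intro χ hχ hc hs
    have hχ2 : ContDiff ℝ 2 χ := contDiff_infty.1 hχ 2
    have h1 := hu.weak (ext x0 (2 * r) Y χ) (ext_fn F hF b hb x0 (2 * r) Y hY χ hχ2 hc hs)
    have h2 : (fun n => Bil F (u n) (ext x0 (2 * r) Y χ)) =
        fun n => ∫ x in ball x0 (2 * r), (dz (a n) x * conj (dz χ x)).re := by
      funext n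
      exact ext_bil F hF b hb x0 (2 * r) Y hY χ hχ2 hc hs (u n) (hu.fn n)
    rw [h2] at h1
    have h3 : (∫ x, ∑ y ∈ fib F x, h x y * ext x0 (2 * r) Y χ x y) =
        ∫ x in ball x0 (2 * r), h x (Y x) * χ x := by
      rw [← integral_indicator measurableSet_ball]
      refine integral_congr_ae (Eventually.of_forall fun x => ?_)
      exact ext_sum F hF x0 (2 * r) Y hY χ h x
    have h4 : ∫ x in ball x0 (2 * r), Laplacian.laplacian f x * χ x =
        2 * Real.pi * ∫ x in ball x0 (2 * r), h x (Y x) * χ x := by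
      rw [← integral_const_mul]
      refine setIntegral_congr_fun measurableSet_ball fun x hx => ?_
      show Laplacian.laplacian f x * χ x = 2 * Real.pi * (h x (Y x) * χ x)
      rw [hfl x (hsub1 hx)]
      ring
    rw [h3] at h1
    rw [h4]
    convert h1 using 2
    ring
  obtain ⟨w, hw2, hwl, hwi, hwt⟩ := loc x0 (2 * r) hR0 a hasm hi hC f hf hfi hw
  have hwdiff : ∀ x ∈ ball x0 (2 * r), DifferentiableAt ℝ w x := fun x hx =>
    (hw2.differentiableOn (by norm_num)).differentiableAt (isOpen_ball.mem_nhds hx)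
  -- the averages
  set A : ℕ → ℝ := fun n => avg x0 r (a n) - avg c0 r0 (fun x => u n x (Y0 x)) with hA
  have haint : ∀ n, IntegrableOn (a n) (ball x0 r) := fun n => cont_int hclr (hasm n).continuousOn
  have h0int : ∀ n, IntegrableOn (fun x => u n x (Y0 x)) (ball c0 r0) := fun n =>
    cont_int hc0 ((hu.fn n).smooth _ _ h0).continuousOn
  have hAC : ∃ k, Tendsto A atTop (𝓝 k) := by
    obtain ⟨C, hC0, hCb⟩ := mean_bdd F hF b hb hirr c0 r0 U0 Y0 hr0 h0 hc0 x0 r
      (ball x0 (2 * r)) Y hr0' hY hclr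
    have h1 : ∀ m n, |A m - A n| ≤ C * Real.sqrt (En F (u m - u n)) := by
      intro m n
      have h2 := hCb (u m - u n) (hdiff m n)
      have h3 : avg x0 r (fun x => (u m - u n) x (Y x)) = avg x0 r (a m) - avg x0 r (a n) :=
        avg_sub (haint m) (haint n)
      have h4 : avg c0 r0 (fun x => (u m - u n) x (Y0 x)) =
          avg c0 r0 (fun x => u m x (Y0 x)) - avg c0 r0 (fun x => u n x (Y0 x)) :=
        avg_sub (h0int m) (h0int n)
      rw [h3, h4] at h2
      have h5 : A m - A n = avg x0 r (a m) - avg x0 r (a n) -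
          (avg c0 r0 (fun x => u m x (Y0 x)) - avg c0 r0 (fun x => u n x (Y0 x))) := by
        simp only [hA]
        ring
      rw [h5]
      exact h2
    refine cauchySeq_tendsto_of_complete (Metric.cauchySeq_iff.2 fun ε hε => ?_)
    obtain ⟨N, hN⟩ := hu.cauchy ((ε / (2 * (C + 1))) ^ 2) (by positivity)
    refine ⟨N, fun m hm n hn => ?_⟩
    rw [Real.dist_eq]
    refine (h1 m n).trans_lt ?_
    have h6 : Real.sqrt (En F (u m - u n)) ≤ ε / (2 * (C + 1)) :=
      Real.sqrt_le_iff.2 ⟨by positivity, hN m hm n hn⟩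
    have h7 : C * Real.sqrt (En F (u m - u n)) ≤ C * (ε / (2 * (C + 1))) :=
      mul_le_mul_of_nonneg_left h6 hC0
    have h8 : C * (ε / (2 * (C + 1))) < ε := by
      rw [← mul_div_assoc, div_lt_iff₀ (by positivity)]
      nlinarith
    exact h7.trans_lt h8
  obtain ⟨k, hk⟩ := hAC
  have hwint : IntegrableOn w (ball x0 r) := cont_int hclr hw2.continuousOn
  set k' : ℝ := k - avg x0 r w with hk'
  have hdzc : ∀ x, dz (fun x => w x + k') x = dz w x := fun x => dz_addc w k' x
  -- integrability of the difference of gradients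
  have hdc : ∀ n, ContinuousOn (fun x => dz (a n) x - dz w x) (ball x0 (2 * r)) := fun n =>
    (dz_cont isOpen_ball (hasm n)).sub (dz_cont isOpen_ball hw2)
  have hdi : ∀ n, IntegrableOn (fun x => ‖dz (a n) x - dz w x‖ ^ 2) (ball x0 (2 * r)) := by
    intro n
    refine Integrable.mono' (((hi n).const_mul 2).add (hwi.const_mul 2))
      (((hdc n).norm.pow 2).aestronglyMeasurable measurableSet_ball)
      (Eventually.of_forall fun x => ?_)
    rw [Real.norm_of_nonneg (by positivity)]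
    have h1 : ‖dz (a n) x - dz w x‖ ≤ ‖dz (a n) x‖ + ‖dz w x‖ := norm_sub_le _ _
    have h2 : ‖dz (a n) x - dz w x‖ ^ 2 ≤ (‖dz (a n) x‖ + ‖dz w x‖) ^ 2 :=
      pow_le_pow_left₀ (norm_nonneg _) h1 2
    simp only [Pi.add_apply]
    nlinarith [sq_nonneg (‖dz (a n) x‖ - ‖dz w x‖)]
  have hle : ∀ n, ∫ x in ball x0 r, ‖dz (a n) x - dz w x‖ ^ 2 ≤
      ∫ x in ball x0 (2 * r), ‖dz (a n) x - dz w x‖ ^ 2 := fun n =>
    setIntegral_mono_set (hdi n) (Eventually.of_forall fun x => by positivity)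
      (Eventually.of_forall hbr)
  have hnn : ∀ n, 0 ≤ ∫ x in ball x0 r, ‖dz (a n) x - dz w x‖ ^ 2 := fun n =>
    integral_nonneg fun x => by positivity
  have hdt : Tendsto (fun n => ∫ x in ball x0 r, ‖dz (a n) x - dz w x‖ ^ 2) atTop (𝓝 0) :=
    squeeze_zero hnn hle hwt
  refine ⟨r, hr0', Y, fun x => w x + k', hY, hYx, (hw2.mono hbr).add contDiffOn_const, ?_, ?_, ?_,
    ?_⟩
  · intro x hx
    have h1 : Laplacian.laplacian (fun x => w x + k') x = Laplacian.laplacian w x := by
      have h2 := ContDiffAt.laplacian_add (f₁ := w) (f₂ := fun _ => k') (x := x)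
        (hw2.contDiffAt (isOpen_ball.mem_nhds (hbr hx))) contDiffAt_const
      have h3 : Laplacian.laplacian (fun _ : ℂ => k') x = 0 := by
        rw [InnerProductSpace.laplacian_const]
        rfl
      rw [h3, add_zero] at h2
      exact h2
    rw [h1, hwl x (hbr hx), hfl x (hsub1 (hbr hx))]
  · obtain ⟨K, hK, hP⟩ := poincare
    set V : ℝ := (volume : Measure ℂ).real (ball x0 r) with hV
    have hub : ∀ n, ∫ x in ball x0 r,
        (u n x (Y x) - avg c0 r0 (fun x => u n x (Y0 x)) - (w x + k')) ^ 2 ≤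
        2 * (K * r ^ 2 * ∫ x in ball x0 r, ‖dz (a n) x - dz w x‖ ^ 2) +
          2 * (A n - k) ^ 2 * V := by
      intro n
      set g : ℂ → ℝ := fun x => a n x - w x with hg
      have hg2 : ContDiffOn ℝ 2 g (ball x0 (2 * r)) := (hasm n).sub hw2
      have h1 := hP x0 r (ball x0 (2 * r)) g hr0' isOpen_ball hclr (hg2.of_le (by norm_num))
      have h2 : ∫ x in ball x0 r, ‖dz g x‖ ^ 2 = ∫ x in ball x0 r, ‖dz (a n) x - dz w x‖ ^ 2 := by
        refine setIntegral_congr_fun measurableSet_ball fun x hx => ?_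
        have h3 : dz g x = dz (a n) x - dz w x := dz_sub (hadiff n x (hbr hx)) (hwdiff x (hbr hx))
        simp only [h3]
      rw [h2] at h1
      have h4 : avg x0 r g = avg x0 r (a n) - avg x0 r w := avg_sub (haint n) hwint
      have h5 : IntegrableOn (fun x => (g x - avg x0 r g) ^ 2) (ball x0 r) :=
        cont_int hclr ((hg2.continuousOn.sub continuousOn_const).pow 2)
      have h6 : IntegrableOn (fun _ : ℂ => 2 * (A n - k) ^ 2) (ball x0 r) :=
        integrableOn_const (by finiteness)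
      have h7 : IntegrableOn
          (fun x => (u n x (Y x) - avg c0 r0 (fun x => u n x (Y0 x)) - (w x + k')) ^ 2)
          (ball x0 r) := by
        refine cont_int hclr ((((hasm n).continuousOn.sub continuousOn_const).sub
          (hw2.continuousOn.add continuousOn_const)).pow 2)
      have h8 : ∫ x in ball x0 r,
          (u n x (Y x) - avg c0 r0 (fun x => u n x (Y0 x)) - (w x + k')) ^ 2 ≤
          ∫ x in ball x0 r, (2 * (g x - avg x0 r g) ^ 2 + 2 * (A n - k) ^ 2) := by
        refine setIntegral_mono h7 ((h5.const_mul 2).add h6) fun x => ?_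
        simp only
        have h9 : u n x (Y x) - avg c0 r0 (fun x => u n x (Y0 x)) - (w x + k') =
            (g x - avg x0 r g) + (A n - k) := by
          rw [h4, hk']
          simp only [hg, hA, ha]
          ring
        rw [h9]
        nlinarith [sq_nonneg ((g x - avg x0 r g) - (A n - k))]
      have h10 : ∫ x in ball x0 r, (2 * (g x - avg x0 r g) ^ 2 + 2 * (A n - k) ^ 2) =
          2 * (∫ x in ball x0 r, (g x - avg x0 r g) ^ 2) + 2 * (A n - k) ^ 2 * V := by
        rw [integral_add (h5.const_mul 2) h6, integral_const_mul, setIntegral_const, smul_eq_mul]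
        ring
      rw [h10] at h8
      linarith
    have hlim : Tendsto (fun n => 2 * (K * r ^ 2 * ∫ x in ball x0 r, ‖dz (a n) x - dz w x‖ ^ 2) +
          2 * (A n - k) ^ 2 * V) atTop (𝓝 0) := by
      have h1 : Tendsto (fun n => A n - k) atTop (𝓝 0) := by
        simpa using hk.sub_const k
      have h2 := ((hdt.const_mul (K * r ^ 2)).const_mul 2).add
        (((h1.pow 2).const_mul 2).mul_const V)
      simpa using h2
    exact squeeze_zero (fun n => integral_nonneg fun x => by positivity) hub hlim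
  · simp only [hdzc]
    exact hwi.mono_set hbr
  · simp only [hdzc]
    exact hdt

end EGR
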