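import Pool.Agent.EGR.Glue1

/-!
The local limits of `glue1` fit together to a function `v` on the curve.

PROOF. `v x y` = value at `x` of the function `w` chosen for `(x, y)`. If a branch `(U, Y)` passes
through `(x, y)`, then near `x` the functions `x' ↦ v x' (Y x')` and `w` agree: for `x'` near `x` the
function `w'` chosen for `(x', Y x')` and `w` are limits in `L^2` of the same functions on the
intersection of the discs (the branches agree there, `ALC.branch_eq`), both continuous, so equal.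
-/

open Polynomial MeasureTheory Metric ComplexConjugate Filter Topology

namespace EGR

open ALC

private theorem glue2_sq (a b : ℝ) : (a - b) ^ 2 ≤ 2 * a ^ 2 + 2 * b ^ 2 := by
  nlinarith [sq_nonneg (a + b)]

private theorem glue2_int {w : ℂ → ℝ} {c : ℂ} {r s : ℝ} (hw : ContinuousOn w (ball c r))
    (hs : s < r) : IntegrableOn w (ball c s) := by
  have h1 : closedBall c s ⊆ ball c r := closedBall_subset_ball hs
  exact ((hw.mono h1).integrableOn_compact (isCompact_closedBall c s)).mono_set ball_subset_closedBall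

/-- a `C^1` function on a disc with finite energy is square integrable -/
private theorem glue2_L2 (c : ℂ) (r : ℝ) (hr : 0 < r) (w : ℂ → ℝ) (hw : ContDiffOn ℝ 1 w (ball c r))
    (hi : IntegrableOn (fun x => ‖dz w x‖ ^ 2) (ball c r)) :
    IntegrableOn (fun x => w x ^ 2) (ball c r) := by
  obtain ⟨K, hK, hP⟩ := poincare
  have hwc := hw.continuousOn
  set E : ℝ := ∫ x in ball c r, ‖dz w x‖ ^ 2 with hE
  have hE0 : 0 ≤ E := integral_nonneg fun x => by positivity
  set M : ℝ := K * r ^ 2 * E with hM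
  set W0 : ℝ := ∫ x in ball c (r / 2), w x ^ 2 with hW0
  set V1 : ℝ := volume.real (ball c (r / 2)) with hV1
  have hV1p : 0 < V1 := by
    rw [hV1, Measure.real]
    exact ENNReal.toReal_pos (measure_ball_pos volume c (by linarith)).ne' measure_ball_lt_top.ne
  have hw2c : ContinuousOn (fun x => w x ^ 2) (ball c r) := hwc.pow 2
  have key : ∀ s, r / 2 ≤ s → s < r →
      ∫ x in ball c s, w x ^ 2 ≤ 2 * M + 2 * ((2 * M + 2 * W0) / V1) * volume.real (ball c r) := by
    intro s h1 h2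
    have hs : 0 < s := by linarith
    set m := avg c s w with hm
    have hp := hP c s (ball c r) w hs isOpen_ball (closedBall_subset_ball h2) hw
    have i1 : ∫ x in ball c s, ‖dz w x‖ ^ 2 ≤ E :=
      setIntegral_mono_set hi (ae_of_all _ fun x => by positivity)
        (ball_subset_ball h2.le).eventuallyLE
    have hpM : ∫ x in ball c s, (w x - m) ^ 2 ≤ M := by
      refine hp.trans ?_
      have : s ^ 2 ≤ r ^ 2 := pow_le_pow_left₀ hs.le h2.le 2
      rw [hM]
      gcongr
    have hmc : ContinuousOn (fun x => (w x - m) ^ 2) (ball c r) := (hwc.sub continuousOn_const).pow 2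
    have j1 : IntegrableOn (fun x => (w x - m) ^ 2) (ball c s) := glue2_int hmc h2
    have j2 : IntegrableOn (fun x => w x ^ 2) (ball c s) := glue2_int hw2c h2
    have hsub : ball c (r / 2) ⊆ ball c s := ball_subset_ball h1
    -- the mean is bounded
    have k1 : m ^ 2 * V1 ≤ 2 * M + 2 * W0 := by
      have e1 : ∫ x in ball c (r / 2), (w x - m) ^ 2 ≤ M :=
        (setIntegral_mono_set j1 (ae_of_all _ fun x => by positivity) hsub.eventuallyLE).trans hpM
      have e2 : ∫ _x in ball c (r / 2), m ^ 2 = m ^ 2 * V1 := by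
        rw [setIntegral_const, smul_eq_mul, mul_comm]
      rw [← e2]
      calc ∫ _x in ball c (r / 2), m ^ 2
          ≤ ∫ x in ball c (r / 2), (2 * (w x - m) ^ 2 + 2 * w x ^ 2) := by
            refine setIntegral_mono ?_ ?_ ?_
            · exact integrableOn_const (measure_ball_lt_top.ne)
            · exact ((j1.mono_set hsub).const_mul 2).add ((j2.mono_set hsub).const_mul 2)
            · intro x
              show m ^ 2 ≤ 2 * (w x - m) ^ 2 + 2 * w x ^ 2
              nlinarith [sq_nonneg (2 * w x - m)]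
        _ = 2 * (∫ x in ball c (r / 2), (w x - m) ^ 2) + 2 * W0 := by
            rw [integral_add ((j1.mono_set hsub).const_mul 2) ((j2.mono_set hsub).const_mul 2),
              integral_const_mul, integral_const_mul]
        _ ≤ 2 * M + 2 * W0 := by linarith
    have k2 : m ^ 2 ≤ (2 * M + 2 * W0) / V1 := by rwa [le_div_iff₀ hV1p]
    calc ∫ x in ball c s, w x ^ 2 ≤ ∫ x in ball c s, (2 * (w x - m) ^ 2 + 2 * m ^ 2) := by
          refine setIntegral_mono j2 ?_ ?_
          · exact (j1.const_mul 2).add (integrableOn_const measure_ball_lt_top.ne)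
          · intro x
            show w x ^ 2 ≤ 2 * (w x - m) ^ 2 + 2 * m ^ 2
            nlinarith [sq_nonneg (w x - 2 * m)]
      _ = 2 * (∫ x in ball c s, (w x - m) ^ 2) + 2 * m ^ 2 * volume.real (ball c s) := by
          rw [integral_add (j1.const_mul 2) (integrableOn_const measure_ball_lt_top.ne),
            integral_const_mul, setIntegral_const, smul_eq_mul]
          ring
      _ ≤ 2 * M + 2 * ((2 * M + 2 * W0) / V1) * volume.real (ball c r) := by
          have hv : volume.real (ball c s) ≤ volume.real (ball c r) :=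
            measureReal_mono (ball_subset_ball h2.le) measure_ball_lt_top.ne
          have hm0 : 0 ≤ m ^ 2 := sq_nonneg m
          have hv0 : 0 ≤ volume.real (ball c s) := measureReal_nonneg
          have : m ^ 2 * volume.real (ball c s) ≤
              (2 * M + 2 * W0) / V1 * volume.real (ball c r) :=
            mul_le_mul k2 hv hv0 (hm0.trans k2)
          nlinarith
  -- exhaustion
  set ρ : ℕ → ℝ := fun n => r - r / (n + 2) with hρ
  have hρ1 : ∀ n, r / 2 ≤ ρ n := by
    intro n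
    have hn : (2 : ℝ) ≤ n + 2 := by
      have : (0 : ℝ) ≤ n := Nat.cast_nonneg n
      linarith
    have : r / (n + 2) ≤ r / 2 := div_le_div_of_nonneg_left hr.le (by norm_num) hn
    simp only [hρ]
    linarith
  have hρ2 : ∀ n, ρ n < r := by
    intro n
    have : 0 < r / ((n : ℝ) + 2) := by positivity
    simp only [hρ]
    linarith
  have hρl : Tendsto ρ atTop (𝓝 r) := by
    have h1 : Tendsto (fun n : ℕ => r / ((n : ℝ) + 2)) atTop (𝓝 0) := by
      refine Tendsto.div_atTop tendsto_const_nhds ?_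
      exact tendsto_atTop_add_const_right _ _ tendsto_natCast_atTop_atTop
    simpa using tendsto_const_nhds.sub h1
  have hcov : AECover (volume.restrict (ball c r)) atTop (fun n => ball c (ρ n)) := by
    refine ⟨?_, fun n => measurableSet_ball⟩
    filter_upwards [ae_restrict_mem measurableSet_ball] with x hx
    have hx' : dist x c < r := hx
    filter_upwards [hρl.eventually (lt_mem_nhds hx')] with n hn
    exact hn
  refine hcov.integrable_of_integral_bounded_of_nonneg_ae
    (2 * M + 2 * ((2 * M + 2 * W0) / V1) * volume.real (ball c r)) ?_ ?_ ?_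
  · intro n
    exact (glue2_int hw2c (hρ2 n)).mono_measure Measure.restrict_le_self
  · exact ae_of_all _ fun x => sq_nonneg _
  · refine Eventually.of_forall fun n => ?_
    rw [Measure.restrict_restrict measurableSet_ball,
      Set.inter_eq_left.mpr (ball_subset_ball (hρ2 n).le)]
    exact key _ (hρ1 n) (hρ2 n)

/-- limits in `L^2` are unique -/
private theorem glue2_uniq (B : Set ℂ) (hB : IsOpen B) (a : ℕ → ℂ → ℝ) (w w' : ℂ → ℝ)
    (hw : ContinuousOn w B) (hw' : ContinuousOn w' B)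
    (h1 : ∀ n, IntegrableOn (fun x => (a n x - w x) ^ 2) B)
    (h2 : ∀ n, IntegrableOn (fun x => (a n x - w' x) ^ 2) B)
    (t1 : Tendsto (fun n => ∫ x in B, (a n x - w x) ^ 2) atTop (𝓝 0))
    (t2 : Tendsto (fun n => ∫ x in B, (a n x - w' x) ^ 2) atTop (𝓝 0)) : ∀ x ∈ B, w x = w' x := by
  have hc : ContinuousOn (fun x => (w x - w' x) ^ 2) B := (hw.sub hw').pow 2
  have hpt : ∀ n x, (w x - w' x) ^ 2 ≤ 2 * (a n x - w x) ^ 2 + 2 * (a n x - w' x) ^ 2 := by
    intro n x
    have := glue2_sq (a n x - w' x) (a n x - w x)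
    have e : a n x - w' x - (a n x - w x) = w x - w' x := by ring
    rw [e] at this
    linarith
  have hI : IntegrableOn (fun x => (w x - w' x) ^ 2) B := by
    refine Integrable.mono' (((h1 0).const_mul 2).add ((h2 0).const_mul 2))
      (hc.aestronglyMeasurable hB.measurableSet) (ae_of_all _ fun x => ?_)
    rw [Real.norm_of_nonneg (sq_nonneg _)]
    exact hpt 0 x
  have hle : ∫ x in B, (w x - w' x) ^ 2 ≤ 0 := by
    have ht : Tendsto (fun n => 2 * (∫ x in B, (a n x - w x) ^ 2) + 2 * ∫ x in B, (a n x - w' x) ^ 2)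
        atTop (𝓝 0) := by
      simpa using (t1.const_mul 2).add (t2.const_mul 2)
    refine ge_of_tendsto' ht fun n => ?_
    have : ∫ x in B, (w x - w' x) ^ 2 ≤
        ∫ x in B, (2 * (a n x - w x) ^ 2 + 2 * (a n x - w' x) ^ 2) :=
      setIntegral_mono hI (((h1 n).const_mul 2).add ((h2 n).const_mul 2)) (hpt n)
    rwa [integral_add ((h1 n).const_mul 2) ((h2 n).const_mul 2), integral_const_mul,
      integral_const_mul] at this
  have h0 : ∫ x in B, (w x - w' x) ^ 2 = 0 := le_antisymm hle (integral_nonneg fun x => sq_nonneg _)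
  rw [integral_eq_zero_iff_of_nonneg (fun x => sq_nonneg _) hI] at h0
  have h3 : w =ᵐ[volume.restrict B] w' := by
    filter_upwards [h0] with x hx
    have hx' : (w x - w' x) ^ 2 = 0 := hx
    exact sub_eq_zero.mp (pow_eq_zero_iff (two_ne_zero) |>.mp hx')
  exact Measure.eqOn_open_of_ae_eq h3 hB hw hw'

variable (F : ℂ[X][X]) (hF : F.Monic) (b : ℂ) (hb : (at_ F b).Separable)

/-- the data of `glue1` -/
private def Dat (h : ℂ → ℂ → ℝ) (u : ℕ → ℂ → ℂ → ℝ) (A : ℕ → ℝ) (x0 y0 : ℂ) (r : ℝ) (Y : ℂ → ℂ)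
    (w : ℂ → ℝ) : Prop :=
  0 < r ∧ IsBranch F (ball x0 (2 * r)) Y ∧ Y x0 = y0 ∧
      ContDiffOn ℝ 2 w (ball x0 r) ∧
      (∀ x ∈ ball x0 r, Laplacian.laplacian w x = 2 * Real.pi * h x (Y x)) ∧
      Tendsto (fun n => ∫ x in ball x0 r, (u n x (Y x) - A n - w x) ^ 2) atTop (𝓝 0) ∧
      IntegrableOn (fun x => ‖dz w x‖ ^ 2) (ball x0 r) ∧
      Tendsto (fun n => ∫ x in ball x0 r, ‖dz (fun x => u n x (Y x)) x - dz w x‖ ^ 2) atTop (𝓝 0)

private theorem Dat.int {h : ℂ → ℂ → ℝ} {u : ℕ → ℂ → ℂ → ℝ} {A : ℕ → ℝ} {x0 y0 : ℂ} {r : ℝ}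
    {Y : ℂ → ℂ} {w : ℂ → ℝ} (hd : Dat F h u A x0 y0 r Y w) (hu : Sq F h u) (n : ℕ) :
    IntegrableOn (fun x => (u n x (Y x) - A n - w x) ^ 2) (ball x0 r) := by
  obtain ⟨hr, hY, -, hw, -, -, hi, -⟩ := hd
  have h1 : ContinuousOn (fun x => u n x (Y x) - A n) (ball x0 (2 * r)) :=
    ((hu.fn n).smooth _ _ hY).continuousOn.sub continuousOn_const
  have hw2 := glue2_L2 x0 r hr w (hw.of_le (by norm_num)) hi
  have h2 : IntegrableOn (fun x => (u n x (Y x) - A n) ^ 2) (ball x0 r) :=
    glue2_int (h1.pow 2) (by linarith)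
  refine Integrable.mono' ((h2.const_mul 2).add (hw2.const_mul 2)) ?_ (ae_of_all _ fun x => ?_)
  · refine ContinuousOn.aestronglyMeasurable ?_ measurableSet_ball
    exact ((h1.mono (ball_subset_ball (by linarith))).sub hw.continuousOn).pow 2
  · rw [Real.norm_of_nonneg (sq_nonneg _)]
    exact glue2_sq _ _

include hF in
private theorem Dat.agree {h : ℂ → ℂ → ℝ} {u : ℕ → ℂ → ℂ → ℝ} {A : ℕ → ℝ} {x0 y0 x1 y1 : ℂ}
    {r r1 : ℝ} {Y Y1 : ℂ → ℂ} {w w1 : ℂ → ℝ} (hd : Dat F h u A x0 y0 r Y w)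
    (hd1 : Dat F h u A x1 y1 r1 Y1 w1) (hu : Sq F h u) (hx : x1 ∈ ball x0 r) (hy : Y x1 = Y1 x1) :
    w x1 = w1 x1 := by
  obtain ⟨ε, hε, hεs⟩ := Metric.isOpen_iff.1 isOpen_ball x1 hx
  set s := min ε r1 with hs
  have hs0 : 0 < s := lt_min hε hd1.1
  have hs1 : ball x1 s ⊆ ball x0 r := (ball_subset_ball (min_le_left _ _)).trans hεs
  have hs2 : ball x1 s ⊆ ball x1 r1 := ball_subset_ball (min_le_right _ _)
  have hr := hd.1
  have hr1 := hd1.1
  have hb0 : IsBranch F (ball x1 s) Y := by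
    have := hd.2.1
    have hsub : ball x1 s ⊆ ball x0 (2 * r) := hs1.trans (ball_subset_ball (by linarith))
    exact ⟨isOpen_ball, this.2.1.mono hsub, fun z hz => this.2.2 z (hsub hz)⟩
  have hb1 : IsBranch F (ball x1 s) Y1 := by
    have := hd1.2.1
    have hsub : ball x1 s ⊆ ball x1 (2 * r1) := hs2.trans (ball_subset_ball (by linarith))
    exact ⟨isOpen_ball, this.2.1.mono hsub, fun z hz => this.2.2 z (hsub hz)⟩
  have heq := branch_eq F hF (ball x1 s) (convex_ball x1 s).isPreconnected _ _ hb0 hb1 x1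
    (mem_ball_self hs0) hy
  have c1 : ContinuousOn w (ball x1 s) := hd.2.2.2.1.continuousOn.mono hs1
  have c2 : ContinuousOn w1 (ball x1 s) := hd1.2.2.2.1.continuousOn.mono hs2
  have i1 : ∀ n, IntegrableOn (fun x => (u n x (Y x) - A n - w x) ^ 2) (ball x1 s) := fun n =>
    (hd.int F hu n).mono_set hs1
  have i2' : ∀ n, IntegrableOn (fun x => (u n x (Y1 x) - A n - w1 x) ^ 2) (ball x1 s) := fun n =>
    (hd1.int F hu n).mono_set hs2
  have i2 : ∀ n, IntegrableOn (fun x => (u n x (Y x) - A n - w1 x) ^ 2) (ball x1 s) := fun n =>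
    (i2' n).congr_fun (fun x hx => by simp only [heq x hx]) measurableSet_ball
  have t1 : Tendsto (fun n => ∫ x in ball x1 s, (u n x (Y x) - A n - w x) ^ 2) atTop (𝓝 0) := by
    refine squeeze_zero (fun n => integral_nonneg fun x => sq_nonneg _) (fun n => ?_)
      hd.2.2.2.2.2.1
    exact setIntegral_mono_set (hd.int F hu n) (ae_of_all _ fun x => sq_nonneg _)
      hs1.eventuallyLE
  have t2 : Tendsto (fun n => ∫ x in ball x1 s, (u n x (Y x) - A n - w1 x) ^ 2) atTop (𝓝 0) := by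
    refine squeeze_zero (fun n => integral_nonneg fun x => sq_nonneg _) (fun n => ?_)
      hd1.2.2.2.2.2.1
    have e : ∫ x in ball x1 s, (u n x (Y x) - A n - w1 x) ^ 2 =
        ∫ x in ball x1 s, (u n x (Y1 x) - A n - w1 x) ^ 2 :=
      setIntegral_congr_fun measurableSet_ball fun x hx => by simp only [heq x hx]
    rw [e]
    exact setIntegral_mono_set (hd1.int F hu n) (ae_of_all _ fun x => sq_nonneg _)
      hs2.eventuallyLE
  exact glue2_uniq (ball x1 s) isOpen_ball (fun n x => u n x (Y x) - A n) w w1 c1 c2 i1 i2 t1 t2 x1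
    (mem_ball_self hs0)

include hF hb

theorem glue2 (hirr : Irreducible F) (h : ℂ → ℂ → ℝ)
    (hh : ∀ U Y, IsBranch F U Y → ContinuousOn (fun x => h x (Y x)) U) (u : ℕ → ℂ → ℂ → ℝ)
    (hu : Sq F h u) :
    ∃ v : ℂ → ℂ → ℝ,
      (∀ U Y, IsBranch F U Y → ContDiffOn ℝ 2 (fun x => v x (Y x)) U ∧
        ∀ x ∈ U, Laplacian.laplacian (fun x => v x (Y x)) x = 2 * Real.pi * h x (Y x)) ∧
      ∀ x0 y0, OnX F x0 y0 → ∃ r : ℝ, 0 < r ∧ ∃ Y : ℂ → ℂ, IsBranch F (ball x0 r) Y ∧ Y x0 = y0 ∧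
        IntegrableOn (fun x => ‖dz (fun x => v x (Y x)) x‖ ^ 2) (ball x0 r) ∧
        Tendsto (fun n => ∫ x in ball x0 r,
          ‖dz (fun x => u n x (Y x)) x - dz (fun x => v x (Y x)) x‖ ^ 2) atTop (𝓝 0) := by
  classical
  by_cases hex : ∃ x y, OnX F x y
  swap
  · refine ⟨fun _ _ => 0, fun U Y hU => ?_, fun x y hxy => absurd ⟨x, y, hxy⟩ hex⟩
    have hno : ∀ x ∈ U, False := fun x hx => hex ⟨x, Y x, hU.2.2 x hx⟩
    exact ⟨fun x hx => (hno x hx).elim, fun x hx => (hno x hx).elim⟩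
  obtain ⟨c0, z0, hcz⟩ := hex
  obtain ⟨r', hr', Ys, hYs, hYf⟩ := sheets F hF c0 hcz.1
  obtain ⟨j, hj⟩ := ((hYf c0 (mem_ball_self hr')).2 z0).1 ((mem_fib F hF c0 z0).2 hcz.2)
  have hbase : closedBall c0 (r' / 2) ⊆ ball c0 r' := closedBall_subset_ball (by linarith)
  set A : ℕ → ℝ := fun n => avg c0 (r' / 2) (fun x => u n x (Ys j x)) with hA
  have hdat : ∀ x0 y0, OnX F x0 y0 → ∃ (r : ℝ) (Y : ℂ → ℂ) (w : ℂ → ℝ), Dat F h u A x0 y0 r Y w := by
    intro x0 y0 hx
    obtain ⟨r, hr, Y, w, h1, h2, h3, h4, h5, h6, h7⟩ := glue1 F hF b hb hirr h hh u hu c0 (r' / 2)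
      (ball c0 r') (Ys j) (by linarith) (hYs j) hbase x0 y0 hx
    exact ⟨r, Y, w, hr, h1, h2, h3, h4, h5, h6, h7⟩
  choose! r Y w hD using hdat
  set v : ℂ → ℂ → ℝ := fun x y => w x y x with hv
  -- the key local identity
  have key : ∀ x0 y0, OnX F x0 y0 → ∀ x ∈ ball x0 (r x0 y0), v x (Y x0 y0 x) = w x0 y0 x := by
    intro x0 y0 hx x hxb
    have hd := hD x0 y0 hx
    have hr0 := hd.1
    have hon : OnX F x (Y x0 y0 x) := hd.2.1.2.2 x (ball_subset_ball (by linarith) hxb)
    have hd1 := hD x _ hon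
    exact (hd.agree F hF hd1 hu hxb hd1.2.2.1.symm).symm
  refine ⟨v, fun U Z hU => ?_, fun x0 y0 hx => ?_⟩
  · have hloc : ∀ x0 ∈ U, (fun x => v x (Z x)) =ᶠ[𝓝 x0] w x0 (Z x0) := by
      intro x0 hx0
      have hon : OnX F x0 (Z x0) := hU.2.2 x0 hx0
      have hd := hD x0 _ hon
      obtain ⟨ε, hε, hεU⟩ := Metric.isOpen_iff.1 hU.1 x0 hx0
      have hs0 : 0 < min ε (r x0 (Z x0)) := lt_min hε hd.1
      have hr0 := hd.1
      have hb0 : IsBranch F (ball x0 (min ε (r x0 (Z x0)))) Z := by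
        have hsub : ball x0 (min ε (r x0 (Z x0))) ⊆ U := (ball_subset_ball (min_le_left _ _)).trans hεU
        exact ⟨isOpen_ball, hU.2.1.mono hsub, fun z hz => hU.2.2 z (hsub hz)⟩
      have hb1 : IsBranch F (ball x0 (min ε (r x0 (Z x0)))) (Y x0 (Z x0)) := by
        have hsub : ball x0 (min ε (r x0 (Z x0))) ⊆ ball x0 (2 * r x0 (Z x0)) :=
          ball_subset_ball ((min_le_right _ _).trans (by linarith))
        exact ⟨isOpen_ball, hd.2.1.2.1.mono hsub, fun z hz => hd.2.1.2.2 z (hsub hz)⟩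
      have heq := branch_eq F hF _ (convex_ball x0 _).isPreconnected _ _ hb0 hb1 x0
        (mem_ball_self hs0) hd.2.2.1.symm
      filter_upwards [ball_mem_nhds x0 hs0] with x hx
      rw [heq x hx]
      exact key x0 _ hon x (ball_subset_ball (min_le_right _ _) hx)
    refine ⟨fun x0 hx0 => ?_, fun x0 hx0 => ?_⟩
    · have hon : OnX F x0 (Z x0) := hU.2.2 x0 hx0
      have hd := hD x0 _ hon
      have h1 : ContDiffAt ℝ 2 (w x0 (Z x0)) x0 :=
        hd.2.2.2.1.contDiffAt (ball_mem_nhds x0 hd.1)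
      exact (h1.congr_of_eventuallyEq (hloc x0 hx0)).contDiffWithinAt
    · have hon : OnX F x0 (Z x0) := hU.2.2 x0 hx0
      have hd := hD x0 _ hon
      have h1 := (InnerProductSpace.laplacian_congr_nhds (hloc x0 hx0)).eq_of_nhds
      have h2 := hd.2.2.2.2.1 x0 (mem_ball_self hd.1)
      rw [hd.2.2.1] at h2
      exact h1.trans h2
  · have hd := hD x0 y0 hx
    have hr0 := hd.1
    have hdz : ∀ x ∈ ball x0 (r x0 y0), dz (fun x => v x (Y x0 y0 x)) x = dz (w x0 y0) x := by
      intro x hxb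
      have : (fun x => v x (Y x0 y0 x)) =ᶠ[𝓝 x] w x0 y0 := by
        filter_upwards [isOpen_ball.mem_nhds hxb] with z hz
        exact key x0 y0 hx z hz
      unfold dz
      rw [this.fderiv_eq]
    refine ⟨r x0 y0, hd.1, Y x0 y0, ?_, hd.2.2.1, ?_, ?_⟩
    · have hsub : ball x0 (r x0 y0) ⊆ ball x0 (2 * r x0 y0) := ball_subset_ball (by linarith)
      exact ⟨isOpen_ball, hd.2.1.2.1.mono hsub, fun z hz => hd.2.1.2.2 z (hsub hz)⟩
    · exact hd.2.2.2.2.2.2.1.congr_fun (fun x hxb => by simp only [hdz x hxb]) measurableSet_ball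
    · refine hd.2.2.2.2.2.2.2.congr fun n => ?_
      exact setIntegral_congr_fun measurableSet_ball fun x hxb => by simp only [hdz x hxb]

end EGR
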