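import Pool.Agent.EGR.Glue2

/-!
The limit has finite energy.

PROOF. `E x = ∑ y ∈ fib F x, ‖D F v x y‖^2` is continuous over the separable points. The energies
`En F (u n)` are bounded by a constant `M` (Cauchy). The separable set is covered by countably many
discs on which `∑ ‖D (u n) - D v‖^2` tends to `0` in `L^1`; on a finite union `A` of them
`∫_A E ≤ 3 En (u N) + 3 En (u m - u N) + 3 ∫_A ∑ ‖D (u m) - D v‖^2`, let `m` tend to infinity and then
let `A` exhaust the separable set.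
-/

open Polynomial MeasureTheory Metric ComplexConjugate Filter Topology

namespace EGR

open ALC

private theorem glue3_norm {a b c d : ℂ} (h : a = b + c - d) :
    ‖a‖ ^ 2 ≤ 3 * ‖b‖ ^ 2 + 3 * ‖c‖ ^ 2 + 3 * ‖d‖ ^ 2 := by
  have h1 : ‖a‖ ≤ ‖b‖ + ‖c‖ + ‖d‖ := by
    rw [h]
    exact (norm_sub_le _ _).trans (by gcongr; exact norm_add_le _ _)
  have h2 : ‖a‖ ^ 2 ≤ (‖b‖ + ‖c‖ + ‖d‖) ^ 2 := pow_le_pow_left₀ (norm_nonneg _) h1 2
  nlinarith [sq_nonneg (‖b‖ - ‖c‖), sq_nonneg (‖b‖ - ‖d‖), sq_nonneg (‖c‖ - ‖d‖)]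

private theorem glue3_norm2 (a b : ℂ) : ‖a - b‖ ^ 2 ≤ 2 * ‖a‖ ^ 2 + 2 * ‖b‖ ^ 2 := by
  have h2 : ‖a - b‖ ^ 2 ≤ (‖a‖ + ‖b‖) ^ 2 := pow_le_pow_left₀ (norm_nonneg _) (norm_sub_le _ _) 2
  nlinarith [sq_nonneg (‖a‖ - ‖b‖)]

private theorem glue3_dz_sub {a c : ℂ → ℝ} {x : ℂ} (ha : DifferentiableAt ℝ a x)
    (hc : DifferentiableAt ℝ c x) : dz (fun x => a x - c x) x = dz a x - dz c x := by
  unfold dz
  rw [fderiv_fun_sub ha hc]
  simp only [_root_.sub_apply]
  push_cast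
  ring

variable (F : ℂ[X][X]) (hF : F.Monic) (b : ℂ) (hb : (at_ F b).Separable)

include hF in
private theorem glue3_Dsub (u w : ℂ → ℂ → ℝ)
    (hu : ∀ U Y, IsBranch F U Y → ContDiffOn ℝ 2 (fun x => u x (Y x)) U)
    (hw : ∀ U Y, IsBranch F U Y → ContDiffOn ℝ 2 (fun x => w x (Y x)) U) (x y : ℂ)
    (hx : (at_ F x).Separable) (hy : y ∈ fib F x) :
    D F (u - w) x y = D F u x y - D F w x y := by
  obtain ⟨r, hr, Y, hY, -, hfib, -⟩ := local_sum F hF x hx
  obtain ⟨j, rfl⟩ := (hfib x (mem_ball_self hr) y).1 hy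
  have hm : x ∈ ball x r := mem_ball_self hr
  have hn : ball x r ∈ 𝓝 x := ball_mem_nhds x hr
  rw [D_eq F hF (hY j) hm, D_eq F hF (hY j) hm, D_eq F hF (hY j) hm]
  exact glue3_dz_sub (((hu _ _ (hY j)).contDiffAt hn).differentiableAt (by norm_num))
    (((hw _ _ (hY j)).contDiffAt hn).differentiableAt (by norm_num))

include hF hb

private theorem glue3_local (h : ℂ → ℂ → ℝ) (u : ℕ → ℂ → ℂ → ℝ) (hu : Sq F h u) (v : ℂ → ℂ → ℝ)
    (hv2 : ∀ x0 y0, OnX F x0 y0 → ∃ r : ℝ, 0 < r ∧ ∃ Y : ℂ → ℂ, IsBranch F (ball x0 r) Y ∧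
      Y x0 = y0 ∧ IntegrableOn (fun x => ‖dz (fun x => v x (Y x)) x‖ ^ 2) (ball x0 r) ∧
      Tendsto (fun n => ∫ x in ball x0 r,
        ‖dz (fun x => u n x (Y x)) x - dz (fun x => v x (Y x)) x‖ ^ 2) atTop (𝓝 0))
    (hv : ∀ U Y, IsBranch F U Y → ContDiffOn ℝ 2 (fun x => v x (Y x)) U)
    (x0 : ℂ) (hx0 : (at_ F x0).Separable) :
    ∃ r : ℝ, 0 < r ∧ Tendsto (fun n => ∫⁻ x in ball x0 r,
      ENNReal.ofReal (∑ y ∈ fib F x, ‖D F (u n) x y - D F v x y‖ ^ 2)) atTop (𝓝 0) := by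
  obtain ⟨r, hr, Y, hY, -, hfib, hsum⟩ := local_sum F hF x0 hx0
  have hon : ∀ j, OnX F x0 (Y j x0) := fun j => (hY j).2.2 x0 (mem_ball_self hr)
  choose s hs Z hZ hZx hZi hZt using fun j => hv2 x0 _ (hon j)
  obtain ⟨ρ, hρ, hρr, hρs⟩ : ∃ ρ : ℝ, 0 < ρ ∧ ρ ≤ r ∧ ∀ j, ρ ≤ s j := by
    have h1 : ∀ᶠ ρ in 𝓝[>] (0 : ℝ), ∀ j, ρ < s j := by
      rw [Filter.eventually_all]
      intro j
      exact mem_nhdsWithin_of_mem_nhds (Iio_mem_nhds (hs j))
    have h2 : ∀ᶠ ρ in 𝓝[>] (0 : ℝ), ρ < r := mem_nhdsWithin_of_mem_nhds (Iio_mem_nhds hr)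
    have h3 : ∀ᶠ ρ in 𝓝[>] (0 : ℝ), 0 < ρ := self_mem_nhdsWithin
    obtain ⟨ρ, ⟨h1, h2⟩, h3⟩ := ((h1.and h2).and h3).exists
    exact ⟨ρ, h3, h2.le, fun j => (h1 j).le⟩
  refine ⟨ρ, hρ, ?_⟩
  -- the branches agree
  have hYb : ∀ j, IsBranch F (ball x0 ρ) (Y j) := fun j =>
    ⟨isOpen_ball, (hY j).2.1.mono (ball_subset_ball hρr),
      fun z hz => (hY j).2.2 z (ball_subset_ball hρr hz)⟩
  have hZb : ∀ j, IsBranch F (ball x0 ρ) (Z j) := fun j =>
    ⟨isOpen_ball, (hZ j).2.1.mono (ball_subset_ball (hρs j)),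
      fun z hz => (hZ j).2.2 z (ball_subset_ball (hρs j) hz)⟩
  have heq : ∀ j, ∀ x ∈ ball x0 ρ, Z j x = Y j x := fun j =>
    branch_eq F hF _ (convex_ball x0 ρ).isPreconnected _ _ (hZb j) (hYb j) x0 (mem_ball_self hρ)
      (hZx j)
  -- the integrand in terms of the branches
  set g : ℕ → Fin F.natDegree → ℂ → ℝ := fun n j x =>
    ‖dz (fun x => u n x (Z j x)) x - dz (fun x => v x (Z j x)) x‖ ^ 2 with hg
  have hint : ∀ n j, IntegrableOn (g n j) (ball x0 (s j)) := by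
    intro n j
    have i1 := (En_disc F hF b hb x0 (s j) (ball x0 (s j)) (Z j) (hZ j) le_rfl (u n)
      (fun U Y hUY => ((hu.fn n).smooth U Y hUY).of_le (by norm_num)) (hu.fn n).energy).1
    refine Integrable.mono' ((i1.const_mul 2).add ((hZi j).const_mul 2)) ?_
      (ae_of_all _ fun x => ?_)
    · have c1 := D_cont F hF (u n)
        (fun U Y hUY => ((hu.fn n).smooth U Y hUY).of_le (by norm_num)) _ _ (hZ j)
      have c2 := D_cont F hF v (fun U Y hUY => (hv U Y hUY).of_le (by norm_num)) _ _ (hZ j)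
      have c3 : ContinuousOn (g n j) (ball x0 (s j)) := by
        refine ((c1.sub c2).norm.pow 2).congr fun x hx => ?_
        simp only [hg]
        rw [← D_eq F hF (hZ j) hx, ← D_eq F hF (hZ j) hx]
        rfl
      exact c3.aestronglyMeasurable measurableSet_ball
    · rw [Real.norm_of_nonneg (by positivity)]
      exact glue3_norm2 _ _
  have hint2 : ∀ n j, IntegrableOn (g n j) (ball x0 ρ) := fun n j =>
    (hint n j).mono_set (ball_subset_ball (hρs j))
  have hlim : Tendsto (fun n => ∫ x in ball x0 ρ, ∑ j, g n j x) atTop (𝓝 0) := by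
    have h1 : ∀ n, ∫ x in ball x0 ρ, ∑ j, g n j x = ∑ j, ∫ x in ball x0 ρ, g n j x := fun n =>
      integral_finsetSum _ fun j _ => hint2 n j
    simp only [h1]
    have h2 : Tendsto (fun n => ∑ j, ∫ x in ball x0 ρ, g n j x) atTop
        (𝓝 (∑ _j : Fin F.natDegree, (0 : ℝ))) := by
      refine tendsto_finsetSum _ fun j _ => ?_
      refine squeeze_zero (fun n => integral_nonneg fun x => by positivity) (fun n => ?_) (hZt j)
      exact setIntegral_mono_set (hint n j) (ae_of_all _ fun x => by positivity)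
        (ball_subset_ball (hρs j)).eventuallyLE
    simpa using h2
  have hsumg : ∀ n, ∀ x ∈ ball x0 ρ,
      ∑ y ∈ fib F x, ‖D F (u n) x y - D F v x y‖ ^ 2 = ∑ j, g n j x := by
    intro n x hx
    have e := hsum ℝ (fun x y => ‖D F (u n) x y - D F v x y‖ ^ 2) x (ball_subset_ball hρr hx)
    refine e.trans (Finset.sum_congr rfl fun j _ => ?_)
    have e1 := D_eq F hF (hZb j) hx (u n)
    have e2 := D_eq F hF (hZb j) hx v
    rw [heq j x hx] at e1 e2
    simp only [hg, e1, e2]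
  have hl : ∀ n, ∫⁻ x in ball x0 ρ,
      ENNReal.ofReal (∑ y ∈ fib F x, ‖D F (u n) x y - D F v x y‖ ^ 2) =
      ENNReal.ofReal (∫ x in ball x0 ρ, ∑ j, g n j x) := by
    intro n
    rw [ofReal_integral_eq_lintegral_ofReal]
    · exact setLIntegral_congr_fun measurableSet_ball fun x hx => by rw [hsumg n x hx]
    · exact integrable_finsetSum _ fun j _ => hint2 n j
    · exact ae_of_all _ fun x => Finset.sum_nonneg fun j _ => by positivity
  simp only [hl]
  have h0 := (ENNReal.continuous_ofReal.tendsto 0).comp hlim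
  rw [ENNReal.ofReal_zero] at h0
  exact h0

theorem glue3 (h : ℂ → ℂ → ℝ) (u : ℕ → ℂ → ℂ → ℝ) (hu : Sq F h u) (v : ℂ → ℂ → ℝ)
    (hv : ∀ U Y, IsBranch F U Y → ContDiffOn ℝ 2 (fun x => v x (Y x)) U)
    (hv2 : ∀ x0 y0, OnX F x0 y0 → ∃ r : ℝ, 0 < r ∧ ∃ Y : ℂ → ℂ, IsBranch F (ball x0 r) Y ∧
      Y x0 = y0 ∧ IntegrableOn (fun x => ‖dz (fun x => v x (Y x)) x‖ ^ 2) (ball x0 r) ∧
      Tendsto (fun n => ∫ x in ball x0 r,
        ‖dz (fun x => u n x (Y x)) x - dz (fun x => v x (Y x)) x‖ ^ 2) atTop (𝓝 0)) :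
    Integrable (fun x => ∑ y ∈ fib F x, ‖D F v x y‖ ^ 2) := by
  classical
  have hsm : ∀ w : ℂ → ℂ → ℝ, (∀ U Y, IsBranch F U Y → ContDiffOn ℝ 2 (fun x => w x (Y x)) U) →
      AEStronglyMeasurable (fun x => ∑ y ∈ fib F x, ‖D F w x y‖ ^ 2) volume := by
    intro w hw
    refine meas_sum F hF b hb (fun x y => ‖D F w x y‖ ^ 2) fun U Y hY => ?_
    exact (D_cont F hF w (fun U Y hUY => (hw U Y hUY).of_le (by norm_num)) U Y hY).norm.pow 2
  have hae : ∀ᵐ x ∂(volume : Measure ℂ), (at_ F x).Separable := by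
    have h3 : (volume : Measure ℂ) {x : ℂ | ¬ (at_ F x).Separable} = 0 :=
      (bad_finite F hF b hb).measure_zero _
    exact ae_iff.2 h3
  have hsub : ∀ m n : ℕ, ∀ U Y, IsBranch F U Y →
      ContDiffOn ℝ 2 (fun x => (u m - u n) x (Y x)) U := by
    intro m n U Y hY
    exact ((hu.fn m).smooth U Y hY).sub ((hu.fn n).smooth U Y hY)
  obtain ⟨N, hN⟩ := hu.cauchy 1 one_pos
  -- integrability of the energy densities of the differences
  have hdi : ∀ m, Integrable (fun x => ∑ y ∈ fib F x, ‖D F (u m - u N) x y‖ ^ 2) := by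
    intro m
    refine Integrable.mono' (((hu.fn m).energy.const_mul 2).add ((hu.fn N).energy.const_mul 2))
      (hsm _ (hsub m N)) ?_
    filter_upwards [hae] with x hx
    rw [Real.norm_of_nonneg (Finset.sum_nonneg fun y _ => by positivity)]
    simp only [Pi.add_apply]
    rw [Finset.mul_sum, Finset.mul_sum, ← Finset.sum_add_distrib]
    refine Finset.sum_le_sum fun y hy => ?_
    rw [glue3_Dsub F hF _ _ (hu.fn m).smooth (hu.fn N).smooth x y hx hy]
    exact glue3_norm2 _ _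
  set C : ENNReal := 3 * ENNReal.ofReal (En F (u N)) + 3 * ENNReal.ofReal 1 with hC
  have hCt : C < ⊤ := by
    rw [hC]
    exact ENNReal.add_lt_top.2 ⟨ENNReal.mul_lt_top (by norm_num) ENNReal.ofReal_lt_top,
      ENNReal.mul_lt_top (by norm_num) ENNReal.ofReal_lt_top⟩
  -- the pointwise inequality, integrated
  have hA : ∀ A : Set ℂ, ∀ m ≥ N, ∫⁻ x in A, ENNReal.ofReal (∑ y ∈ fib F x, ‖D F v x y‖ ^ 2) ≤
      C + 3 * ∫⁻ x in A,
        ENNReal.ofReal (∑ y ∈ fib F x, ‖D F (u m) x y - D F v x y‖ ^ 2) := by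
    intro A m hm
    have hpt : ∀ᵐ x ∂(volume.restrict A), ENNReal.ofReal (∑ y ∈ fib F x, ‖D F v x y‖ ^ 2) ≤
        3 * ENNReal.ofReal (∑ y ∈ fib F x, ‖D F (u N) x y‖ ^ 2) +
        3 * ENNReal.ofReal (∑ y ∈ fib F x, ‖D F (u m - u N) x y‖ ^ 2) +
        3 * ENNReal.ofReal (∑ y ∈ fib F x, ‖D F (u m) x y - D F v x y‖ ^ 2) := by
      filter_upwards [ae_restrict_of_ae hae] with x hx
      have n1 : 0 ≤ ∑ y ∈ fib F x, ‖D F (u N) x y‖ ^ 2 := Finset.sum_nonneg fun y _ => by positivity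
      have n2 : 0 ≤ ∑ y ∈ fib F x, ‖D F (u m - u N) x y‖ ^ 2 :=
        Finset.sum_nonneg fun y _ => by positivity
      have n3 : 0 ≤ ∑ y ∈ fib F x, ‖D F (u m) x y - D F v x y‖ ^ 2 :=
        Finset.sum_nonneg fun y _ => by positivity
      have e3 : (3 : ENNReal) = ENNReal.ofReal 3 := by norm_num
      rw [e3, ← ENNReal.ofReal_mul (by norm_num), ← ENNReal.ofReal_mul (by norm_num),
        ← ENNReal.ofReal_mul (by norm_num), ← ENNReal.ofReal_add (by positivity) (by positivity),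
        ← ENNReal.ofReal_add (by positivity) (by positivity)]
      refine ENNReal.ofReal_le_ofReal ?_
      rw [Finset.mul_sum, Finset.mul_sum, Finset.mul_sum, ← Finset.sum_add_distrib,
        ← Finset.sum_add_distrib]
      refine Finset.sum_le_sum fun y hy => glue3_norm ?_
      rw [glue3_Dsub F hF _ _ (hu.fn m).smooth (hu.fn N).smooth x y hx hy]
      ring
    have m1 : AEMeasurable (fun x => 3 * ENNReal.ofReal (∑ y ∈ fib F x, ‖D F (u N) x y‖ ^ 2))
        (volume.restrict A) :=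
      (((hsm _ (hu.fn N).smooth).aemeasurable.ennreal_ofReal).const_mul 3).restrict
    have m2 : AEMeasurable
        (fun x => 3 * ENNReal.ofReal (∑ y ∈ fib F x, ‖D F (u m - u N) x y‖ ^ 2))
        (volume.restrict A) :=
      (((hsm _ (hsub m N)).aemeasurable.ennreal_ofReal).const_mul 3).restrict
    have m12 : AEMeasurable (fun x => 3 * ENNReal.ofReal (∑ y ∈ fib F x, ‖D F (u N) x y‖ ^ 2) +
        3 * ENNReal.ofReal (∑ y ∈ fib F x, ‖D F (u m - u N) x y‖ ^ 2)) (volume.restrict A) :=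
      m1.add m2
    refine (lintegral_mono_ae hpt).trans ?_
    rw [lintegral_add_left' m12, lintegral_add_left' m1,
      lintegral_const_mul' _ _ (by norm_num), lintegral_const_mul' _ _ (by norm_num),
      lintegral_const_mul' _ _ (by norm_num)]
    have b1 : ∫⁻ x in A, ENNReal.ofReal (∑ y ∈ fib F x, ‖D F (u N) x y‖ ^ 2) ≤
        ENNReal.ofReal (En F (u N)) := by
      refine (setLIntegral_le_lintegral _ _).trans ?_
      rw [En, ofReal_integral_eq_lintegral_ofReal (hu.fn N).energy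
        (ae_of_all _ fun x => Finset.sum_nonneg fun y _ => by positivity)]
    have b2 : ∫⁻ x in A, ENNReal.ofReal (∑ y ∈ fib F x, ‖D F (u m - u N) x y‖ ^ 2) ≤
        ENNReal.ofReal 1 := by
      refine (setLIntegral_le_lintegral _ _).trans ?_
      refine le_trans ?_ (ENNReal.ofReal_le_ofReal (hN m hm N le_rfl))
      rw [En, ofReal_integral_eq_lintegral_ofReal (hdi m)
        (ae_of_all _ fun x => Finset.sum_nonneg fun y _ => by positivity)]
    rw [hC]
    gcongr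
  -- the covering
  choose! ρ hρ hρt using glue3_local F hF b hb h u hu v hv2 hv
  obtain ⟨t, hts, htc, hcov⟩ := TopologicalSpace.countable_cover_nhdsWithin
    (s := {x : ℂ | (at_ F x).Separable}) (f := fun x => ball x (ρ x))
    (fun x hx => mem_nhdsWithin_of_mem_nhds (ball_mem_nhds x (hρ x hx)))
  have htn : t.Nonempty := by
    by_contra hne
    rw [Set.not_nonempty_iff_eq_empty] at hne
    have := hcov (show b ∈ {x : ℂ | (at_ F x).Separable} from hb)
    simp [hne] at this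
  obtain ⟨f, hf⟩ := htc.exists_eq_range htn
  have hfs : ∀ k, (at_ F (f k)).Separable := fun k => hts (hf ▸ Set.mem_range_self k)
  set A : ℕ → Set ℂ := fun n => ⋃ k : Fin n, ball (f k) (ρ (f k)) with hAdef
  have hAm : Monotone A := by
    intro m n hmn
    refine Set.iUnion_subset fun k => ?_
    exact Set.subset_iUnion (fun k : Fin n => ball (f k) (ρ (f k))) ⟨k, lt_of_lt_of_le k.2 hmn⟩
  have hAu : {x : ℂ | (at_ F x).Separable} ⊆ ⋃ n, A n := by
    intro x hx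
    have h1 := hcov hx
    simp only [Set.mem_iUnion] at h1
    obtain ⟨z, hz, hxz⟩ := h1
    rw [hf] at hz
    obtain ⟨k, rfl⟩ := hz
    refine Set.mem_iUnion.2 ⟨k + 1, Set.mem_iUnion.2 ⟨⟨k, Nat.lt_succ_self k⟩, hxz⟩⟩
  have hbound : ∀ n, ∫⁻ x in A n, ENNReal.ofReal (∑ y ∈ fib F x, ‖D F v x y‖ ^ 2) ≤ C := by
    intro n
    have hle : ∀ m ≥ N, ∫⁻ x in A n, ENNReal.ofReal (∑ y ∈ fib F x, ‖D F v x y‖ ^ 2) ≤
        C + 3 * ∑ k : Fin n, ∫⁻ x in ball (f k) (ρ (f k)),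
          ENNReal.ofReal (∑ y ∈ fib F x, ‖D F (u m) x y - D F v x y‖ ^ 2) := by
      intro m hm
      refine (hA (A n) m hm).trans ?_
      gcongr
      have := lintegral_iUnion_le (μ := (volume : Measure ℂ))
        (fun k : Fin n => ball (f k) (ρ (f k)))
        (fun x => ENNReal.ofReal (∑ y ∈ fib F x, ‖D F (u m) x y - D F v x y‖ ^ 2))
      rwa [tsum_fintype] at this
    have hlim : Tendsto (fun m => C + 3 * ∑ k : Fin n, ∫⁻ x in ball (f k) (ρ (f k)),
          ENNReal.ofReal (∑ y ∈ fib F x, ‖D F (u m) x y - D F v x y‖ ^ 2)) atTop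
          (𝓝 (C + 3 * ∑ _k : Fin n, (0 : ENNReal))) := by
      refine tendsto_const_nhds.add ?_
      refine ENNReal.Tendsto.const_mul ?_ (Or.inr (by norm_num))
      exact tendsto_finsetSum _ fun k _ => hρt (f k) (hfs k)
    have := ge_of_tendsto hlim (eventually_atTop.2 ⟨N, hle⟩)
    simpa using this
  have htot : ∫⁻ x, ENNReal.ofReal (∑ y ∈ fib F x, ‖D F v x y‖ ^ 2) ≤ C := by
    have h1 : (volume : Measure ℂ).restrict (⋃ n, A n) = volume := by
      refine Measure.restrict_eq_self_of_ae_mem ?_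
      filter_upwards [hae] with x hx
      exact hAu hx
    rw [← h1, setLIntegral_iUnion_of_directed _ (hAm.directed_le)]
    exact iSup_le hbound
  refine ⟨hsm v hv, ?_⟩
  rw [hasFiniteIntegral_iff_ofReal
    (ae_of_all _ fun x => Finset.sum_nonneg fun y _ => by positivity)]
  exact htot.trans_lt hCt

end EGR
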