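import Pool.Agent.EGR.Sum

/-!
The gradient of the sum of the squares: `q = ∑ a_j^2`, `∇q = 2 ∑ a_j ∇a_j`,
`|∇q|^2 ≤ 4 (∑ a_j^2) (∑ |∇a_j|^2)` and `|∇a|^2 = ‖fderiv a‖^2 = 4 ‖dz a‖^2`.
-/

open Polynomial MeasureTheory Metric ComplexConjugate Filter Topology

namespace EGR

open ALC

private theorem grad_clm (L : ℂ →L[ℝ] ℝ) :
    ‖L‖ = ‖((L 1 : ℝ) : ℂ) - Complex.I * ((L Complex.I : ℝ) : ℂ)‖ := by
  set w : ℂ := ((L 1 : ℝ) : ℂ) - Complex.I * ((L Complex.I : ℝ) : ℂ) with hw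
  have hLz : ∀ z : ℂ, L z = (w * z).re := by
    intro z
    have h1 : z = z.re • (1 : ℂ) + z.im • Complex.I := by
      apply Complex.ext <;> simp
    have h2 : L z = z.re * L 1 + z.im * L Complex.I := by
      conv_lhs => rw [h1]
      rw [map_add, map_smul, map_smul, smul_eq_mul, smul_eq_mul]
    rw [h2, hw]
    simp [Complex.mul_re]
    ring
  apply le_antisymm
  · refine L.opNorm_le_bound (norm_nonneg _) fun z => ?_
    rw [hLz z, Real.norm_eq_abs, ← norm_mul]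
    exact Complex.abs_re_le_norm _
  · have h3 := L.le_opNorm (conj w)
    have h4 : L (conj w) = ‖w‖ ^ 2 := by
      rw [hLz, Complex.mul_conj, Complex.normSq_eq_norm_sq]
      exact Complex.ofReal_re _
    rw [h4, RCLike.norm_conj, Real.norm_of_nonneg (sq_nonneg _), sq] at h3
    rcases eq_or_lt_of_le (norm_nonneg w) with h0 | h0
    · rw [← h0]
      exact norm_nonneg _
    · exact le_of_mul_le_mul_right h3 h0

theorem norm_fderiv_dz (a : ℂ → ℝ) (x : ℂ) : ‖fderiv ℝ a x‖ = 2 * ‖dz a x‖ := by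
  rw [grad_clm, dz, norm_div, Complex.norm_ofNat]
  ring

theorem grad_sq (F : ℂ[X][X]) (hF : F.Monic) (u : ℂ → ℂ → ℝ)
    (hu : ∀ U Y, IsBranch F U Y → ContDiffOn ℝ 1 (fun x => u x (Y x)) U) (m : ℝ) (x : ℂ)
    (hx : (at_ F x).Separable) :
    ‖fderiv ℝ (fun x => ∑ y ∈ fib F x, (u x y - m) ^ 2) x‖ ^ 2 ≤
      16 * ((∑ y ∈ fib F x, (u x y - m) ^ 2) * ∑ y ∈ fib F x, ‖D F u x y‖ ^ 2) := by
  obtain ⟨r, hr, Y, hY, -, -, hsum⟩ := local_sum F hF x hx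
  have hb : ball x r ∈ 𝓝 x := ball_mem_nhds x hr
  have hm : x ∈ ball x r := mem_ball_self hr
  have h2 : (fun x => ∑ y ∈ fib F x, (u x y - m) ^ 2) =ᶠ[𝓝 x]
      fun x => ∑ j, (u x (Y j x) - m) ^ 2 := by
    filter_upwards [hb] with z hz
    exact hsum ℝ (fun x y => (u x y - m) ^ 2) z hz
  have hd : ∀ j, DifferentiableAt ℝ (fun z => u z (Y j z)) x := fun j =>
    ((hu _ _ (hY j)).contDiffAt hb).differentiableAt one_ne_zero
  have h3 : HasFDerivAt (fun x => ∑ j, (u x (Y j x) - m) ^ 2)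
      (∑ j, (2 * (u x (Y j x) - m)) • fderiv ℝ (fun z => u z (Y j z)) x) x := by
    refine HasFDerivAt.fun_sum fun j _ => ?_
    have h4 := (((hd j).hasFDerivAt).sub_const m).pow 2
    have h5 : (2 • (u x (Y j x) - m) ^ (2 - 1)) = 2 * (u x (Y j x) - m) := by
      rw [nsmul_eq_mul]
      norm_num
    rwa [h5] at h4
  rw [h2.fderiv_eq, h3.fderiv, hsum ℝ (fun x y => (u x y - m) ^ 2) x hm,
    hsum ℝ (fun x y => ‖D F u x y‖ ^ 2) x hm]
  have h5 : ‖∑ j, (2 * (u x (Y j x) - m)) • fderiv ℝ (fun z => u z (Y j z)) x‖ ≤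
      ∑ j, |u x (Y j x) - m| * (4 * ‖D F u x (Y j x)‖) := by
    refine (norm_sum_le _ _).trans (Finset.sum_le_sum fun j _ => ?_)
    rw [norm_smul, norm_fderiv_dz, D_eq F hF (hY j) hm u, Real.norm_eq_abs, abs_mul, abs_two]
    exact le_of_eq (by ring)
  have h6 : (∑ j, |u x (Y j x) - m| * (4 * ‖D F u x (Y j x)‖)) ^ 2 ≤
      (∑ j, |u x (Y j x) - m| ^ 2) * ∑ j, (4 * ‖D F u x (Y j x)‖) ^ 2 :=
    Finset.sum_mul_sq_le_sq_mul_sq _ _ _
  calc _ ≤ (∑ j, |u x (Y j x) - m| * (4 * ‖D F u x (Y j x)‖)) ^ 2 :=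
        pow_le_pow_left₀ (norm_nonneg _) h5 2
    _ ≤ _ := h6
    _ = _ := by
        simp only [sq_abs, mul_pow, ← Finset.mul_sum]
        ring

end EGR
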