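import Pool.Agent.EGR.Sum
import Pool.Agent.ALC.Sec
import Pool.Agent.ALC.Irr
import Pool.Agent.SzPl.Unr

/-!
Branches over discs free of bad points.

PROOF. `ALC.arch_section` with `K = ℂ`, `σ = id`, `A` = the (finite) set of bad points,
`θ i = y^i` (power basis of `FF F`; its discriminant is the discriminant of `F`, a nonzero
polynomial in `x` whose roots are the bad points, see `ALC.bad_finite` and the lemma before it).
`GeomIrred F` over `ℂ` follows from `Irreducible F` (`ℂ` is algebraically closed,
`algebraMap ℂ (AlgebraicClosure ℂ)` is bijective). For `branch_disc'`: the branches through the `d`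
points over `c` are different at every point of the disc (`branch_eq`), so one of them passes
through `(x1, y1)`.
-/

open Polynomial MeasureTheory Metric ComplexConjugate Filter Topology

namespace EGR

open ALC

private theorem unr_discr_eval (F : ℂ[X][X]) (hF : F.Monic) (x : ℂ) :
    F.discr.eval x = (at_ F x).discr := by
  have h := SzBF.discr_map_of_ne (f := F) (evalRingHom x)
    (by rw [hF.leadingCoeff, map_one]; exact one_ne_zero)
  rw [at_, h]
  rfl

private theorem unr_discr_ne {K : Type*} [Field K] [CharZero K] {f : K[X]}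
    (hf : 1 ≤ f.natDegree) (hs : f.Separable) : f.discr ≠ 0 := by
  intro h0
  have h1 := resultant_deriv (f := f) (natDegree_pos_iff_degree_pos.mp (by omega))
  have h2 : f.derivative.natDegree = f.natDegree - 1 := by
    apply natDegree_eq_of_le_of_coeff_ne_zero (natDegree_derivative_le f)
    rw [coeff_derivative]
    have h3 : f.natDegree - 1 + 1 = f.natDegree := by omega
    rw [h3]
    have h4 : f.coeff f.natDegree ≠ 0 := by
      rw [coeff_natDegree]
      apply leadingCoeff_ne_zero.2
      rintro rfl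
      simp at hf
    exact mul_ne_zero h4 (by exact_mod_cast Nat.succ_ne_zero (f.natDegree - 1))
  rw [h0, mul_zero, ← h2] at h1
  exact (resultant_eq_zero_iff.1 h1).2 hs

private theorem unr_card (F : ℂ[X][X]) (hF : F.Monic) (x : ℂ) (hs : (at_ F x).Separable) :
    (fib F x).card = F.natDegree := by
  obtain ⟨r, hr, Y, -, -, -, hsum⟩ := local_sum F hF x hs
  have h := hsum ℕ (fun _ _ => 1) x (mem_ball_self hr)
  simpa using h

theorem branch_disc (F : ℂ[X][X]) (hF : F.Monic) (hirr : Irreducible F) (c : ℂ) (r : ℝ)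
    (hr : 0 < r) (hs : ∀ x ∈ ball c r, (at_ F x).Separable) (y : ℂ) (hy : (at_ F c).eval y = 0) :
    ∃ Y, IsBranch F (ball c r) Y ∧ Y c = y := by
  classical
  have h1 : 1 ≤ F.natDegree := by
    by_contra hcon
    have h0 : F.natDegree = 0 := by omega
    have : F = 1 := hF.natDegree_eq_zero.1 h0
    exact hirr.not_isUnit (this ▸ isUnit_one)
  have hg : GeomIrred F := by
    let E : ℂ ≃+* AlgebraicClosure ℂ := RingEquiv.ofBijective (algebraMap ℂ (AlgebraicClosure ℂ))
      (IsAlgClosed.algebraMap_bijective_of_isIntegral)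
    have key : bc (algebraMap ℂ (AlgebraicClosure ℂ)) F =
        Polynomial.mapEquiv (Polynomial.mapEquiv E) F := by
      rw [Polynomial.mapEquiv_apply, bc]
      congr 1
    unfold GeomIrred
    rw [key]
    exact (MulEquiv.irreducible_iff (Polynomial.mapEquiv (Polynomial.mapEquiv E))).2 hirr
  have hev : ∀ x, (at_ F x).Separable → F.discr.eval x ≠ 0 := by
    intro x hx
    rw [unr_discr_eval F hF x]
    refine unr_discr_ne ?_ hx
    rw [at_, hF.natDegree_map]
    exact h1
  have h0 : F.discr ≠ 0 := by
    intro h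
    exact hev c (hs c (mem_ball_self hr)) (by rw [h, eval_zero])
  have hun : UnramifiedOutside F F.discr.roots.toFinset :=
    SzPl.unramified F hF h1 hirr (IsAlgClosed.splits _) h0 _ fun a ha => by
      rw [Multiset.mem_toFinset, mem_roots h0]
      exact ha
  obtain ⟨f, hf1, hf2, hf3⟩ := arch_section F hF hg _ hun c y (hs c (mem_ball_self hr)) hy
    (RingHom.id ℂ) r hr (by
      intro a ha
      rw [Multiset.mem_toFinset, mem_roots h0] at ha
      by_contra hcon
      refine hev a (hs a ?_) ha
      rw [mem_ball, dist_comm, dist_eq_norm]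
      simpa using hcon)
  have hbc : bc (RingHom.id ℂ) F = F := by
    rw [bc, Polynomial.mapRingHom_id, Polynomial.map_id]
  rw [hbc] at hf3
  exact ⟨f, ⟨isOpen_ball, hf1, fun x hx => ⟨hs x hx, hf3 x hx⟩⟩, hf2⟩

theorem branch_disc' (F : ℂ[X][X]) (hF : F.Monic) (hirr : Irreducible F) (c : ℂ) (r : ℝ)
    (hr : 0 < r) (hs : ∀ x ∈ ball c r, (at_ F x).Separable) (x1 y1 : ℂ) (hx1 : x1 ∈ ball c r)
    (hy : (at_ F x1).eval y1 = 0) :
    ∃ Y, IsBranch F (ball c r) Y ∧ Y x1 = y1 := by
  classical
  choose! Y hY1 hY2 using fun (y : ℂ) (hy : (at_ F c).eval y = 0) =>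
    branch_disc F hF hirr c r hr hs y hy
  have hc : c ∈ ball c r := mem_ball_self hr
  have hinj : Set.InjOn (fun y => Y y x1) (fib F c : Set ℂ) := by
    intro y hy y' hy' h
    have e1 := (mem_fib F hF c y).1 hy
    have e2 := (mem_fib F hF c y').1 hy'
    have := branch_eq F hF (ball c r) (convex_ball c r).isPreconnected _ _ (hY1 y e1) (hY1 y' e2) x1
      hx1 h c hc
    rw [hY2 y e1, hY2 y' e2] at this
    exact this
  have himg : (fib F c).image (fun y => Y y x1) = fib F x1 := by
    refine Finset.eq_of_subset_of_card_le ?_ ?_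
    · intro z hz
      obtain ⟨y, hy, rfl⟩ := Finset.mem_image.1 hz
      exact (mem_fib F hF x1 _).2 ((hY1 y ((mem_fib F hF c y).1 hy)).2.2 x1 hx1).2
    · rw [Finset.card_image_of_injOn hinj, unr_card F hF c (hs c hc), unr_card F hF x1 (hs x1 hx1)]
  have hm : y1 ∈ fib F x1 := (mem_fib F hF x1 y1).2 hy
  rw [← himg] at hm
  obtain ⟨y, hy, h⟩ := Finset.mem_image.1 hm
  exact ⟨Y y, hY1 y ((mem_fib F hF c y).1 hy), h⟩

end EGR
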