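import Pool.Agent.EGR.Osc
import Pool.Agent.EGR.Unr
import Pool.Agent.EGR.Mean

/-!
Growth of a solution with finite energy near a bad point and near infinity: `o(log)`.

PROOF of `growA`. Let `R` be small: `ball a (2R)` contains no bad point except `a`, and
`H x ≤ C |x - a|^(τ-2)` there. For `0 < |x - a| < R / 2` let `x' = a + (5/4)(x - a)`,
`ρ = (3/4) |x' - a|`; `ball x' ρ` is free of bad points, `x ∈ ball x' (ρ/2)`
(`|x - x'| = (1/5) |x' - a|`), on it `|Δ(v ∘ Y)| ≤ 2 π C 4^(2-τ) |x' - a|^(τ-2)` (`|z - a| ≥ |x' - a|/4`).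
By `branch_disc'` there is a branch `Y` on `ball x' ρ` through `(x, y)`, and by `osc`, `En_disc`,
`|v x y - v x' (Y x')| ≤ K (sqrt(E(2|x' - a|)) + C' |x' - a|^τ)`, `E(s) = ∫_{ball a s} ∑ ‖D v‖^2 → 0`
as `s → 0`. Given `ε` choose `ρ0` so that the right hand side is `≤ ε log(5/4)` for `|x'-a| < ρ0`. By
induction on `n`: `|v x y| ≤ M + n ε log(5/4)` if `(4/5)^n ρ1 ≤ |x - a| ≤ ρ1`, `M` = maximum of `|v|`
over the compact set of points of the curve over the annulus `(4/5) ρ1 ≤ |x - a| ≤ ρ1`.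
`growB` is analogous with `x' = (4/5) x`, discs `ball x' ((3/4)|x'|)`,
`|Δ(v ∘ Y)| ≤ C |x'|^(-τ-2)`, `E(s) = ∫_{|x| ≥ s}`.
-/

open Polynomial MeasureTheory Metric ComplexConjugate Filter Topology

namespace EGR

open ALC

/-- `v` is a solution of `Δ v = 2 π h` on the curve with finite energy. -/
structure IsSol (F : ℂ[X][X]) (h : ℂ → ℂ → ℝ) (v : ℂ → ℂ → ℝ) : Prop where
  smooth : ∀ U Y, IsBranch F U Y → ContDiffOn ℝ 2 (fun x => v x (Y x)) U
  lap : ∀ U Y, IsBranch F U Y → ∀ x ∈ U,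
    Laplacian.laplacian (fun x => v x (Y x)) x = 2 * Real.pi * h x (Y x)
  energy : Integrable (fun x => ∑ y ∈ fib F x, ‖D F v x y‖ ^ 2)

variable (F : ℂ[X][X]) (hF : F.Monic) (b : ℂ) (hb : (at_ F b).Separable)

include hF hb

/-- a function which is continuous along the branches is bounded over compact sets -/
theorem bdd_cpt (v : ℂ → ℂ → ℝ)
    (hv : ∀ U Y, IsBranch F U Y → ContinuousOn (fun x => v x (Y x)) U) (K : Set ℂ)
    (hK : IsCompact K) (hKs : ∀ x ∈ K, (at_ F x).Separable) :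
    ∃ M : ℝ, ∀ x ∈ K, ∀ y ∈ fib F x, |v x y| ≤ M := by
  have h1 : ContinuousOn (fun x => ∑ y ∈ fib F x, |v x y|) K :=
    (contOn_sum F hF (fun x y => |v x y|) fun U Y h => (hv U Y h).abs).mono hKs
  obtain ⟨M, hM⟩ := hK.exists_bound_of_continuousOn h1
  refine ⟨M, fun x hx y hy => ?_⟩
  have h2 := hM x hx
  rw [Real.norm_eq_abs] at h2
  have h3 : |v x y| ≤ ∑ y ∈ fib F x, |v x y| :=
    Finset.single_le_sum (f := fun y => |v x y|) (fun _ _ => abs_nonneg _) hy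
  exact h3.trans ((le_abs_self _).trans h2)

private theorem gr_step (hirr : Irreducible F) (h : ℂ → ℂ → ℝ) (H : ℂ → ℝ)
    (hh : ∀ x y, OnX F x y → |h x y| ≤ H x) (v : ℂ → ℂ → ℝ) (hv : IsSol F h v) :
    ∃ K : ℝ, 0 < K ∧ ∀ (c : ℂ) (r M : ℝ), 0 < r → (∀ x ∈ ball c r, (at_ F x).Separable) →
      (∀ x ∈ ball c r, H x ≤ M) → ∀ x ∈ ball c (r / 2), ∀ y, (at_ F x).eval y = 0 →
      ∃ y', (at_ F c).eval y' = 0 ∧
        |v x y - v c y'| ≤ K * (Real.sqrt (∫ z in ball c r, ∑ y ∈ fib F z, ‖D F v z y‖ ^ 2) +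
          2 * Real.pi * M * r ^ 2) := by
  obtain ⟨K, hK, hO⟩ := osc
  refine ⟨K, hK, ?_⟩
  intro c r M hr hs hM x hx y hy
  have hxr : x ∈ ball c r := ball_subset_ball (by linarith) hx
  obtain ⟨Y, hY, hYx⟩ := branch_disc' F hF hirr c r hr hs x y hxr hy
  have hu : ∀ U Y, IsBranch F U Y → ContDiffOn ℝ 1 (fun x => v x (Y x)) U :=
    fun U Y h => (hv.smooth U Y h).of_le (by norm_num)
  obtain ⟨h1, h2⟩ := En_disc F hF b hb c r (ball c r) Y hY subset_rfl v hu hv.energy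
  have h3 := hO c r (2 * Real.pi * M) (fun x => v x (Y x)) hr (hv.smooth _ _ hY) h1 ?_ x hx c
    (mem_ball_self (by linarith))
  · refine ⟨Y c, (hY.2.2 c (mem_ball_self hr)).2, ?_⟩
    rw [← hYx]
    refine h3.trans ?_
    have h4 := Real.sqrt_le_sqrt h2
    have h5 := mul_le_mul_of_nonneg_left h4 hK.le
    rw [mul_add, mul_add]
    linarith
  · intro z hz
    rw [hv.lap _ _ hY z hz, abs_mul, abs_of_pos (by positivity)]
    have h4 := (hh z (Y z) ⟨hs z hz, (hY.2.2 z hz).2⟩).trans (hM z hz)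
    exact mul_le_mul_of_nonneg_left h4 (by positivity)

omit hF hb in
private theorem gr_energy0 (f : ℂ → ℝ) (hf : Integrable f) (a : ℂ) :
    Tendsto (fun s : ℝ => ∫ z in ball a (2 * s), f z) (𝓝[>] 0) (𝓝 0) := by
  refine hf.tendsto_setIntegral_nhds_zero ?_
  have h1 : ∀ s : ℝ, (volume ∘ fun s : ℝ => ball a (2 * s)) s =
      ENNReal.ofReal (2 * s) ^ 2 * NNReal.pi := by
    intro s
    simp [Complex.volume_ball]
  have h2 : Tendsto (fun s : ℝ => ENNReal.ofReal (2 * s) ^ 2 * NNReal.pi) (𝓝[>] 0)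
      (𝓝 (ENNReal.ofReal (2 * 0) ^ 2 * NNReal.pi)) := by
    have h3 : Continuous (fun s : ℝ => ENNReal.ofReal (2 * s) ^ 2 * (NNReal.pi : ENNReal)) := by
      refine (ENNReal.continuous_mul_const ENNReal.coe_ne_top).comp ?_
      refine (ENNReal.continuous_pow 2).comp ?_
      exact ENNReal.continuous_ofReal.comp (by fun_prop)
    exact (h3.tendsto 0).mono_left nhdsWithin_le_nhds
  have h4 : (ENNReal.ofReal (2 * 0) ^ 2 * (NNReal.pi : ENNReal)) = 0 := by simp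
  rw [h4] at h2
  exact h2.congr fun s => (h1 s).symm

theorem growA (hirr : Irreducible F) (h : ℂ → ℂ → ℝ) (H : ℂ → ℝ) (hH : IsWt F H)
    (hh : ∀ x y, OnX F x y → |h x y| ≤ H x) (v : ℂ → ℂ → ℝ) (hv : IsSol F h v) (a : ℂ)
    (ha : ¬ (at_ F a).Separable) (ε : ℝ) (hε : 0 < ε) :
    ∃ C R : ℝ, 0 < R ∧ ∀ x y, OnX F x y → x ∈ ball a R → x ≠ a →
      |v x y| ≤ C - ε * Real.log ‖x - a‖ := by
  obtain ⟨K, hK, hstep⟩ := gr_step F hF b hb hirr h H hh v hv
  -- no bad points near `a`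
  obtain ⟨R1, hR1, hsep⟩ : ∃ R1 : ℝ, 0 < R1 ∧ ∀ z ∈ ball a R1, z ≠ a → (at_ F z).Separable := by
    have hfin : ({x : ℂ | ¬ (at_ F x).Separable} \ {a}).Finite :=
      (bad_finite F hF b hb).subset Set.sdiff_subset
    have h1 : a ∈ ({x : ℂ | ¬ (at_ F x).Separable} \ {a})ᶜ := by simp
    obtain ⟨R1, hR1, h2⟩ := Metric.isOpen_iff.1 hfin.isClosed.isOpen_compl a h1
    refine ⟨R1, hR1, fun z hz hza => ?_⟩
    by_contra hn
    exact h2 hz ⟨hn, hza⟩
  obtain ⟨C0, τ0, R2, hτ0, hR2, hH1⟩ := hH.near a ha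
  obtain ⟨τ, hτd⟩ : ∃ τ, τ = min τ0 1 := ⟨_, rfl⟩
  obtain ⟨R0, hR0d⟩ : ∃ R0, R0 = min (min R1 R2) 1 := ⟨_, rfl⟩
  have hτ : 0 < τ := by rw [hτd]; exact lt_min hτ0 one_pos
  have hτ1 : τ ≤ 1 := by rw [hτd]; exact min_le_right _ _
  have hττ : τ ≤ τ0 := by rw [hτd]; exact min_le_left _ _
  have hR0 : 0 < R0 := by rw [hR0d]; exact lt_min (lt_min hR1 hR2) one_pos
  have hR01 : R0 ≤ R1 := by rw [hR0d]; exact (min_le_left _ _).trans (min_le_left _ _)
  have hR02 : R0 ≤ R2 := by rw [hR0d]; exact (min_le_left _ _).trans (min_le_right _ _)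
  have hR03 : R0 ≤ 1 := by rw [hR0d]; exact min_le_right _ _
  have hH2 : ∀ z ∈ ball a R0, z ≠ a → H z ≤ |C0| * ‖z - a‖ ^ (τ - 2) := by
    intro z hz hza
    have h1 := hH1 z (ball_subset_ball hR02 hz) hza
    have h2 : 0 < ‖z - a‖ := norm_pos_iff.2 (sub_ne_zero.2 hza)
    have h3 : ‖z - a‖ ≤ 1 := by
      rw [mem_ball, dist_eq_norm] at hz
      linarith
    have h4 : ‖z - a‖ ^ (τ0 - 2) ≤ ‖z - a‖ ^ (τ - 2) :=
      Real.rpow_le_rpow_of_exponent_ge h2 h3 (by linarith)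
    have h5 : 0 < ‖z - a‖ ^ (τ0 - 2) := Real.rpow_pos_of_pos h2 _
    calc H z ≤ C0 * ‖z - a‖ ^ (τ0 - 2) := h1
      _ ≤ |C0| * ‖z - a‖ ^ (τ0 - 2) := mul_le_mul_of_nonneg_right (le_abs_self _) h5.le
      _ ≤ |C0| * ‖z - a‖ ^ (τ - 2) := mul_le_mul_of_nonneg_left h4 (abs_nonneg _)
  -- the error tends to zero
  have hlog : 0 < Real.log (5 / 4) := Real.log_pos (by norm_num)
  obtain ⟨f, hf⟩ : ∃ f : ℂ → ℝ, f = fun z => ∑ y ∈ fib F z, ‖D F v z y‖ ^ 2 := ⟨_, rfl⟩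
  have hfi : Integrable f := by rw [hf]; exact hv.energy
  have hf0 : ∀ z, 0 ≤ f z := by
    intro z
    rw [hf]
    exact Finset.sum_nonneg fun _ _ => by positivity
  have hlim : Tendsto (fun s : ℝ => K * (Real.sqrt (∫ z in ball a (2 * s), f z) +
      18 * Real.pi * |C0| * (s / 4) ^ τ)) (𝓝[>] 0) (𝓝 0) := by
    have h1 := (gr_energy0 f hfi a).sqrt
    have h2 : Tendsto (fun s : ℝ => (s / 4) ^ τ) (𝓝[>] 0) (𝓝 ((0 / 4) ^ τ)) := by
      have h3 : Continuous (fun s : ℝ => (s / 4) ^ τ) :=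
        (Real.continuous_rpow_const hτ.le).comp (by fun_prop)
      exact (h3.tendsto 0).mono_left nhdsWithin_le_nhds
    have h3 := (h1.add (h2.const_mul (18 * Real.pi * |C0|))).const_mul K
    have h4 : K * (Real.sqrt 0 + 18 * Real.pi * |C0| * (0 / 4 : ℝ) ^ τ) = 0 := by
      rw [zero_div, Real.zero_rpow hτ.ne', Real.sqrt_zero]
      ring
    rw [h4] at h3
    exact h3
  have hδ : 0 < ε * Real.log (5 / 4) := by positivity
  have hev := hlim.eventually (gt_mem_nhds hδ)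
  obtain ⟨ρ0, hρ0, hρ⟩ := (nhdsGT_basis (0 : ℝ)).eventually_iff.1 hev
  obtain ⟨ρ1, hρ1d⟩ : ∃ ρ1, ρ1 = min (ρ0 / 2) (R0 / 4) := ⟨_, rfl⟩
  have hρ1 : 0 < ρ1 := by rw [hρ1d]; exact lt_min (by linarith) (by linarith)
  have hρ10 : ρ1 ≤ ρ0 / 2 := by rw [hρ1d]; exact min_le_left _ _
  have hρ11 : ρ1 ≤ R0 / 4 := by rw [hρ1d]; exact min_le_right _ _
  -- one step
  have hst : ∀ x y, x ≠ a → ‖x - a‖ ≤ ρ1 → (at_ F x).eval y = 0 →
      ∃ y', (at_ F (a + (5 / 4 : ℝ) * (x - a))).eval y' = 0 ∧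
        |v x y - v (a + (5 / 4 : ℝ) * (x - a)) y'| ≤ ε * Real.log (5 / 4) := by
    intro x y hxa hx hy
    have hx0 : 0 < ‖x - a‖ := norm_pos_iff.2 (sub_ne_zero.2 hxa)
    obtain ⟨c, hc⟩ : ∃ c : ℂ, c = a + (5 / 4 : ℝ) * (x - a) := ⟨_, rfl⟩
    have hca : ‖c - a‖ = 5 / 4 * ‖x - a‖ := by
      rw [hc, add_sub_cancel_left, norm_mul, Complex.norm_real, Real.norm_of_nonneg (by norm_num)]
    have hxc : ‖x - c‖ = 1 / 4 * ‖x - a‖ := by
      have e : x - c = -(((1 / 4 : ℝ) : ℂ) * (x - a)) := by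
        rw [hc]; push_cast; ring
      rw [e, norm_neg, norm_mul, Complex.norm_real, Real.norm_of_nonneg (by norm_num)]
    obtain ⟨s, hs⟩ : ∃ s, s = ‖c - a‖ := ⟨_, rfl⟩
    have hs0 : 0 < s := by rw [hs, hca]; positivity
    have hsρ : s < ρ0 := by rw [hs, hca]; linarith
    have hball : ∀ z ∈ ball c (3 / 4 * s), s / 4 < ‖z - a‖ ∧ ‖z - a‖ < 2 * s := by
      intro z hz
      rw [mem_ball, dist_eq_norm] at hz
      have h1 : ‖c - a‖ ≤ ‖z - a‖ + ‖z - c‖ := by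
        have e : c - a = (z - a) - (z - c) := by ring
        rw [e]
        exact norm_sub_le _ _
      have h2 : ‖z - a‖ ≤ ‖z - c‖ + ‖c - a‖ := by
        have e : z - a = (z - c) + (c - a) := by ring
        rw [e]
        exact norm_add_le _ _
      rw [← hs] at h1 h2
      constructor <;> linarith
    have h2s : 2 * s < R0 := by rw [hs, hca]; linarith
    have hbR : ∀ z ∈ ball c (3 / 4 * s), z ∈ ball a R0 ∧ z ≠ a := by
      intro z hz
      obtain ⟨h1, h2⟩ := hball z hz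
      refine ⟨by rw [mem_ball, dist_eq_norm]; linarith, fun h3 => ?_⟩
      rw [h3, sub_self, norm_zero] at h1
      linarith
    obtain ⟨y', hy', h1⟩ := hstep c (3 / 4 * s) (|C0| * (s / 4) ^ (τ - 2)) (by positivity)
      (fun z hz => hsep z (ball_subset_ball hR01 (hbR z hz).1) (hbR z hz).2)
      (fun z hz => (hH2 z (hbR z hz).1 (hbR z hz).2).trans
        (mul_le_mul_of_nonneg_left (Real.rpow_le_rpow_of_nonpos (by positivity)
          (hball z hz).1.le (by linarith)) (abs_nonneg _)))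
      x (by rw [mem_ball, dist_eq_norm, hxc, hs, hca]; linarith) y hy
    rw [← hc]
    refine ⟨y', hy', h1.trans ?_⟩
    have h2 := (hρ ⟨hs0, hsρ⟩).le
    refine le_trans ?_ h2
    refine mul_le_mul_of_nonneg_left (add_le_add ?_ ?_) hK.le
    · refine Real.sqrt_le_sqrt ?_
      rw [← hf]
      have hsub : ball c (3 / 4 * s) ⊆ ball a (2 * s) := by
        intro z hz
        rw [mem_ball, dist_eq_norm]
        exact (hball z hz).2
      exact setIntegral_mono_set hfi.integrableOn (Eventually.of_forall hf0) hsub.eventuallyLE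
    · have h3 : (s / 4) ^ τ = (s / 4) ^ (τ - 2) * (s / 4) ^ 2 := by
        rw [← Real.rpow_natCast (s / 4) 2, ← Real.rpow_add (by positivity)]
        congr 1
        push_cast
        ring
      rw [h3]
      apply le_of_eq
      ring
  -- the annulus
  have hcpt : IsCompact (closedBall a ρ1 ∩ (ball a (4 / 5 * ρ1))ᶜ) :=
    (isCompact_closedBall a ρ1).inter_right isOpen_ball.isClosed_compl
  obtain ⟨M, hM⟩ := bdd_cpt F hF b hb v (fun U Y h => (hv.smooth U Y h).continuousOn) _ hcpt (by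
    rintro x ⟨hx1, hx2⟩
    refine hsep x ?_ ?_
    · rw [mem_closedBall] at hx1
      rw [mem_ball]
      linarith
    · rintro rfl
      exact hx2 (mem_ball_self (by positivity)))
  have hind : ∀ n : ℕ, ∀ x y, (4 / 5 : ℝ) ^ (n + 1) * ρ1 ≤ ‖x - a‖ → ‖x - a‖ ≤ ρ1 →
      (at_ F x).eval y = 0 → |v x y| ≤ M + ε * (Real.log ρ1 - Real.log ‖x - a‖) := by
    intro n
    induction n with
    | zero =>
      intro x y h1 h2 h3
      have h1' : 4 / 5 * ρ1 ≤ ‖x - a‖ := by simpa using h1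
      have hx0 : 0 < ‖x - a‖ := lt_of_lt_of_le (by positivity) h1'
      have h4 := hM x ⟨by rwa [mem_closedBall, dist_eq_norm], by
        rw [Set.mem_compl_iff, mem_ball, dist_eq_norm, not_lt]; exact h1'⟩ y
        ((mem_fib F hF x y).2 h3)
      have h5 := Real.log_le_log hx0 h2
      nlinarith
    | succ n ih =>
      intro x y h1 h2 h3
      have hx0 : 0 < ‖x - a‖ := lt_of_lt_of_le (by positivity) h1
      by_cases h4 : (4 / 5 : ℝ) ^ (n + 1) * ρ1 ≤ ‖x - a‖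
      · exact ih x y h4 h2 h3
      · rw [not_le] at h4
        have hxa : x ≠ a := fun h => by
          rw [h, sub_self, norm_zero] at hx0
          exact lt_irrefl _ hx0
        obtain ⟨y', hy', h5⟩ := hst x y hxa h2 h3
        obtain ⟨c, hc⟩ : ∃ c : ℂ, c = a + (5 / 4 : ℝ) * (x - a) := ⟨_, rfl⟩
        have hca : ‖c - a‖ = 5 / 4 * ‖x - a‖ := by
          rw [hc, add_sub_cancel_left, norm_mul, Complex.norm_real,
            Real.norm_of_nonneg (by norm_num)]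
        rw [← hc] at h5 hy'
        have h6 : (4 / 5 : ℝ) ^ (n + 1) ≤ 4 / 5 := by
          rw [pow_succ]
          have : (4 / 5 : ℝ) ^ n ≤ 1 := pow_le_one₀ (by norm_num) (by norm_num)
          linarith
        have h7 := ih c y' (by
          rw [hca]
          have e : (4 / 5 : ℝ) ^ (n + 1 + 1) * ρ1 = 4 / 5 * ((4 / 5 : ℝ) ^ (n + 1) * ρ1) := by ring
          rw [e] at h1
          linarith) (by
          rw [hca]
          have : (4 / 5 : ℝ) ^ (n + 1) * ρ1 ≤ 4 / 5 * ρ1 := mul_le_mul_of_nonneg_right h6 hρ1.le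
          linarith) hy'
        rw [hca, Real.log_mul (by norm_num) hx0.ne'] at h7
        have h8 : |v x y| ≤ |v x y - v c y'| + |v c y'| := by
          have := abs_add_le (v x y - v c y') (v c y')
          rwa [sub_add_cancel] at this
        nlinarith
  refine ⟨M + ε * Real.log ρ1, ρ1, hρ1, ?_⟩
  intro x y hxy hx hxa
  have hx0 : 0 < ‖x - a‖ := norm_pos_iff.2 (sub_ne_zero.2 hxa)
  obtain ⟨n, hn⟩ := exists_pow_lt_of_lt_one (show 0 < ‖x - a‖ / ρ1 by positivity)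
    (show (4 / 5 : ℝ) < 1 by norm_num)
  have h1 : (4 / 5 : ℝ) ^ (n + 1) * ρ1 ≤ ‖x - a‖ := by
    rw [lt_div_iff₀ hρ1] at hn
    have : (4 / 5 : ℝ) ^ (n + 1) ≤ (4 / 5 : ℝ) ^ n :=
      pow_le_pow_of_le_one (by norm_num) (by norm_num) (Nat.le_succ n)
    have := mul_le_mul_of_nonneg_right this hρ1.le
    linarith
  have h2 := hind n x y h1 (by rw [mem_ball, dist_eq_norm] at hx; exact hx.le) hxy.2
  linarith

theorem growB (hirr : Irreducible F) (h : ℂ → ℂ → ℝ) (H : ℂ → ℝ) (hH : IsWt F H)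
    (hh : ∀ x y, OnX F x y → |h x y| ≤ H x) (v : ℂ → ℂ → ℝ) (hv : IsSol F h v)
    (ε : ℝ) (hε : 0 < ε) :
    ∃ C R : ℝ, 0 < R ∧ ∀ x y, OnX F x y → R ≤ ‖x‖ → |v x y| ≤ C + ε * Real.log ‖x‖ := by
  obtain ⟨K, hK, hstep⟩ := gr_step F hF b hb hirr h H hh v hv
  -- no bad points near infinity
  obtain ⟨R1, hR1, hsep⟩ : ∃ R1 : ℝ, 0 < R1 ∧ ∀ z : ℂ, R1 ≤ ‖z‖ → (at_ F z).Separable := by
    obtain ⟨R1, h1⟩ := (bad_finite F hF b hb).isBounded.exists_norm_le
    refine ⟨|R1| + 1, by positivity, fun z hz => ?_⟩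
    by_contra hn
    have h2 := h1 z hn
    have := le_abs_self R1
    linarith
  obtain ⟨C0, τ, R2, hτ, hR2, hH1⟩ := hH.far
  obtain ⟨R0, hR0d⟩ : ∃ R0, R0 = max R1 R2 := ⟨_, rfl⟩
  have hR01 : R1 ≤ R0 := by rw [hR0d]; exact le_max_left _ _
  have hR02 : R2 ≤ R0 := by rw [hR0d]; exact le_max_right _ _
  have hR0 : 0 < R0 := lt_of_lt_of_le hR1 hR01
  have hH2 : ∀ z : ℂ, R0 ≤ ‖z‖ → H z ≤ |C0| * ‖z‖ ^ (-τ - 2) := by
    intro z hz
    have h1 := hH1 z (hR02.trans hz)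
    have h2 : 0 < ‖z‖ := lt_of_lt_of_le hR0 hz
    have h5 : 0 < ‖z‖ ^ (-τ - 2) := Real.rpow_pos_of_pos h2 _
    exact h1.trans (mul_le_mul_of_nonneg_right (le_abs_self _) h5.le)
  -- the error tends to zero
  have hlog : 0 < Real.log (5 / 4) := Real.log_pos (by norm_num)
  obtain ⟨f, hf⟩ : ∃ f : ℂ → ℝ, f = fun z => ∑ y ∈ fib F z, ‖D F v z y‖ ^ 2 := ⟨_, rfl⟩
  have hfi : Integrable f := by rw [hf]; exact hv.energy
  have hf0 : ∀ z, 0 ≤ f z := by
    intro z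
    rw [hf]
    exact Finset.sum_nonneg fun _ _ => by positivity
  have hlim : Tendsto (fun s : ℝ => K * (Real.sqrt (∫ z in {z : ℂ | s / 4 ≤ ‖z‖}, f z) +
      18 * Real.pi * |C0| * (s / 4) ^ (-τ))) atTop (𝓝 0) := by
    have h1 : Tendsto (fun s : ℝ => ∫ z in {z : ℂ | s / 4 ≤ ‖z‖}, f z) atTop (𝓝 0) := by
      have h2 := tendsto_setIntegral_of_antitone (μ := (volume : Measure ℂ)) (f := f)
        (s := fun s : ℝ => {z : ℂ | s / 4 ≤ ‖z‖})
        (fun s => measurableSet_le measurable_const measurable_norm)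
        (fun s t hst z hz => by
          have hz' : t / 4 ≤ ‖z‖ := hz
          show s / 4 ≤ ‖z‖
          linarith) ⟨0, hfi.integrableOn⟩
      have h3 : (⋂ s : ℝ, {z : ℂ | s / 4 ≤ ‖z‖}) = ∅ := by
        ext z
        simp only [Set.mem_iInter, Set.mem_empty_iff_false, iff_false, not_forall]
        refine ⟨4 * (‖z‖ + 1), fun hz => ?_⟩
        have hz' : 4 * (‖z‖ + 1) / 4 ≤ ‖z‖ := hz
        linarith
      rw [h3, setIntegral_empty] at h2
      exact h2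
    have h2 : Tendsto (fun s : ℝ => (s / 4) ^ (-τ)) atTop (𝓝 0) :=
      (tendsto_rpow_neg_atTop hτ).comp (tendsto_id.atTop_div_const (by norm_num))
    have h3 := (h1.sqrt.add (h2.const_mul (18 * Real.pi * |C0|))).const_mul K
    have h4 : K * (Real.sqrt 0 + 18 * Real.pi * |C0| * 0) = 0 := by
      rw [Real.sqrt_zero]
      ring
    rw [h4] at h3
    exact h3
  have hδ : 0 < ε * Real.log (5 / 4) := by positivity
  have hev := hlim.eventually (gt_mem_nhds hδ)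
  obtain ⟨ρ0, hρ⟩ := eventually_atTop.1 hev
  obtain ⟨ρ1, hρ1d⟩ : ∃ ρ1, ρ1 = max ρ0 (4 * R0) := ⟨_, rfl⟩
  have hρ10 : ρ0 ≤ ρ1 := by rw [hρ1d]; exact le_max_left _ _
  have hρ11 : 4 * R0 ≤ ρ1 := by rw [hρ1d]; exact le_max_right _ _
  have hρ1 : 0 < ρ1 := by linarith
  -- one step
  have hst : ∀ x y, ρ1 ≤ 4 / 5 * ‖x‖ → (at_ F x).eval y = 0 →
      ∃ y', (at_ F ((4 / 5 : ℝ) * x)).eval y' = 0 ∧
        |v x y - v ((4 / 5 : ℝ) * x) y'| ≤ ε * Real.log (5 / 4) := by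
    intro x y hx hy
    have hx0 : 0 < ‖x‖ := by linarith
    obtain ⟨c, hc⟩ : ∃ c : ℂ, c = (4 / 5 : ℝ) * x := ⟨_, rfl⟩
    have hca : ‖c‖ = 4 / 5 * ‖x‖ := by
      rw [hc, norm_mul, Complex.norm_real, Real.norm_of_nonneg (by norm_num)]
    have hxc : ‖x - c‖ = 1 / 5 * ‖x‖ := by
      have e : x - c = (((1 / 5 : ℝ) : ℂ) * x) := by
        rw [hc]; push_cast; ring
      rw [e, norm_mul, Complex.norm_real, Real.norm_of_nonneg (by norm_num)]
    obtain ⟨s, hs⟩ : ∃ s, s = ‖c‖ := ⟨_, rfl⟩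
    have hs0 : 0 < s := by rw [hs, hca]; positivity
    have hsρ : ρ1 ≤ s := by rw [hs, hca]; exact hx
    have hball : ∀ z ∈ ball c (3 / 4 * s), s / 4 < ‖z‖ := by
      intro z hz
      rw [mem_ball, dist_eq_norm] at hz
      have h1 : ‖c‖ ≤ ‖z‖ + ‖z - c‖ := by
        have e : c = z - (z - c) := by ring
        calc ‖c‖ = ‖z - (z - c)‖ := by rw [← e]
          _ ≤ _ := norm_sub_le _ _
      rw [← hs] at h1
      linarith
    have hbR : ∀ z ∈ ball c (3 / 4 * s), R0 ≤ ‖z‖ := by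
      intro z hz
      have := hball z hz
      linarith
    obtain ⟨y', hy', h1⟩ := hstep c (3 / 4 * s) (|C0| * (s / 4) ^ (-τ - 2)) (by positivity)
      (fun z hz => hsep z (hR01.trans (hbR z hz)))
      (fun z hz => (hH2 z (hbR z hz)).trans
        (mul_le_mul_of_nonneg_left (Real.rpow_le_rpow_of_nonpos (by positivity)
          (hball z hz).le (by linarith)) (abs_nonneg _)))
      x (by rw [mem_ball, dist_eq_norm, hxc, hs, hca]; linarith) y hy
    rw [← hc]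
    refine ⟨y', hy', h1.trans ?_⟩
    have h2 := (hρ s (hρ10.trans hsρ)).le
    refine le_trans ?_ h2
    refine mul_le_mul_of_nonneg_left (add_le_add ?_ ?_) hK.le
    · refine Real.sqrt_le_sqrt ?_
      rw [← hf]
      have hsub : ball c (3 / 4 * s) ⊆ {z : ℂ | s / 4 ≤ ‖z‖} := fun z hz => (hball z hz).le
      exact setIntegral_mono_set hfi.integrableOn (Eventually.of_forall hf0) hsub.eventuallyLE
    · have h3 : (s / 4) ^ (-τ) = (s / 4) ^ (-τ - 2) * (s / 4) ^ 2 := by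
        rw [← Real.rpow_natCast (s / 4) 2, ← Real.rpow_add (by positivity)]
        congr 1
        push_cast
        ring
      rw [h3]
      apply le_of_eq
      ring
  -- the annulus
  have hcpt : IsCompact (closedBall (0 : ℂ) (5 / 4 * ρ1) ∩ (ball 0 ρ1)ᶜ) :=
    (isCompact_closedBall _ _).inter_right isOpen_ball.isClosed_compl
  obtain ⟨M, hM⟩ := bdd_cpt F hF b hb v (fun U Y h => (hv.smooth U Y h).continuousOn) _ hcpt (by
    rintro x ⟨-, hx2⟩
    rw [Set.mem_compl_iff, mem_ball, dist_zero_right, not_lt] at hx2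
    exact hsep x (by linarith))
  have hind : ∀ n : ℕ, ∀ x y, ρ1 ≤ ‖x‖ → ‖x‖ ≤ (5 / 4 : ℝ) ^ (n + 1) * ρ1 →
      (at_ F x).eval y = 0 → |v x y| ≤ M + ε * (Real.log ‖x‖ - Real.log ρ1) := by
    intro n
    induction n with
    | zero =>
      intro x y h1 h2 h3
      have h2' : ‖x‖ ≤ 5 / 4 * ρ1 := by simpa using h2
      have h4 := hM x ⟨by rwa [mem_closedBall, dist_zero_right], by
        rw [Set.mem_compl_iff, mem_ball, dist_zero_right, not_lt]; exact h1⟩ y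
        ((mem_fib F hF x y).2 h3)
      have h5 := Real.log_le_log hρ1 h1
      nlinarith
    | succ n ih =>
      intro x y h1 h2 h3
      by_cases h4 : ‖x‖ ≤ (5 / 4 : ℝ) ^ (n + 1) * ρ1
      · exact ih x y h1 h4 h3
      · rw [not_le] at h4
        have hx0 : 0 < ‖x‖ := lt_of_lt_of_le hρ1 h1
        have h6 : 5 / 4 ≤ (5 / 4 : ℝ) ^ (n + 1) := by
          rw [pow_succ]
          have : 1 ≤ (5 / 4 : ℝ) ^ n := one_le_pow₀ (by norm_num)
          linarith
        have h7 : 5 / 4 * ρ1 ≤ (5 / 4 : ℝ) ^ (n + 1) * ρ1 := mul_le_mul_of_nonneg_right h6 hρ1.le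
        obtain ⟨y', hy', h5⟩ := hst x y (by linarith) h3
        obtain ⟨c, hc⟩ : ∃ c : ℂ, c = (4 / 5 : ℝ) * x := ⟨_, rfl⟩
        have hca : ‖c‖ = 4 / 5 * ‖x‖ := by
          rw [hc, norm_mul, Complex.norm_real, Real.norm_of_nonneg (by norm_num)]
        rw [← hc] at h5 hy'
        have h8 := ih c y' (by rw [hca]; linarith) (by
          rw [hca]
          have e : (5 / 4 : ℝ) ^ (n + 1 + 1) * ρ1 = 5 / 4 * ((5 / 4 : ℝ) ^ (n + 1) * ρ1) := by ring
          rw [e] at h2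
          linarith) hy'
        have e : Real.log ‖c‖ = Real.log ‖x‖ - Real.log (5 / 4) := by
          have : ‖c‖ = ‖x‖ / (5 / 4) := by rw [hca]; ring
          rw [this, Real.log_div hx0.ne' (by norm_num)]
        rw [e] at h8
        have h9 : |v x y| ≤ |v x y - v c y'| + |v c y'| := by
          have := abs_add_le (v x y - v c y') (v c y')
          rwa [sub_add_cancel] at this
        nlinarith
  refine ⟨M - ε * Real.log ρ1, ρ1, hρ1, ?_⟩
  intro x y hxy hx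
  obtain ⟨n, hn⟩ := pow_unbounded_of_one_lt (‖x‖ / ρ1) (show (1 : ℝ) < 5 / 4 by norm_num)
  have h1 : ‖x‖ ≤ (5 / 4 : ℝ) ^ (n + 1) * ρ1 := by
    rw [div_lt_iff₀ hρ1] at hn
    have : (5 / 4 : ℝ) ^ n ≤ (5 / 4 : ℝ) ^ (n + 1) :=
      pow_le_pow_right₀ (by norm_num) (Nat.le_succ n)
    have := mul_le_mul_of_nonneg_right this hρ1.le
    linarith
  have h2 := hind n x y hx h1 hxy.2
  linarith

end EGR
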