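import Mathlib

/-!
Hardy inequality near a puncture. `β = |x - a|^τ`: `Δβ = τ^2 |x - a|^(τ-2)`,
`|∇β|^2 = τ^2 |x - a|^(2τ-2) = β Δβ`. With a cut-off `ζ` (`= 1` on `ball a R`, support in
`closedBall a (2R)`, `|∇ζ| ≤ C / R`, `0 ≤ ζ ≤ 1`) and cut-offs `η_δ` near `a` (`= 0` on
`ball a δ`, `= 1` outside `ball a (2δ)`, `|∇η_δ| ≤ C / δ`; `q` is bounded, so their error terms
`≤ C M τ δ^τ` tend to `0`), integration by parts gives
`∫ ζ Δβ q = - ∫ ζ ∇q·∇β - ∫ q ∇ζ·∇β`, and
`∫ ζ |∇q| |∇β| ≤ 4 ∫ ζ sqrt(q e β Δβ) ≤ (1/2) ∫ ζ Δβ q + 8 (2R)^τ ∫_{ball a 2R} e`,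
`∫ q |∇ζ| |∇β| ≤ (C / R) τ R^(τ-1) ∫_{R ≤ |x-a| ≤ 2R} q`.
(Here the proof is by polar coordinates: `hardyA_1d` is the one-dimensional inequality on rays.
Alternatively one may use the weak form `∫ ψ Δβ = - ∫ ∇ψ·∇β` for `ψ = η_δ ζ q` of class `C^1` with compact
support in `ball a (3R) \ {a}`.)
-/

open MeasureTheory Metric Filter Topology

namespace EGR

private lemma hardyA_pt {τ r g g' e : ℝ} (hτ : 0 < τ) (hr : 0 < r) (hg : 0 ≤ g) (he : 0 ≤ e)
    (h : g' ^ 2 ≤ 16 * (g * e)) :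
    |r ^ τ * g'| ≤ (τ / 2) * (r ^ (τ - 1) * g) + (8 / τ) * (r ^ τ * (r * e)) := by
  have hA : 0 ≤ r ^ (τ - 1) * g := by positivity
  have hB : 0 ≤ r ^ τ * (r * e) := by positivity
  apply abs_le_of_sq_le_sq _ (by positivity)
  have h1 : (r ^ (τ - 1) * g) * (r ^ τ * (r * e)) = (r ^ τ) ^ 2 * (g * e) := by
    have : r ^ (τ - 1) * r = r ^ τ := by
      rw [Real.rpow_sub_one hr.ne']
      field_simp
    calc (r ^ (τ - 1) * g) * (r ^ τ * (r * e)) = (r ^ (τ - 1) * r) * r ^ τ * (g * e) := by ring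
      _ = _ := by rw [this]; ring
  have h2 : (τ / 2 * (r ^ (τ - 1) * g)) * (8 / τ * (r ^ τ * (r * e))) =
      4 * ((r ^ (τ - 1) * g) * (r ^ τ * (r * e))) := by
    field_simp
    ring
  have h3 : (r ^ τ * g') ^ 2 ≤ 16 * ((r ^ τ) ^ 2 * (g * e)) := by
    rw [mul_pow]
    have : 0 ≤ (r ^ τ) ^ 2 := by positivity
    nlinarith
  nlinarith [sq_nonneg (τ / 2 * (r ^ (τ - 1) * g) - 8 / τ * (r ^ τ * (r * e)))]

private lemma hardyA_1d {τ R M : ℝ} (hτ : 0 < τ) (hτ1 : τ ≤ 1) (hR : 0 < R) (g g' e : ℝ → ℝ)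
    (hg : ∀ r ∈ Set.Ioo 0 (3 * R), HasDerivAt g (g' r) r)
    (hg' : ContinuousOn g' (Set.Ioo 0 (3 * R)))
    (h0 : ∀ r ∈ Set.Ioo 0 (3 * R), 0 ≤ g r) (hM : ∀ r ∈ Set.Ioo 0 (3 * R), g r ≤ M)
    (he : ∀ r ∈ Set.Ioo 0 (3 * R), 0 ≤ e r)
    (hei : IntegrableOn (fun r => r * e r) (Set.Ioo 0 (2 * R)))
    (hge : ∀ r ∈ Set.Ioo 0 (3 * R), (g' r) ^ 2 ≤ 16 * (g r * e r)) :
    IntegrableOn (fun r => r ^ (τ - 1) * g r) (Set.Ioo 0 R) ∧
    IntegrableOn (fun r => r * g r) (Set.Ico R (2 * R)) ∧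
    τ ^ 2 * ∫ r in Set.Ioo 0 R, r ^ (τ - 1) * g r ≤
      2 * (τ * R ^ (τ - 2) * ∫ r in Set.Ico R (2 * R), r * g r) +
      32 * R ^ τ * ∫ r in Set.Ioo 0 (2 * R), r * e r := by
  have hsub2 : Set.Ioo 0 (2 * R) ⊆ Set.Ioo 0 (3 * R) := Set.Ioo_subset_Ioo le_rfl (by linarith)
  have hgc : ContinuousOn g (Set.Ioo 0 (3 * R)) := fun r hr => (hg r hr).continuousAt.continuousWithinAt
  have hrp : ∀ t : ℝ, ContinuousOn (fun r : ℝ => r ^ t) (Set.Ioo 0 (3 * R)) := fun t r hr =>
    (Real.continuousAt_rpow_const r t (Or.inl hr.1.ne')).continuousWithinAt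
  -- integrability of the weight
  have hw : IntegrableOn (fun r : ℝ => r ^ (τ - 1)) (Set.Ioo 0 (2 * R)) := by
    have := intervalIntegral.intervalIntegrable_rpow' (a := 0) (b := 2 * R) (r := τ - 1) (by linarith)
    rw [intervalIntegrable_iff_integrableOn_Ioo_of_le (by linarith)] at this
    exact this
  have hAi : IntegrableOn (fun r => r ^ (τ - 1) * g r) (Set.Ioo 0 (2 * R)) := by
    refine Integrable.mono' (hw.const_mul M) ?_ ?_
    · exact (((hrp _).mul hgc).mono hsub2).aestronglyMeasurable measurableSet_Ioo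
    · filter_upwards [ae_restrict_mem measurableSet_Ioo] with r hr
      have hr' := hsub2 hr
      have h1 : 0 ≤ r ^ (τ - 1) := Real.rpow_nonneg hr.1.le _
      rw [Real.norm_eq_abs, abs_of_nonneg (mul_nonneg h1 (h0 r hr')), mul_comm M]
      exact mul_le_mul_of_nonneg_left (hM r hr') h1
  have hBi : IntegrableOn (fun r => r ^ τ * (r * e r)) (Set.Ioo 0 (2 * R)) := by
    refine Integrable.mono' (hei.const_mul ((2 * R) ^ τ)) ?_ ?_
    · exact (((hrp τ).mono hsub2).aestronglyMeasurable measurableSet_Ioo).mul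
        hei.aestronglyMeasurable
    · filter_upwards [ae_restrict_mem measurableSet_Ioo] with r hr
      have hr' := hsub2 hr
      have h1 : 0 ≤ r ^ τ := Real.rpow_nonneg hr.1.le _
      have h2 : 0 ≤ r * e r := mul_nonneg hr.1.le (he r hr')
      rw [Real.norm_eq_abs, abs_of_nonneg (mul_nonneg h1 h2)]
      exact mul_le_mul_of_nonneg_right (Real.rpow_le_rpow hr.1.le hr.2.le hτ.le) h2
  have hDi : IntegrableOn (fun r => r ^ τ * g' r) (Set.Ioo 0 (2 * R)) := by
    refine Integrable.mono' ((hAi.const_mul (τ / 2)).add (hBi.const_mul (8 / τ))) ?_ ?_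
    · exact (((hrp τ).mul hg').mono hsub2).aestronglyMeasurable measurableSet_Ioo
    · filter_upwards [ae_restrict_mem measurableSet_Ioo] with r hr
      have hr' := hsub2 hr
      exact hardyA_pt hτ hr.1 (h0 r hr') (he r hr') (hge r hr')
  have hIi : IntegrableOn (fun r => r * g r) (Set.Ico R (2 * R)) := by
    have : ContinuousOn (fun r => r * g r) (Set.Icc R (2 * R)) :=
      (continuousOn_id.mul hgc).mono fun r hr => ⟨by linarith [hr.1], by linarith [hr.2]⟩
    exact (this.integrableOn_Icc).mono_set Set.Ico_subset_Icc_self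
  have hSi : IntegrableOn (fun r => τ * (r ^ (τ - 1) * g r) + r ^ τ * g' r) (Set.Ioo 0 (2 * R)) :=
    (hAi.const_mul τ).add hDi
  have hBi8 : IntegrableOn (fun r => (8 / τ) * (r ^ τ * (r * e r))) (Set.Ioo 0 (2 * R)) :=
    hBi.const_mul (8 / τ)
  have hAi2 : IntegrableOn (fun r => (τ / 2) * (r ^ (τ - 1) * g r)) (Set.Ioo 0 (2 * R)) :=
    hAi.const_mul (τ / 2)
  refine ⟨hAi.mono_set (Set.Ioo_subset_Ioo le_rfl (by linarith)), hIi, ?_⟩
  set E : ℝ := ∫ r in Set.Ioo 0 (2 * R), r * e r with hE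
  set A : ℝ := ∫ r in Set.Ioo 0 R, r ^ (τ - 1) * g r with hA
  have hBE : ∫ r in Set.Ioo 0 (2 * R), r ^ τ * (r * e r) ≤ (2 * R) ^ τ * E := by
    rw [hE, ← integral_const_mul]
    refine setIntegral_mono_on hBi (hei.const_mul _) measurableSet_Ioo fun r hr => ?_
    exact mul_le_mul_of_nonneg_right (Real.rpow_le_rpow hr.1.le hr.2.le hτ.le)
      (mul_nonneg hr.1.le (he r (hsub2 hr)))
  have key : ∀ s ∈ Set.Ico R (2 * R), (τ ^ 2 / 2) * A ≤ τ * R ^ (τ - 1) * (s * g s) +
      8 * ((2 * R) ^ τ * E) := by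
    intro s hs
    have hs0 : 0 < s := by linarith [hs.1]
    have hs3 : s ∈ Set.Ioo 0 (3 * R) := ⟨hs0, by linarith [hs.2]⟩
    have hss : Set.Ioo 0 s ⊆ Set.Ioo 0 (2 * R) := Set.Ioo_subset_Ioo le_rfl hs.2.le
    have ftc : ∫ r in (0 : ℝ)..s, (τ * (r ^ (τ - 1) * g r) + r ^ τ * g' r) = s ^ τ * g s - 0 := by
      refine intervalIntegral.integral_eq_sub_of_hasDerivAt_of_tendsto (f := fun r => r ^ τ * g r)
        hs0 ?_ ?_ ?_ ?_
      · intro r hr
        have hr' := hsub2 (hss hr)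
        have := (Real.hasDerivAt_rpow_const (x := r) (p := τ) (Or.inl hr.1.ne')).mul (hg r hr')
        exact this.congr_deriv (by ring)
      · rw [intervalIntegrable_iff_integrableOn_Ioo_of_le hs0.le]
        exact hSi.mono_set hss
      · have hz : Tendsto (fun r : ℝ => r ^ τ * M) (𝓝[>] 0) (𝓝 0) := by
          have h1 : ContinuousAt (fun r : ℝ => r ^ τ) 0 :=
            Real.continuousAt_rpow_const 0 τ (Or.inr hτ.le)
          have h2 := (h1.tendsto.mono_left (nhdsWithin_le_nhds (s := Set.Ioi 0))).mul_const M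
          simpa [Real.zero_rpow hτ.ne'] using h2
        refine squeeze_zero' ?_ ?_ hz
        · filter_upwards [Ioo_mem_nhdsGT (show (0 : ℝ) < 3 * R by linarith)] with r hr
          exact mul_nonneg (Real.rpow_nonneg hr.1.le _) (h0 r hr)
        · filter_upwards [Ioo_mem_nhdsGT (show (0 : ℝ) < 3 * R by linarith)] with r hr
          exact mul_le_mul_of_nonneg_left (hM r hr) (Real.rpow_nonneg hr.1.le _)
      · exact (((Real.continuousAt_rpow_const s τ (Or.inl hs0.ne')).mul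
          (hg s hs3).continuousAt).tendsto).mono_left nhdsWithin_le_nhds
    rw [intervalIntegral.integral_of_le hs0.le, integral_Ioc_eq_integral_Ioo, sub_zero] at ftc
    have h1 : (τ / 2) * ∫ r in Set.Ioo 0 s, r ^ (τ - 1) * g r ≤
        (∫ r in Set.Ioo 0 s, (τ * (r ^ (τ - 1) * g r) + r ^ τ * g' r)) +
          (8 / τ) * ∫ r in Set.Ioo 0 s, r ^ τ * (r * e r) := by
      rw [← integral_const_mul, ← integral_const_mul, ← integral_add
        (hSi.mono_set hss) (hBi8.mono_set hss)]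
      refine setIntegral_mono_on (hAi2.mono_set hss)
        ((hSi.mono_set hss).add (hBi8.mono_set hss)) measurableSet_Ioo fun r hr => ?_
      have hr' := hsub2 (hss hr)
      have := (abs_le.1 (hardyA_pt hτ hr.1 (h0 r hr') (he r hr') (hge r hr'))).1
      linarith
    have h2 : ∫ r in Set.Ioo 0 s, r ^ τ * (r * e r) ≤ ∫ r in Set.Ioo 0 (2 * R), r ^ τ * (r * e r) := by
      refine setIntegral_mono_set hBi ?_ hss.eventuallyLE
      filter_upwards [ae_restrict_mem measurableSet_Ioo] with r hr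
      have h1 : 0 ≤ r ^ τ := Real.rpow_nonneg hr.1.le _
      exact mul_nonneg h1 (mul_nonneg hr.1.le (he r (hsub2 hr)))
    have h3 : A ≤ ∫ r in Set.Ioo 0 s, r ^ (τ - 1) * g r := by
      refine setIntegral_mono_set (hAi.mono_set hss) ?_
        (Set.Ioo_subset_Ioo le_rfl hs.1).eventuallyLE
      filter_upwards [ae_restrict_mem measurableSet_Ioo] with r hr
      exact mul_nonneg (Real.rpow_nonneg hr.1.le _) (h0 r (hsub2 (hss hr)))
    have h4 : s ^ τ ≤ R ^ (τ - 1) * s := by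
      have : s ^ τ = s ^ (τ - 1) * s := by
        rw [Real.rpow_sub_one hs0.ne']
        field_simp
      rw [this]
      exact mul_le_mul_of_nonneg_right
        (Real.rpow_le_rpow_of_nonpos hR hs.1 (by linarith)) hs0.le
    have h5 : s ^ τ * g s ≤ R ^ (τ - 1) * (s * g s) := by
      have := mul_le_mul_of_nonneg_right h4 (h0 s hs3)
      linarith
    rw [ftc] at h1
    have h6 : (τ / 2) * A ≤ R ^ (τ - 1) * (s * g s) + (8 / τ) * ((2 * R) ^ τ * E) := by
      have h7 : (τ / 2) * A ≤ (τ / 2) * ∫ r in Set.Ioo 0 s, r ^ (τ - 1) * g r :=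
        mul_le_mul_of_nonneg_left h3 (by positivity)
      have h8 : (8 / τ) * ∫ r in Set.Ioo 0 s, r ^ τ * (r * e r) ≤ (8 / τ) * ((2 * R) ^ τ * E) :=
        mul_le_mul_of_nonneg_left (h2.trans hBE) (by positivity)
      linarith
    have h9 := mul_le_mul_of_nonneg_left h6 hτ.le
    have h10 : τ * (R ^ (τ - 1) * (s * g s) + (8 / τ) * ((2 * R) ^ τ * E)) =
        τ * R ^ (τ - 1) * (s * g s) + 8 * ((2 * R) ^ τ * E) := by
      field_simp
    rw [h10] at h9
    linarith
  -- average over s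
  have hE0 : 0 ≤ E := setIntegral_nonneg measurableSet_Ioo fun r hr =>
    mul_nonneg hr.1.le (he r (hsub2 hr))
  have havg : R * ((τ ^ 2 / 2) * A) ≤ τ * R ^ (τ - 1) * (∫ r in Set.Ico R (2 * R), r * g r) +
      R * (8 * ((2 * R) ^ τ * E)) := by
    have hv : (volume (Set.Ico R (2 * R))).toReal = R := by
      rw [Real.volume_Ico, ENNReal.toReal_ofReal (by linarith)]
      ring
    have hc : ∀ c : ℝ, IntegrableOn (fun _ : ℝ => c) (Set.Ico R (2 * R)) := fun c =>
      integrableOn_const (by simp)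
    have hj : IntegrableOn (fun s => τ * R ^ (τ - 1) * (s * g s) + 8 * ((2 * R) ^ τ * E))
        (Set.Ico R (2 * R)) := (hIi.const_mul (τ * R ^ (τ - 1))).add (hc (8 * ((2 * R) ^ τ * E)))
    have h1 := setIntegral_mono_on (hc ((τ ^ 2 / 2) * A)) hj measurableSet_Ico key
    rw [integral_add (hIi.const_mul (τ * R ^ (τ - 1))) (hc (8 * ((2 * R) ^ τ * E))),
      setIntegral_const, setIntegral_const, measureReal_def, hv, smul_eq_mul, smul_eq_mul] at h1
    have h2 := integral_const_mul (μ := volume.restrict (Set.Ico R (2 * R))) (τ * R ^ (τ - 1))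
      (fun r => r * g r)
    rw [h2] at h1
    exact h1
  have h2R : (2 * R) ^ τ ≤ 2 * R ^ τ := by
    rw [Real.mul_rpow (by norm_num) hR.le]
    have : (2 : ℝ) ^ τ ≤ 2 ^ (1 : ℝ) := Real.rpow_le_rpow_of_exponent_le (by norm_num) hτ1
    rw [Real.rpow_one] at this
    exact mul_le_mul_of_nonneg_right this (Real.rpow_nonneg hR.le _)
  have hRR : R ^ (τ - 1) = R * R ^ (τ - 2) := by
    have : R ^ (τ - 1) = R ^ (1 + (τ - 2)) := by ring_nf
    rw [this, Real.rpow_add hR, Real.rpow_one]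
  have h11 : (τ ^ 2 / 2) * A ≤ τ * R ^ (τ - 2) * (∫ r in Set.Ico R (2 * R), r * g r) +
      8 * ((2 * R) ^ τ * E) := by
    rw [hRR] at havg
    refine le_of_mul_le_mul_left (a := R) ?_ hR
    linarith
  have h12 : (2 * R) ^ τ * E ≤ 2 * R ^ τ * E := mul_le_mul_of_nonneg_right h2R hE0
  linarith

open ENNReal in
private lemma hardyA_polar (a : ℂ) (F : ℂ → ℝ≥0∞) (hF : Measurable F) :
    ∫⁻ x, F x = ∫⁻ θ in Set.Ioo (-Real.pi) Real.pi, ∫⁻ r in Set.Ioi (0 : ℝ),
      ENNReal.ofReal r * F (a + r * (Real.cos θ + Real.sin θ * Complex.I)) := by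
  have h1 : ∫⁻ x, F x = ∫⁻ x, F (a + x) := (lintegral_add_left_eq_self F a).symm
  rw [h1, ← Complex.lintegral_comp_polarCoord_symm, polarCoord_target,
    Measure.volume_eq_prod, ← Measure.prod_restrict, lintegral_prod_symm]
  · simp only [Complex.polarCoord_symm_apply, smul_eq_mul]
  · refine Measurable.aemeasurable ?_
    simp only [Complex.polarCoord_symm_apply, smul_eq_mul]
    refine (ENNReal.measurable_ofReal.comp measurable_fst).mul (hF.comp ?_)
    fun_prop

open ENNReal in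
private lemma hardyA_polar2 (a : ℂ) (J : Set ℝ) (hJ : MeasurableSet J) (hJ0 : J ⊆ Set.Ioi 0)
    (T : Set ℂ) (hT : MeasurableSet T) (hTJ : ∀ x, x ≠ a → (x ∈ T ↔ ‖x - a‖ ∈ J))
    (F : ℂ → ℝ≥0∞) (hF : Measurable F) :
    ∫⁻ x in T, F x = ∫⁻ θ in Set.Ioo (-Real.pi) Real.pi, ∫⁻ r in J,
      ENNReal.ofReal r * F (a + r * (Real.cos θ + Real.sin θ * Complex.I)) := by
  rw [← lintegral_indicator hT, hardyA_polar a _ (hF.indicator hT)]
  refine lintegral_congr fun θ => ?_
  rw [← lintegral_indicator measurableSet_Ioi, ← lintegral_indicator hJ]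
  refine lintegral_congr fun r => ?_
  by_cases hr : 0 < r
  · have hn : ‖(r : ℂ) * (Real.cos θ + Real.sin θ * Complex.I)‖ = r := by
      rw [norm_mul, Complex.ofReal_cos, Complex.ofReal_sin, ← Complex.exp_mul_I,
        Complex.norm_exp_ofReal_mul_I, mul_one, Complex.norm_real, Real.norm_eq_abs, abs_of_pos hr]
    have hx : a + (r : ℂ) * (Real.cos θ + Real.sin θ * Complex.I) ≠ a := by
      intro h
      have h0 : (r : ℂ) * (Real.cos θ + Real.sin θ * Complex.I) = 0 := by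
        simpa using h
      rw [h0, norm_zero] at hn
      exact hr.ne hn
    have hiff := hTJ _ hx
    rw [add_sub_cancel_left, hn] at hiff
    rw [Set.indicator_of_mem (show r ∈ Set.Ioi (0 : ℝ) from hr)]
    by_cases hrJ : r ∈ J
    · rw [Set.indicator_of_mem (hiff.2 hrJ), Set.indicator_of_mem hrJ]
    · rw [Set.indicator_of_notMem (fun h => hrJ (hiff.1 h)), Set.indicator_of_notMem hrJ, mul_zero]
  · rw [Set.indicator_of_notMem (show r ∉ Set.Ioi (0 : ℝ) from hr),
      Set.indicator_of_notMem (fun h => hr (hJ0 h))]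

theorem hardyA : ∃ K : ℝ, 0 < K ∧ ∀ (τ R : ℝ) (a : ℂ) (q e : ℂ → ℝ), 0 < τ → τ ≤ 1 → 0 < R →
    ContDiffOn ℝ 1 q (ball a (3 * R) \ {a}) → (∀ x ∈ ball a (3 * R) \ {a}, 0 ≤ q x) →
    (∃ M : ℝ, ∀ x ∈ ball a (3 * R) \ {a}, q x ≤ M) → (∀ x ∈ ball a (3 * R) \ {a}, 0 ≤ e x) →
    IntegrableOn e (ball a (3 * R)) →
    (∀ x ∈ ball a (3 * R) \ {a}, ‖fderiv ℝ q x‖ ^ 2 ≤ 16 * (q x * e x)) →
    IntegrableOn (fun x => ‖x - a‖ ^ (τ - 2) * q x) (ball a R) ∧
      τ ^ 2 * ∫ x in ball a R, ‖x - a‖ ^ (τ - 2) * q x ≤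
        K * (τ * R ^ (τ - 2) * ∫ x in ball a (2 * R) \ ball a R, q x) +
          K * R ^ τ * ∫ x in ball a (2 * R), e x := by
  refine ⟨32, by norm_num, ?_⟩
  rintro τ R a q e hτ hτ1 hR hq hq0 ⟨M, hM⟩ he hei hqe
  have hSo : IsOpen (ball a (3 * R) \ {a}) := isOpen_ball.sdiff isClosed_singleton
  have hSm : MeasurableSet (ball a (3 * R) \ {a}) := hSo.measurableSet
  have hqd : ∀ x ∈ ball a (3 * R) \ {a}, DifferentiableAt ℝ q x := fun x hx =>
    (hq.differentiableOn one_ne_zero x hx).differentiableAt (hSo.mem_nhds hx)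
  have hqf : ContinuousOn (fderiv ℝ q) (ball a (3 * R) \ {a}) :=
    hq.continuousOn_fderiv_of_isOpen hSo le_rfl
  obtain ⟨Q, hQ, hQm⟩ : ∃ Q : ℂ → ℝ, (∀ x ∈ ball a (3 * R) \ {a}, Q x = q x) ∧ Measurable Q := by
    classical
    refine ⟨(ball a (3 * R) \ {a}).piecewise q 0, fun x hx => Set.piecewise_eq_of_mem _ _ _ hx, ?_⟩
    exact ContinuousOn.measurable_piecewise hq.continuousOn continuousOn_const hSm
  obtain ⟨e', he'm, he'0, he'e, hqe'⟩ : ∃ e' : ℂ → ℝ, Measurable e' ∧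
      (∀ x ∈ ball a (3 * R) \ {a}, 0 ≤ e' x) ∧ (∀ x ∈ ball a (3 * R) \ {a}, e' x ≤ e x) ∧
      (∀ x ∈ ball a (3 * R) \ {a}, ‖fderiv ℝ q x‖ ^ 2 ≤ 16 * (q x * e' x)) := by
    refine ⟨fun x => ‖fderiv ℝ q x‖ ^ 2 / (16 * Q x), ?_, ?_, ?_, ?_⟩
    · exact ((measurable_fderiv ℝ q).norm.pow_const 2).div (hQm.const_mul 16)
    · intro x hx
      have := hq0 x hx
      simp only [hQ x hx]
      positivity
    · intro x hx
      simp only [hQ x hx]
      rcases (hq0 x hx).eq_or_lt with h | h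
      · rw [← h]
        simpa using he x hx
      · rw [div_le_iff₀ (by positivity)]
        have := hqe x hx
        linarith
    · intro x hx
      simp only [hQ x hx]
      rcases (hq0 x hx).eq_or_lt with h | h
      · have := hqe x hx
        rw [← h] at this ⊢
        simpa using this
      · apply le_of_eq
        field_simp
  have hne : ∀ᵐ x : ℂ, x ≠ a := by
    have := (Set.countable_singleton a).ae_notMem volume
    filter_upwards [this] with x hx
    simpa using hx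
  -- the three integrals
  set c1 : ENNReal := ENNReal.ofReal (τ ^ 2) with hc1
  set c2 : ENNReal := ENNReal.ofReal (2 * (τ * R ^ (τ - 2))) with hc2
  set c3 : ENNReal := ENNReal.ofReal (32 * R ^ τ) with hc3
  have hRτ : 0 < R ^ τ := Real.rpow_pos_of_pos hR _
  have hRτ2 : 0 < R ^ (τ - 2) := Real.rpow_pos_of_pos hR _
  have hpA := hardyA_polar2 a (Set.Ioo 0 R) measurableSet_Ioo (fun r hr => hr.1) (ball a R)
    measurableSet_ball (fun x hx => by
      rw [mem_ball, dist_eq_norm]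
      exact ⟨fun h => ⟨norm_pos_iff.2 (sub_ne_zero.2 hx), h⟩, fun h => h.2⟩)
    (fun x => ENNReal.ofReal (‖x - a‖ ^ (τ - 2) * Q x)) (by fun_prop)
  have hpB := hardyA_polar2 a (Set.Ico R (2 * R)) measurableSet_Ico (fun r hr => hR.trans_le hr.1)
    (ball a (2 * R) \ ball a R) (measurableSet_ball.diff measurableSet_ball) (fun x hx => by
      rw [Set.mem_sdiff, mem_ball, mem_ball, dist_eq_norm, not_lt]
      exact ⟨fun h => ⟨h.2, h.1⟩, fun h => ⟨h.2, h.1⟩⟩)
    (fun x => ENNReal.ofReal (Q x)) (by fun_prop)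
  have hpE := hardyA_polar2 a (Set.Ioo 0 (2 * R)) measurableSet_Ioo (fun r hr => hr.1)
    (ball a (2 * R)) measurableSet_ball (fun x hx => by
      rw [mem_ball, dist_eq_norm]
      exact ⟨fun h => ⟨norm_pos_iff.2 (sub_ne_zero.2 hx), h⟩, fun h => h.2⟩)
    (fun x => ENNReal.ofReal (e' x)) (by fun_prop)
  have hin : ∀ θ : ℝ, c1 * (∫⁻ r in Set.Ioo 0 R, ENNReal.ofReal r * ENNReal.ofReal
        (‖a + r * (Real.cos θ + Real.sin θ * Complex.I) - a‖ ^ (τ - 2) *
          Q (a + r * (Real.cos θ + Real.sin θ * Complex.I)))) ≤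
      c2 * (∫⁻ r in Set.Ico R (2 * R), ENNReal.ofReal r * ENNReal.ofReal
        (Q (a + r * (Real.cos θ + Real.sin θ * Complex.I)))) +
      c3 * ∫⁻ r in Set.Ioo 0 (2 * R), ENNReal.ofReal r * ENNReal.ofReal
        (e' (a + r * (Real.cos θ + Real.sin θ * Complex.I))) := by
    intro θ
    obtain ⟨u, hu⟩ : ∃ u : ℂ, u = Real.cos θ + Real.sin θ * Complex.I := ⟨_, rfl⟩
    have hun : ‖u‖ = 1 := by
      rw [hu, Complex.ofReal_cos, Complex.ofReal_sin, ← Complex.exp_mul_I,
        Complex.norm_exp_ofReal_mul_I]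
    rw [← hu]
    have hP : ∀ r ∈ Set.Ioo 0 (3 * R), a + (r : ℂ) * u ∈ ball a (3 * R) \ {a} := by
      intro r hr
      have hn : ‖(r : ℂ) * u‖ = r := by
        rw [norm_mul, hun, mul_one, Complex.norm_real, Real.norm_eq_abs, abs_of_pos hr.1]
      refine ⟨?_, ?_⟩
      · rw [mem_ball, dist_eq_norm, add_sub_cancel_left, hn]
        exact hr.2
      · intro h
        have h0 : (r : ℂ) * u = 0 := by simpa using h
        rw [h0, norm_zero] at hn
        exact hr.1.ne hn
    have hPd : ∀ r : ℝ, HasDerivAt (fun r : ℝ => a + (r : ℂ) * u) u r := by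
      intro r
      have h1 : HasDerivAt (fun r : ℝ => (r : ℂ)) 1 r := Complex.ofRealCLM.hasDerivAt
      simpa using (h1.mul_const u).const_add a
    have hPc : Continuous (fun r : ℝ => a + (r : ℂ) * u) := by fun_prop
    rcases eq_or_ne (∫⁻ r in Set.Ioo 0 (2 * R), ENNReal.ofReal r * ENNReal.ofReal
        (e' (a + r * u))) ⊤ with htop | htop
    · rw [htop, ENNReal.mul_top (by rw [hc3]; simpa using (by positivity)), add_top]
      exact le_top
    have hsub2 : Set.Ioo 0 (2 * R) ⊆ Set.Ioo 0 (3 * R) := Set.Ioo_subset_Ioo le_rfl (by linarith)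
    have hEeq : ∫⁻ r in Set.Ioo 0 (2 * R), ENNReal.ofReal r * ENNReal.ofReal (e' (a + r * u)) =
        ∫⁻ r in Set.Ioo 0 (2 * R), ENNReal.ofReal (r * e' (a + r * u)) :=
      setLIntegral_congr_fun measurableSet_Ioo fun r hr => (ENNReal.ofReal_mul hr.1.le).symm
    have hE0 : 0 ≤ᵐ[volume.restrict (Set.Ioo 0 (2 * R))] fun r : ℝ => r * e' (a + r * u) := by
      filter_upwards [ae_restrict_mem measurableSet_Ioo] with r hr
      exact mul_nonneg hr.1.le (he'0 _ (hP r (hsub2 hr)))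
    have hei1 : IntegrableOn (fun r : ℝ => r * e' (a + r * u)) (Set.Ioo 0 (2 * R)) := by
      refine ⟨(measurable_id.mul (he'm.comp hPc.measurable)).aestronglyMeasurable, ?_⟩
      rw [hasFiniteIntegral_iff_ofReal hE0, ← hEeq]
      exact lt_top_iff_ne_top.2 htop
    obtain ⟨hA1, hB1, h1d⟩ := hardyA_1d (M := M) hτ hτ1 hR (fun r => q (a + r * u))
      (fun r => fderiv ℝ q (a + r * u) u) (fun r => e' (a + r * u))
      (fun r hr => by
        have := (hqd _ (hP r hr)).hasFDerivAt.comp_hasDerivAt r (hPd r)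
        exact this)
      ((hqf.comp hPc.continuousOn hP).clm_apply continuousOn_const)
      (fun r hr => hq0 _ (hP r hr)) (fun r hr => hM _ (hP r hr)) (fun r hr => he'0 _ (hP r hr))
      hei1
      (fun r hr => by
        refine le_trans ?_ (hqe' _ (hP r hr))
        have := (fderiv ℝ q (a + r * u)).le_opNorm u
        rw [hun, mul_one] at this
        rw [← sq_abs (fderiv ℝ q (a + r * u) u)]
        exact pow_le_pow_left₀ (abs_nonneg _) this 2)
    have hAeq : ∫⁻ r in Set.Ioo 0 R, ENNReal.ofReal r * ENNReal.ofReal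
        (‖a + r * u - a‖ ^ (τ - 2) * Q (a + r * u)) =
        ENNReal.ofReal (∫ r in Set.Ioo 0 R, r ^ (τ - 1) * q (a + r * u)) := by
      rw [ofReal_integral_eq_lintegral_ofReal hA1]
      · refine setLIntegral_congr_fun measurableSet_Ioo fun r hr => ?_
        have hr3 : r ∈ Set.Ioo 0 (3 * R) := ⟨hr.1, by linarith [hr.2]⟩
        have hn : ‖a + (r : ℂ) * u - a‖ = r := by
          rw [add_sub_cancel_left, norm_mul, hun, mul_one, Complex.norm_real, Real.norm_eq_abs,
            abs_of_pos hr.1]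
        rw [← ENNReal.ofReal_mul hr.1.le, hn, hQ _ (hP r hr3)]
        have h2 : r ^ (τ - 1) = r * r ^ (τ - 2) := by
          have h3 : r ^ (τ - 1) = r ^ (1 + (τ - 2)) := by
            congr 1
            ring
          rw [h3, Real.rpow_add hr.1, Real.rpow_one]
        rw [h2, mul_assoc]
      · filter_upwards [ae_restrict_mem measurableSet_Ioo] with r hr
        exact mul_nonneg (Real.rpow_nonneg hr.1.le _) (hq0 _ (hP r ⟨hr.1, by linarith [hr.2]⟩))
    have hBeq : ∫⁻ r in Set.Ico R (2 * R), ENNReal.ofReal r * ENNReal.ofReal (Q (a + r * u)) =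
        ENNReal.ofReal (∫ r in Set.Ico R (2 * R), r * q (a + r * u)) := by
      rw [ofReal_integral_eq_lintegral_ofReal hB1]
      · refine setLIntegral_congr_fun measurableSet_Ico fun r hr => ?_
        have hr0 : 0 < r := hR.trans_le hr.1
        rw [← ENNReal.ofReal_mul hr0.le, hQ _ (hP r ⟨hr0, by linarith [hr.2]⟩)]
      · filter_upwards [ae_restrict_mem measurableSet_Ico] with r hr
        have hr0 : 0 < r := hR.trans_le hr.1
        exact mul_nonneg hr0.le (hq0 _ (hP r ⟨hr0, by linarith [hr.2]⟩))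
    have hB0 : 0 ≤ ∫ r in Set.Ico R (2 * R), r * q (a + r * u) :=
      setIntegral_nonneg measurableSet_Ico fun r hr => by
        have hr0 : 0 < r := hR.trans_le hr.1
        exact mul_nonneg hr0.le (hq0 _ (hP r ⟨hr0, by linarith [hr.2]⟩))
    have hE00 : 0 ≤ ∫ r in Set.Ioo 0 (2 * R), r * e' (a + r * u) :=
      setIntegral_nonneg measurableSet_Ioo fun r hr =>
        mul_nonneg hr.1.le (he'0 _ (hP r (hsub2 hr)))
    rw [hAeq, hBeq, hEeq, ← ofReal_integral_eq_lintegral_ofReal hei1 hE0, hc1, hc2, hc3,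
      ← ENNReal.ofReal_mul (by positivity), ← ENNReal.ofReal_mul (by positivity),
      ← ENNReal.ofReal_mul (by positivity), ← ENNReal.ofReal_add (by positivity) (by positivity)]
    refine ENNReal.ofReal_le_ofReal ?_
    refine h1d.trans (le_of_eq ?_)
    ring
  have hmB : Measurable fun θ : ℝ => ∫⁻ r in Set.Ico R (2 * R), ENNReal.ofReal r * ENNReal.ofReal
      (Q (a + r * (Real.cos θ + Real.sin θ * Complex.I))) := by
    refine Measurable.lintegral_prod_right' (f := fun p : ℝ × ℝ => ENNReal.ofReal p.2 *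
      ENNReal.ofReal (Q (a + (p.2 : ℂ) * (Real.cos p.1 + Real.sin p.1 * Complex.I)))) ?_
    refine (ENNReal.measurable_ofReal.comp measurable_snd).mul
      (ENNReal.measurable_ofReal.comp (hQm.comp ?_))
    fun_prop
  have h2d : c1 * (∫⁻ x in ball a R, ENNReal.ofReal (‖x - a‖ ^ (τ - 2) * Q x)) ≤
      c2 * (∫⁻ x in ball a (2 * R) \ ball a R, ENNReal.ofReal (Q x)) +
      c3 * ∫⁻ x in ball a (2 * R), ENNReal.ofReal (e' x) := by
    rw [hpA, hpB, hpE, ← lintegral_const_mul' _ _ (by rw [hc1]; exact ENNReal.ofReal_ne_top),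
      ← lintegral_const_mul' _ _ (by rw [hc2]; exact ENNReal.ofReal_ne_top),
      ← lintegral_const_mul' _ _ (by rw [hc3]; exact ENNReal.ofReal_ne_top),
      ← lintegral_add_left (hmB.const_mul c2)]
    exact lintegral_mono hin
  -- back to integrals
  have hQ0 : ∀ x ∈ ball a (3 * R) \ {a}, 0 ≤ Q x := fun x hx => (hQ x hx).symm ▸ hq0 x hx
  have hs2 : ball a (2 * R) ⊆ ball a (3 * R) := ball_subset_ball (by linarith)
  have hs1 : ball a R ⊆ ball a (3 * R) := ball_subset_ball (by linarith)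
  have hmem2 : ∀ᵐ x ∂(volume.restrict (ball a (2 * R))), x ∈ ball a (3 * R) \ {a} := by
    filter_upwards [ae_restrict_mem measurableSet_ball, ae_restrict_of_ae hne] with x hx hx'
    exact ⟨hs2 hx, hx'⟩
  have hmem1 : ∀ᵐ x ∂(volume.restrict (ball a R)), x ∈ ball a (3 * R) \ {a} := by
    filter_upwards [ae_restrict_mem measurableSet_ball, ae_restrict_of_ae hne] with x hx hx'
    exact ⟨hs1 hx, hx'⟩
  have hmemB : ∀ x ∈ ball a (2 * R) \ ball a R, x ∈ ball a (3 * R) \ {a} := fun x hx =>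
    ⟨hs2 hx.1, fun h => hx.2 (by rw [Set.mem_singleton_iff.1 h]; exact mem_ball_self hR)⟩
  have hmB' : MeasurableSet (ball a (2 * R) \ ball a R) := measurableSet_ball.diff measurableSet_ball
  have hei' : IntegrableOn e' (ball a (2 * R)) := by
    refine Integrable.mono' (hei.mono_set hs2) he'm.aestronglyMeasurable ?_
    filter_upwards [hmem2] with x hx
    rw [Real.norm_eq_abs, abs_of_nonneg (he'0 x hx)]
    exact he'e x hx
  have hQi : IntegrableOn Q (ball a (2 * R) \ ball a R) := by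
    refine Integrable.mono' (g := fun _ => M) (integrableOn_const ?_) hQm.aestronglyMeasurable ?_
    · exact ((measure_mono Set.sdiff_subset).trans_lt measure_ball_lt_top).ne
    · filter_upwards [ae_restrict_mem hmB'] with x hx
      rw [Real.norm_eq_abs, abs_of_nonneg (hQ0 x (hmemB x hx)), hQ x (hmemB x hx)]
      exact hM x (hmemB x hx)
  have hEe : ∫⁻ x in ball a (2 * R), ENNReal.ofReal (e' x) =
      ENNReal.ofReal (∫ x in ball a (2 * R), e' x) := by
    rw [ofReal_integral_eq_lintegral_ofReal hei']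
    filter_upwards [hmem2] with x hx using he'0 x hx
  have hBe : ∫⁻ x in ball a (2 * R) \ ball a R, ENNReal.ofReal (Q x) =
      ENNReal.ofReal (∫ x in ball a (2 * R) \ ball a R, Q x) := by
    rw [ofReal_integral_eq_lintegral_ofReal hQi]
    filter_upwards [ae_restrict_mem hmB'] with x hx using hQ0 x (hmemB x hx)
  have hc10 : c1 ≠ 0 := by
    rw [hc1]
    exact (ENNReal.ofReal_pos.2 (by positivity)).ne'
  have hAfin : ∫⁻ x in ball a R, ENNReal.ofReal (‖x - a‖ ^ (τ - 2) * Q x) < ⊤ := by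
    by_contra h
    rw [not_lt, top_le_iff] at h
    rw [h, ENNReal.mul_top hc10, top_le_iff, hBe, hEe, hc2, hc3,
      ← ENNReal.ofReal_mul (by positivity), ← ENNReal.ofReal_mul (by positivity)] at h2d
    exact (ENNReal.add_lt_top.2 ⟨ENNReal.ofReal_lt_top, ENNReal.ofReal_lt_top⟩).ne h2d
  have hA0 : 0 ≤ᵐ[volume.restrict (ball a R)] fun x => ‖x - a‖ ^ (τ - 2) * Q x := by
    filter_upwards [hmem1] with x hx
    exact mul_nonneg (Real.rpow_nonneg (norm_nonneg _) _) (hQ0 x hx)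
  have hAi : IntegrableOn (fun x => ‖x - a‖ ^ (τ - 2) * Q x) (ball a R) := by
    refine ⟨Measurable.aestronglyMeasurable (by fun_prop), ?_⟩
    rw [hasFiniteIntegral_iff_ofReal hA0]
    exact hAfin
  have hAq : (fun x => ‖x - a‖ ^ (τ - 2) * Q x) =ᵐ[volume.restrict (ball a R)]
      fun x => ‖x - a‖ ^ (τ - 2) * q x := by
    filter_upwards [hmem1] with x hx
    rw [hQ x hx]
  refine ⟨hAi.congr hAq, ?_⟩
  rw [← integral_congr_ae hAq]
  have hBq : ∫ x in ball a (2 * R) \ ball a R, q x = ∫ x in ball a (2 * R) \ ball a R, Q x :=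
    setIntegral_congr_fun hmB' fun x hx => (hQ x (hmemB x hx)).symm
  rw [hBq]
  have hB0 : 0 ≤ ∫ x in ball a (2 * R) \ ball a R, Q x :=
    setIntegral_nonneg hmB' fun x hx => hQ0 x (hmemB x hx)
  have hE0 : 0 ≤ ∫ x in ball a (2 * R), e' x := by
    refine integral_nonneg_of_ae ?_
    filter_upwards [hmem2] with x hx using he'0 x hx
  have hee : ∫ x in ball a (2 * R), e' x ≤ ∫ x in ball a (2 * R), e x := by
    refine integral_mono_ae hei' (hei.mono_set hs2) ?_
    filter_upwards [hmem2] with x hx using he'e x hx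
  rw [hBe, hEe, ← ofReal_integral_eq_lintegral_ofReal hAi hA0, hc1, hc2, hc3,
    ← ENNReal.ofReal_mul (by positivity), ← ENNReal.ofReal_mul (by positivity),
    ← ENNReal.ofReal_mul (by positivity), ← ENNReal.ofReal_add (by positivity) (by positivity),
    ENNReal.ofReal_le_ofReal_iff (by positivity)] at h2d
  have h3 : 32 * R ^ τ * ∫ x in ball a (2 * R), e' x ≤ 32 * R ^ τ * ∫ x in ball a (2 * R), e x :=
    mul_le_mul_of_nonneg_left hee (by positivity)
  have h4 : 0 ≤ τ * R ^ (τ - 2) * ∫ x in ball a (2 * R) \ ball a R, Q x := by positivity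
  linarith

end EGR
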