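import Pool.Agent.EGR.HardyA

/-!
Hardy inequality near infinity, from `hardyA` by the inversion `x ↦ 1/x`.
-/

open MeasureTheory Metric Filter Topology

namespace EGR

private noncomputable def hbD (x : ℂ) : ℂ →L[ℝ] ℂ :=
  (ContinuousLinearMap.smulRight (1 : ℂ →L[ℂ] ℂ) (-(x ^ 2)⁻¹)).restrictScalars ℝ

private lemma hb_der (x : ℂ) (hx : x ≠ 0) : HasFDerivAt (fun s : ℂ => s⁻¹) (hbD x) x :=
  (hasDerivAt_inv hx).hasFDerivAt.restrictScalars ℝ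

private lemma hb_det (x : ℂ) : |(hbD x).det| = (‖x‖ ^ 4)⁻¹ := by
  have h : (hbD x).det = Algebra.norm ℝ (-(x ^ 2)⁻¹ : ℂ) := by
    rw [Algebra.norm_apply]
    unfold ContinuousLinearMap.det
    congr 1
    ext y
    all_goals simp [hbD, Algebra.lmul, LinearMap.mul, mul_comm]
  rw [h, Algebra.norm_complex_apply, Complex.normSq_eq_norm_sq, norm_neg, norm_inv, norm_pow,
    abs_of_nonneg (by positivity)]
  field_simp

private lemma hb_norm (x : ℂ) : ‖hbD x‖ ≤ (‖x‖ ^ 2)⁻¹ := by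
  refine ContinuousLinearMap.opNorm_le_bound _ (by positivity) fun y => ?_
  simp [hbD, mul_comm]

private lemma hb_cov (s : Set ℂ) (hs : MeasurableSet s) (h0 : (0 : ℂ) ∉ s) (g : ℂ → ℝ) :
    (∫ x in (fun s : ℂ => s⁻¹) '' s, g x = ∫ x in s, (‖x‖ ^ 4)⁻¹ * g x⁻¹) ∧
    (IntegrableOn g ((fun s : ℂ => s⁻¹) '' s) ↔
      IntegrableOn (fun x => (‖x‖ ^ 4)⁻¹ * g x⁻¹) s) := by
  have hf' : ∀ x ∈ s, HasFDerivWithinAt (fun s : ℂ => s⁻¹) (hbD x) s x := fun x hx =>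
    (hb_der x (fun h => h0 (h ▸ hx))).hasFDerivWithinAt
  have hinj : Set.InjOn (fun s : ℂ => s⁻¹) s := fun x _ y _ h => inv_injective h
  constructor
  · rw [integral_image_eq_integral_abs_det_fderiv_smul volume hs hf' hinj]
    refine setIntegral_congr_fun hs fun x _ => ?_
    simp only [hb_det, smul_eq_mul]
  · rw [integrableOn_image_iff_integrableOn_abs_det_fderiv_smul volume hs hf' hinj]
    refine integrableOn_congr_fun (fun x _ => ?_) hs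
    simp only [hb_det, smul_eq_mul]

private lemma hb_img (a : ℝ) (ha : 0 < a) :
    (fun s : ℂ => s⁻¹) '' {x : ℂ | 0 < ‖x‖ ∧ ‖x‖ < a⁻¹} = {x : ℂ | a < ‖x‖} := by
  ext x
  simp only [Set.mem_image, Set.mem_ofPred_eq]
  constructor
  · rintro ⟨s, ⟨h1, h2⟩, rfl⟩
    rw [norm_inv]
    rwa [lt_inv_comm₀ ha h1]
  · intro h
    have hx : 0 < ‖x‖ := ha.trans h
    refine ⟨x⁻¹, ⟨by rw [norm_inv]; positivity, ?_⟩, inv_inv x⟩
    rw [norm_inv]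
    exact inv_strictAnti₀ ha h

private lemma hb_img2 (a b : ℝ) (ha : 0 < a) (hb : 0 < b) :
    (fun s : ℂ => s⁻¹) '' {x : ℂ | b⁻¹ ≤ ‖x‖ ∧ ‖x‖ < a⁻¹} = {x : ℂ | a < ‖x‖ ∧ ‖x‖ ≤ b} := by
  ext x
  simp only [Set.mem_image, Set.mem_ofPred_eq]
  constructor
  · rintro ⟨s, ⟨h1, h2⟩, rfl⟩
    have hs : 0 < ‖s‖ := (inv_pos.2 hb).trans_le h1
    rw [norm_inv]
    exact ⟨by rwa [lt_inv_comm₀ ha hs], by rwa [inv_le_comm₀ hs hb]⟩
  · rintro ⟨h, h'⟩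
    have hx : 0 < ‖x‖ := ha.trans h
    refine ⟨x⁻¹, ⟨?_, ?_⟩, inv_inv x⟩
    · rw [norm_inv]
      exact inv_anti₀ hx h'
    · rw [norm_inv]
      exact inv_strictAnti₀ ha h

theorem hardyB : ∃ K : ℝ, 0 < K ∧ ∀ (τ R : ℝ) (q e : ℂ → ℝ), 0 < τ → τ ≤ 1 → 0 < R →
    ContDiffOn ℝ 1 q {x | R / 2 < ‖x‖} → (∀ x, R / 2 < ‖x‖ → 0 ≤ q x) →
    (∃ M : ℝ, ∀ x, R / 2 < ‖x‖ → q x ≤ M) → (∀ x, R / 2 < ‖x‖ → 0 ≤ e x) →
    IntegrableOn e {x | R / 2 < ‖x‖} →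
    (∀ x, R / 2 < ‖x‖ → ‖fderiv ℝ q x‖ ^ 2 ≤ 16 * (q x * e x)) →
    IntegrableOn (fun x => ‖x‖ ^ (-τ - 2) * q x) {x | 2 * R ≤ ‖x‖} ∧
      τ ^ 2 * ∫ x in {x : ℂ | 2 * R ≤ ‖x‖}, ‖x‖ ^ (-τ - 2) * q x ≤
        K * (τ * R ^ (-τ - 2) * ∫ x in {x : ℂ | R ≤ ‖x‖ ∧ ‖x‖ ≤ 2 * R}, q x) +
          K * R ^ (-τ) * ∫ x in {x : ℂ | R ≤ ‖x‖}, e x := by
  obtain ⟨K, hK, H⟩ := hardyA
  refine ⟨4 * K, by positivity, ?_⟩
  rintro τ R q e hτ hτ1 hR hq hq0 ⟨M, hM⟩ he hei hqe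
  set r : ℝ := (2 * R)⁻¹ with hr
  have hr0 : 0 < r := by positivity
  have hr2 : 2 * r = R⁻¹ := by rw [hr]; field_simp
  have hmem : ∀ s ∈ ball (0 : ℂ) (3 * r) \ {0}, 0 < ‖s‖ ∧ R / 2 < ‖s⁻¹‖ := by
    intro s hs
    have h0 : 0 < ‖s‖ := norm_pos_iff.2 (by simpa using hs.2)
    have h1 : ‖s‖ < 3 * r := by simpa using hs.1
    refine ⟨h0, ?_⟩
    rw [norm_inv, lt_inv_comm₀ (by positivity) h0]
    refine h1.trans ?_
    rw [hr, lt_inv_comm₀ (by positivity) (by positivity)]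
    have : (3 * (2 * R)⁻¹)⁻¹ = 2 * R / 3 := by field_simp
    rw [this]
    linarith
  have hUo : IsOpen {x : ℂ | R / 2 < ‖x‖} := isOpen_lt continuous_const continuous_norm
  have hqd : ∀ x : ℂ, R / 2 < ‖x‖ → DifferentiableAt ℝ q x := fun x hx =>
    (hq.differentiableOn one_ne_zero x hx).differentiableAt (hUo.mem_nhds hx)
  have hall : ∀ᵐ x : ℂ, x ≠ 0 := by
    have := (Set.countable_singleton (0 : ℂ)).ae_notMem volume
    filter_upwards [this] with x hx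
    simpa using hx
  -- sets
  have hsetA : (ball (0 : ℂ) r : Set ℂ) =ᵐ[volume] {x : ℂ | 0 < ‖x‖ ∧ ‖x‖ < (2 * R)⁻¹} := by
    filter_upwards [hall] with x hx
    refine propext ⟨fun h => ⟨norm_pos_iff.2 hx, ?_⟩, fun h => ?_⟩
    · exact mem_ball_zero_iff.1 (show x ∈ ball (0 : ℂ) r from h)
    · have h1 := h.2
      show x ∈ ball (0 : ℂ) r
      exact mem_ball_zero_iff.2 h1
  have hsetE : (ball (0 : ℂ) (2 * r) : Set ℂ) =ᵐ[volume] {x : ℂ | 0 < ‖x‖ ∧ ‖x‖ < R⁻¹} := by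
    filter_upwards [hall] with x hx
    refine propext ⟨fun h => ⟨norm_pos_iff.2 hx, ?_⟩, fun h => ?_⟩
    · have h1 : ‖x‖ < 2 * r := by simpa using (show x ∈ ball (0 : ℂ) (2 * r) from h)
      rwa [hr2] at h1
    · have h1 := h.2
      show x ∈ ball (0 : ℂ) (2 * r)
      rw [mem_ball_zero_iff, hr2]
      exact h1
  have hsetB : ball (0 : ℂ) (2 * r) \ ball 0 r = {x : ℂ | (2 * R)⁻¹ ≤ ‖x‖ ∧ ‖x‖ < R⁻¹} := by
    ext x
    rw [Set.mem_sdiff, mem_ball_zero_iff, mem_ball_zero_iff, Set.mem_ofPred_eq, hr2, not_lt]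
    exact and_comm
  have hmA : MeasurableSet {x : ℂ | 0 < ‖x‖ ∧ ‖x‖ < (2 * R)⁻¹} :=
    (measurableSet_lt measurable_const measurable_norm).inter
      (measurableSet_lt measurable_norm measurable_const)
  have hmE : MeasurableSet {x : ℂ | 0 < ‖x‖ ∧ ‖x‖ < R⁻¹} :=
    (measurableSet_lt measurable_const measurable_norm).inter
      (measurableSet_lt measurable_norm measurable_const)
  have hmB : MeasurableSet {x : ℂ | (2 * R)⁻¹ ≤ ‖x‖ ∧ ‖x‖ < R⁻¹} :=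
    (measurableSet_le measurable_const measurable_norm).inter
      (measurableSet_lt measurable_norm measurable_const)
  have h3r : (3 * r) = (2 * R / 3)⁻¹ := by rw [hr]; field_simp
  have hm3 : MeasurableSet {x : ℂ | 0 < ‖x‖ ∧ ‖x‖ < (2 * R / 3)⁻¹} :=
    (measurableSet_lt measurable_const measurable_norm).inter
      (measurableSet_lt measurable_norm measurable_const)
  have hset3 : (ball (0 : ℂ) (3 * r) : Set ℂ) =ᵐ[volume] {x : ℂ | 0 < ‖x‖ ∧ ‖x‖ < (2 * R / 3)⁻¹} := by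
    filter_upwards [hall] with x hx
    refine propext ⟨fun h => ⟨norm_pos_iff.2 hx, ?_⟩, fun h => ?_⟩
    · have h1 : ‖x‖ < 3 * r := by simpa using (show x ∈ ball (0 : ℂ) (3 * r) from h)
      rwa [h3r] at h1
    · have h1 := h.2
      show x ∈ ball (0 : ℂ) (3 * r)
      rw [mem_ball_zero_iff, h3r]
      exact h1
  have hn0 : ∀ c : ℝ, (0 : ℂ) ∉ {x : ℂ | 0 < ‖x‖ ∧ ‖x‖ < c} := fun c h => by
    have := h.1
    simp at this
  have hn0B : (0 : ℂ) ∉ {x : ℂ | (2 * R)⁻¹ ≤ ‖x‖ ∧ ‖x‖ < R⁻¹} := fun h => by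
    have h1 := h.1
    rw [norm_zero] at h1
    have : 0 < (2 * R)⁻¹ := by positivity
    linarith
  have hsph : {x : ℂ | 2 * R ≤ ‖x‖} =ᵐ[volume] {x : ℂ | 2 * R < ‖x‖} := by
    have h1 : volume (sphere (0 : ℂ) (2 * R)) = 0 := Measure.addHaar_sphere _ _ _
    have h2 : ∀ᵐ x : ℂ, x ∉ sphere (0 : ℂ) (2 * R) := measure_eq_zero_iff_ae_notMem.1 h1
    filter_upwards [h2] with x hx
    have hx' : ‖x‖ ≠ 2 * R := by simpa using hx
    exact propext ⟨fun h => lt_of_le_of_ne h hx'.symm, fun h => le_of_lt h⟩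
  have hmain := H τ r 0 (fun s => q s⁻¹) (fun s => (‖s‖ ^ 4)⁻¹ * e s⁻¹) hτ hτ1 hr0 ?_ ?_ ?_ ?_ ?_ ?_
  · obtain ⟨hA, hI⟩ := hmain
    have eA : ∀ x ∈ {x : ℂ | 0 < ‖x‖ ∧ ‖x‖ < (2 * R)⁻¹},
        (‖x‖ ^ 4)⁻¹ * (‖x⁻¹‖ ^ (-τ - 2) * q x⁻¹) = ‖x - 0‖ ^ (τ - 2) * q x⁻¹ := by
      intro x hx
      have hx0 := hx.1
      rw [sub_zero, norm_inv, Real.inv_rpow hx0.le, ← Real.rpow_neg hx0.le, ← mul_assoc,
        ← Real.rpow_natCast, ← Real.rpow_neg hx0.le, ← Real.rpow_add hx0]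
      congr 2
      push_cast
      ring
    have hcovA := hb_cov {x : ℂ | 0 < ‖x‖ ∧ ‖x‖ < (2 * R)⁻¹} hmA (hn0 _)
      (fun x => ‖x‖ ^ (-τ - 2) * q x)
    rw [hb_img (2 * R) (by positivity)] at hcovA
    have hcovE := hb_cov {x : ℂ | 0 < ‖x‖ ∧ ‖x‖ < R⁻¹} hmE (hn0 _) e
    rw [hb_img R hR] at hcovE
    have hcovB := hb_cov {x : ℂ | (2 * R)⁻¹ ≤ ‖x‖ ∧ ‖x‖ < R⁻¹} hmB hn0B
      (fun x => (‖x‖ ^ 4)⁻¹ * q x)
    rw [hb_img2 R (2 * R) hR (by positivity)] at hcovB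
    have hAe : ∫ x in {x : ℂ | 2 * R ≤ ‖x‖}, ‖x‖ ^ (-τ - 2) * q x =
        ∫ x in ball (0 : ℂ) r, ‖x - 0‖ ^ (τ - 2) * q x⁻¹ := by
      rw [setIntegral_congr_set hsph, hcovA.1, setIntegral_congr_fun hmA eA,
        setIntegral_congr_set hsetA]
    have hEe : ∫ x in ball (0 : ℂ) (2 * r), (‖x‖ ^ 4)⁻¹ * e x⁻¹ = ∫ x in {x : ℂ | R < ‖x‖}, e x := by
      rw [setIntegral_congr_set hsetE, hcovE.1]
    have hBe : ∫ x in ball (0 : ℂ) (2 * r) \ ball 0 r, q x⁻¹ =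
        ∫ x in {x : ℂ | R < ‖x‖ ∧ ‖x‖ ≤ 2 * R}, (‖x‖ ^ 4)⁻¹ * q x := by
      rw [hsetB, hcovB.1]
      refine setIntegral_congr_fun hmB fun x hx => ?_
      have hx0 : 0 < ‖x‖ := lt_of_lt_of_le (by positivity) hx.1
      show q x⁻¹ = (‖x‖ ^ 4)⁻¹ * ((‖x⁻¹‖ ^ 4)⁻¹ * q x⁻¹)
      rw [norm_inv]
      field_simp
    have hqc : ContinuousOn q {x | R / 2 < ‖x‖} := hq.continuousOn
    have hcomp : IsCompact {x : ℂ | R ≤ ‖x‖ ∧ ‖x‖ ≤ 2 * R} := by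
      refine Metric.isCompact_of_isClosed_isBounded ?_ ?_
      · exact (isClosed_le continuous_const continuous_norm).inter
          (isClosed_le continuous_norm continuous_const)
      · exact (isBounded_closedBall (x := (0 : ℂ)) (r := 2 * R)).subset fun x hx => by
          simpa using hx.2
    have hqi : IntegrableOn q {x : ℂ | R ≤ ‖x‖ ∧ ‖x‖ ≤ 2 * R} :=
      (hqc.mono fun x hx => by
        show R / 2 < ‖x‖
        linarith [hx.1]).integrableOn_compact hcomp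
    have hmC : MeasurableSet {x : ℂ | R ≤ ‖x‖ ∧ ‖x‖ ≤ 2 * R} := hcomp.isClosed.measurableSet
    have hBle : ∫ x in {x : ℂ | R < ‖x‖ ∧ ‖x‖ ≤ 2 * R}, (‖x‖ ^ 4)⁻¹ * q x ≤
        (R ^ 4)⁻¹ * ∫ x in {x : ℂ | R ≤ ‖x‖ ∧ ‖x‖ ≤ 2 * R}, q x := by
      have hsub : {x : ℂ | R < ‖x‖ ∧ ‖x‖ ≤ 2 * R} ⊆ {x : ℂ | R ≤ ‖x‖ ∧ ‖x‖ ≤ 2 * R} :=
        fun x hx => ⟨hx.1.le, hx.2⟩
      have hmB' : MeasurableSet {x : ℂ | R < ‖x‖ ∧ ‖x‖ ≤ 2 * R} :=
        (measurableSet_lt measurable_const measurable_norm).inter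
          (measurableSet_le measurable_norm measurable_const)
      have hle : ∀ x ∈ {x : ℂ | R < ‖x‖ ∧ ‖x‖ ≤ 2 * R}, (‖x‖ ^ 4)⁻¹ * q x ≤ (R ^ 4)⁻¹ * q x := by
        intro x hx
        have h0 : 0 ≤ q x := hq0 x (by linarith [hx.1])
        refine mul_le_mul_of_nonneg_right ?_ h0
        exact inv_anti₀ (by positivity) (pow_le_pow_left₀ hR.le hx.1.le 4)
      have hi2 : IntegrableOn (fun x => (R ^ 4)⁻¹ * q x) {x : ℂ | R < ‖x‖ ∧ ‖x‖ ≤ 2 * R} :=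
        (hqi.mono_set hsub).const_mul _
      have hi1 : IntegrableOn (fun x => (‖x‖ ^ 4)⁻¹ * q x) {x : ℂ | R < ‖x‖ ∧ ‖x‖ ≤ 2 * R} := by
        refine Integrable.mono' hi2 ?_ ?_
        · refine AEStronglyMeasurable.mul ?_ (hqi.mono_set hsub).aestronglyMeasurable
          exact (measurable_norm.pow_const 4).inv.aestronglyMeasurable
        · filter_upwards [ae_restrict_mem hmB'] with x hx
          have h0 : 0 ≤ q x := hq0 x (by linarith [hx.1])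
          rw [Real.norm_eq_abs, abs_of_nonneg (by positivity)]
          exact hle x hx
      calc _ ≤ ∫ x in {x : ℂ | R < ‖x‖ ∧ ‖x‖ ≤ 2 * R}, (R ^ 4)⁻¹ * q x :=
            setIntegral_mono_on hi1 hi2 hmB' hle
        _ ≤ ∫ x in {x : ℂ | R ≤ ‖x‖ ∧ ‖x‖ ≤ 2 * R}, (R ^ 4)⁻¹ * q x := by
            refine setIntegral_mono_set (hqi.const_mul _) ?_ hsub.eventuallyLE
            filter_upwards [ae_restrict_mem hmC] with x hx
            have h0 : 0 ≤ q x := hq0 x (by linarith [hx.1])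
            exact mul_nonneg (by positivity) h0
        _ = _ := integral_const_mul _ _
    have hEle : ∫ x in {x : ℂ | R < ‖x‖}, e x ≤ ∫ x in {x : ℂ | R ≤ ‖x‖}, e x := by
      have hmR : MeasurableSet {x : ℂ | R ≤ ‖x‖} := measurableSet_le measurable_const measurable_norm
      refine setIntegral_mono_set (hei.mono_set fun x hx => ?_) ?_
        (Filter.Eventually.of_forall fun x (hx : R < ‖x‖) => (le_of_lt hx : R ≤ ‖x‖))
      · show R / 2 < ‖x‖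
        have : R ≤ ‖x‖ := hx
        linarith
      · filter_upwards [ae_restrict_mem hmR] with x hx
        have : R ≤ ‖x‖ := hx
        exact he x (by linarith)
    have hE0 : 0 ≤ ∫ x in {x : ℂ | R ≤ ‖x‖}, e x := by
      refine setIntegral_nonneg (measurableSet_le measurable_const measurable_norm) fun x hx => ?_
      have : R ≤ ‖x‖ := hx
      exact he x (by linarith)
    have hQ0 : 0 ≤ ∫ x in {x : ℂ | R ≤ ‖x‖ ∧ ‖x‖ ≤ 2 * R}, q x := by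
      refine setIntegral_nonneg hmC fun x hx => hq0 x (by linarith [hx.1])
    refine ⟨?_, ?_⟩
    · rw [integrableOn_congr_set_ae hsph, hcovA.2, integrableOn_congr_fun eA hmA,
        ← integrableOn_congr_set_ae hsetA]
      exact hA
    · rw [hAe]
      refine hI.trans ?_
      rw [hEe, hBe]
      have hp1 : r ^ (τ - 2) ≤ 4 * (R ^ (-τ - 2) * R ^ 4) := by
        have e1 : r ^ (τ - 2) = (2 * R) ^ (2 - τ) := by
          rw [hr, Real.inv_rpow (by positivity), ← Real.rpow_neg (by positivity)]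
          congr 1
          ring
        have e2 : R ^ (-τ - 2) * R ^ 4 = R ^ (2 - τ) := by
          rw [← Real.rpow_natCast R 4, ← Real.rpow_add hR]
          congr 1
          push_cast
          ring
        rw [e1, e2, Real.mul_rpow (by norm_num) hR.le]
        refine mul_le_mul_of_nonneg_right ?_ (by positivity)
        calc (2 : ℝ) ^ (2 - τ) ≤ 2 ^ (2 : ℝ) :=
              Real.rpow_le_rpow_of_exponent_le (by norm_num) (by linarith)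
          _ = 4 := by norm_num
      have hp2 : r ^ τ ≤ R ^ (-τ) := by
        rw [hr, Real.inv_rpow (by positivity), Real.rpow_neg hR.le]
        refine inv_anti₀ (by positivity) ?_
        exact Real.rpow_le_rpow hR.le (by linarith) hτ.le
      have hR4 : R ^ 4 * (R ^ 4)⁻¹ = 1 := by field_simp
      have hRp : 0 < R ^ (-τ - 2) := Real.rpow_pos_of_pos hR _
      have hRp2 : 0 < R ^ (-τ) := Real.rpow_pos_of_pos hR _
      have hrp : 0 < r ^ (τ - 2) := Real.rpow_pos_of_pos hr0 _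
      have hrp2 : 0 < r ^ τ := Real.rpow_pos_of_pos hr0 _
      set Q : ℝ := ∫ x in {x : ℂ | R ≤ ‖x‖ ∧ ‖x‖ ≤ 2 * R}, q x with hQ
      set E : ℝ := ∫ x in {x : ℂ | R ≤ ‖x‖}, e x with hE
      have t1 : r ^ (τ - 2) * ∫ x in {x : ℂ | R < ‖x‖ ∧ ‖x‖ ≤ 2 * R}, (‖x‖ ^ 4)⁻¹ * q x ≤
          4 * (R ^ (-τ - 2) * Q) := by
        calc _ ≤ r ^ (τ - 2) * ((R ^ 4)⁻¹ * Q) := mul_le_mul_of_nonneg_left hBle hrp.le
          _ ≤ (4 * (R ^ (-τ - 2) * R ^ 4)) * ((R ^ 4)⁻¹ * Q) :=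
            mul_le_mul_of_nonneg_right hp1 (by positivity)
          _ = 4 * (R ^ (-τ - 2) * Q) * (R ^ 4 * (R ^ 4)⁻¹) := by ring
          _ = _ := by rw [hR4, mul_one]
      have t2 : r ^ τ * ∫ x in {x : ℂ | R < ‖x‖}, e x ≤ R ^ (-τ) * E := by
        calc _ ≤ r ^ τ * E := mul_le_mul_of_nonneg_left hEle hrp2.le
          _ ≤ _ := mul_le_mul_of_nonneg_right hp2 hE0
      have t1' := mul_le_mul_of_nonneg_left t1 (mul_nonneg hK.le hτ.le)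
      have t2' := mul_le_mul_of_nonneg_left t2 hK.le
      have t3 : 0 ≤ K * (R ^ (-τ) * E) := by positivity
      calc _ = K * τ * (r ^ (τ - 2) * ∫ x in {x : ℂ | R < ‖x‖ ∧ ‖x‖ ≤ 2 * R}, (‖x‖ ^ 4)⁻¹ * q x) +
            K * (r ^ τ * ∫ x in {x : ℂ | R < ‖x‖}, e x) := by ring
        _ ≤ K * τ * (4 * (R ^ (-τ - 2) * Q)) + K * (R ^ (-τ) * E) := add_le_add t1' t2'
        _ ≤ _ := by linarith
  · intro s hs
    obtain ⟨h0, h1⟩ := hmem s hs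
    have hs0 : s ≠ 0 := norm_pos_iff.1 h0
    have h2 : ContDiffAt ℝ 1 (fun s : ℂ => s⁻¹) s := (contDiffAt_inv ℂ hs0).restrict_scalars ℝ
    exact ((hq.contDiffAt (hUo.mem_nhds h1)).comp s h2).contDiffWithinAt
  · intro s hs
    exact hq0 _ (hmem s hs).2
  · exact ⟨M, fun s hs => hM _ (hmem s hs).2⟩
  · intro s hs
    exact mul_nonneg (by positivity) (he _ (hmem s hs).2)
  · rw [integrableOn_congr_set_ae hset3]
    have := hb_cov {x : ℂ | 0 < ‖x‖ ∧ ‖x‖ < (2 * R / 3)⁻¹} hm3 (hn0 _) e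
    rw [← this.2, hb_img _ (by positivity)]
    refine hei.mono_set fun x hx => ?_
    have : 2 * R / 3 < ‖x‖ := hx
    show R / 2 < ‖x‖
    linarith
  · intro s hs
    obtain ⟨h0, h1⟩ := hmem s hs
    have hs0 : s ≠ 0 := norm_pos_iff.1 h0
    have h2 : HasFDerivAt (fun s : ℂ => q s⁻¹) ((fderiv ℝ q s⁻¹).comp (hbD s)) s :=
      (hqd _ h1).hasFDerivAt.comp s (hb_der s hs0)
    have h3 : ‖fderiv ℝ (fun s : ℂ => q s⁻¹) s‖ ≤ ‖fderiv ℝ q s⁻¹‖ * (‖s‖ ^ 2)⁻¹ := by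
      rw [h2.fderiv]
      exact (ContinuousLinearMap.opNorm_comp_le _ _).trans
        (mul_le_mul_of_nonneg_left (hb_norm s) (norm_nonneg _))
    calc ‖fderiv ℝ (fun s : ℂ => q s⁻¹) s‖ ^ 2 ≤ (‖fderiv ℝ q s⁻¹‖ * (‖s‖ ^ 2)⁻¹) ^ 2 :=
          pow_le_pow_left₀ (norm_nonneg _) h3 2
      _ = (‖s‖ ^ 4)⁻¹ * ‖fderiv ℝ q s⁻¹‖ ^ 2 := by
          rw [mul_pow, inv_pow, ← pow_mul]
          ring
      _ ≤ (‖s‖ ^ 4)⁻¹ * (16 * (q s⁻¹ * e s⁻¹)) :=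
          mul_le_mul_of_nonneg_left (hqe _ h1) (by positivity)
      _ = _ := by ring

end EGR
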