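import Pool.Agent.EGR.Wt

/-!
The linear form `u ↦ ∫ ∑ h u` is bounded by the energy, if `∫ ∑ h = 0`.

PROOF. `∫ ∑ h u = ∫ ∑ h (u - m)`, `m` the average over a base plaque (exists near `b`),
`|∑ h (u - m)| ≤ H sqrt(d) sqrt(q)`, `∫ H sqrt(q) ≤ sqrt(∫ H) sqrt(∫ H q)`, `weighted`, `wt_int`.
-/

open Polynomial MeasureTheory Metric ComplexConjugate Filter Topology

namespace EGR

open ALC

variable (F : ℂ[X][X]) (hF : F.Monic) (b : ℂ) (hb : (at_ F b).Separable)

private theorem lb_ae (F : ℂ[X][X]) (hF : F.Monic) (b : ℂ) (hb : (at_ F b).Separable) :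
    ∀ᵐ x : ℂ, (at_ F x).Separable := by
  have h3 : volume {x : ℂ | ¬ (at_ F x).Separable} = 0 := (bad_finite F hF b hb).measure_zero _
  filter_upwards [measure_eq_zero_iff_ae_notMem.1 h3] with x hx
  by_contra hn
  exact hx hn

/-- fibre sums of functions which are continuous along branches are measurable -/
private theorem lb_meas (F : ℂ[X][X]) (hF : F.Monic) (b : ℂ) (hb : (at_ F b).Separable)
    (h : ℂ → ℂ → ℝ) (hh : ∀ U Y, IsBranch F U Y → ContinuousOn (fun x => h x (Y x)) U) :
    AEStronglyMeasurable (fun x => ∑ y ∈ fib F x, h x y) := by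
  classical
  set V : Set ℂ := {x | (at_ F x).Separable} with hV
  have hfin : Vᶜ.Finite := bad_finite F hF b hb
  have hVm : MeasurableSet V := by
    rw [← compl_compl V]
    exact hfin.measurableSet.compl
  have hc : ContinuousOn (fun x => ∑ y ∈ fib F x, h x y) V := by
    intro x0 hx0
    apply ContinuousAt.continuousWithinAt
    obtain ⟨r, hr, Y, hY, hY2⟩ := sheets F hF x0 hx0
    have h1 : (fun x => ∑ j, h x (Y j x)) =ᶠ[nhds x0] fun x => ∑ y ∈ fib F x, h x y := by
      filter_upwards [ball_mem_nhds x0 hr] with x hx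
      have h2 : fib F x = Finset.univ.image (fun j => Y j x) := by
        ext y
        rw [(hY2 x hx).2 y]
        simp
      rw [h2, Finset.sum_image fun i _ j _ hij => (hY2 x hx).1 hij]
    refine ContinuousAt.congr ?_ h1
    refine tendsto_finsetSum _ fun j _ => ?_
    exact (hh _ _ (hY j)).continuousAt (ball_mem_nhds x0 hr)
  have h1 := hc.aestronglyMeasurable (μ := volume) hVm
  have h2 : (volume : Measure ℂ).restrict V = volume := by
    apply Measure.restrict_eq_self_of_ae_mem
    exact lb_ae F hF b hb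
  rwa [h2] at h1

private theorem lb_card (F : ℂ[X][X]) (hF : F.Monic) (x : ℂ) : (fib F x).card ≤ F.natDegree := by
  classical
  unfold fib
  have h1 : (at_ F x).natDegree = F.natDegree := hF.natDegree_map _
  rw [← h1]
  exact (Multiset.toFinset_card_le _).trans (card_roots' _)

include hF hb

theorem L_int (H : ℂ → ℝ) (hH : IsWt F H) (h : ℂ → ℂ → ℝ)
    (hc : ∀ U Y, IsBranch F U Y → ContinuousOn (fun x => h x (Y x)) U)
    (hh : ∀ x y, OnX F x y → |h x y| ≤ H x) (u : ℂ → ℂ → ℝ)
    (hu : ∀ U Y, IsBranch F U Y → ContinuousOn (fun x => u x (Y x)) U)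
    (hb : ∃ M : ℝ, ∀ x y, OnX F x y → |u x y| ≤ M) :
    Integrable (fun x => ∑ y ∈ fib F x, h x y * u x y) := by
  rename_i hb0
  obtain ⟨M, hM⟩ := hb
  refine Integrable.mono' ((wt_int F hF b hb0 H hH).const_mul ((F.natDegree : ℝ) * |M|)) ?_ ?_
  · exact lb_meas F hF b hb0 (fun x y => h x y * u x y)
      fun U Y hUY => (hc U Y hUY).mul (hu U Y hUY)
  · filter_upwards [lb_ae F hF b hb0] with x hx
    rw [Real.norm_eq_abs]
    calc |∑ y ∈ fib F x, h x y * u x y| ≤ ∑ y ∈ fib F x, |h x y * u x y| :=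
          Finset.abs_sum_le_sum_abs _ _
      _ ≤ ∑ y ∈ fib F x, H x * |M| := by
          refine Finset.sum_le_sum fun y hy => ?_
          have ho : OnX F x y := ⟨hx, (mem_fib F hF x y).mp hy⟩
          rw [abs_mul]
          exact mul_le_mul (hh x y ho) ((hM x y ho).trans (le_abs_self _)) (abs_nonneg _)
            (hH.nonneg x)
      _ = (fib F x).card * (H x * |M|) := by rw [Finset.sum_const, nsmul_eq_mul]
      _ ≤ F.natDegree * (H x * |M|) := by
          refine mul_le_mul_of_nonneg_right ?_ (mul_nonneg (hH.nonneg x) (abs_nonneg _))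
          exact_mod_cast lb_card F hF x
      _ = F.natDegree * |M| * H x := by ring

omit hF hb in
private theorem lb_cs (A q : ℂ → ℝ) (hA : ∀ x, 0 ≤ A x) (hq : ∀ x, 0 ≤ q x) (hAi : Integrable A)
    (hAq : Integrable (fun x => A x * q x)) :
    Integrable (fun x => A x * Real.sqrt (q x)) ∧ ∫ x, A x * Real.sqrt (q x) ≤
      Real.sqrt (∫ x, A x) * Real.sqrt (∫ x, A x * q x) := by
  have e1 : ∀ x, A x * Real.sqrt (q x) = Real.sqrt (A x) * Real.sqrt (A x * q x) := by
    intro x
    rw [Real.sqrt_mul (hA x), ← mul_assoc, Real.mul_self_sqrt (hA x)]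
  have m1 : MemLp (fun x => Real.sqrt (A x)) (ENNReal.ofReal 2) volume := by
    have hm : AEStronglyMeasurable (fun x => Real.sqrt (A x)) volume :=
      Real.continuous_sqrt.comp_aestronglyMeasurable hAi.1
    rw [show ENNReal.ofReal 2 = 2 by norm_num]
    rw [memLp_two_iff_integrable_sq hm]
    refine hAi.congr (Eventually.of_forall fun x => ?_)
    exact (Real.sq_sqrt (hA x)).symm
  have m2 : MemLp (fun x => Real.sqrt (A x * q x)) (ENNReal.ofReal 2) volume := by
    have hm : AEStronglyMeasurable (fun x => Real.sqrt (A x * q x)) volume :=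
      Real.continuous_sqrt.comp_aestronglyMeasurable hAq.1
    rw [show ENNReal.ofReal 2 = 2 by norm_num]
    rw [memLp_two_iff_integrable_sq hm]
    refine hAq.congr (Eventually.of_forall fun x => ?_)
    exact (Real.sq_sqrt (mul_nonneg (hA x) (hq x))).symm
  have hpq : Real.HolderConjugate 2 2 := Real.HolderConjugate.two_two
  constructor
  · have h22 : ENNReal.ofReal 2 = 2 := by norm_num
    rw [h22] at m1 m2
    have := MemLp.integrable_mul (p := 2) (q := 2) m1 m2
    refine this.congr (Eventually.of_forall fun x => ?_)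
    simp only [Pi.mul_apply]
    exact (e1 x).symm
  · have := integral_mul_le_Lp_mul_Lq_of_nonneg (μ := volume) hpq
      (f := fun x => Real.sqrt (A x)) (g := fun x => Real.sqrt (A x * q x))
      (Eventually.of_forall fun x => Real.sqrt_nonneg _)
      (Eventually.of_forall fun x => Real.sqrt_nonneg _) m1 m2
    simp only [← e1] at this
    refine this.trans (le_of_eq ?_)
    rw [Real.sqrt_eq_rpow, Real.sqrt_eq_rpow]
    congr 2
    · refine integral_congr_ae (Eventually.of_forall fun x => ?_)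
      simp only [Real.rpow_two]
      exact Real.sq_sqrt (hA x)
    · refine integral_congr_ae (Eventually.of_forall fun x => ?_)
      simp only [Real.rpow_two]
      exact Real.sq_sqrt (mul_nonneg (hA x) (hq x))

theorem L_bdd (hirr : Irreducible F) (H : ℂ → ℝ) (hH : IsWt F H) (h : ℂ → ℂ → ℝ)
    (hc : ∀ U Y, IsBranch F U Y → ContinuousOn (fun x => h x (Y x)) U)
    (hh : ∀ x y, OnX F x y → |h x y| ≤ H x) (h0 : ∫ x, ∑ y ∈ fib F x, h x y = 0) :
    ∃ C : ℝ, ∀ u, Fn F u → |∫ x, ∑ y ∈ fib F x, h x y * u x y| ≤ C * Real.sqrt (En F u) := by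
  obtain ⟨r, hr, Y, hY, -⟩ := sheets F hF b hb
  have hd : 0 < F.natDegree := by
    rcases Nat.eq_zero_or_pos F.natDegree with h | h
    · exfalso
      have : F = 1 := hF.natDegree_eq_zero.mp h
      rw [this] at hirr
      exact hirr.not_isUnit isUnit_one
    · exact h
  let j0 : Fin F.natDegree := ⟨0, hd⟩
  have hsub : closedBall b (r / 2) ⊆ ball b r := closedBall_subset_ball (by linarith)
  obtain ⟨C, hC0, hC⟩ := weighted F hF b hb hirr H hH b (r / 2) (ball b r) (Y j0) (by linarith)
    (hY j0) hsub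
  have hHi : Integrable H := wt_int F hF b hb H hH
  refine ⟨Real.sqrt F.natDegree * (Real.sqrt (∫ x, H x) * Real.sqrt C), fun u hu => ?_⟩
  obtain ⟨hi1, hi2⟩ := hC u hu
  set m : ℝ := avg b (r / 2) (fun x => u x (Y j0 x)) with hm
  set q : ℂ → ℝ := fun x => ∑ y ∈ fib F x, (u x y - m) ^ 2 with hq
  have hq0 : ∀ x, 0 ≤ q x := fun x => Finset.sum_nonneg fun y _ => sq_nonneg _
  obtain ⟨M, hM⟩ := hu.bdd
  have hI1 : Integrable (fun x => ∑ y ∈ fib F x, h x y * u x y) :=
    L_int F hF b hb H hH h hc hh u (fun U Z hZ => (hu.smooth U Z hZ).continuousOn) ⟨M, hM⟩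
  have hI2 : Integrable (fun x => ∑ y ∈ fib F x, h x y) := by
    have := L_int F hF b hb H hH h hc hh (fun _ _ => 1) (fun U Z hZ => continuousOn_const)
      ⟨1, fun x y _ => by simp⟩
    simpa using this
  have e1 : ∫ x, ∑ y ∈ fib F x, h x y * u x y = ∫ x, ∑ y ∈ fib F x, h x y * (u x y - m) := by
    have : ∀ x, ∑ y ∈ fib F x, h x y * (u x y - m) =
        (∑ y ∈ fib F x, h x y * u x y) - m * ∑ y ∈ fib F x, h x y := by
      intro x
      rw [Finset.mul_sum, ← Finset.sum_sub_distrib]
      exact Finset.sum_congr rfl fun y _ => by ring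
    simp_rw [this]
    rw [integral_sub hI1 (hI2.const_mul m), integral_const_mul, h0, mul_zero, sub_zero]
  rw [e1]
  obtain ⟨hcs1, hcs2⟩ := lb_cs H q hH.nonneg hq0 hHi hi1
  have hpt : ∀ᵐ x : ℂ, ‖∑ y ∈ fib F x, h x y * (u x y - m)‖ ≤
      Real.sqrt F.natDegree * (H x * Real.sqrt (q x)) := by
    filter_upwards [lb_ae F hF b hb] with x hx
    rw [Real.norm_eq_abs]
    have s1 : |∑ y ∈ fib F x, h x y * (u x y - m)| ≤ H x * ∑ y ∈ fib F x, |u x y - m| := by
      calc |∑ y ∈ fib F x, h x y * (u x y - m)| ≤ ∑ y ∈ fib F x, |h x y * (u x y - m)| :=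
            Finset.abs_sum_le_sum_abs _ _
        _ ≤ ∑ y ∈ fib F x, H x * |u x y - m| := by
            refine Finset.sum_le_sum fun y hy => ?_
            have ho : OnX F x y := ⟨hx, (mem_fib F hF x y).mp hy⟩
            rw [abs_mul]
            exact mul_le_mul_of_nonneg_right (hh x y ho) (abs_nonneg _)
        _ = H x * ∑ y ∈ fib F x, |u x y - m| := by rw [Finset.mul_sum]
    have s2 : ∑ y ∈ fib F x, |u x y - m| ≤ Real.sqrt F.natDegree * Real.sqrt (q x) := by
      rw [← Real.sqrt_mul (Nat.cast_nonneg _)]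
      apply Real.le_sqrt_of_sq_le
      have := sq_sum_le_card_mul_sum_sq (s := fib F x) (f := fun y => |u x y - m|)
      refine this.trans ?_
      simp only [sq_abs]
      exact mul_le_mul_of_nonneg_right (by exact_mod_cast lb_card F hF x) (hq0 x)
    calc |∑ y ∈ fib F x, h x y * (u x y - m)| ≤ H x * ∑ y ∈ fib F x, |u x y - m| := s1
      _ ≤ H x * (Real.sqrt F.natDegree * Real.sqrt (q x)) :=
          mul_le_mul_of_nonneg_left s2 (hH.nonneg x)
      _ = Real.sqrt F.natDegree * (H x * Real.sqrt (q x)) := by ring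
  have s3 : |∫ x, ∑ y ∈ fib F x, h x y * (u x y - m)| ≤
      ∫ x, Real.sqrt F.natDegree * (H x * Real.sqrt (q x)) :=
    norm_integral_le_of_norm_le (hcs1.const_mul _) hpt
  have hEn : 0 ≤ En F u := integral_nonneg fun x => Finset.sum_nonneg fun y _ => sq_nonneg _
  calc |∫ x, ∑ y ∈ fib F x, h x y * (u x y - m)|
      ≤ ∫ x, Real.sqrt F.natDegree * (H x * Real.sqrt (q x)) := s3
    _ = Real.sqrt F.natDegree * ∫ x, H x * Real.sqrt (q x) := integral_const_mul _ _
    _ ≤ Real.sqrt F.natDegree * (Real.sqrt (∫ x, H x) * Real.sqrt (∫ x, H x * q x)) :=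
        mul_le_mul_of_nonneg_left hcs2 (Real.sqrt_nonneg _)
    _ ≤ Real.sqrt F.natDegree * (Real.sqrt (∫ x, H x) * Real.sqrt (C * En F u)) := by
        refine mul_le_mul_of_nonneg_left (mul_le_mul_of_nonneg_left (Real.sqrt_le_sqrt hi2)
          (Real.sqrt_nonneg _)) (Real.sqrt_nonneg _)
    _ = Real.sqrt F.natDegree * (Real.sqrt (∫ x, H x) * Real.sqrt C) * Real.sqrt (En F u) := by
        rw [Real.sqrt_mul hC0]
        ring

end EGR
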