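import Pool.Agent.EGR.Defs
import Pool.Agent.Recti.Weyl
import Pool.Agent.ALC.Green

/-!
Local limit of a sequence with Cauchy gradients which solves `Δ a = Δ f` weakly in the limit.

PROOF. `dz (a n)` converges in `L^2(ball c r)` to `Φ` (completeness). For real test functions `χ`
the integrals `∫ dz (a n) conj(dz χ)` are real (integration by parts, `∫ (a_1 χ_2 - a_2 χ_1) = 0`),
`∫ dz f conj(dz χ) = -(1/4) ∫ Δf χ`, so `∫ (Φ - dz f) conj(dz χ) = 0` for real `χ`, that is
`∫ (Φ - dz f) dbar χ = 0` (`conj (dz χ) = dbar χ` for real `χ`), and for complex `χ` by linearity.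
`Pool.Recti.weyl`: `Φ - dz f = H` almost everywhere, `H` holomorphic on the disc. Let `W' = 2 H`
(primitive on the disc), `w = f + Re W`: `dz (Re W) = W' / 2 = H` and `Re W` is harmonic.
-/

open MeasureTheory Metric ComplexConjugate Filter Topology
open scoped ContDiff

namespace EGR

private noncomputable def ldv (v : ℂ) (f : ℂ → ℝ) : ℂ → ℝ := fun x => fderiv ℝ f x v

private theorem l_lap {f : ℂ → ℝ} {x : ℂ} (hf : ContDiffAt ℝ 2 f x) :
    Laplacian.laplacian f x = ldv 1 (ldv 1 f) x + ldv Complex.I (ldv Complex.I f) x := by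
  have h1 : DifferentiableAt ℝ (fderiv ℝ f) x :=
    (hf.fderiv_right (m := 1) (by norm_num)).differentiableAt (by norm_num)
  have h2 : ∀ v : ℂ, ldv v (ldv v f) x = fderiv ℝ (fderiv ℝ f) x v v := by
    intro v
    unfold ldv
    rw [fderiv_clm_apply h1 (differentiableAt_const v)]
    simp
  rw [InnerProductSpace.laplacian_eq_iteratedFDeriv_complexPlane]
  simp only [iteratedFDeriv_two_apply]
  rw [h2, h2]
  simp

private theorem l_sym {f : ℂ → ℝ} (hf : ContDiff ℝ 2 f) (v w x : ℂ) :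
    ldv v (ldv w f) x = ldv w (ldv v f) x := by
  have h1 : DifferentiableAt ℝ (fderiv ℝ f) x :=
    (hf.contDiffAt.fderiv_right (m := 1) (by norm_num)).differentiableAt (by norm_num)
  have h2 : ∀ v w : ℂ, ldv v (ldv w f) x = fderiv ℝ (fderiv ℝ f) x v w := by
    intro v w
    unfold ldv
    rw [fderiv_clm_apply h1 (differentiableAt_const w)]
    simp
  have h3 : IsSymmSndFDerivAt ℝ f x :=
    hf.contDiffAt.isSymmSndFDerivAt (by simp [minSmoothness_of_isRCLikeNormedField])
  rw [h2, h2]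
  exact h3 v w

private theorem l_dvC {U : Set ℂ} (hU : IsOpen U) {f : ℂ → ℝ} (v : ℂ) {n : ℕ}
    (hf : ContDiffOn ℝ (n + 1 : ℕ) f U) : ContDiffOn ℝ n (ldv v f) U := by
  have h1 : ContDiffOn ℝ n (fderiv ℝ f) U := hf.fderiv_of_isOpen hU (by norm_cast)
  exact h1.clm_apply contDiffOn_const

private theorem l_ts (v : ℂ) (f : ℂ → ℝ) : tsupport (ldv v f) ⊆ tsupport f := by
  refine (closure_minimal ?_ (isClosed_tsupport f))
  intro x hx
  by_contra h
  have h2 : fderiv ℝ f x = 0 := by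
    have := fun hh => h (tsupport_fderiv_subset ℝ (f := f) hh)
    exact image_eq_zero_of_notMem_tsupport this
  exact hx (by simp [ldv, h2])

private theorem l_int {U : Set ℂ} (hU : IsOpen U) {ψ g : ℂ → ℝ} (hψ : ContinuousOn ψ U)
    (hg : ContinuousOn g U) (hc : HasCompactSupport ψ) (hs : tsupport ψ ⊆ U) :
    Integrable (fun x => ψ x * g x) := by
  have hts : tsupport (fun x => ψ x * g x) ⊆ tsupport ψ := tsupport_mul_subset_left
  have hcont : Continuous (fun x => ψ x * g x) := by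
    refine continuous_iff_continuousAt.2 fun x => ?_
    by_cases hx : x ∈ tsupport ψ
    · exact (hψ.mul hg).continuousAt (hU.mem_nhds (hs hx))
    · have : (fun x => ψ x * g x) =ᶠ[𝓝 x] fun _ => 0 :=
        (notMem_tsupport_iff_eventuallyEq.1 hx).mono fun y hy => by simp [hy]
      exact (continuousAt_const).congr this.symm
  exact hcont.integrable_of_hasCompactSupport (hc.mul_right)

private theorem l_ibp (U : Set ℂ) (hU : IsOpen U) (f ψ : ℂ → ℝ) (hf : ContDiffOn ℝ 2 f U)
    (hψ : ContDiff ℝ 2 ψ) (hc : HasCompactSupport ψ) (hs : tsupport ψ ⊆ U) (v w : ℂ) :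
    ∫ x, f x * ldv v (ldv w ψ) x = - ∫ x, ldv v f x * ldv w ψ x := by
  have hψ1 : ContDiffOn ℝ (1 : ℕ) (ldv w ψ) Set.univ :=
    l_dvC isOpen_univ w (n := 1) (by exact_mod_cast hψ.contDiffOn)
  have hψ2 : ContDiffOn ℝ (0 : ℕ) (ldv v (ldv w ψ)) Set.univ :=
    l_dvC isOpen_univ v (n := 0) (by exact_mod_cast hψ1)
  have hf1 : ContDiffOn ℝ (1 : ℕ) (ldv v f) U := l_dvC hU v (n := 1) (by exact_mod_cast hf)
  have hts : tsupport (ldv w ψ) ⊆ U := (l_ts w ψ).trans hs
  have hcs : HasCompactSupport (ldv w ψ) := hc.mono' (subset_closure.trans (l_ts w ψ))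
  have hts2 : tsupport (ldv v (ldv w ψ)) ⊆ U := (l_ts v _).trans hts
  have hcs2 : HasCompactSupport (ldv v (ldv w ψ)) := hcs.mono' (subset_closure.trans (l_ts v _))
  refine integral_mul_fderiv_eq_neg_fderiv_mul_of_integrable (f := f) (g := ldv w ψ) (v := v)
    ?_ ?_ ?_ ?_ ?_
  · exact (l_int hU (hψ1.continuousOn.mono (Set.subset_univ _)) hf1.continuousOn hcs hts).congr
      (Eventually.of_forall fun x => mul_comm _ _)
  · exact (l_int hU (hψ2.continuousOn.mono (Set.subset_univ _)) hf.continuousOn hcs2 hts2).congr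
      (Eventually.of_forall fun x => mul_comm _ _)
  · exact (l_int hU (hψ1.continuousOn.mono (Set.subset_univ _)) hf.continuousOn hcs hts).congr
      (Eventually.of_forall fun x => mul_comm _ _)
  · intro x hx
    exact (hf.contDiffAt (hU.mem_nhds (hts hx))).differentiableAt (by norm_num)
  · intro x _
    exact (hψ1.contDiffAt Filter.univ_mem).differentiableAt (by norm_num)

private theorem l_ts_dz (χ : ℂ → ℝ) (x : ℂ) (hx : x ∉ tsupport χ) : dz χ x = 0 := by
  have h2 : fderiv ℝ χ x = 0 := by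
    have := fun hh => hx (tsupport_fderiv_subset ℝ (f := χ) hh)
    exact image_eq_zero_of_notMem_tsupport this
  simp [dz, h2]

/-- Green's identity in complex form. -/
private theorem l_green (U : Set ℂ) (hU : IsOpen U) (f ψ : ℂ → ℝ) (hf : ContDiffOn ℝ 2 f U)
    (hψ : ContDiff ℝ 2 ψ) (hc : HasCompactSupport ψ) (hs : tsupport ψ ⊆ U) :
    ∫ x in U, dz f x * conj (dz ψ x) =
      ((-(1 / 4) * ∫ x in U, Laplacian.laplacian f x * ψ x : ℝ) : ℂ) := by
  have hψ1 : ∀ w, ContDiffOn ℝ (1 : ℕ) (ldv w ψ) Set.univ := fun w =>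
    l_dvC isOpen_univ w (n := 1) (by exact_mod_cast hψ.contDiffOn)
  have hψ2 : ∀ v w, ContDiffOn ℝ (0 : ℕ) (ldv v (ldv w ψ)) Set.univ := fun v w =>
    l_dvC isOpen_univ v (n := 0) (by exact_mod_cast hψ1 w)
  have hf1 : ∀ v, ContDiffOn ℝ (1 : ℕ) (ldv v f) U := fun v =>
    l_dvC hU v (n := 1) (by exact_mod_cast hf)
  have hts : ∀ w, tsupport (ldv w ψ) ⊆ U := fun w => (l_ts w ψ).trans hs
  have hcs : ∀ w, HasCompactSupport (ldv w ψ) := fun w =>
    hc.mono' (subset_closure.trans (l_ts w ψ))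
  have hts2 : ∀ v w, tsupport (ldv v (ldv w ψ)) ⊆ U := fun v w => (l_ts v _).trans (hts w)
  have hcs2 : ∀ v w, HasCompactSupport (ldv v (ldv w ψ)) := fun v w =>
    (hcs w).mono' (subset_closure.trans (l_ts v _))
  have hI : ∀ v w, Integrable (fun x => ldv v f x * ldv w ψ x) := fun v w =>
    (l_int hU ((hψ1 w).continuousOn.mono (Set.subset_univ _)) (hf1 v).continuousOn
      (hcs w) (hts w)).congr (Eventually.of_forall fun x => mul_comm _ _)
  have hI2 : ∀ v w, Integrable (fun x => f x * ldv v (ldv w ψ) x) := fun v w =>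
    (l_int hU ((hψ2 v w).continuousOn.mono (Set.subset_univ _)) hf.continuousOn
      (hcs2 v w) (hts2 v w)).congr (Eventually.of_forall fun x => mul_comm _ _)
  have e0 : ∫ x in U, dz f x * conj (dz ψ x) = ∫ x, dz f x * conj (dz ψ x) := by
    refine setIntegral_eq_integral_of_forall_compl_eq_zero fun x hx => ?_
    rw [l_ts_dz ψ x (fun h => hx (hs h))]
    simp
  have e1 : ∫ x in U, Laplacian.laplacian f x * ψ x = ∫ x, Laplacian.laplacian f x * ψ x := by
    refine setIntegral_eq_integral_of_forall_compl_eq_zero fun x hx => ?_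
    rw [image_eq_zero_of_notMem_tsupport (fun h => hx (hs h))]
    simp
  have e2 : ∫ x, Laplacian.laplacian f x * ψ x = ∫ x, f x * Laplacian.laplacian ψ x := by
    rw [← ALC.ibp U hU f ψ hf hψ hc hs]
    exact integral_congr_ae (Eventually.of_forall fun x => mul_comm _ _)
  have e3 : ∫ x, f x * Laplacian.laplacian ψ x =
      -(∫ x, ldv 1 f x * ldv 1 ψ x) - ∫ x, ldv Complex.I f x * ldv Complex.I ψ x := by
    have : ∀ x, f x * Laplacian.laplacian ψ x =
        f x * ldv 1 (ldv 1 ψ) x + f x * ldv Complex.I (ldv Complex.I ψ) x := by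
      intro x
      rw [l_lap hψ.contDiffAt]; ring
    simp_rw [this]
    rw [integral_add (hI2 _ _) (hI2 _ _), l_ibp U hU f ψ hf hψ hc hs,
      l_ibp U hU f ψ hf hψ hc hs]
    ring
  have e4 : ∫ x, ldv 1 f x * ldv Complex.I ψ x = ∫ x, ldv Complex.I f x * ldv 1 ψ x := by
    have h1 := l_ibp U hU f ψ hf hψ hc hs 1 Complex.I
    have h2 := l_ibp U hU f ψ hf hψ hc hs Complex.I 1
    have h3 : ∫ x, f x * ldv 1 (ldv Complex.I ψ) x = ∫ x, f x * ldv Complex.I (ldv 1 ψ) x :=
      integral_congr_ae (Eventually.of_forall fun x => by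
        show f x * ldv 1 (ldv Complex.I ψ) x = f x * ldv Complex.I (ldv 1 ψ) x
        rw [l_sym hψ])
    linarith
  have e5 : ∀ x, dz f x * conj (dz ψ x) =
      ((1 / 4 * (ldv 1 f x * ldv 1 ψ x + ldv Complex.I f x * ldv Complex.I ψ x) : ℝ) : ℂ) +
      ((1 / 4 * (ldv 1 f x * ldv Complex.I ψ x - ldv Complex.I f x * ldv 1 ψ x) : ℝ) : ℂ) *
        Complex.I := by
    intro x
    have e6 : conj (dz ψ x) = (((fderiv ℝ ψ x 1 : ℝ) : ℂ) +
        Complex.I * ((fderiv ℝ ψ x Complex.I : ℝ) : ℂ)) / 2 := by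
      unfold dz
      rw [map_div₀, map_sub, map_mul, Complex.conj_ofReal, Complex.conj_ofReal, Complex.conj_I,
        Complex.conj_ofNat]
      ring
    rw [e6]
    unfold dz ldv
    push_cast
    linear_combination (-(1 / 4) * ((fderiv ℝ f x Complex.I : ℝ) : ℂ) *
      ((fderiv ℝ ψ x Complex.I : ℝ) : ℂ)) * Complex.I_sq
  rw [e0, e1, e2, e3]
  simp_rw [e5]
  have hJ1 : Integrable (fun x => 1 / 4 * (ldv 1 f x * ldv 1 ψ x +
      ldv Complex.I f x * ldv Complex.I ψ x)) := ((hI _ _).add (hI _ _)).const_mul _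
  have hJ2 : Integrable (fun x => 1 / 4 * (ldv 1 f x * ldv Complex.I ψ x -
      ldv Complex.I f x * ldv 1 ψ x)) := ((hI _ _).sub (hI _ _)).const_mul _
  have k1 : ∀ u : ℂ → ℝ, ∫ x, ((u x : ℝ) : ℂ) = ((∫ x, u x : ℝ) : ℂ) := fun u => integral_ofReal
  rw [integral_add hJ1.ofReal (hJ2.ofReal.mul_const _), integral_mul_const, k1, k1,
    integral_const_mul, integral_const_mul, integral_add (hI _ _) (hI _ _),
    integral_sub (hI _ _) (hI _ _), e4]
  push_cast
  ring

private theorem l_norm {μ : Measure ℂ} {h : ℂ → ℂ} (hh : MemLp h 2 μ) :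
    ‖hh.toLp‖ ^ 2 = ∫ x, ‖h x‖ ^ 2 ∂μ := by
  have h0 : (0 : ℝ) ≤ ∫ x, ‖h x‖ ^ 2 ∂μ := integral_nonneg fun x => by positivity
  rw [Lp.norm_toLp, hh.eLpNorm_eq_integral_rpow_norm (by norm_num) (by norm_num)]
  have e : ∀ x, ‖h x‖ ^ (2 : ENNReal).toReal = ‖h x‖ ^ 2 := fun x => by
    rw [ENNReal.toReal_ofNat, Real.rpow_ofNat]
  simp_rw [e]
  rw [ENNReal.toReal_ofReal (by positivity), ← Real.rpow_natCast, ← Real.rpow_mul h0]
  simp

private theorem l_dzC {U : Set ℂ} (hU : IsOpen U) {f : ℂ → ℝ} (hf : ContDiffOn ℝ 2 f U) :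
    ContinuousOn (dz f) U := by
  have h1 : ContinuousOn (fderiv ℝ f) U :=
    hf.continuousOn_fderiv_of_isOpen hU (by norm_num)
  unfold dz
  have h2 : ∀ v : ℂ, ContinuousOn (fun x => ((fderiv ℝ f x v : ℝ) : ℂ)) U := fun v =>
    Complex.continuous_ofReal.comp_continuousOn (h1.clm_apply continuousOn_const)
  exact ((h2 1).sub (continuousOn_const.mul (h2 Complex.I))).div_const 2

private theorem l_dbar (χ : ℂ → ℂ) (hχ : ContDiff ℝ ∞ χ) (x : ℂ) :
    Pool.Lib.dbar χ x = conj (dz (fun z => (χ z).re) x) +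
      Complex.I * conj (dz (fun z => (χ z).im) x) := by
  have hd : HasFDerivAt χ (fderiv ℝ χ x) x :=
    ((hχ.differentiable (by simp)) x).hasFDerivAt
  have h1 : fderiv ℝ (fun z => (χ z).re) x = Complex.reCLM.comp (fderiv ℝ χ x) :=
    (Complex.reCLM.hasFDerivAt.comp x hd).fderiv
  have h2 : fderiv ℝ (fun z => (χ z).im) x = Complex.imCLM.comp (fderiv ℝ χ x) :=
    (Complex.imCLM.hasFDerivAt.comp x hd).fderiv
  have e6 : ∀ ψ : ℂ → ℝ, conj (dz ψ x) = (((fderiv ℝ ψ x 1 : ℝ) : ℂ) +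
      Complex.I * ((fderiv ℝ ψ x Complex.I : ℝ) : ℂ)) / 2 := by
    intro ψ
    unfold dz
    rw [map_div₀, map_sub, map_mul, Complex.conj_ofReal, Complex.conj_ofReal, Complex.conj_I,
      Complex.conj_ofNat]
    ring
  rw [e6, e6, h1, h2]
  unfold Pool.Lib.dbar
  simp only [ContinuousLinearMap.comp_apply, Complex.reCLM_apply, Complex.imCLM_apply]
  have k1 := Complex.re_add_im (fderiv ℝ χ x 1)
  have k2 := Complex.re_add_im (fderiv ℝ χ x Complex.I)
  linear_combination (-(1 / 2) : ℂ) * k1 - (1 / 2) * Complex.I * k2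

theorem loc (c : ℂ) (r : ℝ) (hr : 0 < r) (a : ℕ → ℂ → ℝ)
    (ha : ∀ n, ContDiffOn ℝ 2 (a n) (ball c r))
    (hi : ∀ n, IntegrableOn (fun x => ‖dz (a n) x‖ ^ 2) (ball c r))
    (hC : ∀ ε : ℝ, 0 < ε → ∃ N : ℕ, ∀ m ≥ N, ∀ n ≥ N,
      ∫ x in ball c r, ‖dz (a m) x - dz (a n) x‖ ^ 2 ≤ ε)
    (f : ℂ → ℝ) (hf : ContDiffOn ℝ 2 f (ball c r))
    (hfi : IntegrableOn (fun x => ‖dz f x‖ ^ 2) (ball c r))
    (hw : ∀ χ : ℂ → ℝ, ContDiff ℝ ∞ χ → HasCompactSupport χ → tsupport χ ⊆ ball c r →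
      Tendsto (fun n => ∫ x in ball c r, (dz (a n) x * conj (dz χ x)).re) atTop
        (𝓝 (-(1 / 4) * ∫ x in ball c r, Laplacian.laplacian f x * χ x))) :
    ∃ w : ℂ → ℝ, ContDiffOn ℝ 2 w (ball c r) ∧
      (∀ x ∈ ball c r, Laplacian.laplacian w x = Laplacian.laplacian f x) ∧
      IntegrableOn (fun x => ‖dz w x‖ ^ 2) (ball c r) ∧
      Tendsto (fun n => ∫ x in ball c r, ‖dz (a n) x - dz w x‖ ^ 2) atTop (𝓝 0) := by
  set U := ball c r with hUdef
  have hU : IsOpen U := isOpen_ball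
  have hUm : MeasurableSet U := measurableSet_ball
  set μ : Measure ℂ := volume.restrict U with hμ
  have : IsFiniteMeasure μ := ⟨by
    rw [hμ, Measure.restrict_apply_univ]; exact measure_ball_lt_top⟩
  have hmeas : ∀ g : ℂ → ℝ, ContDiffOn ℝ 2 g U → AEStronglyMeasurable (dz g) μ := fun g hg =>
    (l_dzC hU hg).aestronglyMeasurable hUm
  have hL : ∀ n, MemLp (dz (a n)) 2 μ := fun n =>
    (memLp_two_iff_integrable_sq_norm (hmeas _ (ha n))).2 (hi n)
  have hLf : MemLp (dz f) 2 μ := (memLp_two_iff_integrable_sq_norm (hmeas _ hf)).2 hfi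
  -- limit
  have hcau : CauchySeq (fun n => (hL n).toLp) := by
    rw [Metric.cauchySeq_iff]
    intro ε hε
    obtain ⟨N, hN⟩ := hC (ε ^ 2 / 4) (by positivity)
    refine ⟨N, fun m hm n hn => ?_⟩
    rw [dist_eq_norm, ← MemLp.toLp_sub]
    have h1 := hN m hm n hn
    have h2 := l_norm ((hL m).sub (hL n))
    have h3 : ∫ x, ‖(dz (a m) - dz (a n)) x‖ ^ 2 ∂μ ≤ ε ^ 2 / 4 := h1
    rw [← h2] at h3
    have h4 : (0 : ℝ) ≤ ‖((hL m).sub (hL n)).toLp‖ := norm_nonneg _
    nlinarith
  obtain ⟨Φ, hΦ⟩ := cauchySeq_tendsto_of_complete hcau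
  have hconv : Tendsto (fun n => ∫ x, ‖dz (a n) x - Φ x‖ ^ 2 ∂μ) atTop (𝓝 0) := by
    have h1 : Tendsto (fun n => ‖(hL n).toLp - Φ‖ ^ 2) atTop (𝓝 0) := by
      have := (tendsto_iff_norm_sub_tendsto_zero.1 hΦ).pow 2
      simpa using this
    refine h1.congr fun n => ?_
    have h2 : (hL n).toLp - Φ = ((hL n).sub (Lp.memLp Φ)).toLp := by
      rw [MemLp.toLp_sub (hL n) (Lp.memLp Φ), Lp.toLp_coeFn]
    rw [h2, l_norm]
    rfl
  -- test functions
  have hdzL : ∀ χ : ℂ → ℝ, ContDiff ℝ ∞ χ → HasCompactSupport χ → MemLp (dz χ) 2 μ := by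
    intro χ hχ hc
    have h1 : Continuous (dz χ) := by
      rw [← continuousOn_univ]
      exact l_dzC isOpen_univ ((hχ.of_le (WithTop.coe_le_coe.2 le_top)).contDiffOn)
    have h2 : HasCompactSupport (dz χ) := by
      refine hc.mono' ?_
      intro x hx
      by_contra h
      exact hx (l_ts_dz χ x h)
    exact (h1.memLp_of_hasCompactSupport h2).restrict U
  have hreal : ∀ χ : ℂ → ℝ, ContDiff ℝ ∞ χ → HasCompactSupport χ → tsupport χ ⊆ U →
      ∫ x, (Φ x - dz f x) * conj (dz χ x) ∂μ = 0 := by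
    intro χ hχ hc hs
    have hχ2 : ContDiff ℝ 2 χ := hχ.of_le (WithTop.coe_le_coe.2 le_top)
    have hT := hdzL χ hχ hc
    have hin : ∀ (h : ℂ → ℂ) (hh : MemLp h 2 μ), inner ℂ (hT.toLp) (hh.toLp) =
        ∫ x, h x * conj (dz χ x) ∂μ := by
      intro h hh
      rw [L2.inner_def]
      refine integral_congr_ae ?_
      filter_upwards [hT.coeFn_toLp, hh.coeFn_toLp] with x h1 h2
      rw [h1, h2]
      simp
    have hint : ∀ (h : ℂ → ℂ) (hh : MemLp h 2 μ),
        Integrable (fun x => h x * conj (dz χ x)) μ := by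
      intro h hh
      have h1 : MemLp (fun x => conj (dz χ x)) 2 μ := by
        refine ⟨Complex.continuous_conj.comp_aestronglyMeasurable hT.1, ?_⟩
        have : eLpNorm (fun x => conj (dz χ x)) 2 μ = eLpNorm (dz χ) 2 μ :=
          eLpNorm_congr_norm_ae (Eventually.of_forall fun x => by simp)
        rw [this]
        exact hT.2
      exact hh.integrable_mul h1
    have h1 : Tendsto (fun n => ∫ x, dz (a n) x * conj (dz χ x) ∂μ) atTop
        (𝓝 (∫ x, Φ x * conj (dz χ x) ∂μ)) := by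
      have h2 : Tendsto (fun n => inner ℂ (hT.toLp) ((hL n).toLp)) atTop
          (𝓝 (inner ℂ (hT.toLp) Φ)) := tendsto_const_nhds.inner hΦ
      have h3 : inner ℂ (hT.toLp) Φ = ∫ x, Φ x * conj (dz χ x) ∂μ := by
        rw [← hin _ (Lp.memLp Φ), Lp.toLp_coeFn]
      rw [h3] at h2
      exact h2.congr fun n => hin _ (hL n)
    have h4 : Tendsto (fun n => ∫ x, dz (a n) x * conj (dz χ x) ∂μ) atTop
        (𝓝 ((-(1 / 4) * ∫ x in U, Laplacian.laplacian f x * χ x : ℝ) : ℂ)) := by
      have h5 := (Complex.continuous_ofReal.tendsto _).comp (hw χ hχ hc hs)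
      refine h5.congr fun n => ?_
      show ((∫ x in U, (dz (a n) x * conj (dz χ x)).re : ℝ) : ℂ) = _
      have h6 : ∫ x in U, (dz (a n) x * conj (dz χ x)).re =
          (∫ x in U, dz (a n) x * conj (dz χ x)).re := by
        have := integral_re (hint _ (hL n))
        simpa using this
      rw [h6]
      have h7 := l_green U hU (a n) χ (ha n) hχ2 hc hs
      rw [h7, Complex.ofReal_re]
    have h8 := tendsto_nhds_unique h1 h4
    have h9 := l_green U hU f χ hf hχ2 hc hs
    have h10 : ∫ x, (Φ x - dz f x) * conj (dz χ x) ∂μ =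
        ∫ x, Φ x * conj (dz χ x) ∂μ - ∫ x, dz f x * conj (dz χ x) ∂μ := by
      rw [← integral_sub (hint _ (Lp.memLp Φ)) (hint _ hLf)]
      refine integral_congr_ae (Eventually.of_forall fun x => ?_)
      exact sub_mul _ _ _
    rw [h10, h8, h9, sub_self]
  have hFL : MemLp (fun x => Φ x - dz f x) 2 μ := (Lp.memLp Φ).sub hLf
  have hFi : IntegrableOn (fun x => Φ x - dz f x) U :=
    hFL.integrable (by norm_num)
  obtain ⟨G, hG, hFG⟩ := Pool.Recti.weyl hU (F := fun x => Φ x - dz f x)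
    hFi.locallyIntegrableOn (by
      intro χ hχ hc hs
      have hre : ContDiff ℝ ∞ (fun z => (χ z).re) := Complex.reCLM.contDiff.comp hχ
      have him : ContDiff ℝ ∞ (fun z => (χ z).im) := Complex.imCLM.contDiff.comp hχ
      have hsr : tsupport (fun z => (χ z).re) ⊆ tsupport χ := by
        refine closure_mono fun x hx => ?_
        intro h
        exact hx (by simp [h])
      have hsi : tsupport (fun z => (χ z).im) ⊆ tsupport χ := by
        refine closure_mono fun x hx => ?_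
        intro h
        exact hx (by simp [h])
      have hcr : HasCompactSupport (fun z => (χ z).re) := hc.mono' (subset_closure.trans hsr)
      have hci : HasCompactSupport (fun z => (χ z).im) := hc.mono' (subset_closure.trans hsi)
      have h1 := hreal _ hre hcr (hsr.trans hs)
      have h2 := hreal _ him hci (hsi.trans hs)
      have hint : ∀ ψ : ℂ → ℝ, ContDiff ℝ ∞ ψ → HasCompactSupport ψ →
          Integrable (fun x => (Φ x - dz f x) * conj (dz ψ x)) μ := by
        intro ψ hψ hψc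
        have hT := hdzL ψ hψ hψc
        have h1 : MemLp (fun x => conj (dz ψ x)) 2 μ := by
          refine ⟨Complex.continuous_conj.comp_aestronglyMeasurable hT.1, ?_⟩
          have : eLpNorm (fun x => conj (dz ψ x)) 2 μ = eLpNorm (dz ψ) 2 μ :=
            eLpNorm_congr_norm_ae (Eventually.of_forall fun x => by simp)
          rw [this]
          exact hT.2
        exact hFL.integrable_mul h1
      have e0 : ∫ z, (Φ z - dz f z) * Pool.Lib.dbar χ z =
          ∫ z in U, (Φ z - dz f z) * Pool.Lib.dbar χ z := by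
        refine (setIntegral_eq_integral_of_forall_compl_eq_zero fun x hx => ?_).symm
        have : Pool.Lib.dbar χ x = 0 := by
          refine image_eq_zero_of_notMem_tsupport fun h => ?_
          exact hx (hs (Pool.Lib.tsupport_dbar_subset χ h))
        rw [this, mul_zero]
      rw [e0]
      have e1 : ∀ z, (Φ z - dz f z) * Pool.Lib.dbar χ z =
          (Φ z - dz f z) * conj (dz (fun z => (χ z).re) z) +
          Complex.I * ((Φ z - dz f z) * conj (dz (fun z => (χ z).im) z)) := by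
        intro z
        rw [l_dbar χ hχ z]
        ring
      simp_rw [e1]
      rw [integral_add (hint _ hre hcr) ((hint _ him hci).const_mul _), integral_const_mul, h1, h2]
      simp)
  -- primitive
  obtain ⟨W, hW⟩ : ∃ W : ℂ → ℂ, ∀ z ∈ U, HasDerivAt W (2 * G z) z := by
    have h1 : DifferentiableOn ℂ (fun z => 2 * G z) (ball c r) := hG.const_mul 2
    exact h1.isExactOn_ball
  have hWd : DifferentiableOn ℂ W U := fun z hz => (hW z hz).differentiableAt.differentiableWithinAt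
  have hWr : ContDiffOn ℝ 2 (fun z => (W z).re) U := by
    have h1 : ContDiffOn ℂ 2 W U := hWd.contDiffOn hU
    have h2 : ContDiffOn ℝ 2 W U := h1.restrict_scalars ℝ
    exact Complex.reCLM.contDiff.comp_contDiffOn h2
  have hdz : ∀ x ∈ U, dz (fun z => f z + (W z).re) x = dz f x + G x := by
    intro x hx
    have h1 : HasFDerivAt f (fderiv ℝ f x) x :=
      ((hf.contDiffAt (hU.mem_nhds hx)).differentiableAt (by norm_num)).hasFDerivAt
    have h2 : HasFDerivAt W ((fderiv ℂ W x).restrictScalars ℝ) x :=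
      (hW x hx).differentiableAt.hasFDerivAt.restrictScalars ℝ
    have h3 : HasFDerivAt (fun z => f z + (W z).re)
        (fderiv ℝ f x + Complex.reCLM.comp ((fderiv ℂ W x).restrictScalars ℝ)) x :=
      h1.add (Complex.reCLM.hasFDerivAt.comp x h2)
    have h4 : ∀ v : ℂ, fderiv ℂ W x v = v * (2 * G x) := by
      intro v
      have h5 : fderiv ℂ W x v = v * fderiv ℂ W x 1 := by
        simp
      rw [h5, fderiv_apply_one_eq_deriv, (hW x hx).deriv]
    unfold dz
    rw [h3.fderiv]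
    simp only [add_apply, ContinuousLinearMap.comp_apply,
      Complex.reCLM_apply, ContinuousLinearMap.coe_restrictScalars', h4]
    apply Complex.ext <;> simp <;> ring
  refine ⟨fun z => f z + (W z).re, hf.add hWr, ?_, ?_, ?_⟩
  · intro x hx
    have h1 : ContDiffAt ℝ 2 f x := hf.contDiffAt (hU.mem_nhds hx)
    have h2 : ContDiffAt ℝ 2 (fun z => (W z).re) x := hWr.contDiffAt (hU.mem_nhds hx)
    have h3 : AnalyticAt ℂ W x := hWd.analyticAt (hU.mem_nhds hx)
    have h4 := h3.harmonicAt_re.2.eq_of_nhds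
    have h5 := h1.laplacian_add h2
    have h6 : (f + fun z => (W z).re) = fun z => f z + (W z).re := rfl
    rw [h6] at h5
    rw [h5, h4]
    simp
  · have h1 : (dz (fun z => f z + (W z).re)) =ᵐ[μ] Φ := by
      have h2 : ∀ᵐ x ∂μ, x ∈ U := ae_restrict_mem hUm
      filter_upwards [hFG, h2] with x h3 h4
      rw [hdz x h4, ← h3]
      ring
    have h5 : MemLp (dz (fun z => f z + (W z).re)) 2 μ := (memLp_congr_ae h1).2 (Lp.memLp Φ)
    exact (memLp_two_iff_integrable_sq_norm h5.1).1 h5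
  · refine hconv.congr fun n => ?_
    refine integral_congr_ae ?_
    have h2 : ∀ᵐ x ∂μ, x ∈ U := ae_restrict_mem hUm
    filter_upwards [hFG, h2] with x h3 h4
    rw [hdz x h4, ← h3]
    congr 2
    ring

end EGR
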