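import Pool.Agent.EGR.Defs

/-!
Sums over the sheets: continuity, smoothness, derivative, measurability.

PROOF. `ALC.sheets` (and `private` arguments in `ALC/Sq.lean`): near a separable `x0` there are
branches `Y j`, `j : Fin d`, with distinct values which run through `fib F x`, so
`∑ y ∈ fib F x, H x y = ∑ j, H x (Y j x)` there. Everything is local; the bad set is finite
(`ALC.bad_finite`), its complement is open.
-/

open Polynomial MeasureTheory Metric ComplexConjugate Filter Topology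

namespace EGR

open ALC

variable (F : ℂ[X][X]) (hF : F.Monic)

include hF

theorem local_sum (x0 : ℂ) (h0 : (at_ F x0).Separable) :
    ∃ r : ℝ, 0 < r ∧ ∃ Y : Fin F.natDegree → ℂ → ℂ, (∀ j, IsBranch F (ball x0 r) (Y j)) ∧
      (∀ x ∈ ball x0 r, Function.Injective (fun j => Y j x)) ∧
      (∀ x ∈ ball x0 r, ∀ y, y ∈ fib F x ↔ ∃ j, Y j x = y) ∧
      ∀ (E : Type) [AddCommMonoid E] (H : ℂ → ℂ → E), ∀ x ∈ ball x0 r,
        ∑ y ∈ fib F x, H x y = ∑ j, H x (Y j x) := by
  classical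
  obtain ⟨r, hr, Y, hY, hfib⟩ := sheets F hF x0 h0
  refine ⟨r, hr, Y, hY, fun x hx => (hfib x hx).1, fun x hx => (hfib x hx).2, ?_⟩
  intro E _ H x hx
  obtain ⟨hinj, himg⟩ := hfib x hx
  have h1 : fib F x = Finset.univ.image (fun j => Y j x) := by
    ext y
    rw [himg y, Finset.mem_image]
    simp
  rw [h1, Finset.sum_image fun a _ b _ h => hinj h]

theorem sep_open : IsOpen {x : ℂ | (at_ F x).Separable} := by
  by_cases h : ∃ b, (at_ F b).Separable
  · obtain ⟨b, hb⟩ := h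
    have h1 := (bad_finite F hF b hb).isClosed.isOpen_compl
    have h2 : {x : ℂ | (at_ F x).Separable} = {x : ℂ | ¬ (at_ F x).Separable}ᶜ := by
      ext x
      simp
    rw [h2]
    exact h1
  · have h2 : {x : ℂ | (at_ F x).Separable} = ∅ := by
      ext x
      simp only [Set.mem_ofPred_eq, Set.mem_empty_iff_false, iff_false]
      exact fun hx => h ⟨x, hx⟩
    rw [h2]
    exact isOpen_empty

theorem contOn_sum {E : Type} [NormedAddCommGroup E] (H : ℂ → ℂ → E)
    (hH : ∀ U Y, IsBranch F U Y → ContinuousOn (fun x => H x (Y x)) U) :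
    ContinuousOn (fun x => ∑ y ∈ fib F x, H x y) {x | (at_ F x).Separable} := by
  intro x0 hx0
  obtain ⟨r, hr, Y, hY, -, -, hsum⟩ := local_sum F hF x0 hx0
  have hb : ball x0 r ∈ 𝓝 x0 := ball_mem_nhds x0 hr
  have h1 : ContinuousAt (fun x => ∑ j, H x (Y j x)) x0 := by
    refine tendsto_finsetSum _ fun j _ => ?_
    exact (hH _ _ (hY j)).continuousAt hb
  have h2 : (fun x => ∑ y ∈ fib F x, H x y) =ᶠ[𝓝 x0] fun x => ∑ j, H x (Y j x) := by
    filter_upwards [hb] with x hx
    exact hsum E H x hx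
  exact (h1.congr h2.symm).continuousWithinAt

theorem contDiffOn_sum (n : ℕ) (a : ℂ → ℂ → ℝ)
    (ha : ∀ U Y, IsBranch F U Y → ContDiffOn ℝ n (fun x => a x (Y x)) U) :
    ContDiffOn ℝ n (fun x => ∑ y ∈ fib F x, a x y) {x | (at_ F x).Separable} := by
  intro x0 hx0
  obtain ⟨r, hr, Y, hY, -, -, hsum⟩ := local_sum F hF x0 hx0
  have hb : ball x0 r ∈ 𝓝 x0 := ball_mem_nhds x0 hr
  have h1 : ContDiffAt ℝ n (fun x => ∑ j, a x (Y j x)) x0 := by
    refine ContDiffAt.sum fun j _ => ?_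
    exact (ha _ _ (hY j)).contDiffAt hb
  have h2 : (fun x => ∑ y ∈ fib F x, a x y) =ᶠ[𝓝 x0] fun x => ∑ j, a x (Y j x) := by
    filter_upwards [hb] with x hx
    exact hsum ℝ a x hx
  exact (h1.congr_of_eventuallyEq h2).contDiffWithinAt

omit hF in
private lemma sum_dz {ι : Type} (s : Finset ι) (f : ι → ℂ → ℝ) (x : ℂ)
    (hf : ∀ j ∈ s, DifferentiableAt ℝ (f j) x) :
    dz (fun z => ∑ j ∈ s, f j z) x = ∑ j ∈ s, dz (f j) x := by
  unfold dz
  rw [fderiv_fun_sum hf]
  rw [← Finset.sum_div, Finset.sum_sub_distrib, ← Finset.mul_sum]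
  simp only [FunLike.coe_sum, Finset.sum_apply]
  push_cast
  rfl

theorem dz_sum (a : ℂ → ℂ → ℝ)
    (ha : ∀ U Y, IsBranch F U Y → DifferentiableOn ℝ (fun x => a x (Y x)) U) (x : ℂ)
    (hx : (at_ F x).Separable) :
    dz (fun x => ∑ y ∈ fib F x, a x y) x = ∑ y ∈ fib F x, D F a x y := by
  obtain ⟨r, hr, Y, hY, -, -, hsum⟩ := local_sum F hF x hx
  have hb : ball x r ∈ 𝓝 x := ball_mem_nhds x hr
  have hm : x ∈ ball x r := mem_ball_self hr
  have h2 : (fun x => ∑ y ∈ fib F x, a x y) =ᶠ[𝓝 x] fun x => ∑ j, a x (Y j x) := by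
    filter_upwards [hb] with z hz
    exact hsum ℝ a z hz
  have h3 : dz (fun x => ∑ y ∈ fib F x, a x y) x = dz (fun x => ∑ j, a x (Y j x)) x := by
    unfold dz
    rw [h2.fderiv_eq]
  rw [h3, sum_dz Finset.univ (fun j z => a z (Y j z)) x
    (fun j _ => (ha _ _ (hY j)).differentiableAt hb), hsum ℂ (D F a) x hm]
  exact Finset.sum_congr rfl fun j _ => (D_eq F hF (hY j) hm a).symm

/-- measurability of sums over the sheets (the bad set is finite) -/
theorem meas_sum (b : ℂ) (hb : (at_ F b).Separable) {E : Type} [NormedAddCommGroup E]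
    (H : ℂ → ℂ → E)
    (hH : ∀ U Y, IsBranch F U Y → ContinuousOn (fun x => H x (Y x)) U) :
    AEStronglyMeasurable (fun x => ∑ y ∈ fib F x, H x y) volume := by
  have h1 := contOn_sum F hF H hH
  have h2 : ∀ᵐ x ∂(volume : Measure ℂ), x ∈ {x | (at_ F x).Separable} := by
    have h3 : (volume : Measure ℂ) {x : ℂ | ¬ (at_ F x).Separable} = 0 :=
      (bad_finite F hF b hb).measure_zero _
    exact ae_iff.2 h3
  have h4 := h1.aestronglyMeasurable (μ := (volume : Measure ℂ)) (sep_open F hF).measurableSet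
  rwa [Measure.restrict_eq_self_of_ae_mem h2] at h4

theorem D_cont (u : ℂ → ℂ → ℝ)
    (hu : ∀ U Y, IsBranch F U Y → ContDiffOn ℝ 1 (fun x => u x (Y x)) U) :
    ∀ U Y, IsBranch F U Y → ContinuousOn (fun x => D F u x (Y x)) U := by
  intro U Y hY
  have h1 : ContinuousOn (fun x => fderiv ℝ (fun x' => u x' (Y x')) x) U :=
    (hu U Y hY).continuousOn_fderiv_of_isOpen hY.1 le_rfl
  have h2 : ContinuousOn (fun x => dz (fun x' => u x' (Y x')) x) U := by
    unfold dz
    have h3 : ∀ v : ℂ, ContinuousOn (fun x =>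
        (((fderiv ℝ (fun x' => u x' (Y x')) x v : ℝ)) : ℂ)) U := fun v =>
      Complex.continuous_ofReal.comp_continuousOn (h1.clm_apply continuousOn_const)
    exact ((h3 1).sub (continuousOn_const.mul (h3 Complex.I))).div_const 2
  exact h2.congr fun x hx => D_eq F hF hY hx u

end EGR
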