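import Pool.Agent.EGR.Esym
import Pool.Agent.EGR.Sum

/-!
Traces of square integrable rational functions on the curve are polynomials of bounded degree.

PROOF. `φ = Q / D`; by `trace_fib` for `Q y^i` the trace of `φ y^i` is `N(x) / D(x)` for some
polynomial `N`. `|N / D|^2 ≤ (∑ |rat φ x y|^2) (∑ |y|^(2 i))`; `∑ |y|^(2 i)` is locally bounded (`F` is
monic in `y`) and `O((1 + |x|)^κ)` with `κ` depending only on `F`. A rational function which is
locally square integrable has no poles (`∫ |x - a|^(-2)` diverges), so `N / D = p` is a polynomial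
(at the zeros of `D` which are separable too, by continuity; the assertion is only for
`D(x) ≠ 0`); `∫ |p|^2 (1 + |x|)^(-κ) < ∞` bounds its degree.
-/

open Polynomial MeasureTheory Metric ComplexConjugate Filter Topology

namespace EGR

open ALC

/-- bound for a polynomial -/
private lemma onba_poly_bound (c : ℂ[X]) :
    ∃ S : ℝ, 0 ≤ S ∧ ∀ x : ℂ, ‖c.eval x‖ ≤ S * (1 + ‖x‖) ^ c.natDegree := by
  refine ⟨∑ i ∈ Finset.range (c.natDegree + 1), ‖c.coeff i‖,
    Finset.sum_nonneg fun _ _ => norm_nonneg _, fun x => ?_⟩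
  rw [eval_eq_sum_range, Finset.sum_mul]
  refine (norm_sum_le _ _).trans (Finset.sum_le_sum fun i hi => ?_)
  rw [norm_mul, norm_pow]
  refine mul_le_mul_of_nonneg_left ?_ (norm_nonneg _)
  have h1 : ‖x‖ ^ i ≤ (1 + ‖x‖) ^ i :=
    pow_le_pow_left₀ (norm_nonneg _) (by linarith [norm_nonneg x]) i
  have h2 : (1 + ‖x‖) ^ i ≤ (1 + ‖x‖) ^ c.natDegree :=
    pow_le_pow_right₀ (by linarith [norm_nonneg x])
      (Nat.lt_succ_iff.mp (Finset.mem_range.mp hi))
  exact h1.trans h2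

/-- bound for the points of the curve -/
private lemma onba_root_bound (F : ℂ[X][X]) (hF : F.Monic) :
    ∃ (C : ℝ) (k : ℕ), 1 ≤ C ∧ ∀ x y : ℂ, y ∈ fib F x → ‖y‖ ≤ C * (1 + ‖x‖) ^ k := by
  choose S hS0 hS using fun i : ℕ => onba_poly_bound (F.coeff i)
  set k := (Finset.range F.natDegree).sup fun i => (F.coeff i).natDegree with hk
  refine ⟨1 + ∑ i ∈ Finset.range F.natDegree, S i, k, by
    linarith [Finset.sum_nonneg fun i (_ : i ∈ Finset.range F.natDegree) => hS0 i], ?_⟩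
  intro x y hy
  have hroot : IsRoot (at_ F x) y := (mem_fib F hF x y).1 hy
  have hm : (at_ F x).Monic := hF.map _
  have h1 := hroot.norm_lt_cauchyBound hm.ne_zero
  have hdeg : (at_ F x).natDegree = F.natDegree := hF.natDegree_map _
  have h2 : ((at_ F x).cauchyBound : ℝ) ≤
      ∑ i ∈ Finset.range F.natDegree, ‖(F.coeff i).eval x‖ + 1 := by
    rw [cauchyBound, hm.leadingCoeff, nnnorm_one, div_one, NNReal.coe_add, NNReal.coe_one, hdeg]
    gcongr
    have h3 : (Finset.range F.natDegree).sup (fun i => ‖(at_ F x).coeff i‖₊) ≤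
        ∑ i ∈ Finset.range F.natDegree, ‖(F.coeff i).eval x‖₊ := by
      refine Finset.sup_le fun i hi => ?_
      have h4 : (at_ F x).coeff i = (F.coeff i).eval x := by
        rw [at_, coeff_map]
        rfl
      rw [h4]
      exact Finset.single_le_sum (f := fun i => ‖(F.coeff i).eval x‖₊)
        (fun _ _ => zero_le) hi
    have h5 : ((∑ i ∈ Finset.range F.natDegree, ‖(F.coeff i).eval x‖₊ : NNReal) : ℝ) =
        ∑ i ∈ Finset.range F.natDegree, ‖(F.coeff i).eval x‖ := by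
      push_cast
      rfl
    rw [← h5]
    exact_mod_cast h3
  have hx1 : (1 : ℝ) ≤ 1 + ‖x‖ := by linarith [norm_nonneg x]
  have h6 : ∑ i ∈ Finset.range F.natDegree, ‖(F.coeff i).eval x‖ ≤
      (∑ i ∈ Finset.range F.natDegree, S i) * (1 + ‖x‖) ^ k := by
    rw [Finset.sum_mul]
    refine Finset.sum_le_sum fun i hi => (hS i x).trans ?_
    refine mul_le_mul_of_nonneg_left (pow_le_pow_right₀ hx1 ?_) (hS0 i)
    exact Finset.le_sup (f := fun i => (F.coeff i).natDegree) hi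
  have h7 : (1 : ℝ) ≤ (1 + ‖x‖) ^ k := one_le_pow₀ hx1
  calc ‖y‖ ≤ ((at_ F x).cauchyBound : ℝ) := by exact_mod_cast h1.le
    _ ≤ _ := h2
    _ ≤ (1 + ∑ i ∈ Finset.range F.natDegree, S i) * (1 + ‖x‖) ^ k := by
      rw [add_mul, one_mul]
      linarith

/-- bound for the sums of the powers -/
private lemma onba_sum_bound (F : ℂ[X][X]) (hF : F.Monic) :
    ∃ (C : ℝ) (κ : ℕ), 0 < C ∧ ∀ x : ℂ, ∀ i < F.natDegree,
      ∑ y ∈ fib F x, ‖y ^ i‖ ^ 2 ≤ C * (1 + ‖x‖) ^ κ := by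
  obtain ⟨C, k, hC, h⟩ := onba_root_bound F hF
  refine ⟨(F.natDegree + 1) * C ^ (2 * F.natDegree), k * (2 * F.natDegree), by positivity, ?_⟩
  intro x i hi
  have hx1 : (1 : ℝ) ≤ 1 + ‖x‖ := by linarith [norm_nonneg x]
  have hB : 1 ≤ C * (1 + ‖x‖) ^ k := one_le_mul_of_one_le_of_one_le hC (one_le_pow₀ hx1)
  have h1 : ∀ y ∈ fib F x, ‖y ^ i‖ ^ 2 ≤ (C * (1 + ‖x‖) ^ k) ^ (2 * F.natDegree) := by
    intro y hy
    rw [norm_pow, ← pow_mul]
    calc ‖y‖ ^ (i * 2) ≤ (C * (1 + ‖x‖) ^ k) ^ (i * 2) :=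
          pow_le_pow_left₀ (norm_nonneg _) (h x y hy) _
      _ ≤ _ := pow_le_pow_right₀ hB (by omega)
  have hcard : ((fib F x).card : ℝ) ≤ F.natDegree + 1 := by
    have h2 : (fib F x).card ≤ F.natDegree := by
      unfold fib
      refine (Multiset.toFinset_card_le _).trans ((card_roots' _).trans ?_)
      exact le_of_eq (hF.natDegree_map _)
    have h3 : ((fib F x).card : ℝ) ≤ F.natDegree := by exact_mod_cast h2
    linarith
  calc ∑ y ∈ fib F x, ‖y ^ i‖ ^ 2
      ≤ ∑ _y ∈ fib F x, (C * (1 + ‖x‖) ^ k) ^ (2 * F.natDegree) := Finset.sum_le_sum h1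
    _ = (fib F x).card * (C * (1 + ‖x‖) ^ k) ^ (2 * F.natDegree) := by
        rw [Finset.sum_const, nsmul_eq_mul]
    _ ≤ (F.natDegree + 1) * (C * (1 + ‖x‖) ^ k) ^ (2 * F.natDegree) :=
        mul_le_mul_of_nonneg_right hcard (by positivity)
    _ = _ := by rw [mul_pow, ← pow_mul]; ring

/-- an integrable function is not bounded below by `c / |x - a|^2` near `a` -/
private lemma onba_pole (h : ℂ → ℝ) (hi : Integrable h) (h0 : ∀ᵐ x : ℂ, 0 ≤ h x) (a : ℂ) (c : ℝ)
    (hc : 0 < c) (R : ℝ) (hR : 0 < R)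
    (hle : ∀ᵐ x : ℂ, x ∈ ball a R → c ≤ h x * ‖x - a‖ ^ 2) : False := by
  have h1 : Tendsto (fun r : ℝ => volume (ball a r)) (𝓝[>] 0) (𝓝 0) := by
    have h2 : Tendsto (fun r : ℝ => ENNReal.ofReal r ^ 2 * (NNReal.pi : ENNReal)) (𝓝 0)
        (𝓝 (ENNReal.ofReal 0 ^ 2 * (NNReal.pi : ENNReal))) := by
      refine ENNReal.Tendsto.mul_const ?_ (Or.inr ENNReal.coe_ne_top)
      exact ((ENNReal.continuous_pow 2).comp ENNReal.continuous_ofReal).tendsto 0
    simp only [Complex.volume_ball]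
    have h3 : ENNReal.ofReal 0 ^ 2 * (NNReal.pi : ENNReal) = 0 := by simp
    rw [h3] at h2
    exact h2.mono_left nhdsWithin_le_nhds
  have h4 := hi.tendsto_setIntegral_nhds_zero h1
  have h5 : ∀ᶠ r in 𝓝[>] (0 : ℝ), c * Real.pi ≤ ∫ x in ball a r, h x := by
    have h6 : Set.Ioo (0 : ℝ) R ∈ 𝓝[>] (0 : ℝ) := Ioo_mem_nhdsGT hR
    filter_upwards [h6] with r hr
    have hvol : volume.real (ball a r) = Real.pi * r ^ 2 := by
      rw [measureReal_def, Complex.volume_ball, ENNReal.toReal_mul, ENNReal.toReal_pow,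
        ENNReal.toReal_ofReal hr.1.le]
      simp [mul_comm]
    have h7 : c * Real.pi = ∫ _x in ball a r, c / r ^ 2 := by
      rw [setIntegral_const, hvol, smul_eq_mul]
      have : r ≠ 0 := hr.1.ne'
      field_simp
    rw [h7]
    refine setIntegral_mono_on_ae (integrableOn_const measure_ball_lt_top.ne) hi.integrableOn
      measurableSet_ball ?_
    filter_upwards [hle, h0] with x hx hx0 hxr
    have hxR : x ∈ ball a R := ball_subset_ball hr.2.le hxr
    have h8 := hx hxR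
    rw [div_le_iff₀ (pow_pos hr.1 2)]
    refine h8.trans (mul_le_mul_of_nonneg_left ?_ hx0)
    refine pow_le_pow_left₀ (norm_nonneg _) ?_ 2
    rw [mem_ball, dist_eq_norm] at hxr
    exact hxr.le
  have h9 : c * Real.pi ≤ 0 := ge_of_tendsto h4 h5
  have : 0 < c * Real.pi := mul_pos hc Real.pi_pos
  linarith

/-- an integrable function is not bounded below by a positive constant near infinity -/
private lemma onba_far (h : ℂ → ℝ) (hi : Integrable h) (c : ℝ)
    (hc : 0 < c) (R : ℝ) (hle : ∀ᵐ x : ℂ, R ≤ ‖x‖ → c ≤ h x) : False := by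
  have h1 := hi.measure_norm_ge_lt_top hc
  have h2 : volume {x : ℂ | R ≤ ‖x‖} ≤ volume {x | c ≤ ‖h x‖} := by
    refine measure_mono_ae ?_
    filter_upwards [hle] with x hx hxR
    exact (hx hxR).trans (le_abs_self _)
  have h3 : (volume : Measure ℂ) Set.univ = ⊤ := measure_univ_of_isAddLeftInvariant _
  have h4 : (Set.univ : Set ℂ) ⊆ {x : ℂ | R ≤ ‖x‖} ∪ ball 0 R := by
    intro x _
    rcases le_or_gt R ‖x‖ with hx | hx
    · exact Or.inl hx
    · exact Or.inr (by simpa using hx)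
  have h5 := (measure_mono (μ := (volume : Measure ℂ)) h4).trans (measure_union_le _ _)
  rw [h3, top_le_iff, ENNReal.add_eq_top] at h5
  rcases h5 with h5 | h5
  · rw [h5, top_le_iff] at h2
    exact h1.ne h2
  · exact measure_ball_lt_top.ne h5

/-- growth of a polynomial -/
private lemma onba_growth (p : ℂ[X]) (κ : ℕ) (hk : κ < p.natDegree) :
    ∃ c R : ℝ, 0 < c ∧ ∀ x : ℂ, R ≤ ‖x‖ → c * (1 + ‖x‖) ^ κ ≤ ‖p.eval x‖ ^ 2 := by
  have hp : p ≠ 0 := by
    rintro rfl
    simp at hk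
  set n := p.natDegree with hn
  set L := ‖p.leadingCoeff‖ with hL
  have hL0 : 0 < L := norm_pos_iff.2 (leadingCoeff_ne_zero.2 hp)
  set S := ∑ i ∈ Finset.range n, ‖p.coeff i‖ with hS
  have hS0 : 0 ≤ S := Finset.sum_nonneg fun _ _ => norm_nonneg _
  refine ⟨(L / 2) ^ 2 * (1 / 2) ^ κ, max 1 (2 * S / L), by positivity, ?_⟩
  intro x hx
  have hx1 : 1 ≤ ‖x‖ := (le_max_left _ _).trans hx
  have hx2 : 2 * S / L ≤ ‖x‖ := (le_max_right _ _).trans hx
  have h1 : L * ‖x‖ ^ n ≤ ‖p.eval x‖ + S * ‖x‖ ^ (n - 1) := by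
    have h2 : p.eval x = ∑ i ∈ Finset.range n, p.coeff i * x ^ i + p.leadingCoeff * x ^ n := by
      rw [eval_eq_sum_range, Finset.sum_range_succ]
      rfl
    have h3 : p.leadingCoeff * x ^ n = p.eval x - ∑ i ∈ Finset.range n, p.coeff i * x ^ i := by
      rw [h2]
      ring
    calc L * ‖x‖ ^ n = ‖p.leadingCoeff * x ^ n‖ := by rw [norm_mul, norm_pow]
      _ ≤ ‖p.eval x‖ + ‖∑ i ∈ Finset.range n, p.coeff i * x ^ i‖ := by
        rw [h3]
        exact norm_sub_le _ _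
      _ ≤ _ := by
        refine add_le_add_right ?_ _
        rw [hS, Finset.sum_mul]
        refine (norm_sum_le _ _).trans (Finset.sum_le_sum fun i hi => ?_)
        rw [norm_mul, norm_pow]
        refine mul_le_mul_of_nonneg_left (pow_le_pow_right₀ hx1 ?_) (norm_nonneg _)
        have := Finset.mem_range.1 hi
        omega
  have h4 : 2 * S ≤ ‖x‖ * L := (div_le_iff₀ hL0).1 hx2
  have hn1 : n = (n - 1) + 1 := by omega
  have h5 : L / 2 * ‖x‖ ^ n ≤ ‖p.eval x‖ := by
    have h6 : S * ‖x‖ ^ (n - 1) ≤ L / 2 * ‖x‖ ^ n := by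
      have h7 : ‖x‖ ^ n = ‖x‖ ^ (n - 1) * ‖x‖ := by
        conv_lhs => rw [hn1, pow_succ]
      rw [h7]
      have h8 : (0 : ℝ) ≤ ‖x‖ ^ (n - 1) := by positivity
      nlinarith
    linarith
  have h9 : (1 / 2 : ℝ) ^ κ * (1 + ‖x‖) ^ κ ≤ ‖x‖ ^ κ := by
    rw [← mul_pow]
    exact pow_le_pow_left₀ (by positivity) (by linarith) κ
  have h10 : ‖x‖ ^ κ ≤ (‖x‖ ^ n) ^ 2 := by
    rw [← pow_mul]
    exact pow_le_pow_right₀ hx1 (by omega)
  calc (L / 2) ^ 2 * (1 / 2) ^ κ * (1 + ‖x‖) ^ κ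
      = (L / 2) ^ 2 * ((1 / 2) ^ κ * (1 + ‖x‖) ^ κ) := by ring
    _ ≤ (L / 2) ^ 2 * (‖x‖ ^ n) ^ 2 :=
        mul_le_mul_of_nonneg_left (h9.trans h10) (by positivity)
    _ = (L / 2 * ‖x‖ ^ n) ^ 2 := by ring
    _ ≤ ‖p.eval x‖ ^ 2 := pow_le_pow_left₀ (by positivity) h5 2

/-- a rational function dominated by an integrable function is a polynomial of bounded degree -/
private lemma onba_div (N D : ℂ[X]) (hD : D ≠ 0) (h : ℂ → ℝ) (hi : Integrable h)
    (h0 : ∀ᵐ x : ℂ, 0 ≤ h x) (C : ℝ) (hC : 0 < C) (κ : ℕ)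
    (hle : ∀ᵐ x : ℂ, ‖N.eval x / D.eval x‖ ^ 2 ≤ h x * (C * (1 + ‖x‖) ^ κ)) :
    ∃ p : ℂ[X], p.natDegree ≤ κ ∧ N = D * p := by
  classical
  have hfin : ∀ᵐ x : ℂ, D.eval x ≠ 0 := by
    have h1 : {x : ℂ | D.eval x = 0}.Finite := finite_setOfPred_isRoot hD
    rw [ae_iff]
    simpa using h1.measure_zero volume
  have hdvd : D ∣ N := by
    obtain ⟨N', D', hcop, hN, hD'⟩ : ∃ N' D' : ℂ[X], IsCoprime N' D' ∧
        N = gcd N D * N' ∧ D = gcd N D * D' := by
      have hg : gcd N D ≠ 0 := fun hg => hD (by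
        have := gcd_dvd_right N D
        rw [hg] at this
        exact zero_dvd_iff.1 this)
      obtain ⟨N', hN⟩ := gcd_dvd_left N D
      obtain ⟨D', hD'⟩ := gcd_dvd_right N D
      refine ⟨N', D', ?_, hN, hD'⟩
      have h2 : gcd N D * gcd N' D' ∣ gcd N D * 1 := by
        rw [mul_one]
        refine dvd_gcd ?_ ?_
        · conv_rhs => rw [hN]
          exact mul_dvd_mul_left _ (gcd_dvd_left _ _)
        · conv_rhs => rw [hD']
          exact mul_dvd_mul_left _ (gcd_dvd_right _ _)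
      have h3 : gcd N' D' ∣ 1 := (mul_dvd_mul_iff_left hg).1 h2
      exact (gcd_isUnit_iff _ _).1 (isUnit_of_dvd_one h3)
    set G := gcd N D with hG
    have hG0 : G ≠ 0 := by
      rintro h2
      rw [h2, zero_mul] at hD'
      exact hD hD'
    by_cases hu : IsUnit D'
    · obtain ⟨u, hu⟩ := hu
      rw [hN, hD', ← hu]
      rw [Units.mul_right_dvd]
      exact dvd_mul_right _ _
    · exfalso
      have hD'0 : D' ≠ 0 := by
        rintro h2
        rw [h2, mul_zero] at hD'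
        exact hD hD'
      have hdeg : D'.degree ≠ 0 := fun h2 => hu (isUnit_iff_degree_eq_zero.2 h2)
      obtain ⟨a, ha⟩ := IsAlgClosed.exists_root D' hdeg
      have hNa : N'.eval a ≠ 0 := by
        obtain ⟨u, v, huv⟩ := hcop
        intro h2
        have h3 := congrArg (Polynomial.eval a) huv
        rw [eval_add, eval_mul, eval_mul, h2, ha, mul_zero, mul_zero, add_zero, eval_one] at h3
        exact zero_ne_one h3
      obtain ⟨E, hE⟩ := dvd_iff_isRoot.2 ha
      -- local bounds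
      set δ := ‖N'.eval a‖ / 2 with hδ
      have hδ0 : 0 < δ := by
        have := norm_pos_iff.2 hNa
        positivity
      have hev1 : ∀ᶠ x in 𝓝 a, δ < ‖N'.eval x‖ := by
        have hc : ContinuousAt (fun x => ‖N'.eval x‖) a := N'.continuous.norm.continuousAt
        refine hc.eventually_const_lt ?_
        have := norm_pos_iff.2 hNa
        rw [hδ]
        linarith
      have hev2 : ∀ᶠ x in 𝓝 a, ‖E.eval x‖ < ‖E.eval a‖ + 1 := by
        have hc : ContinuousAt (fun x => ‖E.eval x‖) a := E.continuous.norm.continuousAt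
        exact hc.eventually_lt_const (by linarith)
      obtain ⟨R, hR, hball⟩ := Metric.eventually_nhds_iff_ball.1 (hev1.and hev2)
      set M := ‖E.eval a‖ + 1 with hM
      have hM0 : 0 < M := by positivity
      set B := C * (1 + (‖a‖ + R)) ^ κ with hB
      have hB0 : 0 < B := by positivity
      refine onba_pole h hi h0 a ((δ / M) ^ 2 / B) (by positivity) R hR ?_
      filter_upwards [hle, h0, hfin] with x hx hx0 hxD hxR
      obtain ⟨hb1, hb2⟩ := hball x hxR
      have hxn : ‖x‖ ≤ ‖a‖ + R := by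
        rw [mem_ball, dist_eq_norm] at hxR
        calc ‖x‖ = ‖a + (x - a)‖ := by ring_nf
          _ ≤ ‖a‖ + ‖x - a‖ := norm_add_le _ _
          _ ≤ _ := by linarith
      have hG1 : G.eval x ≠ 0 := by
        intro h2
        rw [hD', eval_mul, h2, zero_mul] at hxD
        exact hxD rfl
      have hE1 : D'.eval x = (x - a) * E.eval x := by
        rw [hE, eval_mul]
        simp
      have hD1 : (x - a) * E.eval x ≠ 0 := by
        rw [← hE1]
        intro h2
        rw [hD', eval_mul, h2, mul_zero] at hxD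
        exact hxD rfl
      have hxa : x - a ≠ 0 := left_ne_zero_of_mul hD1
      have hEx : E.eval x ≠ 0 := right_ne_zero_of_mul hD1
      have h2 : N.eval x / D.eval x = N'.eval x / ((x - a) * E.eval x) := by
        rw [← hE1, hN, hD', eval_mul, eval_mul, mul_div_mul_left _ _ hG1]
      have hxa' : 0 < ‖x - a‖ := norm_pos_iff.2 hxa
      have hEx' : 0 < ‖E.eval x‖ := norm_pos_iff.2 hEx
      have h3 : δ / M / ‖x - a‖ ≤ ‖N.eval x / D.eval x‖ := by
        rw [h2, norm_div, norm_mul, div_div]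
        rw [mul_comm M]
        gcongr
      have h4 : (δ / M) ^ 2 / ‖x - a‖ ^ 2 ≤ h x * B := by
        calc (δ / M) ^ 2 / ‖x - a‖ ^ 2 = (δ / M / ‖x - a‖) ^ 2 := by rw [div_pow (δ / M)]
          _ ≤ ‖N.eval x / D.eval x‖ ^ 2 := pow_le_pow_left₀ (by positivity) h3 2
          _ ≤ h x * (C * (1 + ‖x‖) ^ κ) := hx
          _ ≤ h x * B := by
            refine mul_le_mul_of_nonneg_left ?_ hx0
            rw [hB]
            gcongr
      rw [div_le_iff₀ (by positivity)] at h4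
      rw [div_le_iff₀ hB0]
      linarith
  obtain ⟨p, hp⟩ := hdvd
  refine ⟨p, ?_, hp⟩
  by_contra hdeg
  rw [not_le] at hdeg
  obtain ⟨c, R, hc, hgr⟩ := onba_growth p κ hdeg
  refine onba_far h hi (c / C) (by positivity) R ?_
  filter_upwards [hle, hfin] with x hx hxD hxR
  have h1 : N.eval x / D.eval x = p.eval x := by
    rw [hp, eval_mul, mul_div_cancel_left₀ _ hxD]
  rw [h1] at hx
  have h2 := (hgr x hxR).trans hx
  have h3 : (0 : ℝ) < (1 + ‖x‖) ^ κ := by positivity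
  rw [div_le_iff₀ hC]
  nlinarith

theorem trace_poly (F : ℂ[X][X]) (hF : F.Monic) (b : ℂ) (hb : (at_ F b).Separable) :
    ∃ m : ℕ, ∀ φ, IsHol F φ → ∀ i < F.natDegree, ∃ p : ℂ[X], p.natDegree ≤ m ∧
      ∀ x, (at_ F x).Separable → φ.2.eval x ≠ 0 → ∑ y ∈ fib F x, rat φ x y * y ^ i = p.eval x := by
  obtain ⟨C, κ, hC, hsum⟩ := onba_sum_bound F hF
  refine ⟨κ, fun φ hφ i hi => ?_⟩
  obtain ⟨N, hN⟩ := trace_fib F hF (φ.1 * X ^ i)
  have hsep : ∀ᵐ x : ℂ, (at_ F x).Separable :=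
    ae_iff.2 ((bad_finite F hF b hb).measure_zero _)
  have htr : ∀ x, (at_ F x).Separable →
      ∑ y ∈ fib F x, rat φ x y * y ^ i = N.eval x / φ.2.eval x := by
    intro x hx
    rw [← hN x hx, Finset.sum_div]
    refine Finset.sum_congr rfl fun y _ => ?_
    rw [rat]
    simp only [evalEval_mul, evalEval_pow, evalEval_X]
    ring
  obtain ⟨p, hp, hNp⟩ := onba_div N φ.2 hφ.1 _ hφ.2
    (Eventually.of_forall fun x => Finset.sum_nonneg fun y _ => by positivity) C hC κ (by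
      filter_upwards [hsep] with x hx
      rw [← htr x hx]
      have h1 : ‖∑ y ∈ fib F x, rat φ x y * y ^ i‖ ≤ ∑ y ∈ fib F x, ‖rat φ x y‖ * ‖y ^ i‖ := by
        refine (norm_sum_le _ _).trans (Finset.sum_le_sum fun y _ => ?_)
        rw [norm_mul]
      calc ‖∑ y ∈ fib F x, rat φ x y * y ^ i‖ ^ 2
          ≤ (∑ y ∈ fib F x, ‖rat φ x y‖ * ‖y ^ i‖) ^ 2 :=
            pow_le_pow_left₀ (norm_nonneg _) h1 2
        _ ≤ (∑ y ∈ fib F x, ‖rat φ x y‖ ^ 2) * ∑ y ∈ fib F x, ‖y ^ i‖ ^ 2 :=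
            Finset.sum_mul_sq_le_sq_mul_sq _ _ _
        _ ≤ _ := mul_le_mul_of_nonneg_left (hsum x i hi)
            (Finset.sum_nonneg fun y _ => by positivity))
  refine ⟨p, hp, fun x hx hxD => ?_⟩
  rw [htr x hx, hNp, eval_mul, mul_div_cancel_left₀ _ hxD]

end EGR
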