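import Pool.Agent.EGR.Disc
import Pool.Agent.ALC.Pot
import Pool.Agent.ALC.Green

/-!
Oscillation of a function with bounded Laplacian by its energy.

PROOF. Mean values over circles: with `E = e^{iθ}`, `b(t) = ∫ ∂_r a(x + t E) dθ` satisfies
`t b(t) = ∫_0^t u ∫ Δa(x + u E) dθ du`, hence `|b(t)| ≤ π M t`, and
`|∫ (a(x + s E) - a x) dθ| ≤ π M s^2 / 2`; polar coordinates give
`|avg x ρ a - a x| ≤ M ρ^2`. Then `avg_avg`.
-/

open MeasureTheory Metric Filter Topology

namespace EGR

private noncomputable def osE (θ : ℝ) : ℂ := (Real.cos θ : ℂ) + (Real.sin θ : ℂ) * Complex.I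

private theorem osE_cont : Continuous osE := by unfold osE; fun_prop

private theorem osE_deriv (θ : ℝ) : HasDerivAt osE (Complex.I * osE θ) θ := by
  unfold osE
  have h1 : HasDerivAt (fun θ : ℝ => ((Real.cos θ : ℝ) : ℂ)) ((-Real.sin θ : ℝ) : ℂ) θ :=
    (Real.hasDerivAt_cos θ).ofReal_comp
  have h2 : HasDerivAt (fun θ : ℝ => ((Real.sin θ : ℝ) : ℂ)) ((Real.cos θ : ℝ) : ℂ) θ :=
    (Real.hasDerivAt_sin θ).ofReal_comp
  refine (h1.add (h2.mul_const Complex.I)).congr_deriv ?_
  have : Complex.I * Complex.I = -1 := Complex.I_mul_I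
  push_cast
  linear_combination (-(Complex.sin θ : ℂ)) * this

private theorem osE_norm (θ : ℝ) : ‖osE θ‖ = 1 := by
  have : osE θ = Complex.exp (θ * Complex.I) := by
    rw [Complex.exp_mul_I]
    simp [osE]
  rw [this, Complex.norm_exp_ofReal_mul_I]

private theorem osE_pi : osE Real.pi = osE (-Real.pi) := by simp [osE]

private theorem os_D (a : ℂ → ℝ) (ha : ContDiff ℝ 2 a) :
    Continuous a ∧ Continuous (fderiv ℝ a) ∧ Continuous (fderiv ℝ (fderiv ℝ a)) ∧
      Differentiable ℝ a ∧ Differentiable ℝ (fderiv ℝ a) := by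
  have h1 : ContDiff ℝ 1 (fderiv ℝ a) := ha.fderiv_right (by norm_num)
  exact ⟨ha.continuous, h1.continuous, h1.continuous_fderiv (by norm_num),
    ha.differentiable (by norm_num), h1.differentiable (by norm_num)⟩

private theorem os_lap (a : ℂ → ℝ) (z : ℂ) (θ : ℝ) :
    fderiv ℝ (fderiv ℝ a) z (osE θ) (osE θ) +
      fderiv ℝ (fderiv ℝ a) z (Complex.I * osE θ) (Complex.I * osE θ) =
      Laplacian.laplacian a z := by
  rw [InnerProductSpace.laplacian_eq_iteratedFDeriv_complexPlane]
  simp only [iteratedFDeriv_two_apply]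
  set D := fderiv ℝ (fderiv ℝ a) z with hD
  have e1 : osE θ = (Real.cos θ) • (1 : ℂ) + (Real.sin θ) • Complex.I := by simp [osE]
  have e2 : Complex.I * osE θ = (-Real.sin θ) • (1 : ℂ) + (Real.cos θ) • Complex.I := by
    have : Complex.I * Complex.I = -1 := Complex.I_mul_I
    simp only [osE, Complex.real_smul]
    push_cast
    linear_combination (Complex.sin θ) * this
  rw [e2, e1]
  simp only [map_add, map_smul, _root_.add_apply, _root_.smul_apply, smul_eq_mul]
  have h := Real.sin_sq_add_cos_sq θ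
  simp only [Matrix.cons_val_zero, Matrix.cons_val_one]
  linear_combination (D 1 1 + D Complex.I Complex.I) * h

private theorem os_bound (a : ℂ → ℝ) (ha : ContDiff ℝ 2 a) (x : ℂ) (ρ M : ℝ)
    (hM : ∀ z ∈ ball x ρ, |Laplacian.laplacian a z| ≤ M) (t : ℝ) (ht0 : 0 ≤ t) (ht : t < ρ) :
    |∫ θ in (-Real.pi)..Real.pi, fderiv ℝ a (x + t * osE θ) (osE θ)| ≤ Real.pi * M * t := by
  obtain ⟨c0, c1, c2, d0, d1⟩ := os_D a ha
  have hE := osE_cont
  -- the integral over θ of the radial derivative
  have hrot : ∀ u : ℝ, ∫ θ in (-Real.pi)..Real.pi, fderiv ℝ a (x + u * osE θ) (osE θ) =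
      ∫ θ in (-Real.pi)..Real.pi,
        u * fderiv ℝ (fderiv ℝ a) (x + u * osE θ) (Complex.I * osE θ) (Complex.I * osE θ) := by
    intro u
    have hder : ∀ θ : ℝ, HasDerivAt (fun θ : ℝ => fderiv ℝ a (x + u * osE θ) (Complex.I * osE θ))
        (u * fderiv ℝ (fderiv ℝ a) (x + u * osE θ) (Complex.I * osE θ) (Complex.I * osE θ) -
          fderiv ℝ a (x + u * osE θ) (osE θ)) θ := by
      intro θ
      have hz : HasDerivAt (fun θ : ℝ => x + u * osE θ) (u * (Complex.I * osE θ)) θ :=
        ((osE_deriv θ).const_mul (u : ℂ)).const_add x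
      have h1 : HasDerivAt (fun θ : ℝ => fderiv ℝ a (x + u * osE θ))
          (fderiv ℝ (fderiv ℝ a) (x + u * osE θ) (u * (Complex.I * osE θ))) θ :=
        (d1 _).hasFDerivAt.comp_hasDerivAt θ hz
      have h2 : HasDerivAt (fun θ : ℝ => Complex.I * osE θ) (Complex.I * (Complex.I * osE θ)) θ :=
        (osE_deriv θ).const_mul Complex.I
      refine (h1.clm_apply h2).congr_deriv ?_
      have e1 : (u : ℂ) * (Complex.I * osE θ) = u • (Complex.I * osE θ) := by simp
      have e2 : Complex.I * (Complex.I * osE θ) = -osE θ := by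
        rw [← mul_assoc, Complex.I_mul_I]; ring
      rw [e1, e2]
      simp only [map_smul, map_neg, _root_.smul_apply, smul_eq_mul]
      ring
    have hi1 : Continuous (fun θ : ℝ => u * fderiv ℝ (fderiv ℝ a) (x + u * osE θ)
        (Complex.I * osE θ) (Complex.I * osE θ)) := by
      refine continuous_const.mul ?_
      exact ((c2.comp (by fun_prop)).clm_apply (by fun_prop)).clm_apply (by fun_prop)
    have hi2 : Continuous (fun θ : ℝ => fderiv ℝ a (x + u * osE θ) (osE θ)) :=
      (c1.comp (by fun_prop)).clm_apply (by fun_prop)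
    have h := intervalIntegral.integral_eq_sub_of_hasDerivAt (a := -Real.pi) (b := Real.pi)
      (fun θ _ => hder θ) ((hi1.sub hi2).intervalIntegrable _ _)
    rw [intervalIntegral.integral_sub (hi1.intervalIntegrable _ _) (hi2.intervalIntegrable _ _),
      osE_pi, sub_self] at h
    linarith
  -- t times the integral
  have hid : t * ∫ θ in (-Real.pi)..Real.pi, fderiv ℝ a (x + t * osE θ) (osE θ) =
      ∫ u in (0 : ℝ)..t, u * ∫ θ in (-Real.pi)..Real.pi, Laplacian.laplacian a (x + u * osE θ) := by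
    have hcF : Continuous (Function.uncurry fun (u θ : ℝ) =>
        fderiv ℝ a (x + u * osE θ) (osE θ) +
          u * fderiv ℝ (fderiv ℝ a) (x + u * osE θ) (osE θ) (osE θ)) := by
      have k1 : Continuous (fun p : ℝ × ℝ => x + (p.1 : ℂ) * osE p.2) := by fun_prop
      have k2 : Continuous (fun p : ℝ × ℝ => osE p.2) := by fun_prop
      exact ((c1.comp k1).clm_apply k2).add
        (continuous_fst.mul (((c2.comp k1).clm_apply k2).clm_apply k2))
    have hswap : ∫ u in (0 : ℝ)..t, ∫ θ in (-Real.pi)..Real.pi,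
        (fderiv ℝ a (x + u * osE θ) (osE θ) +
          u * fderiv ℝ (fderiv ℝ a) (x + u * osE θ) (osE θ) (osE θ)) =
        ∫ θ in (-Real.pi)..Real.pi, ∫ u in (0 : ℝ)..t,
        (fderiv ℝ a (x + u * osE θ) (osE θ) +
          u * fderiv ℝ (fderiv ℝ a) (x + u * osE θ) (osE θ) (osE θ)) := by
      apply intervalIntegral_intervalIntegral_swap
      refine (hcF.continuousOn.integrableOn_compact
        ((isCompact_uIcc (a := (0 : ℝ)) (b := t)).prod
          (isCompact_uIcc (a := -Real.pi) (b := Real.pi)))).mono_set ?_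
      exact Set.prod_mono Set.uIoc_subset_uIcc Set.uIoc_subset_uIcc
    have hin : ∀ θ : ℝ, ∫ u in (0 : ℝ)..t,
        (fderiv ℝ a (x + u * osE θ) (osE θ) +
          u * fderiv ℝ (fderiv ℝ a) (x + u * osE θ) (osE θ) (osE θ)) =
        t * fderiv ℝ a (x + t * osE θ) (osE θ) := by
      intro θ
      have hder : ∀ u : ℝ, HasDerivAt (fun u : ℝ => u * fderiv ℝ a (x + u * osE θ) (osE θ))
          (fderiv ℝ a (x + u * osE θ) (osE θ) +
          u * fderiv ℝ (fderiv ℝ a) (x + u * osE θ) (osE θ) (osE θ)) u := by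
        intro u
        have hz : HasDerivAt (fun u : ℝ => x + (u : ℂ) * osE θ) (osE θ) u := by
          have := ((hasDerivAt_id u).ofReal_comp.mul_const (osE θ)).const_add x
          simpa using this
        have h1 : HasDerivAt (fun u : ℝ => fderiv ℝ a (x + u * osE θ) (osE θ))
            (fderiv ℝ (fderiv ℝ a) (x + u * osE θ) (osE θ) (osE θ)) u := by
          have h0 : HasDerivAt (fun u : ℝ => fderiv ℝ a (x + u * osE θ))
              (fderiv ℝ (fderiv ℝ a) (x + u * osE θ) (osE θ)) u :=
            (d1 _).hasFDerivAt.comp_hasDerivAt u hz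
          refine (h0.clm_apply (hasDerivAt_const u (osE θ))).congr_deriv ?_
          simp
        refine ((hasDerivAt_id u).mul h1).congr_deriv ?_
        simp
      have hc : Continuous (fun u : ℝ => fderiv ℝ a (x + u * osE θ) (osE θ) +
          u * fderiv ℝ (fderiv ℝ a) (x + u * osE θ) (osE θ) (osE θ)) :=
        hcF.comp (Continuous.prodMk continuous_id continuous_const)
      rw [intervalIntegral.integral_eq_sub_of_hasDerivAt (fun u _ => hder u)
        (hc.intervalIntegrable _ _)]
      simp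
    rw [← intervalIntegral.integral_const_mul]
    calc ∫ θ in (-Real.pi)..Real.pi, t * fderiv ℝ a (x + t * osE θ) (osE θ)
        = ∫ θ in (-Real.pi)..Real.pi, ∫ u in (0 : ℝ)..t,
        (fderiv ℝ a (x + u * osE θ) (osE θ) +
          u * fderiv ℝ (fderiv ℝ a) (x + u * osE θ) (osE θ) (osE θ)) := by
          refine intervalIntegral.integral_congr fun θ _ => ?_
          exact (hin θ).symm
      _ = _ := by
          rw [← hswap]
          refine intervalIntegral.integral_congr fun u _ => ?_
          have k1 : Continuous (fun θ : ℝ => fderiv ℝ a (x + u * osE θ) (osE θ)) :=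
            (c1.comp (by fun_prop)).clm_apply (by fun_prop)
          have k2 : Continuous (fun θ : ℝ =>
              u * fderiv ℝ (fderiv ℝ a) (x + u * osE θ) (osE θ) (osE θ)) :=
            continuous_const.mul (((c2.comp (by fun_prop)).clm_apply (by fun_prop)).clm_apply
              (by fun_prop))
          have k3 : Continuous (fun θ : ℝ => u * fderiv ℝ (fderiv ℝ a) (x + u * osE θ)
              (Complex.I * osE θ) (Complex.I * osE θ)) := by
            refine continuous_const.mul ?_
            exact ((c2.comp (by fun_prop)).clm_apply (by fun_prop)).clm_apply (by fun_prop)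
          rw [intervalIntegral.integral_add (k1.intervalIntegrable _ _)
            (k2.intervalIntegrable _ _), hrot u,
            ← intervalIntegral.integral_add (k3.intervalIntegrable _ _)
            (k2.intervalIntegrable _ _), ← intervalIntegral.integral_const_mul]
          refine intervalIntegral.integral_congr fun θ _ => ?_
          rw [← os_lap a _ θ]
          ring
  have hM0 : 0 ≤ M := (abs_nonneg _).trans (hM x (mem_ball_self (lt_of_le_of_lt ht0 ht)))
  have hb : |∫ u in (0 : ℝ)..t, u * ∫ θ in (-Real.pi)..Real.pi,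
      Laplacian.laplacian a (x + u * osE θ)| ≤ Real.pi * M * t ^ 2 := by
    have hpt : ∀ u ∈ Set.Icc (0 : ℝ) t, ‖u * ∫ θ in (-Real.pi)..Real.pi,
        Laplacian.laplacian a (x + u * osE θ)‖ ≤ (2 * Real.pi * M) * u := by
      intro u hu
      have h1 : ‖∫ θ in (-Real.pi)..Real.pi, Laplacian.laplacian a (x + u * osE θ)‖ ≤
          M * |Real.pi - -Real.pi| := by
        refine intervalIntegral.norm_integral_le_of_norm_le_const fun θ _ => ?_
        rw [Real.norm_eq_abs]
        apply hM
        rw [mem_ball, dist_eq_norm, add_sub_cancel_left, norm_mul, osE_norm, mul_one,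
          Complex.norm_real, Real.norm_eq_abs, abs_of_nonneg hu.1]
        exact lt_of_le_of_lt hu.2 ht
      rw [norm_mul, Real.norm_eq_abs, abs_of_nonneg hu.1]
      have h2 : |Real.pi - -Real.pi| = 2 * Real.pi := by
        rw [abs_of_nonneg (by linarith [Real.pi_pos])]; ring
      rw [h2] at h1
      nlinarith [hu.1]
    have h2 : ‖∫ u in (0 : ℝ)..t, u * ∫ θ in (-Real.pi)..Real.pi,
        Laplacian.laplacian a (x + u * osE θ)‖ ≤ ∫ u in (0 : ℝ)..t, (2 * Real.pi * M) * u := by
      refine intervalIntegral.norm_integral_le_of_norm_le ht0 ?_ ?_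
      · exact Eventually.of_forall fun u hu => hpt u ⟨hu.1.le, hu.2⟩
      · exact (continuous_const.mul continuous_id).intervalIntegrable _ _
    rw [Real.norm_eq_abs] at h2
    refine h2.trans (le_of_eq ?_)
    rw [intervalIntegral.integral_const_mul, integral_id]
    ring
  rcases ht0.eq_or_lt with h0 | h0
  · subst h0
    have : ∫ θ in (-Real.pi)..Real.pi, fderiv ℝ a (x + (0 : ℝ) * osE θ) (osE θ) = 0 := by
      rw [hrot 0]
      simp
    rw [this]
    simp
  · rw [← hid, abs_mul, abs_of_pos h0] at hb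
    have : t * |∫ θ in (-Real.pi)..Real.pi, fderiv ℝ a (x + t * osE θ) (osE θ)| ≤
        t * (Real.pi * M * t) := by
      refine hb.trans (le_of_eq (by ring))
    exact le_of_mul_le_mul_left this h0

private theorem os_circ (a : ℂ → ℝ) (ha : ContDiff ℝ 2 a) (x : ℂ) (ρ M : ℝ)
    (hM : ∀ z ∈ ball x ρ, |Laplacian.laplacian a z| ≤ M) (s : ℝ) (hs0 : 0 ≤ s) (hs : s < ρ) :
    |∫ θ in (-Real.pi)..Real.pi, (a (x + s * osE θ) - a x)| ≤ Real.pi * M * s ^ 2 / 2 := by
  obtain ⟨c0, c1, c2, d0, d1⟩ := os_D a ha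
  have hE := osE_cont
  have hcF : Continuous (Function.uncurry fun (u θ : ℝ) =>
      fderiv ℝ a (x + u * osE θ) (osE θ)) := by
    have k1 : Continuous (fun p : ℝ × ℝ => x + (p.1 : ℂ) * osE p.2) := by fun_prop
    have k2 : Continuous (fun p : ℝ × ℝ => osE p.2) := by fun_prop
    exact (c1.comp k1).clm_apply k2
  have hin : ∀ θ : ℝ, ∫ u in (0 : ℝ)..s, fderiv ℝ a (x + u * osE θ) (osE θ) =
      a (x + s * osE θ) - a x := by
    intro θ
    have hder : ∀ u : ℝ, HasDerivAt (fun u : ℝ => a (x + u * osE θ))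
        (fderiv ℝ a (x + u * osE θ) (osE θ)) u := by
      intro u
      have hz : HasDerivAt (fun u : ℝ => x + (u : ℂ) * osE θ) (osE θ) u := by
        have := ((hasDerivAt_id u).ofReal_comp.mul_const (osE θ)).const_add x
        simpa using this
      exact (d0 _).hasFDerivAt.comp_hasDerivAt u hz
    have hc : Continuous (fun u : ℝ => fderiv ℝ a (x + u * osE θ) (osE θ)) :=
      hcF.comp (Continuous.prodMk continuous_id continuous_const)
    rw [intervalIntegral.integral_eq_sub_of_hasDerivAt (fun u _ => hder u)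
      (hc.intervalIntegrable _ _)]
    simp
  have hswap : ∫ u in (0 : ℝ)..s, ∫ θ in (-Real.pi)..Real.pi,
      fderiv ℝ a (x + u * osE θ) (osE θ) =
      ∫ θ in (-Real.pi)..Real.pi, ∫ u in (0 : ℝ)..s, fderiv ℝ a (x + u * osE θ) (osE θ) := by
    apply intervalIntegral_intervalIntegral_swap
    refine (hcF.continuousOn.integrableOn_compact
      ((isCompact_uIcc (a := (0 : ℝ)) (b := s)).prod
        (isCompact_uIcc (a := -Real.pi) (b := Real.pi)))).mono_set ?_
    exact Set.prod_mono Set.uIoc_subset_uIcc Set.uIoc_subset_uIcc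
  have e : ∫ θ in (-Real.pi)..Real.pi, (a (x + s * osE θ) - a x) =
      ∫ u in (0 : ℝ)..s, ∫ θ in (-Real.pi)..Real.pi, fderiv ℝ a (x + u * osE θ) (osE θ) := by
    rw [hswap]
    refine intervalIntegral.integral_congr fun θ _ => ?_
    exact (hin θ).symm
  rw [e, ← Real.norm_eq_abs]
  have h2 : ‖∫ u in (0 : ℝ)..s, ∫ θ in (-Real.pi)..Real.pi,
      fderiv ℝ a (x + u * osE θ) (osE θ)‖ ≤ ∫ u in (0 : ℝ)..s, (Real.pi * M) * u := by
    refine intervalIntegral.norm_integral_le_of_norm_le hs0 ?_ ?_
    · refine Eventually.of_forall fun u hu => ?_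
      rw [Real.norm_eq_abs]
      exact os_bound a ha x ρ M hM u hu.1.le (lt_of_le_of_lt hu.2 hs)
    · exact (continuous_const.mul continuous_id).intervalIntegrable _ _
  refine h2.trans (le_of_eq ?_)
  rw [intervalIntegral.integral_const_mul, integral_id]
  ring

/-- mean value over a disc, global version -/
private theorem os_avg (a : ℂ → ℝ) (ha : ContDiff ℝ 2 a) (x : ℂ) (ρ M : ℝ) (hρ : 0 < ρ)
    (hM : ∀ z ∈ ball x ρ, |Laplacian.laplacian a z| ≤ M) :
    |avg x ρ a - a x| ≤ M * ρ ^ 2 := by
  obtain ⟨c0, c1, c2, d0, d1⟩ := os_D a ha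
  have hE := osE_cont
  have hM0 : 0 ≤ M := (abs_nonneg _).trans (hM x (mem_ball_self hρ))
  set f : ℂ → ℝ := fun z => (ball (0 : ℂ) ρ).indicator (fun z => a (x + z) - a x) z with hf
  have h1 : ∫ z in ball x ρ, (a z - a x) = ∫ z, f z := by
    rw [hf, integral_indicator measurableSet_ball]
    have := (measurePreserving_add_left (volume : Measure ℂ) x).setIntegral_preimage_emb
      (measurableEmbedding_addLeft x) (fun z => a z - a x) (ball x ρ)
    rw [← this]
    congr 2
    ext z
    simp [mem_ball, dist_eq_norm]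
  have h2 : ∫ z, f z = ∫ p in polarCoord.target, p.1 • f (Complex.polarCoord.symm p) :=
    (Complex.integral_comp_polarCoord_symm f).symm
  have hs : ∀ p : ℝ × ℝ, Complex.polarCoord.symm p = p.1 * osE p.2 := by
    intro p
    rw [Complex.polarCoord_symm_apply]
    rfl
  have h3 : ∫ p in polarCoord.target, p.1 • f (Complex.polarCoord.symm p) =
      ∫ p in Set.Ioo (0 : ℝ) ρ ×ˢ Set.Ioo (-Real.pi) Real.pi,
        p.1 * (a (x + p.1 * osE p.2) - a x) := by
    have hset : Set.Ioo (0 : ℝ) ρ ×ˢ Set.Ioo (-Real.pi) Real.pi =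
        polarCoord.target ∩ {p : ℝ × ℝ | p.1 < ρ} := by
      ext p
      simp only [polarCoord_target, Set.mem_prod, Set.mem_Ioo, Set.mem_Ioi, Set.mem_inter_iff,
        Set.mem_ofPred_eq]
      tauto
    have hmeas : MeasurableSet {p : ℝ × ℝ | p.1 < ρ} := measurableSet_lt measurable_fst measurable_const
    rw [hset, ← setIntegral_indicator hmeas]
    refine setIntegral_congr_fun polarCoord.open_target.measurableSet fun p hp => ?_
    have hp1 : 0 < p.1 := hp.1
    simp only [hf, hs]
    have hn : ‖(p.1 : ℂ) * osE p.2‖ = p.1 := by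
      rw [norm_mul, osE_norm, mul_one, Complex.norm_real, Real.norm_eq_abs, abs_of_pos hp1]
    by_cases h : p.1 < ρ
    · rw [Set.indicator_of_mem (by rwa [mem_ball_zero_iff, hn]),
        Set.indicator_of_mem (by exact h)]
      simp
    · rw [Set.indicator_of_notMem (by rwa [mem_ball_zero_iff, hn]),
        Set.indicator_of_notMem (by exact h)]
      simp
  have hcG : Continuous (fun p : ℝ × ℝ => p.1 * (a (x + p.1 * osE p.2) - a x)) := by
    have k1 : Continuous (fun p : ℝ × ℝ => x + (p.1 : ℂ) * osE p.2) := by fun_prop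
    exact continuous_fst.mul ((c0.comp k1).sub continuous_const)
  have h4 : ∫ p in Set.Ioo (0 : ℝ) ρ ×ˢ Set.Ioo (-Real.pi) Real.pi,
        p.1 * (a (x + p.1 * osE p.2) - a x) =
      ∫ r in Set.Ioo (0 : ℝ) ρ, ∫ θ in Set.Ioo (-Real.pi) Real.pi,
        r * (a (x + r * osE θ) - a x) := by
    rw [Measure.volume_eq_prod]
    apply setIntegral_prod
    refine (hcG.continuousOn.integrableOn_compact
      ((isCompact_Icc (a := (0 : ℝ)) (b := ρ)).prod
        (isCompact_Icc (a := -Real.pi) (b := Real.pi)))).mono_set ?_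
    exact Set.prod_mono Set.Ioo_subset_Icc_self Set.Ioo_subset_Icc_self
  have h5 : |∫ z in ball x ρ, (a z - a x)| ≤ Real.pi * M * ρ ^ 4 := by
    rw [h1, h2, h3, h4, ← Real.norm_eq_abs]
    have hb : ∀ r ∈ Set.Ioo (0 : ℝ) ρ, ‖∫ θ in Set.Ioo (-Real.pi) Real.pi,
        r * (a (x + r * osE θ) - a x)‖ ≤ Real.pi * M * ρ ^ 3 := by
      intro r hr
      rw [← integral_Ioc_eq_integral_Ioo,
        ← intervalIntegral.integral_of_le (by linarith [Real.pi_pos]),
        intervalIntegral.integral_const_mul, norm_mul, Real.norm_eq_abs, Real.norm_eq_abs,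
        abs_of_pos hr.1]
      have := os_circ a ha x ρ M hM r hr.1.le hr.2
      have hr2 : r ^ 3 ≤ ρ ^ 3 := pow_le_pow_left₀ hr.1.le hr.2.le 3
      have hp := Real.pi_pos
      calc r * |∫ θ in (-Real.pi)..Real.pi, (a (x + r * osE θ) - a x)|
          ≤ r * (Real.pi * M * r ^ 2 / 2) := mul_le_mul_of_nonneg_left this hr.1.le
        _ = Real.pi * M * r ^ 3 / 2 := by ring
        _ ≤ Real.pi * M * r ^ 3 := by
            have : 0 ≤ Real.pi * M * r ^ 3 := by
              have := hr.1
              positivity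
            linarith
        _ ≤ Real.pi * M * ρ ^ 3 := mul_le_mul_of_nonneg_left hr2 (by positivity)
    have := norm_setIntegral_le_of_norm_le_const (μ := volume) (s := Set.Ioo (0 : ℝ) ρ)
      (f := fun r : ℝ => ∫ θ in Set.Ioo (-Real.pi) Real.pi, r * (a (x + r * osE θ) - a x))
      (by simp) hb
    refine this.trans (le_of_eq ?_)
    simp only [Measure.real, Real.volume_Ioo, sub_zero]
    rw [ENNReal.toReal_ofReal hρ.le]
    ring
  have hai : IntegrableOn a (ball x ρ) :=
    (c0.continuousOn.integrableOn_compact (isCompact_closedBall x ρ)).mono_set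
      ball_subset_closedBall
  have hvol : (volume (ball x ρ)).toReal = Real.pi * ρ ^ 2 := by
    rw [Complex.volume_ball]
    simp [ENNReal.toReal_mul, ENNReal.toReal_pow, ENNReal.toReal_ofReal hρ.le, NNReal.coe_real_pi]
    ring
  have h6 : ∫ z in ball x ρ, (a z - a x) = (∫ z in ball x ρ, a z) - Real.pi * ρ ^ 2 * a x := by
    rw [integral_sub hai (integrableOn_const (by simp [Complex.volume_ball, ENNReal.mul_eq_top])), setIntegral_const, smul_eq_mul,
      Measure.real, hvol]
  have hpp := Real.pi_pos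
  have h7 : avg x ρ a - a x = (1 / (Real.pi * ρ ^ 2)) * ∫ z in ball x ρ, (a z - a x) := by
    rw [h6, avg]
    field_simp
  rw [h7, abs_mul, abs_of_pos (by positivity : (0 : ℝ) < 1 / (Real.pi * ρ ^ 2))]
  calc 1 / (Real.pi * ρ ^ 2) * |∫ z in ball x ρ, (a z - a x)|
      ≤ 1 / (Real.pi * ρ ^ 2) * (Real.pi * M * ρ ^ 4) :=
        mul_le_mul_of_nonneg_left h5 (by positivity)
    _ = M * ρ ^ 2 := by field_simp

/-- mean value over a disc, local version -/
private theorem os_loc (c : ℂ) (r M : ℝ) (a : ℂ → ℝ) (ha : ContDiffOn ℝ 2 a (ball c r))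
    (hM : ∀ x ∈ ball c r, |Laplacian.laplacian a x| ≤ M) (x : ℂ) (ρ : ℝ) (hρ : 0 < ρ)
    (hx : closedBall x ρ ⊆ ball c r) : |avg x ρ a - a x| ≤ M * ρ ^ 2 := by
  obtain ⟨δ, hδ, hδ2⟩ : ∃ δ : ℝ, 0 < δ ∧ thickening δ (closedBall x ρ) ⊆ ball c r :=
    (isCompact_closedBall x ρ).exists_thickening_subset_open isOpen_ball hx
  have hthick : ball x (ρ + δ) ⊆ ball c r := by
    intro z hz
    apply hδ2
    rw [mem_thickening_iff]
    rw [mem_ball] at hz
    by_cases h : dist z x ≤ ρ
    · exact ⟨z, h, by simpa using hδ⟩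
    · push Not at h
      have hd : 0 < dist z x := hρ.trans h
      have hne : (dist z x : ℂ) ≠ 0 := by exact_mod_cast hd.ne'
      refine ⟨x + ((ρ / dist z x : ℝ) : ℂ) * (z - x), ?_, ?_⟩
      · rw [mem_closedBall, dist_eq_norm, add_sub_cancel_left, norm_mul, Complex.norm_real,
          ← dist_eq_norm z x, Real.norm_eq_abs, abs_of_pos (by positivity)]
        exact le_of_eq (by field_simp)
      · rw [dist_eq_norm]
        have e : z - (x + ((ρ / dist z x : ℝ) : ℂ) * (z - x)) =
            ((1 - ρ / dist z x : ℝ) : ℂ) * (z - x) := by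
          push_cast
          ring
        have hq : 0 ≤ 1 - ρ / dist z x := by
          rw [sub_nonneg, div_le_one hd]
          exact h.le
        rw [e, norm_mul, Complex.norm_real, Real.norm_eq_abs, abs_of_nonneg hq,
          ← dist_eq_norm z x]
        have : (1 - ρ / dist z x) * dist z x = dist z x - ρ := by field_simp
        rw [this]
        linarith
  let χ : ContDiffBump x := ⟨ρ + δ / 3, ρ + δ / 2, by linarith, by linarith⟩
  have hχ1 : ∀ z ∈ ball x (ρ + δ / 3), χ z = 1 := fun z hz =>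
    χ.one_of_mem_closedBall (ball_subset_closedBall hz)
  have hts : tsupport χ ⊆ ball c r := by
    rw [χ.tsupport_eq]
    refine (closedBall_subset_ball ?_).trans hthick
    show ρ + δ / 2 < ρ + δ
    linarith
  set b : ℂ → ℝ := fun z => χ z * a z with hb
  have hbC : ContDiff ℝ 2 b := by
    rw [contDiff_iff_contDiffAt]
    intro z
    by_cases hz : z ∈ tsupport χ
    · exact (χ.contDiff.contDiffAt).mul (ha.contDiffAt (isOpen_ball.mem_nhds (hts hz)))
    · have : b =ᶠ[𝓝 z] fun _ => 0 :=
        (notMem_tsupport_iff_eventuallyEq.1 hz).mono fun y hy => by simp [hb, hy]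
      exact contDiffAt_const.congr_of_eventuallyEq this
  have hba : ∀ z ∈ ball x (ρ + δ / 3), b =ᶠ[𝓝 z] a := by
    intro z hz
    filter_upwards [isOpen_ball.mem_nhds hz] with y hy
    simp [hb, hχ1 y hy]
  have hsub : ball x ρ ⊆ ball x (ρ + δ / 3) := ball_subset_ball (by linarith)
  have hlap : ∀ z ∈ ball x ρ, |Laplacian.laplacian b z| ≤ M := by
    intro z hz
    rw [InnerProductSpace.laplacian_congr_nhds (hba z (hsub hz)) |>.self_of_nhds]
    exact hM z (hx (ball_subset_closedBall hz))
  have h := os_avg b hbC x ρ M hρ hlap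
  have e1 : b x = a x := (hba x (mem_ball_self (by linarith))).self_of_nhds
  have e2 : avg x ρ b = avg x ρ a := by
    unfold avg
    congr 1
    refine setIntegral_congr_fun measurableSet_ball fun z hz => ?_
    exact (hba z (hsub hz)).self_of_nhds
  rwa [e1, e2] at h

theorem osc : ∃ K : ℝ, 0 < K ∧ ∀ (c : ℂ) (r M : ℝ) (a : ℂ → ℝ), 0 < r →
    ContDiffOn ℝ 2 a (ball c r) → IntegrableOn (fun x => ‖dz a x‖ ^ 2) (ball c r) →
    (∀ x ∈ ball c r, |Laplacian.laplacian a x| ≤ M) →
    ∀ x ∈ ball c (r / 2), ∀ x' ∈ ball c (r / 2),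
      |a x - a x'| ≤ K * (Real.sqrt (∫ x in ball c r, ‖dz a x‖ ^ 2) + M * r ^ 2) := by
  obtain ⟨K, hK, H⟩ := avg_avg
  refine ⟨K + 1, by linarith, ?_⟩
  intro c r M a hr ha hint hM x hx x' hx'
  have hM0 : 0 ≤ M := (abs_nonneg _).trans (hM c (mem_ball_self hr))
  set R : ℝ := 7 * r / 8 with hR
  have hRr : R < r := by rw [hR]; linarith
  have hsub : ∀ y ∈ ball c (r / 2), closedBall y (R / 4) ⊆ ball c R := by
    intro y hy z hz
    rw [mem_ball] at hy ⊢
    rw [mem_closedBall] at hz
    have := dist_triangle z y c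
    rw [hR] at hz ⊢
    linarith
  have hRc : ball c R ⊆ ball c r := ball_subset_ball hRr.le
  have h1 := os_loc c r M a ha hM x (R / 4) (by rw [hR]; positivity) ((hsub x hx).trans hRc)
  have h2 := os_loc c r M a ha hM x' (R / 4) (by rw [hR]; positivity) ((hsub x' hx').trans hRc)
  have h3 := H c x x' R (ball c r) a (by rw [hR]; positivity) isOpen_ball
    (closedBall_subset_ball hRr) (ha.of_le (by norm_num))
    (ball_subset_closedBall.trans (hsub x hx)) (ball_subset_closedBall.trans (hsub x' hx'))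
  have h4 : ∫ x in ball c R, ‖dz a x‖ ^ 2 ≤ ∫ x in ball c r, ‖dz a x‖ ^ 2 :=
    setIntegral_mono_set hint (Eventually.of_forall fun y => by positivity)
      (Eventually.of_forall hRc)
  have h5 := Real.sqrt_le_sqrt h4
  have h6 : 0 ≤ Real.sqrt (∫ x in ball c r, ‖dz a x‖ ^ 2) := Real.sqrt_nonneg _
  have h7 : |a x - a x'| ≤ |avg x (R / 4) a - a x| + |avg x (R / 4) a - avg x' (R / 4) a| +
      |avg x' (R / 4) a - a x'| := by
    have e : a x - a x' = -(avg x (R / 4) a - a x) + (avg x (R / 4) a - avg x' (R / 4) a) +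
        (avg x' (R / 4) a - a x') := by ring
    rw [e]
    refine (abs_add_le _ _).trans (add_le_add ((abs_add_le _ _).trans ?_) le_rfl)
    rw [abs_neg]
  have h8 : M * (R / 4) ^ 2 ≤ M * r ^ 2 / 4 := by
    rw [hR]
    have : 0 ≤ M * r ^ 2 := by positivity
    nlinarith
  have h9 : 0 ≤ M * r ^ 2 := by positivity
  have h10 : K * Real.sqrt (∫ x in ball c R, ‖dz a x‖ ^ 2) ≤
      K * Real.sqrt (∫ x in ball c r, ‖dz a x‖ ^ 2) := mul_le_mul_of_nonneg_left h5 hK.le
  nlinarith

end EGR
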