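import Pool.Agent.EGR.Esym
import Pool.Agent.EGR.Sum

/-!
Growth of square integrable rational functions on the curve near a non-separable point and near
infinity.

PROOF. `φ = Q / D`. For `x` near `a`, `x ≠ a`: `x` separable, `D(x) ≠ 0`. By `charpoly_fib` the
elementary symmetric functions `e_m(x)`, `1 ≤ m ≤ d`, of the values `rat φ x y` are rational
functions `c_m(x) / D(x)^m`. As `|e_m|^(2/m) ≤ C ∑ |rat φ x y|^2` is integrable near `a`, either
`e_m = 0` or `e_m ~ c (x - a)^n` with `2 n / m > -2`, so `n ≥ -(m-1)` and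
`|e_m| ≤ C |x - a|^(-(m-1)) ≤ C |x - a|^(-m(1 - 1/d))` for `|x - a| ≤ 1`. A root of
`T^d - e_1 T^(d-1) + ...` is at most `2 max_m |e_m|^(1/m)` in absolute value.
Near infinity in the same way: `e_m ~ c x^n` with `2 n / m < -2`, so `n ≤ -(m+1)` and
`|e_m|^(1/m) ≤ C |x|^(-(m+1)/m) ≤ C |x|^(-(1 + 1/d))`.
-/

open Polynomial MeasureTheory Metric ComplexConjugate Filter Topology

namespace EGR

open ALC

/-- a root of a monic polynomial with small coefficients is small -/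
private lemma rn_root (p : ℂ[X]) (d : ℕ) (hp : p.Monic) (hd : p.natDegree = d) (A : ℝ) (hA : 0 ≤ A)
    (hc : ∀ i ∈ Finset.range d, ‖p.coeff i‖ ≤ A ^ (d - i)) (z : ℂ) (hz : p.eval z = 0) :
    ‖z‖ ≤ 2 * A := by
  by_contra hcon
  push Not at hcon
  have hz0 : 0 < ‖z‖ := lt_of_le_of_lt (by positivity) hcon
  have h1 : z ^ d = -∑ i ∈ Finset.range d, p.coeff i * z ^ i := by
    rw [eval_eq_sum_range, hd, Finset.sum_range_succ] at hz
    have h2 : p.coeff d = 1 := by rw [← hd]; exact hp.coeff_natDegree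
    rw [h2, one_mul] at hz
    linear_combination hz
  have h3 : ‖z‖ ^ d ≤ ∑ i ∈ Finset.range d, ‖z‖ ^ d * (1 / 2) ^ (d - i) := by
    calc ‖z‖ ^ d = ‖z ^ d‖ := (norm_pow _ _).symm
      _ = ‖∑ i ∈ Finset.range d, p.coeff i * z ^ i‖ := by rw [h1, norm_neg]
      _ ≤ ∑ i ∈ Finset.range d, ‖p.coeff i * z ^ i‖ := norm_sum_le _ _
      _ ≤ ∑ i ∈ Finset.range d, ‖z‖ ^ d * (1 / 2) ^ (d - i) := by
          refine Finset.sum_le_sum fun i hi => ?_
          have hid : i ≤ d := (Finset.mem_range.1 hi).le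
          rw [norm_mul, norm_pow]
          have h4 : A ^ (d - i) ≤ (‖z‖ * (1 / 2)) ^ (d - i) :=
            pow_le_pow_left₀ hA (by linarith) _
          calc ‖p.coeff i‖ * ‖z‖ ^ i ≤ (‖z‖ * (1 / 2)) ^ (d - i) * ‖z‖ ^ i :=
                mul_le_mul_of_nonneg_right ((hc i hi).trans h4) (by positivity)
            _ = ‖z‖ ^ d * (1 / 2) ^ (d - i) := by
                rw [mul_pow, mul_right_comm, ← pow_add, Nat.sub_add_cancel hid]
  have h5 : ∑ i ∈ Finset.range d, (1 / 2 : ℝ) ^ (d - i) = 1 - (1 / 2) ^ d := by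
    have h6 : ∑ i ∈ Finset.range d, (1 / 2 : ℝ) ^ (d - i) =
        ∑ i ∈ Finset.range d, (1 / 2 : ℝ) ^ (i + 1) := by
      rw [← Finset.sum_range_reflect]
      refine Finset.sum_congr rfl fun i hi => ?_
      have := Finset.mem_range.1 hi
      congr 1
      omega
    rw [h6]
    clear h6 h3 h1 hc hd
    induction d with
    | zero => simp
    | succ n ih =>
      rw [Finset.sum_range_succ, ih]
      ring
  rw [← Finset.mul_sum, h5] at h3
  have h7 : 0 < ‖z‖ ^ d := by positivity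
  have h8 : 0 < (1 / 2 : ℝ) ^ d := by positivity
  nlinarith

private lemma rn_near_poly (p : ℂ[X]) (hp : p ≠ 0) (a : ℂ) :
    ∃ (k : ℕ) (c C : ℝ), 0 < c ∧ 0 < C ∧ ∀ᶠ x in 𝓝 a,
      c * ‖x - a‖ ^ k ≤ ‖p.eval x‖ ∧ ‖p.eval x‖ ≤ C * ‖x - a‖ ^ k := by
  obtain ⟨q, hq, hnd⟩ := exists_eq_pow_rootMultiplicity_mul_and_not_dvd p hp a
  have hqa : q.eval a ≠ 0 := fun h => hnd (dvd_iff_isRoot.2 h)
  have hpos : 0 < ‖q.eval a‖ := norm_pos_iff.2 hqa
  have hc : ContinuousAt (fun x => ‖q.eval x‖) a := (q.continuous.norm).continuousAt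
  refine ⟨rootMultiplicity a p, ‖q.eval a‖ / 2, 2 * ‖q.eval a‖, by positivity, by positivity, ?_⟩
  filter_upwards [hc.eventually (lt_mem_nhds (by linarith : ‖q.eval a‖ / 2 < ‖q.eval a‖)),
    hc.eventually (gt_mem_nhds (by linarith : ‖q.eval a‖ < 2 * ‖q.eval a‖))] with x h1 h2
  have h3 : ‖p.eval x‖ = ‖x - a‖ ^ rootMultiplicity a p * ‖q.eval x‖ := by
    conv_lhs => rw [hq]
    rw [eval_mul, eval_pow, eval_sub, eval_X, eval_C, norm_mul, norm_pow]
  rw [h3]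
  have h4 : 0 ≤ ‖x - a‖ ^ rootMultiplicity a p := by positivity
  constructor <;> nlinarith

private lemma rn_far_poly (p : ℂ[X]) (hp : p ≠ 0) :
    ∃ (k : ℕ) (c C : ℝ), 0 < c ∧ 0 < C ∧ ∀ᶠ x in Bornology.cobounded ℂ,
      c * ‖x‖ ^ k ≤ ‖p.eval x‖ ∧ ‖p.eval x‖ ≤ C * ‖x‖ ^ k := by
  set q := p.reverse with hq
  have hq0 : q.eval 0 ≠ 0 := by
    rw [← coeff_zero_eq_eval_zero, coeff_zero_reverse]
    exact leadingCoeff_ne_zero.2 hp
  have hpos : 0 < ‖q.eval 0‖ := norm_pos_iff.2 hq0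
  have hc : Tendsto (fun x : ℂ => ‖q.eval x⁻¹‖) (Bornology.cobounded ℂ) (𝓝 ‖q.eval 0‖) :=
    ((q.continuous.norm).tendsto 0).comp tendsto_inv₀_cobounded
  refine ⟨p.natDegree, ‖q.eval 0‖ / 2, 2 * ‖q.eval 0‖, by positivity, by positivity, ?_⟩
  have hne : ∀ᶠ x : ℂ in Bornology.cobounded ℂ, x ≠ 0 := by
    filter_upwards [(hasBasis_cobounded_norm (E := ℂ)).mem_of_mem (i := 1) trivial] with x hx
    intro h
    rw [h] at hx
    simp at hx
    linarith
  filter_upwards [hc.eventually (lt_mem_nhds (by linarith : ‖q.eval 0‖ / 2 < ‖q.eval 0‖)),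
    hc.eventually (gt_mem_nhds (by linarith : ‖q.eval 0‖ < 2 * ‖q.eval 0‖)), hne] with x h1 h2 h0
  have h3 : ‖p.eval x‖ = ‖q.eval x⁻¹‖ * ‖x‖ ^ p.natDegree := by
    let _ : Invertible x := invertibleOfNonzero h0
    have h5 := eval₂_reverse_mul_pow (RingHom.id ℂ) x p
    rw [invOf_eq_inv] at h5
    rw [← eval₂_id, ← h5, norm_mul, norm_pow, hq, ← eval₂_id]
  rw [h3]
  have h4 : 0 ≤ ‖x‖ ^ p.natDegree := by positivity
  constructor <;> nlinarith

/-- integrability near a point -/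
private lemma rn_int_near (f : ℂ → ℝ) (hf : Integrable f) (a : ℂ) (s c : ℝ) (hc : 0 < c)
    (h : ∀ᶠ x in 𝓝[≠] a, c * ‖x - a‖ ^ s ≤ f x) : -2 < s := by
  obtain ⟨R, hR, hR'⟩ := Metric.mem_nhdsWithin_iff.1 h
  have h1 : Integrable (fun x => f (x + a)) := hf.comp_add_right a
  have h2 : IntegrableOn (fun x : ℂ => ‖x‖ ^ s) (ball (0 : ℂ) R) := by
    have hm : AEStronglyMeasurable (fun x : ℂ => ‖x‖ ^ s) (volume.restrict (ball (0 : ℂ) R)) :=
      (measurable_norm.pow_const _).aestronglyMeasurable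
    refine Integrable.mono (h1.integrableOn.const_mul (1 / c)) hm ?_
    have hae : ∀ᵐ x : ℂ ∂(volume.restrict (ball (0 : ℂ) R)), x ≠ 0 := by
      refine ae_restrict_of_ae ?_
      exact measure_eq_zero_iff_ae_notMem.1 (measure_singleton (0 : ℂ))
    filter_upwards [hae, ae_restrict_mem measurableSet_ball] with x hx0 hxR
    have h3 : x + a ∈ ball a R ∩ {a}ᶜ := by
      refine ⟨?_, ?_⟩
      · rw [mem_ball, dist_eq_norm, add_sub_cancel_right]
        exact mem_ball_zero_iff.1 hxR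
      · intro h4
        exact hx0 (by simpa using h4)
    have h4 := hR' h3
    simp only [Set.mem_ofPred_eq, add_sub_cancel_right] at h4
    have h5 : 0 ≤ ‖x‖ ^ s := Real.rpow_nonneg (norm_nonneg _) _
    rw [Real.norm_of_nonneg h5, Real.norm_of_nonneg (by
      have : 0 ≤ f (x + a) := le_trans (by positivity) h4
      positivity), one_div, ← div_eq_inv_mul, le_div_iff₀ hc]
    linarith
  have h3 := (integrableOn_fun_norm_addHaar (volume : Measure ℂ) (f := fun t : ℝ => t ^ s)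
    (r := R)).1 h2
  have h4 : IntegrableOn (fun y : ℝ => y ^ (s + 1)) (Set.Ioo 0 R) := by
    refine h3.congr_fun ?_ measurableSet_Ioo
    intro y hy
    have hy0 : 0 < y := hy.1
    simp only [Complex.finrank_real_complex, Nat.add_one_sub_one, pow_one, smul_eq_mul]
    rw [Real.rpow_add_one hy0.ne']
    ring
  have h5 := (intervalIntegral.integrableOn_Ioo_rpow_iff hR).1 h4
  linarith

/-- integrability near infinity -/
private lemma rn_int_far (f : ℂ → ℝ) (hf : Integrable f) (s c : ℝ) (hc : 0 < c)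
    (h : ∀ᶠ x in Bornology.cobounded ℂ, c * ‖x‖ ^ s ≤ f x) : s < -2 := by
  obtain ⟨R, -, hR'⟩ := (hasBasis_cobounded_norm (E := ℂ)).mem_iff.1 h
  set R1 : ℝ := max R 1 with hR1
  have hR0 : 0 < R1 := lt_of_lt_of_le one_pos (le_max_right _ _)
  set φ : ℝ → ℝ := (Set.Ioi R1).indicator fun t => t ^ s with hφ
  have h2 : Integrable (fun x : ℂ => φ ‖x‖) := by
    have hm : AEStronglyMeasurable (fun x : ℂ => φ ‖x‖) volume := by
      refine Measurable.aestronglyMeasurable ?_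
      exact (((measurable_id.pow_const s).indicator measurableSet_Ioi)).comp measurable_norm
    refine Integrable.mono (hf.norm.const_mul (1 / c)) hm (Eventually.of_forall fun x => ?_)
    simp only [hφ]
    by_cases hx : ‖x‖ ∈ Set.Ioi R1
    · rw [Set.indicator_of_mem hx]
      have h4 : c * ‖x‖ ^ s ≤ f x := hR' (by
        show R ≤ ‖x‖
        exact (le_max_left _ _).trans (le_of_lt hx))
      have h5 : 0 ≤ ‖x‖ ^ s := Real.rpow_nonneg (norm_nonneg _) _
      have h6 := le_abs_self (f x)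
      rw [Real.norm_of_nonneg h5, Real.norm_of_nonneg (by positivity), one_div,
        ← div_eq_inv_mul, le_div_iff₀ hc, Real.norm_eq_abs]
      linarith
    · rw [Set.indicator_of_notMem hx, norm_zero]
      positivity
  have h3 := (integrable_fun_norm_addHaar (volume : Measure ℂ) (f := φ)).1 h2
  have h4 : IntegrableOn (fun y : ℝ => y ^ (s + 1)) (Set.Ioi R1) := by
    have h5 := h3.mono_set (Set.Ioi_subset_Ioi hR0.le)
    refine h5.congr_fun ?_ measurableSet_Ioi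
    intro y hy
    have hy0 : 0 < y := hR0.trans hy
    simp only [Complex.finrank_real_complex, Nat.add_one_sub_one, pow_one, smul_eq_mul, hφ]
    rw [Set.indicator_of_mem hy, Real.rpow_add_one hy0.ne']
    ring
  have h5 := (integrableOn_Ioi_rpow_iff hR0).1 h4
  linarith

private lemma rn_core (F : ℂ[X][X]) (hF : F.Monic) (hd : 0 < F.natDegree) (φ : ℂ[X][X] × ℂ[X])
    (hφ : φ.2 ≠ 0) (l : Filter ℂ) (t : ℂ → ℝ) (ht : ∀ᶠ x in l, 0 < t x ∧ t x ≤ 1)
    (hsep : ∀ᶠ x in l, (at_ F x).Separable) (θ : ℤ)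
    (hasym : ∀ p : ℂ[X], p ≠ 0 → ∃ (k : ℤ) (c C : ℝ), 0 < c ∧ 0 < C ∧ ∀ᶠ x in l,
      c * t x ^ k ≤ ‖p.eval x‖ ∧ ‖p.eval x‖ ≤ C * t x ^ k)
    (hint : ∀ s c : ℝ, 0 < c → (∀ᶠ x in l, c * t x ^ s ≤ ∑ y ∈ fib F x, ‖rat φ x y‖ ^ 2) →
      2 * (θ : ℝ) < s) :
    ∃ A : ℝ, 0 ≤ A ∧ ∀ᶠ x in l, (at_ F x).Separable ∧ φ.2.eval x ≠ 0 ∧ ∀ y ∈ fib F x,
      ‖rat φ x y‖ ≤ A * t x ^ ((θ : ℝ) + 1 / (F.natDegree : ℝ)) := by
  classical
  obtain ⟨P, hPm, hPd, hP⟩ := charpoly_fib F hF φ.1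
  set d := F.natDegree with hdd
  obtain ⟨kD, cD, CD, hcD, hCD, hD⟩ := hasym φ.2 hφ
  have hd0 : (0 : ℝ) < (d : ℝ) := by exact_mod_cast hd
  -- the coefficients
  have hcoef : ∀ x i, (at_ P x).coeff i = (P.coeff i).eval x := by
    intro x i
    unfold at_
    rw [coeff_map, coe_evalRingHom]
  have hatm : ∀ x, (at_ P x).Monic := fun x => hPm.map _
  have hatd : ∀ x, (at_ P x).natDegree = d := fun x => by
    unfold at_
    rw [hPm.natDegree_map, hPd]
  -- upper bound of the coefficients by the values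
  have hup : ∀ x, (at_ F x).Separable → φ.2.eval x ≠ 0 → ∀ i ∈ Finset.range d,
      ‖(P.coeff i).eval x‖ / ‖φ.2.eval x‖ ^ (d - i) ≤
        Real.sqrt (∑ y ∈ fib F x, ‖rat φ x y‖ ^ 2) ^ (d - i) * (d.choose i : ℝ) := by
    intro x hx hDx i hi
    have hDn : 0 < ‖φ.2.eval x‖ := norm_pos_iff.2 hDx
    set s := Real.sqrt (∑ y ∈ fib F x, ‖rat φ x y‖ ^ 2) with hs
    have h1 : ∀ z ∈ (map (RingHom.id ℂ) (at_ P x)).roots, ‖z‖ ≤ s * ‖φ.2.eval x‖ := by
      intro z hz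
      rw [Polynomial.map_id, hP x hx, mem_roots (Finset.prod_ne_zero_iff.2 fun y _ => X_sub_C_ne_zero _),
        IsRoot.def, eval_prod, Finset.prod_eq_zero_iff] at hz
      obtain ⟨y, hy, hzy⟩ := hz
      rw [eval_sub, eval_X, eval_C, sub_eq_zero] at hzy
      have h3 : z = rat φ x y * φ.2.eval x := by
        unfold rat
        rw [div_mul_cancel₀ _ hDx, hzy]
      rw [h3, norm_mul]
      refine mul_le_mul_of_nonneg_right ?_ (norm_nonneg _)
      rw [hs]
      refine Real.le_sqrt_of_sq_le ?_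
      exact Finset.single_le_sum (f := fun y => ‖rat φ x y‖ ^ 2) (fun i _ => sq_nonneg _) hy
    have h2 := coeff_le_of_roots_le (f := RingHom.id ℂ) i (hatm x)
      (by rw [Polynomial.map_id]; exact IsAlgClosed.splits _) h1
    rw [Polynomial.map_id, hcoef, hatd] at h2
    rw [div_le_iff₀ (by positivity)]
    calc ‖(P.coeff i).eval x‖ ≤ (s * ‖φ.2.eval x‖) ^ (d - i) * (d.choose i : ℝ) := h2
      _ = s ^ (d - i) * (d.choose i : ℝ) * ‖φ.2.eval x‖ ^ (d - i) := by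
          rw [mul_pow]
          ring
  -- the denominator does not vanish
  have hDne : ∀ᶠ x in l, φ.2.eval x ≠ 0 := by
    filter_upwards [hD, ht] with x h1 h2 h3
    rw [h3, norm_zero] at h1
    have h4 : 0 < cD * t x ^ kD := mul_pos hcD (zpow_pos h2.1 _)
    linarith [h1.1]
  -- the bound for every coefficient
  have key : ∀ i ∈ Finset.range d, ∃ A : ℝ, 1 ≤ A ∧ ∀ᶠ x in l,
      ‖(P.coeff i).eval x‖ / ‖φ.2.eval x‖ ^ (d - i) ≤
        (A * t x ^ ((θ : ℝ) + 1 / (d : ℝ))) ^ (d - i) := by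
    intro i hi
    by_cases h0 : P.coeff i = 0
    · refine ⟨1, le_rfl, ?_⟩
      filter_upwards [ht] with x h1
      rw [h0, eval_zero, norm_zero, zero_div]
      have := h1.1
      positivity
    obtain ⟨k, c, C, hc, hC, hk⟩ := hasym _ h0
    have hid : i < d := Finset.mem_range.1 hi
    obtain ⟨m, hm⟩ : ∃ m, m = d - i := ⟨_, rfl⟩
    have hm1 : 1 ≤ m := by omega
    have hmd : m ≤ d := by omega
    rw [← hm]
    have hmR : (0 : ℝ) < (m : ℝ) := by exact_mod_cast hm1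
    set n : ℤ := k - m * kD with hn
    have hch : (0 : ℝ) < (d.choose i : ℝ) := by exact_mod_cast Nat.choose_pos hid.le
    -- the quotient is comparable to `t ^ n`
    have hzp : ∀ x, 0 < t x → ∀ B : ℝ, t x ^ k / (B * t x ^ kD) ^ m = t x ^ n / B ^ m := by
      intro x hx B
      rw [mul_pow, hn, zpow_sub₀ hx.ne', ← zpow_natCast (t x ^ kD) m, ← zpow_mul, mul_comm kD]
      rw [div_div, div_mul_eq_div_div, div_div, mul_comm (B ^ m)]
    have hlow : ∀ᶠ x in l, c / CD ^ m * t x ^ n ≤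
        ‖(P.coeff i).eval x‖ / ‖φ.2.eval x‖ ^ m := by
      filter_upwards [hk, hD, ht, hDne] with x h1 h2 h3 h4
      have h5 : 0 < ‖φ.2.eval x‖ := norm_pos_iff.2 h4
      have h6 : 0 < t x ^ k := zpow_pos h3.1 _
      calc c / CD ^ m * t x ^ n = c * (t x ^ n / CD ^ m) := by ring
        _ = c * t x ^ k / (CD * t x ^ kD) ^ m := by
            rw [← hzp x h3.1 CD]
            ring
        _ ≤ ‖(P.coeff i).eval x‖ / ‖φ.2.eval x‖ ^ m := by
            refine div_le_div₀ (norm_nonneg _) h1.1 (by positivity) ?_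
            exact pow_le_pow_left₀ h5.le h2.2 m
    have hupp : ∀ᶠ x in l, ‖(P.coeff i).eval x‖ / ‖φ.2.eval x‖ ^ m ≤
        C / cD ^ m * t x ^ n := by
      filter_upwards [hk, hD, ht, hDne] with x h1 h2 h3 h4
      have h5 : 0 < ‖φ.2.eval x‖ := norm_pos_iff.2 h4
      have h6 : 0 < t x ^ k := zpow_pos h3.1 _
      have h7 : 0 < t x ^ kD := zpow_pos h3.1 _
      calc ‖(P.coeff i).eval x‖ / ‖φ.2.eval x‖ ^ m ≤ C * t x ^ k / (cD * t x ^ kD) ^ m := by
            refine div_le_div₀ (by positivity) h1.2 (by positivity) ?_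
            exact pow_le_pow_left₀ (by positivity) h2.1 m
        _ = C * (t x ^ n / cD ^ m) := by
            rw [← hzp x h3.1 cD]
            ring
        _ = C / cD ^ m * t x ^ n := by ring
    -- integrability
    have hθ : 2 * (θ : ℝ) < 2 * (n : ℝ) / m := by
      refine hint (2 * (n : ℝ) / m) ((c / CD ^ m / (d.choose i : ℝ)) ^ (2 / (m : ℝ)))
        (Real.rpow_pos_of_pos (by positivity) _) ?_
      filter_upwards [hlow, hsep, hDne, ht] with x h1 h2 h3 h4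
      have h5 := hup x h2 h3 i hi
      rw [← hm] at h5
      set T := ∑ y ∈ fib F x, ‖rat φ x y‖ ^ 2 with hT
      have hT0 : 0 ≤ T := Finset.sum_nonneg fun y _ => sq_nonneg _
      have h6 : c / CD ^ m / (d.choose i : ℝ) * t x ^ n ≤ Real.sqrt T ^ m := by
        have h7 : c / CD ^ m * t x ^ n ≤ Real.sqrt T ^ m * (d.choose i : ℝ) := h1.trans h5
        rw [div_mul_eq_mul_div, div_le_iff₀ hch]
        exact h7
      have h8 : 0 < t x ^ n := zpow_pos h4.1 _
      have h9 := Real.rpow_le_rpow (by positivity) h6 (by positivity : (0 : ℝ) ≤ 2 / m)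
      rw [Real.mul_rpow (by positivity) h8.le] at h9
      have h10 : (t x ^ n) ^ (2 / (m : ℝ)) = t x ^ (2 * (n : ℝ) / m) := by
        rw [← Real.rpow_intCast, ← Real.rpow_mul h4.1.le]
        congr 1
        ring
      have h11 : (Real.sqrt T ^ m) ^ (2 / (m : ℝ)) = T := by
        rw [← Real.rpow_natCast, ← Real.rpow_mul (Real.sqrt_nonneg _)]
        have h12 : (m : ℝ) * (2 / m) = 2 := by field_simp
        rw [h12]
        rw [Real.rpow_two, Real.sq_sqrt hT0]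
      rw [h10, h11] at h9
      exact h9
    have hn1 : θ * m + 1 ≤ n := by
      have h1 : (θ : ℝ) * m < n := by
        rw [lt_div_iff₀ hmR] at hθ
        linarith
      have h2 : θ * m < n := by exact_mod_cast h1
      omega
    refine ⟨max 1 (C / cD ^ m), le_max_left _ _, ?_⟩
    filter_upwards [hupp, ht] with x h1 h2
    set A := max 1 (C / cD ^ m) with hA
    have hA1 : 1 ≤ A := le_max_left _ _
    have h3 : t x ^ n ≤ (t x ^ ((θ : ℝ) + 1 / (d : ℝ))) ^ m := by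
      rw [← Real.rpow_natCast, ← Real.rpow_mul h2.1.le, ← Real.rpow_intCast]
      refine Real.rpow_le_rpow_of_exponent_ge h2.1 h2.2 ?_
      have h4 : ((θ * m + 1 : ℤ) : ℝ) ≤ (n : ℝ) := by exact_mod_cast hn1
      push_cast at h4
      have h5 : (1 / (d : ℝ)) * m ≤ 1 := by
        rw [one_div, inv_mul_le_iff₀ hd0, mul_one]
        exact_mod_cast hmd
      calc ((θ : ℝ) + 1 / (d : ℝ)) * m = θ * m + 1 / (d : ℝ) * m := by ring
        _ ≤ θ * m + 1 := by linarith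
        _ ≤ n := h4
    have h6 : 0 ≤ (t x ^ ((θ : ℝ) + 1 / (d : ℝ))) ^ m := by
      have := h2.1
      positivity
    calc ‖(P.coeff i).eval x‖ / ‖φ.2.eval x‖ ^ m ≤ C / cD ^ m * t x ^ n := h1
      _ ≤ A ^ m * (t x ^ ((θ : ℝ) + 1 / (d : ℝ))) ^ m := by
          have h7 : C / cD ^ m ≤ A ^ m := by
            refine (le_max_right 1 (C / cD ^ m)).trans ?_
            exact le_self_pow₀ hA1 (by omega)
          have h8 : 0 ≤ t x ^ n := (zpow_pos h2.1 _).le
          exact mul_le_mul h7 h3 h8 (by positivity)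
      _ = (A * t x ^ ((θ : ℝ) + 1 / (d : ℝ))) ^ m := by rw [mul_pow]
  -- one constant
  choose! A hA1 hA using key
  set A0 : ℝ := ∑ i ∈ Finset.range d, A i with hA0
  have hAle : ∀ i ∈ Finset.range d, A i ≤ A0 := fun i hi =>
    Finset.single_le_sum (f := A) (fun j hj => zero_le_one.trans (hA1 j hj)) hi
  have hA00 : 0 ≤ A0 := Finset.sum_nonneg fun j hj => zero_le_one.trans (hA1 j hj)
  refine ⟨2 * A0, by positivity, ?_⟩
  filter_upwards [(eventually_all_finset _).2 hA, hsep, hDne, ht] with x h1 h2 h3 h4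
  refine ⟨h2, h3, fun y hy => ?_⟩
  have hDn : 0 < ‖φ.2.eval x‖ := norm_pos_iff.2 h3
  set B := A0 * t x ^ ((θ : ℝ) + 1 / (d : ℝ)) with hB
  have hB0 : 0 ≤ B := by
    have := h4.1
    positivity
  have h5 : ‖φ.1.evalEval x y‖ ≤ 2 * (B * ‖φ.2.eval x‖) := by
    refine rn_root (at_ P x) d (hatm x) (hatd x) (B * ‖φ.2.eval x‖) (by positivity) ?_ _ ?_
    · intro i hi
      rw [hcoef, mul_pow]
      have h6 := h1 i hi
      rw [div_le_iff₀ (by positivity)] at h6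
      refine h6.trans ?_
      refine mul_le_mul_of_nonneg_right ?_ (by positivity)
      have h7 : 0 ≤ t x ^ ((θ : ℝ) + 1 / (d : ℝ)) := Real.rpow_nonneg h4.1.le _
      refine pow_le_pow_left₀ (mul_nonneg (zero_le_one.trans (hA1 i hi)) h7) ?_ _
      exact mul_le_mul_of_nonneg_right (hAle i hi) h7
    · rw [hP x h2, eval_prod]
      refine Finset.prod_eq_zero hy ?_
      rw [eval_sub, eval_X, eval_C, sub_self]
  have h6 : ‖rat φ x y‖ = ‖φ.1.evalEval x y‖ / ‖φ.2.eval x‖ := by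
    unfold rat
    rw [norm_div]
  rw [h6, div_le_iff₀ hDn]
  calc ‖φ.1.evalEval x y‖ ≤ 2 * (B * ‖φ.2.eval x‖) := h5
    _ = 2 * A0 * t x ^ ((θ : ℝ) + 1 / (d : ℝ)) * ‖φ.2.eval x‖ := by
        rw [hB]
        ring

private lemma rn_near_sep {F : ℂ[X][X]} (hF : F.Monic) {b : ℂ} (hb : (at_ F b).Separable) (a : ℂ) :
    ∀ᶠ x in 𝓝[≠] a, (at_ F x).Separable := by
  have hfin := bad_finite F hF b hb
  have h4 : IsClosed ({x : ℂ | ¬ (at_ F x).Separable} \ {a}) :=
    (hfin.subset Set.sdiff_subset).isClosed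
  have h5 : ∀ᶠ z in 𝓝 a, z ∉ {x : ℂ | ¬ (at_ F x).Separable} \ {a} :=
    h4.isOpen_compl.mem_nhds fun h => h.2 rfl
  filter_upwards [h5.filter_mono nhdsWithin_le_nhds, self_mem_nhdsWithin] with x h6 h7
  by_contra h8
  exact h6 ⟨h8, h7⟩

private lemma rn_far_sep {F : ℂ[X][X]} (hF : F.Monic) {b : ℂ} (hb : (at_ F b).Separable) :
    ∀ᶠ x in Bornology.cobounded ℂ, (at_ F x).Separable := by
  have hfin := bad_finite F hF b hb
  have h1 : {x : ℂ | ¬ (at_ F x).Separable}ᶜ ∈ Bornology.cobounded ℂ :=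
    Bornology.isBounded_def.1 hfin.isBounded
  filter_upwards [h1] with x hx
  simpa using hx

private lemma rn_deg_zero {F : ℂ[X][X]} (hF : F.Monic) (hd : F.natDegree = 0) (x : ℂ) :
    fib F x = ∅ := by
  rw [← Finset.card_eq_zero]
  have h1 : (fib F x).card ≤ (at_ F x).natDegree := by
    unfold fib
    exact (Multiset.toFinset_card_le _).trans (card_roots' _)
  have h2 : (at_ F x).natDegree = F.natDegree := hF.natDegree_map _
  omega

variable (F : ℂ[X][X]) (hF : F.Monic) (b : ℂ) (hb : (at_ F b).Separable)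

include hF hb

theorem rho_near (φ : ℂ[X][X] × ℂ[X]) (hφ : IsHol F φ) (a : ℂ) :
    ∃ C R : ℝ, 0 < R ∧ ∀ x ∈ ball a R, x ≠ a → (at_ F x).Separable ∧ φ.2.eval x ≠ 0 ∧
      ∀ y ∈ fib F x, ‖rat φ x y‖ ^ 2 ≤ C * ‖x - a‖ ^ (2 / (F.natDegree : ℝ) - 2) := by
  rcases Nat.eq_zero_or_pos F.natDegree with hd | hd
  · obtain ⟨k, c, C, hc, hC, hk⟩ := rn_near_poly φ.2 hφ.1 a
    obtain ⟨R, hR, hR'⟩ := Metric.mem_nhdsWithin_iff.1
      ((rn_near_sep hF hb a).and (hk.filter_mono nhdsWithin_le_nhds))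
    refine ⟨0, R, hR, fun x hx hxa => ⟨(hR' ⟨hx, hxa⟩).1, fun h => ?_, fun y hy => ?_⟩⟩
    · have h1 := (hR' ⟨hx, hxa⟩).2.1
      rw [h, norm_zero] at h1
      have h2 : 0 < ‖x - a‖ := norm_pos_iff.2 (sub_ne_zero.2 hxa)
      have h3 : 0 < c * ‖x - a‖ ^ k := by positivity
      linarith
    · rw [rn_deg_zero hF hd] at hy
      simp at hy
  have ht : ∀ᶠ x in 𝓝[≠] a, 0 < ‖x - a‖ ∧ ‖x - a‖ ≤ 1 := by
    have h1 : ball a 1 ∈ 𝓝 a := ball_mem_nhds a one_pos
    filter_upwards [mem_nhdsWithin_of_mem_nhds h1, self_mem_nhdsWithin] with x h2 h3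
    refine ⟨norm_pos_iff.2 (sub_ne_zero.2 h3), ?_⟩
    rw [mem_ball, dist_eq_norm] at h2
    exact h2.le
  obtain ⟨A, hA0, hA⟩ := rn_core F hF hd φ hφ.1 (𝓝[≠] a) (fun x => ‖x - a‖) ht
    (rn_near_sep hF hb a) (-1)
    (by
      intro p hp
      obtain ⟨k, c, C, hc, hC, hk⟩ := rn_near_poly p hp a
      refine ⟨k, c, C, hc, hC, ?_⟩
      filter_upwards [hk.filter_mono nhdsWithin_le_nhds] with x hx
      simpa using hx)
    (by
      intro s c hc h
      have := rn_int_near _ hφ.2 a s c hc h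
      push_cast
      linarith)
  obtain ⟨R, hR, hR'⟩ := Metric.mem_nhdsWithin_iff.1 hA
  refine ⟨A ^ 2, R, hR, fun x hx hxa => ?_⟩
  obtain ⟨h1, h2, h3⟩ := hR' ⟨hx, hxa⟩
  refine ⟨h1, h2, fun y hy => ?_⟩
  have h4 := h3 y hy
  have h5 : 0 < ‖x - a‖ := norm_pos_iff.2 (sub_ne_zero.2 hxa)
  calc ‖rat φ x y‖ ^ 2 ≤ (A * ‖x - a‖ ^ (((-1 : ℤ) : ℝ) + 1 / (F.natDegree : ℝ))) ^ 2 :=
        pow_le_pow_left₀ (norm_nonneg _) h4 2
    _ = A ^ 2 * ‖x - a‖ ^ (2 / (F.natDegree : ℝ) - 2) := by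
        rw [mul_pow, ← Real.rpow_natCast (‖x - a‖ ^ _) 2, ← Real.rpow_mul h5.le]
        congr 2
        push_cast
        ring

theorem rho_far (φ : ℂ[X][X] × ℂ[X]) (hφ : IsHol F φ) :
    ∃ C R : ℝ, 0 < R ∧ ∀ x, R ≤ ‖x‖ → (at_ F x).Separable ∧ φ.2.eval x ≠ 0 ∧
      ∀ y ∈ fib F x, ‖rat φ x y‖ ^ 2 ≤ C * ‖x‖ ^ (-(2 / (F.natDegree : ℝ)) - 2) := by
  rcases Nat.eq_zero_or_pos F.natDegree with hd | hd
  · obtain ⟨k, c, C, hc, hC, hk⟩ := rn_far_poly φ.2 hφ.1
    obtain ⟨R, -, hR'⟩ := (hasBasis_cobounded_norm (E := ℂ)).mem_iff.1 ((rn_far_sep hF hb).and hk)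
    refine ⟨0, max R 1, by positivity, fun x hx => ?_⟩
    have h0 : x ∈ {x : ℂ | R ≤ ‖x‖} := (le_max_left R 1).trans hx
    refine ⟨(hR' h0).1, fun h => ?_, fun y hy => ?_⟩
    · have h1 := (hR' h0).2.1
      rw [h, norm_zero] at h1
      have h2 : 0 < ‖x‖ := lt_of_lt_of_le one_pos ((le_max_right R 1).trans hx)
      have h3 : 0 < c * ‖x‖ ^ k := by positivity
      linarith
    · rw [rn_deg_zero hF hd] at hy
      simp at hy
  have hbig : ∀ᶠ x in Bornology.cobounded ℂ, (1 : ℝ) ≤ ‖x‖ :=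
    (hasBasis_cobounded_norm (E := ℂ)).mem_of_mem (i := 1) trivial
  have ht : ∀ᶠ x in Bornology.cobounded ℂ, 0 < ‖x‖⁻¹ ∧ ‖x‖⁻¹ ≤ 1 := by
    filter_upwards [hbig] with x hx
    exact ⟨by positivity, inv_le_one_of_one_le₀ hx⟩
  obtain ⟨A, hA0, hA⟩ := rn_core F hF hd φ hφ.1 (Bornology.cobounded ℂ) (fun x => ‖x‖⁻¹) ht
    (rn_far_sep hF hb) 1
    (by
      intro p hp
      obtain ⟨k, c, C, hc, hC, hk⟩ := rn_far_poly p hp
      refine ⟨-k, c, C, hc, hC, ?_⟩
      filter_upwards [hk] with x hx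
      simpa using hx)
    (by
      intro s c hc h
      have h1 : ∀ᶠ x in Bornology.cobounded ℂ, c * ‖x‖ ^ (-s) ≤ ∑ y ∈ fib F x, ‖rat φ x y‖ ^ 2 := by
        filter_upwards [h] with x hx
        rwa [Real.inv_rpow (norm_nonneg _), ← Real.rpow_neg (norm_nonneg _)] at hx
      have := rn_int_far _ hφ.2 (-s) c hc h1
      push_cast
      linarith)
  obtain ⟨R, -, hR'⟩ := (hasBasis_cobounded_norm (E := ℂ)).mem_iff.1 hA
  refine ⟨A ^ 2, max R 1, by positivity, fun x hx => ?_⟩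
  have h0 : x ∈ {x : ℂ | R ≤ ‖x‖} := (le_max_left R 1).trans hx
  obtain ⟨h1, h2, h3⟩ := hR' h0
  refine ⟨h1, h2, fun y hy => ?_⟩
  have h4 := h3 y hy
  have h5 : 0 < ‖x‖ := lt_of_lt_of_le one_pos ((le_max_right R 1).trans hx)
  calc ‖rat φ x y‖ ^ 2 ≤ (A * ‖x‖⁻¹ ^ (((1 : ℤ) : ℝ) + 1 / (F.natDegree : ℝ))) ^ 2 :=
        pow_le_pow_left₀ (norm_nonneg _) h4 2
    _ = A ^ 2 * ‖x‖ ^ (-(2 / (F.natDegree : ℝ)) - 2) := by
        rw [mul_pow, ← Real.rpow_natCast (‖x‖⁻¹ ^ _) 2, ← Real.rpow_mul (by positivity),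
          Real.inv_rpow h5.le, ← Real.rpow_neg h5.le]
        congr 2
        push_cast
        ring

end EGR
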