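import Mathlib

/-!
Riesz representation for a semi-definite form on a class of functions which is not complete: a
minimising sequence of `B u u / 2 - L u` is a Cauchy sequence (parallelogram identity) and
`B (u n) w → L w` (first variation, with a bound `|B (u n) w - L w| ≤ sqrt (2 δ_n) sqrt (B w w)`,
`δ_n` = distance of the value at `u n` to the infimum; the infimum is finite since
`|L u| ≤ C sqrt (B u u)`).
-/

open Filter Topology

namespace EGR

theorem riesz {V : Type*} [AddCommGroup V] [Module ℝ V] (P : V → Prop) (h0 : P 0)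
    (hadd : ∀ u w, P u → P w → P (u + w)) (hsmul : ∀ (c : ℝ) u, P u → P (c • u))
    (B : V → V → ℝ) (hBadd : ∀ u v w, P u → P v → P w → B (u + v) w = B u w + B v w)
    (hBsmul : ∀ (c : ℝ) u w, P u → P w → B (c • u) w = c * B u w)
    (hBsymm : ∀ u w, P u → P w → B u w = B w u) (hBpos : ∀ u, P u → 0 ≤ B u u)
    (L : V → ℝ) (hLadd : ∀ u w, P u → P w → L (u + w) = L u + L w)
    (hLsmul : ∀ (c : ℝ) u, P u → L (c • u) = c * L u) (C : ℝ)
    (hL : ∀ u, P u → |L u| ≤ C * Real.sqrt (B u u)) :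
    ∃ u : ℕ → V, (∀ n, P (u n)) ∧
      (∀ ε : ℝ, 0 < ε → ∃ N : ℕ, ∀ m ≥ N, ∀ n ≥ N, B (u m - u n) (u m - u n) ≤ ε) ∧
      ∀ w, P w → Tendsto (fun n => B (u n) w) atTop (𝓝 (L w)) := by
  -- expansion of the form
  have hexp : ∀ (s t : ℝ) u w, P u → P w →
      B (s • u + t • w) (s • u + t • w) = s ^ 2 * B u u + 2 * s * t * B u w + t ^ 2 * B w w := by
    intro s t u w hu hw
    have hsu := hsmul s u hu
    have htw := hsmul t w hw
    have hsum := hadd _ _ hsu htw
    have e1 : B u (s • u + t • w) = s * B u u + t * B u w := by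
      rw [hBsymm u _ hu hsum, hBadd _ _ _ hsu htw hu, hBsmul _ _ _ hu hu, hBsmul _ _ _ hw hu,
        hBsymm w u hw hu]
    have e2 : B w (s • u + t • w) = s * B u w + t * B w w := by
      rw [hBsymm w _ hw hsum, hBadd _ _ _ hsu htw hw, hBsmul _ _ _ hu hw, hBsmul _ _ _ hw hw]
    rw [hBadd _ _ _ hsu htw hsum, hBsmul _ _ _ hu hsum, hBsmul _ _ _ hw hsum, e1, e2]
    ring
  have hLexp : ∀ (s t : ℝ) u w, P u → P w → L (s • u + t • w) = s * L u + t * L w := by
    intro s t u w hu hw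
    rw [hLadd _ _ (hsmul s u hu) (hsmul t w hw), hLsmul _ _ hu, hLsmul _ _ hw]
  set J : V → ℝ := fun u => B u u / 2 - L u with hJ
  have hbdd : ∀ u, P u → -(C ^ 2 / 2) ≤ J u := by
    intro u hu
    have h1 := hL u hu
    have h2 := (abs_le.mp h1).2
    have h3 := Real.sq_sqrt (hBpos u hu)
    simp only [hJ]
    nlinarith [sq_nonneg (Real.sqrt (B u u) - C)]
  set S : Set ℝ := J '' {u | P u} with hS
  have hSne : S.Nonempty := ⟨J 0, 0, h0, rfl⟩
  have hSbdd : BddBelow S := by
    refine ⟨-(C ^ 2 / 2), ?_⟩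
    rintro _ ⟨u, hu, rfl⟩
    exact hbdd u hu
  set I : ℝ := sInf S with hI
  have hIle : ∀ u, P u → I ≤ J u := fun u hu => csInf_le hSbdd ⟨u, hu, rfl⟩
  have hex : ∀ n : ℕ, ∃ u, P u ∧ J u ≤ I + 1 / ((n : ℝ) + 1) := by
    intro n
    have hpos : 0 < 1 / ((n : ℝ) + 1) := Nat.one_div_pos_of_nat
    obtain ⟨_, ⟨u, hu, rfl⟩, hlt⟩ := exists_lt_of_csInf_lt hSne (lt_add_of_pos_right I hpos)
    exact ⟨u, hu, hlt.le⟩
  choose u hu hJu using hex
  refine ⟨u, hu, ?_, ?_⟩
  · intro ε hε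
    obtain ⟨N, hN⟩ := exists_nat_one_div_lt (show (0 : ℝ) < ε / 8 by positivity)
    refine ⟨N, fun m hm n hn => ?_⟩
    have hδ : ∀ k : ℕ, N ≤ k → 1 / ((k : ℝ) + 1) ≤ ε / 8 := by
      intro k hk
      refine le_trans ?_ hN.le
      exact Nat.one_div_le_one_div hk
    have h1 := hexp (1 / 2) (1 / 2) (u m) (u n) (hu m) (hu n)
    have h2 := hLexp (1 / 2) (1 / 2) (u m) (u n) (hu m) (hu n)
    have h3 := hIle _ (hadd _ _ (hsmul (1 / 2) _ (hu m)) (hsmul (1 / 2) _ (hu n)))
    simp only [hJ] at h3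
    rw [h1, h2] at h3
    have h4 := hexp 1 (-1) (u m) (u n) (hu m) (hu n)
    have e4 : (1 : ℝ) • u m + (-1 : ℝ) • u n = u m - u n := by
      rw [one_smul, neg_one_smul, sub_eq_add_neg]
    rw [e4] at h4
    have h5 := hJu m
    have h6 := hJu n
    simp only [hJ] at h5 h6
    have h7 := hδ m hm
    have h8 := hδ n hn
    rw [h4]
    linarith
  · intro w hw
    have hb : ∀ n, (B (u n) w - L w) ^ 2 ≤ 2 * B w w * (1 / ((n : ℝ) + 1)) := by
      intro n
      have hq : ∀ t : ℝ, 0 ≤ (B w w / 2) * (t * t) + (B (u n) w - L w) * t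
          + 1 / ((n : ℝ) + 1) := by
        intro t
        have h1 := hexp 1 t (u n) w (hu n) hw
        have h2 := hLexp 1 t (u n) w (hu n) hw
        have h3 := hIle _ (hadd _ _ (hsmul 1 _ (hu n)) (hsmul t _ hw))
        simp only [hJ] at h3
        rw [h1, h2] at h3
        have h4 := hJu n
        simp only [hJ] at h4
        nlinarith
      have := discrim_le_zero hq
      rw [discrim] at this
      nlinarith
    have hlim : Tendsto (fun n : ℕ => 2 * B w w * (1 / ((n : ℝ) + 1))) atTop (𝓝 0) := by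
      have := (tendsto_one_div_add_atTop_nhds_zero_nat (𝕜 := ℝ)).const_mul (2 * B w w)
      simpa using this
    have hsq : Tendsto (fun n : ℕ => (B (u n) w - L w) ^ 2) atTop (𝓝 0) :=
      squeeze_zero (fun n => sq_nonneg _) hb hlim
    have habs : Tendsto (fun n : ℕ => |B (u n) w - L w|) atTop (𝓝 0) := by
      have := (Real.continuous_sqrt.tendsto 0).comp hsq
      simpa [Function.comp_def, Real.sqrt_sq_eq_abs] using this
    rw [tendsto_iff_norm_sub_tendsto_zero]
    simpa [Real.norm_eq_abs] using habs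

end EGR
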