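import Pool.Agent.EGR.Riesz
import Pool.Agent.EGR.LB
import Pool.Agent.EGR.Glue3
import Pool.Agent.EGR.Bd

/-!
Existence of a bounded solution of `Δ v = 2 π h` on the curve, if `∫ ∑ h = 0`.

PROOF. `riesz` with `P = Fn F`, `B = Bil F`, `L w = -(π/2) ∫ ∑ h w` (`L_bdd`, `L_int`); `glue2`,
`glue3`, `bdd_sol`.
-/

open Polynomial MeasureTheory Metric ComplexConjugate Filter Topology

namespace EGR

open ALC

theorem sol (F : ℂ[X][X]) (hF : F.Monic) (hirr : Irreducible F) (b : ℂ)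
    (hb : (at_ F b).Separable) (h : ℂ → ℂ → ℝ)
    (hc : ∀ U Y, IsBranch F U Y → ContinuousOn (fun x => h x (Y x)) U) (H : ℂ → ℝ)
    (hH : IsWt F H) (hh : ∀ x y, OnX F x y → |h x y| ≤ H x)
    (h0 : ∫ x, ∑ y ∈ fib F x, h x y = 0)
    (part : ∀ x0 y0, OnX F x0 y0 → ∃ r : ℝ, 0 < r ∧ ∃ (Y : ℂ → ℂ) (f : ℂ → ℝ),
      IsBranch F (ball x0 r) Y ∧ Y x0 = y0 ∧ ContDiffOn ℝ 2 f (ball x0 r) ∧
        ∀ x ∈ ball x0 r, Laplacian.laplacian f x = 2 * Real.pi * h x (Y x)) :
    ∃ v : ℂ → ℂ → ℝ, (∀ U Y, IsBranch F U Y → ContDiffOn ℝ 2 (fun x => v x (Y x)) U ∧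
      ∀ x ∈ U, Laplacian.laplacian (fun x => v x (Y x)) x = 2 * Real.pi * h x (Y x)) ∧
      ∃ M : ℝ, ∀ x y, OnX F x y → |v x y| ≤ M := by
  obtain ⟨C, hC⟩ := L_bdd F hF b hb hirr H hH h hc hh h0
  have hcont : ∀ u, Fn F u → ∀ U Y, IsBranch F U Y → ContinuousOn (fun x => u x (Y x)) U :=
    fun u hu U Y hY => (hu.smooth U Y hY).continuousOn
  have hint : ∀ u, Fn F u → Integrable (fun x => ∑ y ∈ fib F x, h x y * u x y) := fun u hu =>
    L_int F hF b hb H hH h hc hh u (hcont u hu) hu.bdd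
  obtain ⟨u, hu1, hu2, hu3⟩ := riesz (V := ℂ → ℂ → ℝ) (Fn F) (Fn.const F hF 0)
    (fun u w hu hw => Fn.add F hF b hb hu hw) (fun c u hu => Fn.smul F hF b hb c hu)
    (Bil F) (fun u v w hu hv hw => Bil_add F hF b hb hu hv hw)
    (fun c u w hu hw => Bil_smul F hF b hb c hu hw) (fun u w _ _ => Bil_symm F u w)
    (fun u _ => by rw [Bil_self]; exact En_nonneg F u)
    (fun w => -(Real.pi / 2) * ∫ x, ∑ y ∈ fib F x, h x y * w x y)
    (fun u w hu hw => by
      have e : (fun x => ∑ y ∈ fib F x, h x y * (u + w) x y) =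
          fun x => (∑ y ∈ fib F x, h x y * u x y) + ∑ y ∈ fib F x, h x y * w x y := by
        funext x
        rw [← Finset.sum_add_distrib]
        exact Finset.sum_congr rfl fun y _ => by simp only [Pi.add_apply]; ring
      simp only [e]
      rw [integral_add (hint u hu) (hint w hw)]
      ring)
    (fun c u hu => by
      have e : (fun x => ∑ y ∈ fib F x, h x y * (c • u) x y) =
          fun x => c * ∑ y ∈ fib F x, h x y * u x y := by
        funext x
        rw [Finset.mul_sum]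
        exact Finset.sum_congr rfl fun y _ => by
          simp only [Pi.smul_apply, smul_eq_mul]
          ring
      simp only [e]
      rw [integral_const_mul]
      ring)
    (Real.pi / 2 * C)
    (fun u hu => by
      rw [Bil_self, abs_mul, abs_neg, abs_of_pos (by positivity : 0 < Real.pi / 2), mul_assoc]
      exact mul_le_mul_of_nonneg_left (hC u hu) (by positivity))
  have hSq : Sq F h u :=
    { fn := hu1
      cauchy := fun ε hε => by
        obtain ⟨N, hN⟩ := hu2 ε hε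
        refine ⟨N, fun m hm n hn => ?_⟩
        rw [← Bil_self]
        exact hN m hm n hn
      weak := hu3
      part := part }
  obtain ⟨v, hv1, hv2⟩ := glue2 F hF b hb hirr h hc u hSq
  have hE := glue3 F hF b hb h u hSq v (fun U Y hY => (hv1 U Y hY).1) hv2
  refine ⟨v, hv1, ?_⟩
  exact bdd_sol F hF b hb hirr h H hH hh v ⟨fun U Y hY => (hv1 U Y hY).1, fun U Y hY => (hv1 U Y hY).2, hE⟩

end EGR
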