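import Pool.Agent.EGR.Mean
import Pool.Agent.EGR.HardyA
import Pool.Agent.EGR.HardyB
import Pool.Agent.EGR.Grad

/-!
The weighted Poincare inequality on the curve.

PROOF of `weighted`. `q x = ∑ y ∈ fib F x, (u x y - m)^2`, `m` the average over the base plaque,
`e x = ∑ ‖D F u x y‖^2`; `q` is `C^1` over the separable points, bounded there, `grad_sq` holds.
The bad set `Z` is finite. Choose `R0` small (`ball a (3 R0)`, `a ∈ Z`, disjoint, `R0 ≤` the radii of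
`IsWt.near`) and `R1` large (all bad points in `ball 0 (R1 / 4)`, `R1 ≥` the radius of
`IsWt.far`). The compact set `Q = {|x| ≤ 2 R1, |x - a| ≥ R0 for a ∈ Z}` is covered by finitely many
discs `ball c (r/2)` such that all branches are defined on `ball c (2 r)`; on each,
`∫_{ball c r} (u - avg)^2 ≤ K r^2 En F u` (`poincare`, `En_disc`) and `|avg - m| ≤ C sqrt(En F u)`
(`mean_bdd`); so `∫_Q q ≤ C En F u`. `hardyA` with `τ = min τ_a 1` and `hardyB` give the parts near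
`a ∈ Z` and near infinity (`‖x - a‖^(τ_a - 2) ≤ C ‖x - a‖^(τ - 2)` for `|x - a| ≤ R0`, similarly
near infinity). On `Q` the weight is bounded.
-/

open Polynomial MeasureTheory Metric ComplexConjugate Filter Topology

namespace EGR

open ALC

private theorem Wt_union {f : ℂ → ℝ} (hf : ∀ x, 0 ≤ f x) {S T : Set ℂ} (hS : IntegrableOn f S)
    (hT : IntegrableOn f T) : ∫ x in S ∪ T, f x ≤ (∫ x in S, f x) + ∫ x in T, f x := by
  rw [← integral_add_measure hS hT]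
  exact integral_mono_measure (Measure.restrict_union_le S T) (ae_of_all _ hf)
    (Integrable.add_measure hS hT)

private theorem Wt_near (a : ℂ) (τ R : ℝ) (hτ : 0 < τ) (hR : 0 < R) :
    IntegrableOn (fun x : ℂ => ‖x - a‖ ^ (τ - 2)) (ball a R) := by
  have h1 : IntegrableOn (fun x : ℂ => ‖x‖ ^ (τ - 2)) (ball 0 R) := by
    have h2 := (integrableOn_fun_norm_addHaar (E := ℂ) (μ := volume) (f := fun t : ℝ => t ^ (τ - 2))
      (r := R)).2 ?_
    · exact h2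
    · rw [Complex.finrank_real_complex]
      have h3 : IntegrableOn (fun x : ℝ => x ^ (τ - 1)) (Set.Ioo 0 R) :=
        (intervalIntegral.integrableOn_Ioo_rpow_iff hR).2 (by linarith)
      refine h3.congr_fun (fun x hx => ?_) measurableSet_Ioo
      have hx0 : 0 < x := hx.1
      show x ^ (τ - 1) = x ^ (2 - 1) • x ^ (τ - 2)
      rw [smul_eq_mul, show (2 - 1 : ℕ) = 1 from rfl, pow_one, mul_comm, ← Real.rpow_add_one hx0.ne']
      congr 1
      ring
  have h4 := (measurePreserving_sub_right (volume : Measure ℂ) a).integrableOn_comp_preimage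
    (MeasurableEquiv.subRight a).measurableEmbedding (f := fun x : ℂ => ‖x‖ ^ (τ - 2))
    (s := ball 0 R)
  have h5 := h4.2 h1
  have h6 : (fun x : ℂ => x - a) ⁻¹' ball 0 R = ball a R := by
    ext x
    simp [dist_eq_norm]
  rw [h6] at h5
  exact h5

private theorem Wt_far (τ R : ℝ) (hτ : 0 < τ) (hR : 0 < R) :
    IntegrableOn (fun x : ℂ => ‖x‖ ^ (-τ - 2)) {x | R ≤ ‖x‖} := by
  have hm : MeasurableSet {x : ℂ | R ≤ ‖x‖} := measurableSet_le measurable_const measurable_norm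
  rw [← integrable_indicator_iff hm]
  have h2 := (integrable_fun_norm_addHaar (E := ℂ) (μ := volume)
    (f := (Set.Ici R).indicator fun t : ℝ => t ^ (-τ - 2))).2 ?_
  · refine h2.congr (ae_of_all _ fun x => ?_)
    simp only [Set.indicator, Set.mem_Ici, Set.mem_ofPred_eq]
  · rw [Complex.finrank_real_complex]
    have h3 : IntegrableOn (fun x : ℝ => x ^ (-τ - 1)) (Set.Ici R) :=
      (integrableOn_Ici_iff_integrableOn_Ioi).2 (integrableOn_Ioi_rpow_of_lt (by linarith) hR)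
    have h4 : Integrable ((Set.Ici R).indicator fun x : ℝ => x ^ (-τ - 1)) :=
      (integrable_indicator_iff measurableSet_Ici).2 h3
    refine (h4.integrableOn (s := Set.Ioi 0)).congr_fun (fun x hx => ?_) measurableSet_Ioi
    have hx0 : 0 < x := hx
    simp only [Set.indicator, Set.mem_Ici]
    by_cases hxR : R ≤ x
    · rw [if_pos hxR, if_pos hxR, smul_eq_mul, show (2 - 1 : ℕ) = 1 from rfl, pow_one, mul_comm,
        ← Real.rpow_add_one hx0.ne']
      congr 1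
      ring
    · rw [if_neg hxR, if_neg hxR, smul_zero]

variable (F : ℂ[X][X]) (hF : F.Monic) (b : ℂ) (hb : (at_ F b).Separable)

/-- the compact set of points at distance at least `r a` from the bad points -/
private def Wt_Q (Z : Set ℂ) (r : ℂ → ℝ) (R : ℝ) : Set ℂ :=
  closedBall 0 R \ ⋃ a ∈ Z, ball a (r a)

private theorem Wt_Q_compact (Z : Set ℂ) (r : ℂ → ℝ) (R : ℝ) : IsCompact (Wt_Q Z r R) :=
  (isCompact_closedBall 0 R).diff (isOpen_biUnion fun _ _ => isOpen_ball)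

include hF hb

private theorem Wt_ae : ∀ᵐ x ∂(volume : Measure ℂ), (at_ F x).Separable := by
  have h3 : (volume : Measure ℂ) {x : ℂ | ¬ (at_ F x).Separable} = 0 :=
    (bad_finite F hF b hb).measure_zero _
  exact ae_iff.2 h3

omit hF hb in
private theorem Wt_Q_sep (r : ℂ → ℝ) (R : ℝ) (hr : ∀ a, ¬ (at_ F a).Separable → 0 < r a) :
    ∀ x ∈ Wt_Q {x | ¬ (at_ F x).Separable} r R, (at_ F x).Separable := by
  intro x hx
  by_contra h
  exact hx.2 (Set.mem_biUnion (show x ∈ {x | ¬ (at_ F x).Separable} from h)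
    (mem_ball_self (hr x h)))

theorem wt_int (H : ℂ → ℝ) (hH : IsWt F H) : Integrable H := by
  classical
  have hZ := bad_finite F hF b hb
  have hnear : ∀ a, ∃ C τ R : ℝ, ¬ (at_ F a).Separable → 0 < τ ∧ 0 < R ∧
      ∀ x ∈ ball a R, x ≠ a → H x ≤ C * ‖x - a‖ ^ (τ - 2) := by
    intro a
    by_cases ha : (at_ F a).Separable
    · exact ⟨0, 0, 0, fun h => absurd ha h⟩
    · obtain ⟨C, τ, R, h⟩ := hH.near a ha
      exact ⟨C, τ, R, fun _ => h⟩
  choose C τ r hC using hnear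
  obtain ⟨C1, τ1, R, hτ1, hR, hfar⟩ := hH.far
  have hI : ∀ a ∈ {x | ¬ (at_ F x).Separable}, IntegrableOn H (ball a (r a)) := by
    intro a ha
    obtain ⟨h1, h2, h3⟩ := hC a ha
    have h4 := (Wt_near a (τ a) (r a) h1 h2).const_mul (C a)
    refine Integrable.mono' h4 hH.meas.restrict ?_
    have h5 : ∀ᵐ x ∂(volume : Measure ℂ), x ≠ a := by
      rw [ae_iff]
      simp
    filter_upwards [ae_restrict_mem measurableSet_ball, ae_restrict_of_ae h5] with x hx hxa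
    rw [Real.norm_of_nonneg (hH.nonneg x)]
    exact h3 x hx hxa
  have hJ : IntegrableOn H {x | R ≤ ‖x‖} := by
    have h4 := (Wt_far τ1 R hτ1 hR).const_mul C1
    refine Integrable.mono' h4 hH.meas.restrict ?_
    have hm : MeasurableSet {x : ℂ | R ≤ ‖x‖} := measurableSet_le measurable_const measurable_norm
    filter_upwards [ae_restrict_mem hm] with x hx
    rw [Real.norm_of_nonneg (hH.nonneg x)]
    exact hfar x hx
  have hQ : IntegrableOn H (Wt_Q {x | ¬ (at_ F x).Separable} r R) := by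
    have hc := Wt_Q_compact {x | ¬ (at_ F x).Separable} r R
    obtain ⟨M, hM⟩ := hH.loc _ hc (Wt_Q_sep F r R fun a ha => (hC a ha).2.1)
    refine Measure.integrableOn_of_bounded (M := M) hc.measure_lt_top.ne hH.meas ?_
    filter_upwards [ae_restrict_mem hc.measurableSet] with x hx
    rw [Real.norm_of_nonneg (hH.nonneg x)]
    exact hM x hx
  have hU : IntegrableOn H (⋃ a ∈ {x | ¬ (at_ F x).Separable}, ball a (r a)) :=
    (integrableOn_finite_biUnion hZ).2 hI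
  have huniv : Set.univ ⊆ (Wt_Q {x | ¬ (at_ F x).Separable} r R ∪ {x | R ≤ ‖x‖}) ∪
      ⋃ a ∈ {x | ¬ (at_ F x).Separable}, ball a (r a) := by
    intro x _
    by_cases h1 : x ∈ ⋃ a ∈ {x | ¬ (at_ F x).Separable}, ball a (r a)
    · exact Or.inr h1
    · by_cases h2 : R ≤ ‖x‖
      · exact Or.inl (Or.inr h2)
      · refine Or.inl (Or.inl ⟨?_, h1⟩)
        rw [mem_closedBall_zero_iff]
        exact (not_le.1 h2).le
  exact integrableOn_univ.1 (((hQ.union hJ).union hU).mono_set huniv)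

omit hF hb in
/-- the properties of `q` -/
private theorem Wt_q_nonneg (u : ℂ → ℂ → ℝ) (m : ℝ) (x : ℂ) :
    0 ≤ ∑ y ∈ fib F x, (u x y - m) ^ 2 := Finset.sum_nonneg fun _ _ => sq_nonneg _

omit hb in
private theorem Wt_q_smooth (u : ℂ → ℂ → ℝ) (hu : Fn F u) (m : ℝ) :
    ContDiffOn ℝ 1 (fun x => ∑ y ∈ fib F x, (u x y - m) ^ 2) {x | (at_ F x).Separable} := by
  have h := contDiffOn_sum F hF 1 (fun x y => (u x y - m) ^ 2) fun U Y hY => by
    have h1 : ContDiffOn ℝ 1 (fun x => u x (Y x)) U := (hu.smooth U Y hY).of_le one_le_two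
    exact (h1.sub contDiffOn_const).pow 2
  exact_mod_cast h

omit hb in
private theorem Wt_q_bdd (u : ℂ → ℂ → ℝ) (hu : Fn F u) (m : ℝ) :
    ∃ M : ℝ, ∀ x, (at_ F x).Separable → ∑ y ∈ fib F x, (u x y - m) ^ 2 ≤ M := by
  obtain ⟨M, hM⟩ := hu.bdd
  refine ⟨F.natDegree * (|M| + |m|) ^ 2, fun x hx => ?_⟩
  have h1 : ∀ y ∈ fib F x, (u x y - m) ^ 2 ≤ (|M| + |m|) ^ 2 := by
    intro y hy
    have h2 := hM x y ⟨hx, (mem_fib F hF x y).1 hy⟩
    rw [← sq_abs]
    refine pow_le_pow_left₀ (abs_nonneg _) ?_ 2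
    exact (abs_sub _ _).trans (add_le_add (h2.trans (le_abs_self M)) le_rfl)
  refine (Finset.sum_le_card_nsmul _ _ _ h1).trans ?_
  rw [nsmul_eq_mul]
  refine mul_le_mul_of_nonneg_right ?_ (sq_nonneg _)
  exact_mod_cast (Multiset.toFinset_card_le _).trans ((card_roots' _).trans
    (Polynomial.natDegree_map_le))

omit hb in
private theorem Wt_loc (hirr : Irreducible F) (b : ℂ) (hb : (at_ F b).Separable)
    (c0 : ℂ) (r0 : ℝ) (U0 : Set ℂ) (Y0 : ℂ → ℂ)
    (hr0 : 0 < r0) (h0 : IsBranch F U0 Y0) (hc0 : closedBall c0 r0 ⊆ U0) (x0 : ℂ)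
    (hx0 : (at_ F x0).Separable) :
    ∃ r : ℝ, 0 < r ∧ ∃ C : ℝ, 0 ≤ C ∧ ∀ u, Fn F u →
      IntegrableOn (fun x => ∑ y ∈ fib F x, (u x y - avg c0 r0 (fun x => u x (Y0 x))) ^ 2)
        (ball x0 r) ∧
      ∫ x in ball x0 r, ∑ y ∈ fib F x, (u x y - avg c0 r0 (fun x => u x (Y0 x))) ^ 2 ≤
        C * En F u := by
  obtain ⟨s, hs, Y, hY, -, -, hsum⟩ := local_sum F hF x0 hx0
  obtain ⟨K, hK, hP⟩ := poincare
  have hr : 0 < s / 2 := by linarith
  have hcl : closedBall x0 (s / 2) ⊆ ball x0 s := closedBall_subset_ball (by linarith)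
  have hbl : ball x0 (s / 2) ⊆ ball x0 s := ball_subset_ball (by linarith)
  have hmean : ∀ j, ∃ C : ℝ, 0 ≤ C ∧ ∀ u, Fn F u → |avg x0 (s / 2) (fun x => u x (Y j x)) -
      avg c0 r0 (fun x => u x (Y0 x))| ≤ C * Real.sqrt (En F u) := fun j =>
    mean_bdd F hF b hb hirr c0 r0 U0 Y0 hr0 h0 hc0 x0 (s / 2) _ (Y j) hr (hY j) hcl
  choose C hC0 hC using hmean
  refine ⟨s / 2, hr, ∑ j, (2 * (K * (s / 2) ^ 2) + 2 * (Real.pi * (s / 2) ^ 2) * (C j) ^ 2),
    Finset.sum_nonneg fun j _ => by positivity, fun u hu => ?_⟩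
  set m := avg c0 r0 (fun x => u x (Y0 x)) with hm
  have hu1 : ∀ U Y, IsBranch F U Y → ContDiffOn ℝ 1 (fun x => u x (Y x)) U := fun U Y hY =>
    (hu.smooth U Y hY).of_le one_le_two
  have hint : ∀ j, ∀ t : ℝ, IntegrableOn (fun x => (u x (Y j x) - t) ^ 2) (ball x0 (s / 2)) := by
    intro j t
    have h1 : ContinuousOn (fun x => (u x (Y j x) - t) ^ 2) (closedBall x0 (s / 2)) :=
      (((hu1 _ _ (hY j)).continuousOn.mono hcl).sub continuousOn_const).pow 2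
    exact (h1.integrableOn_compact (isCompact_closedBall _ _)).mono_set ball_subset_closedBall
  have hEn : 0 ≤ En F u := En_nonneg F u
  have hj : ∀ j, ∫ x in ball x0 (s / 2), (u x (Y j x) - m) ^ 2 ≤
      (2 * (K * (s / 2) ^ 2) + 2 * (Real.pi * (s / 2) ^ 2) * (C j) ^ 2) * En F u := by
    intro j
    have h1 := hP x0 (s / 2) (ball x0 s) (fun x => u x (Y j x)) hr isOpen_ball hcl (hu1 _ _ (hY j))
    have h2 := (En_disc F hF b hb x0 (s / 2) (ball x0 s) (Y j) (hY j) hbl u hu1 hu.energy).2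
    have h3 : ∫ x in ball x0 (s / 2), ∑ y ∈ fib F x, ‖D F u x y‖ ^ 2 ≤ En F u := by
      unfold En
      exact setIntegral_le_integral hu.energy
        (ae_of_all _ fun x => Finset.sum_nonneg fun _ _ => sq_nonneg _)
    set t := avg x0 (s / 2) (fun x => u x (Y j x)) with ht
    have h4 : (t - m) ^ 2 ≤ (C j) ^ 2 * En F u := by
      have h5 := hC j u hu
      rw [← sq_abs]
      calc |t - m| ^ 2 ≤ (C j * Real.sqrt (En F u)) ^ 2 := pow_le_pow_left₀ (abs_nonneg _) h5 2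
        _ = _ := by rw [mul_pow, Real.sq_sqrt hEn]
    have h6 : ∫ x in ball x0 (s / 2), (u x (Y j x) - m) ^ 2 ≤
        ∫ x in ball x0 (s / 2), (2 * (u x (Y j x) - t) ^ 2 + 2 * (t - m) ^ 2) := by
      refine integral_mono (hint j m) (((hint j t).const_mul 2).add
        (integrableOn_const (by exact measure_ball_lt_top.ne))) fun x => ?_
      show (u x (Y j x) - m) ^ 2 ≤ 2 * (u x (Y j x) - t) ^ 2 + 2 * (t - m) ^ 2
      nlinarith [sq_nonneg ((u x (Y j x) - t) - (t - m))]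
    have h7 : ∫ x in ball x0 (s / 2), (2 * (u x (Y j x) - t) ^ 2 + 2 * (t - m) ^ 2) =
        2 * (∫ x in ball x0 (s / 2), (u x (Y j x) - t) ^ 2) +
          2 * (Real.pi * (s / 2) ^ 2) * (t - m) ^ 2 := by
      rw [integral_add ((hint j t).const_mul 2) (integrableOn_const
        (by exact measure_ball_lt_top.ne)), integral_const_mul, setIntegral_const]
      have h8 : (volume : Measure ℂ).real (ball x0 (s / 2)) = Real.pi * (s / 2) ^ 2 := by
        rw [Measure.real, Complex.volume_ball, ENNReal.toReal_mul, ENNReal.toReal_pow,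
          ENNReal.toReal_ofReal hr.le]
        simp
        ring
      rw [h8, smul_eq_mul]
      ring
    have h9 : ∫ x in ball x0 (s / 2), (u x (Y j x) - t) ^ 2 ≤ K * (s / 2) ^ 2 * En F u :=
      h1.trans (mul_le_mul_of_nonneg_left (h2.trans h3) (by positivity))
    calc _ ≤ _ := h6
      _ = _ := h7
      _ ≤ 2 * (K * (s / 2) ^ 2 * En F u) + 2 * (Real.pi * (s / 2) ^ 2) * ((C j) ^ 2 * En F u) :=
        add_le_add (mul_le_mul_of_nonneg_left h9 (by norm_num))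
          (mul_le_mul_of_nonneg_left h4 (by positivity))
      _ = _ := by ring
  have hcongr : ∀ x ∈ ball x0 (s / 2), ∑ y ∈ fib F x, (u x y - m) ^ 2 =
      ∑ j, (u x (Y j x) - m) ^ 2 := fun x hx => hsum ℝ (fun x y => (u x y - m) ^ 2) x (hbl hx)
  have hI : IntegrableOn (fun x => ∑ j, (u x (Y j x) - m) ^ 2) (ball x0 (s / 2)) :=
    integrable_finsetSum _ fun j _ => hint j m
  refine ⟨hI.congr_fun (fun x hx => (hcongr x hx).symm) measurableSet_ball, ?_⟩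
  rw [setIntegral_congr_fun measurableSet_ball hcongr, integral_finsetSum _ fun j _ => hint j m,
    Finset.sum_mul]
  exact Finset.sum_le_sum fun j _ => hj j

/-- the predicate used in the induction -/
private def Wt_P (c0 : ℂ) (r0 : ℝ) (Y0 : ℂ → ℂ) (H : ℂ → ℝ) (S : Set ℂ) : Prop :=
  ∃ C : ℝ, 0 ≤ C ∧ ∀ u, Fn F u →
    IntegrableOn (fun x => H x * ∑ y ∈ fib F x, (u x y - avg c0 r0 (fun x => u x (Y0 x))) ^ 2) S ∧
    ∫ x in S, H x * ∑ y ∈ fib F x, (u x y - avg c0 r0 (fun x => u x (Y0 x))) ^ 2 ≤ C * En F u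

omit hF hb in
private theorem Wt_P_union (c0 : ℂ) (r0 : ℝ) (Y0 : ℂ → ℂ) (H : ℂ → ℝ) (hH : ∀ x, 0 ≤ H x)
    {S T : Set ℂ} (hS : Wt_P F c0 r0 Y0 H S) (hT : Wt_P F c0 r0 Y0 H T) :
    Wt_P F c0 r0 Y0 H (S ∪ T) := by
  obtain ⟨C, hC, h1⟩ := hS
  obtain ⟨C', hC', h2⟩ := hT
  refine ⟨C + C', add_nonneg hC hC', fun u hu => ⟨(h1 u hu).1.union (h2 u hu).1, ?_⟩⟩
  have h3 := Wt_union (fun x => mul_nonneg (hH x)
    (Wt_q_nonneg F u (avg c0 r0 (fun x => u x (Y0 x))) x)) (h1 u hu).1 (h2 u hu).1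
  rw [add_mul]
  exact h3.trans (add_le_add (h1 u hu).2 (h2 u hu).2)

omit hF hb in
private theorem Wt_P_mono (c0 : ℂ) (r0 : ℝ) (Y0 : ℂ → ℂ) (H : ℂ → ℝ) (hH : ∀ x, 0 ≤ H x)
    {S T : Set ℂ} (hST : S ⊆ T) (hT : Wt_P F c0 r0 Y0 H T) :
    Wt_P F c0 r0 Y0 H S := by
  obtain ⟨C', hC', h2⟩ := hT
  refine ⟨C', hC', fun u hu => ⟨(h2 u hu).1.mono_set hST, ?_⟩⟩
  refine le_trans ?_ (h2 u hu).2
  exact setIntegral_mono_set (h2 u hu).1 (ae_of_all _ fun x => mul_nonneg (hH x)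
    (Wt_q_nonneg F u (avg c0 r0 (fun x => u x (Y0 x))) x)) (LE.le.eventuallyLE hST)

omit hF hb in
private theorem Wt_P_empty (c0 : ℂ) (r0 : ℝ) (Y0 : ℂ → ℂ) (H : ℂ → ℝ) :
    Wt_P F c0 r0 Y0 H ∅ :=
  ⟨0, le_rfl, fun u _ => ⟨integrableOn_empty, by simp⟩⟩

omit hF hb in
private theorem Wt_P_biUnion (c0 : ℂ) (r0 : ℝ) (Y0 : ℂ → ℂ) (H : ℂ → ℝ) (hH : ∀ x, 0 ≤ H x)
    {Z : Set ℂ} (hZ : Z.Finite) (S : ℂ → Set ℂ) (h : ∀ a ∈ Z, Wt_P F c0 r0 Y0 H (S a)) :
    Wt_P F c0 r0 Y0 H (⋃ a ∈ Z, S a) := by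
  induction Z, hZ using Set.Finite.induction_on with
  | empty =>
    simp only [Set.mem_empty_iff_false, Set.iUnion_of_empty, Set.iUnion_empty]
    exact Wt_P_empty F c0 r0 Y0 H
  | insert _ _ ih =>
    rw [Set.biUnion_insert]
    exact Wt_P_union F c0 r0 Y0 H hH (h _ (Set.mem_insert _ _))
      (ih fun a ha => h a (Set.mem_insert_of_mem _ ha))

private theorem Wt_P_one (hirr : Irreducible F) (c0 : ℂ) (r0 : ℝ) (U0 : Set ℂ) (Y0 : ℂ → ℂ)
    (hr0 : 0 < r0) (h0 : IsBranch F U0 Y0) (hc0 : closedBall c0 r0 ⊆ U0) (Q : Set ℂ)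
    (hQ : IsCompact Q) (hQs : ∀ x ∈ Q, (at_ F x).Separable) :
    Wt_P F c0 r0 Y0 (fun _ => 1) Q := by
  refine hQ.induction_on (p := Wt_P F c0 r0 Y0 (fun _ => 1)) (Wt_P_empty F c0 r0 Y0 _)
    (fun S T hST hT => Wt_P_mono F c0 r0 Y0 _ (fun _ => zero_le_one) hST hT)
    (fun S T hS hT => Wt_P_union F c0 r0 Y0 _ (fun _ => zero_le_one) hS hT) fun x hx => ?_
  obtain ⟨r, hr, C, hC, h⟩ := Wt_loc F hF hirr b hb c0 r0 U0 Y0 hr0 h0 hc0 x (hQs x hx)
  refine ⟨ball x r, mem_nhdsWithin_of_mem_nhds (ball_mem_nhds x hr), C, hC, fun u hu => ?_⟩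
  simp only [one_mul]
  exact h u hu

/-- the `L^2` norm over a compact set over which all points are separable -/
theorem poincare_cpt (hirr : Irreducible F) (c0 : ℂ) (r0 : ℝ) (U0 : Set ℂ) (Y0 : ℂ → ℂ)
    (hr0 : 0 < r0) (h0 : IsBranch F U0 Y0) (hc0 : closedBall c0 r0 ⊆ U0) (Q : Set ℂ)
    (hQ : IsCompact Q) (hQs : ∀ x ∈ Q, (at_ F x).Separable) :
    ∃ C : ℝ, 0 ≤ C ∧ ∀ u, Fn F u →
      ∫ x in Q, ∑ y ∈ fib F x, (u x y - avg c0 r0 (fun x => u x (Y0 x))) ^ 2 ≤ C * En F u := by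
  obtain ⟨C, hC, h⟩ := Wt_P_one F hF b hb hirr c0 r0 U0 Y0 hr0 h0 hc0 Q hQ hQs
  refine ⟨C, hC, fun u hu => ?_⟩
  have h1 := (h u hu).2
  simp only [one_mul] at h1
  exact h1

private theorem Wt_meas (u : ℂ → ℂ → ℝ) (hu : Fn F u) (m : ℝ) :
    AEStronglyMeasurable (fun x => ∑ y ∈ fib F x, (u x y - m) ^ 2) volume :=
  meas_sum F hF b hb (fun x y => (u x y - m) ^ 2) fun U Y hY =>
    ((hu.smooth U Y hY).continuousOn.sub continuousOn_const).pow 2

/-- comparison of weights -/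
private theorem Wt_P_comp (c0 : ℂ) (r0 : ℝ) (Y0 : ℂ → ℂ) (H : ℂ → ℝ) (hH : ∀ x, 0 ≤ H x)
    (hHm : AEStronglyMeasurable H volume) (G : ℂ → ℝ) (M : ℝ) (hM : 0 ≤ M) (S : Set ℂ)
    (hS : MeasurableSet S) (hG : ∀ᵐ x ∂(volume : Measure ℂ), x ∈ S → H x ≤ M * G x)
    (h : Wt_P F c0 r0 Y0 G S) : Wt_P F c0 r0 Y0 H S := by
  obtain ⟨C, hC, h1⟩ := h
  refine ⟨M * C, mul_nonneg hM hC, fun u hu => ?_⟩
  obtain ⟨h2, h3⟩ := h1 u hu
  set m := avg c0 r0 (fun x => u x (Y0 x)) with hm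
  have h4 : ∀ᵐ x ∂(volume.restrict S), H x * ∑ y ∈ fib F x, (u x y - m) ^ 2 ≤
      M * (G x * ∑ y ∈ fib F x, (u x y - m) ^ 2) := by
    filter_upwards [ae_restrict_mem hS, ae_restrict_of_ae hG] with x hx hx2
    rw [← mul_assoc]
    exact mul_le_mul_of_nonneg_right (hx2 hx) (Wt_q_nonneg F u m x)
  have h5 : IntegrableOn (fun x => H x * ∑ y ∈ fib F x, (u x y - m) ^ 2) S := by
    refine Integrable.mono' (h2.const_mul M) (hHm.mul (Wt_meas F hF b hb u hu m)).restrict ?_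
    filter_upwards [h4] with x hx
    rw [Real.norm_of_nonneg (mul_nonneg (hH x) (Wt_q_nonneg F u m x))]
    exact hx
  refine ⟨h5, ?_⟩
  calc _ ≤ ∫ x in S, M * (G x * ∑ y ∈ fib F x, (u x y - m) ^ 2) :=
        integral_mono_ae h5 (h2.const_mul M) h4
    _ = M * ∫ x in S, G x * ∑ y ∈ fib F x, (u x y - m) ^ 2 := integral_const_mul _ _
    _ ≤ M * (C * En F u) := mul_le_mul_of_nonneg_left h3 hM
    _ = _ := by ring

private theorem Wt_P_nearA (hirr : Irreducible F) (c0 : ℂ) (r0 : ℝ) (U0 : Set ℂ) (Y0 : ℂ → ℂ)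
    (hr0 : 0 < r0) (h0 : IsBranch F U0 Y0) (hc0 : closedBall c0 r0 ⊆ U0) (a : ℂ) (τ R : ℝ)
    (hτ : 0 < τ) (hτ1 : τ ≤ 1) (hR : 0 < R)
    (hsep : ∀ x ∈ ball a (3 * R) \ {a}, (at_ F x).Separable) :
    Wt_P F c0 r0 Y0 (fun x => ‖x - a‖ ^ (τ - 2)) (ball a R) := by
  obtain ⟨K, hK, hA⟩ := hardyA
  have hQ : IsCompact (closedBall a (2 * R) \ ball a R) :=
    (isCompact_closedBall a (2 * R)).diff isOpen_ball
  have hQs : ∀ x ∈ closedBall a (2 * R) \ ball a R, (at_ F x).Separable := by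
    intro x hx
    refine hsep x ⟨closedBall_subset_ball (by linarith) hx.1, fun h => hx.2 ?_⟩
    rw [Set.mem_singleton_iff.1 h]
    exact mem_ball_self hR
  obtain ⟨C, hC, hP⟩ := Wt_P_mono F c0 r0 Y0 _ (fun _ => zero_le_one)
    (Set.sdiff_subset_sdiff_left ball_subset_closedBall)
    (Wt_P_one F hF b hb hirr c0 r0 U0 Y0 hr0 h0 hc0 _ hQ hQs)
  refine ⟨(K * (τ * R ^ (τ - 2) * C) + K * R ^ τ) / τ ^ 2, by positivity, fun u hu => ?_⟩
  set m := avg c0 r0 (fun x => u x (Y0 x)) with hm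
  have hu1 : ∀ U Y, IsBranch F U Y → ContDiffOn ℝ 1 (fun x => u x (Y x)) U := fun U Y hY =>
    (hu.smooth U Y hY).of_le one_le_two
  obtain ⟨M, hM⟩ := Wt_q_bdd F hF u hu m
  obtain ⟨h1, h2⟩ := hA τ R a (fun x => ∑ y ∈ fib F x, (u x y - m) ^ 2)
    (fun x => ∑ y ∈ fib F x, ‖D F u x y‖ ^ 2) hτ hτ1 hR
    ((Wt_q_smooth F hF u hu m).mono hsep) (fun x _ => Wt_q_nonneg F u m x)
    ⟨M, fun x hx => hM x (hsep x hx)⟩ (fun x _ => Finset.sum_nonneg fun _ _ => sq_nonneg _)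
    hu.energy.integrableOn (fun x hx => grad_sq F hF u hu1 m x (hsep x hx))
  refine ⟨h1, ?_⟩
  have h3 := (hP u hu).2
  simp only [one_mul] at h3
  have h4 : ∫ x in ball a (2 * R), ∑ y ∈ fib F x, ‖D F u x y‖ ^ 2 ≤ En F u := by
    unfold En
    exact setIntegral_le_integral hu.energy
      (ae_of_all _ fun x => Finset.sum_nonneg fun _ _ => sq_nonneg _)
  have h5 : 0 < τ ^ 2 := by positivity
  rw [div_mul_eq_mul_div, le_div_iff₀ h5, mul_comm]
  refine h2.trans ?_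
  rw [add_mul]
  refine add_le_add ?_ (mul_le_mul_of_nonneg_left h4 (by positivity))
  calc _ ≤ K * (τ * R ^ (τ - 2) * (C * En F u)) :=
        mul_le_mul_of_nonneg_left (mul_le_mul_of_nonneg_left h3 (by positivity)) hK.le
    _ = _ := by ring

private theorem Wt_P_farA (hirr : Irreducible F) (c0 : ℂ) (r0 : ℝ) (U0 : Set ℂ) (Y0 : ℂ → ℂ)
    (hr0 : 0 < r0) (h0 : IsBranch F U0 Y0) (hc0 : closedBall c0 r0 ⊆ U0) (τ R : ℝ)
    (hτ : 0 < τ) (hτ1 : τ ≤ 1) (hR : 0 < R)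
    (hsep : ∀ x, R / 2 < ‖x‖ → (at_ F x).Separable) :
    Wt_P F c0 r0 Y0 (fun x => ‖x‖ ^ (-τ - 2)) {x | 2 * R ≤ ‖x‖} := by
  obtain ⟨K, hK, hA⟩ := hardyB
  have hQ : IsCompact (closedBall (0 : ℂ) (2 * R) \ ball 0 R) :=
    (isCompact_closedBall _ (2 * R)).diff isOpen_ball
  have hQs : ∀ x ∈ closedBall (0 : ℂ) (2 * R) \ ball 0 R, (at_ F x).Separable := by
    intro x hx
    refine hsep x ?_
    have h1 := hx.2
    rw [mem_ball_zero_iff, not_lt] at h1
    linarith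
  obtain ⟨C, hC, hP⟩ := Wt_P_mono F c0 r0 Y0 _ (fun _ => zero_le_one)
    (show {x : ℂ | R ≤ ‖x‖ ∧ ‖x‖ ≤ 2 * R} ⊆ closedBall (0 : ℂ) (2 * R) \ ball 0 R from
      fun x hx => ⟨mem_closedBall_zero_iff.2 hx.2, fun h => absurd (mem_ball_zero_iff.1 h)
        (not_lt.2 hx.1)⟩)
    (Wt_P_one F hF b hb hirr c0 r0 U0 Y0 hr0 h0 hc0 _ hQ hQs)
  refine ⟨(K * (τ * R ^ (-τ - 2) * C) + K * R ^ (-τ)) / τ ^ 2, by positivity, fun u hu => ?_⟩
  set m := avg c0 r0 (fun x => u x (Y0 x)) with hm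
  have hu1 : ∀ U Y, IsBranch F U Y → ContDiffOn ℝ 1 (fun x => u x (Y x)) U := fun U Y hY =>
    (hu.smooth U Y hY).of_le one_le_two
  obtain ⟨M, hM⟩ := Wt_q_bdd F hF u hu m
  obtain ⟨h1, h2⟩ := hA τ R (fun x => ∑ y ∈ fib F x, (u x y - m) ^ 2)
    (fun x => ∑ y ∈ fib F x, ‖D F u x y‖ ^ 2) hτ hτ1 hR
    ((Wt_q_smooth F hF u hu m).mono hsep) (fun x _ => Wt_q_nonneg F u m x)
    ⟨M, fun x hx => hM x (hsep x hx)⟩ (fun x _ => Finset.sum_nonneg fun _ _ => sq_nonneg _)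
    hu.energy.integrableOn (fun x hx => grad_sq F hF u hu1 m x (hsep x hx))
  refine ⟨h1, ?_⟩
  have h3 := (hP u hu).2
  simp only [one_mul] at h3
  have h4 : ∫ x in {x : ℂ | R ≤ ‖x‖}, ∑ y ∈ fib F x, ‖D F u x y‖ ^ 2 ≤ En F u := by
    unfold En
    exact setIntegral_le_integral hu.energy
      (ae_of_all _ fun x => Finset.sum_nonneg fun _ _ => sq_nonneg _)
  have h5 : 0 < τ ^ 2 := by positivity
  rw [div_mul_eq_mul_div, le_div_iff₀ h5, mul_comm]
  refine h2.trans ?_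
  rw [add_mul]
  refine add_le_add ?_ (mul_le_mul_of_nonneg_left h4 (by positivity))
  calc _ ≤ K * (τ * R ^ (-τ - 2) * (C * En F u)) :=
        mul_le_mul_of_nonneg_left (mul_le_mul_of_nonneg_left h3 (by positivity)) hK.le
    _ = _ := by ring

theorem weighted (hirr : Irreducible F) (H : ℂ → ℝ) (hH : IsWt F H) (c0 : ℂ) (r0 : ℝ) (U0 : Set ℂ)
    (Y0 : ℂ → ℂ) (hr0 : 0 < r0) (h0 : IsBranch F U0 Y0) (hc0 : closedBall c0 r0 ⊆ U0) :
    ∃ C : ℝ, 0 ≤ C ∧ ∀ u, Fn F u →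
      Integrable (fun x => H x * ∑ y ∈ fib F x, (u x y - avg c0 r0 (fun x => u x (Y0 x))) ^ 2) ∧
      ∫ x, H x * ∑ y ∈ fib F x, (u x y - avg c0 r0 (fun x => u x (Y0 x))) ^ 2 ≤ C * En F u := by
  classical
  have hZ := bad_finite F hF b hb
  have hnear : ∀ a, ∃ R : ℝ, ¬ (at_ F a).Separable → 0 < R ∧
      Wt_P F c0 r0 Y0 H (ball a R) := by
    intro a
    by_cases ha : (at_ F a).Separable
    · exact ⟨0, fun h => absurd ha h⟩
    · obtain ⟨C, τ, r, hτ, hr, hC⟩ := hH.near a ha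
      have h1 : {x | ¬ (at_ F x).Separable ∧ x ≠ a}ᶜ ∈ 𝓝 a := by
        refine (hZ.subset fun x hx => hx.1).isClosed.isOpen_compl.mem_nhds ?_
        intro h
        exact h.2 rfl
      obtain ⟨s, hs, hsub⟩ := Metric.mem_nhds_iff.1 h1
      set R := min (min (s / 3) r) 1 with hRdef
      have hR : 0 < R := lt_min (lt_min (by linarith) hr) one_pos
      have hR1 : R ≤ 1 := min_le_right _ _
      have hRr : R ≤ r := (min_le_left _ _).trans (min_le_right _ _)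
      have hRs : 3 * R ≤ s := by
        have := (min_le_left (min (s / 3) r) 1).trans (min_le_left (s / 3) r)
        linarith
      have hsep : ∀ x ∈ ball a (3 * R) \ {a}, (at_ F x).Separable := by
        intro x hx
        by_contra hn
        exact hsub (ball_subset_ball hRs hx.1) ⟨hn, hx.2⟩
      refine ⟨R, fun _ => ⟨hR, ?_⟩⟩
      have h2 := Wt_P_nearA F hF b hb hirr c0 r0 U0 Y0 hr0 h0 hc0 a (min τ 1) R
        (lt_min hτ one_pos) (min_le_right _ _) hR hsep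
      refine Wt_P_comp F hF b hb c0 r0 Y0 H hH.nonneg hH.meas _ |C| (abs_nonneg C) _
        measurableSet_ball ?_ h2
      have h5 : ∀ᵐ x ∂(volume : Measure ℂ), x ≠ a := by
        rw [ae_iff]
        simp
      filter_upwards [h5] with x hxa hx
      have h6 := hC x (ball_subset_ball hRr hx) hxa
      have h7 : 0 < ‖x - a‖ := norm_pos_iff.2 (sub_ne_zero.2 hxa)
      have h8 : ‖x - a‖ ≤ 1 := by
        rw [mem_ball, dist_eq_norm] at hx
        exact hx.le.trans hR1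
      refine h6.trans ?_
      calc C * ‖x - a‖ ^ (τ - 2) ≤ |C| * ‖x - a‖ ^ (τ - 2) :=
            mul_le_mul_of_nonneg_right (le_abs_self C) (Real.rpow_nonneg h7.le _)
        _ ≤ |C| * ‖x - a‖ ^ (min τ 1 - 2) := by
            refine mul_le_mul_of_nonneg_left ?_ (abs_nonneg C)
            exact Real.rpow_le_rpow_of_exponent_ge h7 h8 (by
              have := min_le_left τ 1
              linarith)
  choose r hr using hnear
  obtain ⟨C1, τ1, Rf, hτ1, hRf, hfar⟩ := hH.far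
  obtain ⟨B, hB⟩ := hZ.isBounded.exists_norm_le
  set R := max (max Rf 1) (2 * B) with hRdef
  have hR1 : 1 ≤ R := (le_max_right Rf 1).trans (le_max_left _ _)
  have hR : 0 < R := by linarith
  have hRRf : Rf ≤ R := (le_max_left Rf 1).trans (le_max_left _ _)
  have hRB : B ≤ R / 2 := by
    have := le_max_right (max Rf 1) (2 * B)
    linarith
  have hsep : ∀ x, R / 2 < ‖x‖ → (at_ F x).Separable := by
    intro x hx
    by_contra hn
    have := hB x hn
    linarith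
  have hPfar : Wt_P F c0 r0 Y0 H {x | 2 * R ≤ ‖x‖} := by
    have h2 := Wt_P_farA F hF b hb hirr c0 r0 U0 Y0 hr0 h0 hc0 (min τ1 1) R
      (lt_min hτ1 one_pos) (min_le_right _ _) hR hsep
    refine Wt_P_comp F hF b hb c0 r0 Y0 H hH.nonneg hH.meas _ |C1| (abs_nonneg C1) _
      (measurableSet_le measurable_const measurable_norm) (ae_of_all _ fun x hx => ?_) h2
    have hx2 : 2 * R ≤ ‖x‖ := hx
    have hx1 : 1 ≤ ‖x‖ := by linarith
    refine (hfar x (by linarith)).trans ?_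
    calc C1 * ‖x‖ ^ (-τ1 - 2) ≤ |C1| * ‖x‖ ^ (-τ1 - 2) :=
          mul_le_mul_of_nonneg_right (le_abs_self C1) (Real.rpow_nonneg (norm_nonneg _) _)
      _ ≤ |C1| * ‖x‖ ^ (-min τ1 1 - 2) := by
          refine mul_le_mul_of_nonneg_left ?_ (abs_nonneg C1)
          exact Real.rpow_le_rpow_of_exponent_le hx1 (by
            have := min_le_left τ1 1
            linarith)
  have hPQ : Wt_P F c0 r0 Y0 H (Wt_Q {x | ¬ (at_ F x).Separable} r (2 * R)) := by
    have hc := Wt_Q_compact {x | ¬ (at_ F x).Separable} r (2 * R)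
    have hs := Wt_Q_sep F r (2 * R) fun a ha => (hr a ha).1
    obtain ⟨M, hM⟩ := hH.loc _ hc hs
    refine Wt_P_comp F hF b hb c0 r0 Y0 H hH.nonneg hH.meas _ |M| (abs_nonneg M) _
      hc.measurableSet (ae_of_all _ fun x hx => ?_)
      (Wt_P_one F hF b hb hirr c0 r0 U0 Y0 hr0 h0 hc0 _ hc hs)
    rw [mul_one]
    exact (hM x hx).trans (le_abs_self M)
  have hPU := Wt_P_biUnion F c0 r0 Y0 H hH.nonneg hZ (fun a => ball a (r a))
    fun a ha => (hr a ha).2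
  have huniv : Set.univ ⊆ (Wt_Q {x | ¬ (at_ F x).Separable} r (2 * R) ∪ {x | 2 * R ≤ ‖x‖}) ∪
      ⋃ a ∈ {x | ¬ (at_ F x).Separable}, ball a (r a) := by
    intro x _
    by_cases h1 : x ∈ ⋃ a ∈ {x | ¬ (at_ F x).Separable}, ball a (r a)
    · exact Or.inr h1
    · by_cases h2 : 2 * R ≤ ‖x‖
      · exact Or.inl (Or.inr h2)
      · refine Or.inl (Or.inl ⟨?_, h1⟩)
        rw [mem_closedBall_zero_iff]
        exact (not_le.1 h2).le
  obtain ⟨C, hC, h⟩ := Wt_P_mono F c0 r0 Y0 H hH.nonneg huniv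
    (Wt_P_union F c0 r0 Y0 H hH.nonneg (Wt_P_union F c0 r0 Y0 H hH.nonneg hPQ hPfar) hPU)
  refine ⟨C, hC, fun u hu => ?_⟩
  have h9 := h u hu
  rw [integrableOn_univ, setIntegral_univ] at h9
  exact h9

end EGR
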